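import Pool.Agent.X229.EmPair

/-!
Helper file for `MP_767d8d_lc` : a mode 1 grammar.
-/

namespace Pool.Agent.X229.EmMode1

open Pool.Agent.X229.Em

/-- nonterminals of component 1 -/
inductive C1 | A | B
  deriving DecidableEq

/-- nonterminals of component 2 -/
inductive C2 | p | q | f
  deriving DecidableEq

open C1 C2

instance : Finite C1 :=
  Finite.of_surjective (fun b : Bool => if b = true then A else B)
    (fun x => by cases x; exacts [⟨true, rfl⟩, ⟨false, rfl⟩])

instance : Finite C2 :=
  Finite.of_surjective (fun n : Option Bool => match n with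
    | none => p
    | some true => q
    | some false => f)
    (fun x => by cases x; exacts [⟨none, rfl⟩, ⟨some true, rfl⟩, ⟨some false, rfl⟩])

/-- symbols -/
abbrev A' : C1 ⊕ Bool := Sum.inl A
/-- symbols -/
abbrev B' : C1 ⊕ Bool := Sum.inl B
/-- symbols -/
abbrev a' : C1 ⊕ Bool := Sum.inr true
/-- symbols -/
abbrev h' : C1 ⊕ Bool := Sum.inr false
/-- symbols -/
abbrev p' : C2 ⊕ Bool := Sum.inl p
/-- symbols -/
abbrev q' : C2 ⊕ Bool := Sum.inl q
/-- symbols -/
abbrev f' : C2 ⊕ Bool := Sum.inl f

/-- the grammar -/
def Gr : EMG C1 C2 Bool where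
  termStart := []
  start := [([A'], [p'])]
  start_nt := by
    intro v hv
    rw [List.mem_singleton] at hv
    subst hv
    exact ⟨⟨A, by simp⟩, ⟨p, by simp⟩⟩
  rules := [((A, p), ([B', B'], [p'])), ((A, p), ([B', B', h'], [q'])),
    ((B, q), ([A', A'], [q'])), ((B, q), ([A', A', h'], [p'])),
    ((A, p), ([A'], [f'])), ((A, f), ([a'], [f'])), ((A, f), ([a'], []))]

/-- derivation relation -/
abbrev Der := Relation.ReflTransGen (PStep Gr true)

open List (replicate)

theorem rep_succ {α : Type} (n : ℕ) (x : α) (l : List α) :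
    replicate n x ++ x :: l = replicate (n + 1) x ++ l := by
  rw [List.replicate_succ', List.append_assoc]
  rfl

theorem notMem_rep {α : Type} {x y : α} (h : x ≠ y) (n : ℕ) : x ∉ replicate n y :=
  fun hm => h (List.eq_of_mem_replicate hm)

theorem round1 (k : ℕ) : ∀ i n : ℕ,
    Der (replicate i B' ++ (replicate (k + 1) A' ++ replicate n h'), [p'])
      (replicate (i + 2 * (k + 1)) B' ++ replicate (n + 1) h', [q']) := by
  induction k with
  | zero =>
    intro i n
    refine Relation.ReflTransGen.single ⟨A, p, [B', B', h'], replicate i B', replicate n h', [q'],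
      [], [], by simp [Gr], by simp, ?_, fun _ => ⟨notMem_rep (by simp) _, by simp⟩⟩
    congr 1
    simp only [List.cons_append, List.nil_append]
    rw [rep_succ, rep_succ, List.replicate_succ (n := n)]
  | succ k ih =>
    intro i n
    refine Relation.ReflTransGen.head ⟨A, p, [B', B'], replicate i B',
      replicate (k + 1) A' ++ replicate n h', [p'], [], [], by simp [Gr], ?_, rfl,
      fun _ => ⟨notMem_rep (by simp) _, by simp⟩⟩ ?_
    · rw [List.replicate_succ (n := k + 1)]
      simp
    · simp only [List.cons_append, List.nil_append]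
      rw [rep_succ, rep_succ]
      have := ih (i + 1 + 1) n
      rw [show i + 1 + 1 + 2 * (k + 1) = i + 2 * (k + 1 + 1) by ring] at this
      exact this

theorem round2 (k : ℕ) : ∀ i n : ℕ,
    Der (replicate i A' ++ (replicate (k + 1) B' ++ replicate n h'), [q'])
      (replicate (i + 2 * (k + 1)) A' ++ replicate (n + 1) h', [p']) := by
  induction k with
  | zero =>
    intro i n
    refine Relation.ReflTransGen.single ⟨B, q, [A', A', h'], replicate i A', replicate n h', [p'],
      [], [], by simp [Gr], by simp, ?_, fun _ => ⟨notMem_rep (by simp) _, by simp⟩⟩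
    congr 1
    simp only [List.cons_append, List.nil_append]
    rw [rep_succ, rep_succ, List.replicate_succ (n := n)]
  | succ k ih =>
    intro i n
    refine Relation.ReflTransGen.head ⟨B, q, [A', A'], replicate i A',
      replicate (k + 1) B' ++ replicate n h', [q'], [], [], by simp [Gr], ?_, rfl,
      fun _ => ⟨notMem_rep (by simp) _, by simp⟩⟩ ?_
    · rw [List.replicate_succ (n := k + 1)]
      simp
    · simp only [List.cons_append, List.nil_append]
      rw [rep_succ, rep_succ]
      have := ih (i + 1 + 1) n
      rw [show i + 1 + 1 + 2 * (k + 1) = i + 2 * (k + 1 + 1) by ring] at this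
      exact this

theorem finish (k : ℕ) : ∀ i n : ℕ,
    Der (replicate i a' ++ (replicate (k + 1) A' ++ replicate n h'), [f'])
      (replicate (i + (k + 1)) a' ++ replicate n h', []) := by
  induction k with
  | zero =>
    intro i n
    refine Relation.ReflTransGen.single ⟨A, f, [a'], replicate i a', replicate n h', [],
      [], [], by simp [Gr], by simp, ?_, fun _ => ⟨notMem_rep (by simp) _, by simp⟩⟩
    congr 1
    simp only [List.cons_append, List.nil_append]
    rw [rep_succ]
  | succ k ih =>
    intro i n
    refine Relation.ReflTransGen.head ⟨A, f, [a'], replicate i a',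
      replicate (k + 1) A' ++ replicate n h', [f'], [], [], by simp [Gr], ?_, rfl,
      fun _ => ⟨notMem_rep (by simp) _, by simp⟩⟩ ?_
    · rw [List.replicate_succ (n := k + 1)]
      simp
    · simp only [List.cons_append, List.nil_append]
      rw [rep_succ]
      have := ih (i + 1) n
      rw [show i + 1 + (k + 1) = i + (k + 1 + 1) by ring] at this
      exact this

theorem rounds (m : ℕ) : Der ([A'], [p']) (replicate (4 ^ m) A' ++ replicate (2 * m) h', [p']) := by
  induction m with
  | zero => exact Relation.ReflTransGen.refl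
  | succ m ih =>
    refine ih.trans ?_
    obtain ⟨k, hk⟩ : ∃ k, 4 ^ m = k + 1 := Nat.exists_eq_succ_of_ne_zero (by positivity)
    have h1 := round1 k 0 (2 * m)
    have h2 := round2 (2 * k + 1) 0 (2 * m + 1)
    rw [hk]
    have e1 : 0 + 2 * (k + 1) = 2 * k + 1 + 1 := by ring
    have e2 : 0 + 2 * (2 * k + 1 + 1) = 4 ^ (m + 1) := by rw [pow_succ, hk]; ring
    have e3 : 2 * m + 1 + 1 = 2 * (m + 1) := by ring
    rw [e1] at h1
    rw [e2, e3] at h2
    simp only [List.replicate_zero, List.nil_append] at h1 h2
    exact h1.trans h2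

theorem word_mem (m : ℕ) :
    replicate (4 ^ m) true ++ replicate (2 * m) false ∈ PLang Gr true := by
  refine Or.inr ⟨([A'], [p']), by simp [Gr], replicate (4 ^ m) true ++ replicate (2 * m) false, [],
    by simp, ?_⟩
  refine (rounds m).trans ?_
  obtain ⟨k, hk⟩ : ∃ k, 4 ^ m = k + 1 := Nat.exists_eq_succ_of_ne_zero (by positivity)
  rw [hk]
  refine Relation.ReflTransGen.head ⟨A, p, [A'], [], replicate k A' ++ replicate (2 * m) h', [f'],
    [], [], by simp [Gr], by simp [List.replicate_succ], rfl, fun _ => ⟨by simp, by simp⟩⟩ ?_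
  have h1 := finish k 0 (2 * m)
  simp only [List.replicate_zero, List.nil_append, Nat.zero_add] at h1
  simpa [List.replicate_succ] using h1

/-- invariant -/
inductive Inv : List (C1 ⊕ Bool) × List (C2 ⊕ Bool) → Prop
  | p (m i k : ℕ) : i + k = 4 ^ m →
      Inv (replicate (2 * i) B' ++ (replicate k A' ++ replicate (2 * m) h'), [p'])
  | q (m i k : ℕ) : i + k = 2 * 4 ^ m →
      Inv (replicate (2 * i) A' ++ (replicate k B' ++ replicate (2 * m + 1) h'), [q'])
  | f (m i k : ℕ) : i + k = 4 ^ m →
      Inv (replicate i a' ++ (replicate k A' ++ replicate (2 * m) h'), [f'])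
  | t (m : ℕ) : Inv (replicate (4 ^ m) a' ++ replicate (2 * m) h', [])
  | bad (u v : List (C1 ⊕ Bool)) (y : C1 ⊕ Bool) (x₂ : List (C2 ⊕ Bool)) :
      y ∈ v → y ≠ h' → Inv (u ++ h' :: v, x₂)
  | stuckf (x : List (C1 ⊕ Bool)) : B' ∈ x → Inv (x, [f'])
  | stuckt (x : List (C1 ⊕ Bool)) (c : C1) : Sum.inl c ∈ x → Inv (x, [])

theorem first_occ {α : Type} {x : α} {u w s t : List α} (h : u ++ x :: w = s ++ x :: t)
    (hu : x ∉ u) (hs : x ∉ s) : u = s ∧ w = t := by
  induction u generalizing s with
  | nil =>
    cases s with
    | nil => simp at h; exact ⟨rfl, h⟩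
    | cons y s =>
      simp only [List.nil_append, List.cons_append, List.cons.injEq] at h
      exact absurd (by rw [h.1]; simp) hs
  | cons z u ih =>
    cases s with
    | nil =>
      simp only [List.nil_append, List.cons_append, List.cons.injEq] at h
      exact absurd (by rw [h.1]; simp) hu
    | cons y s =>
      simp only [List.cons_append, List.cons.injEq] at h
      obtain ⟨e1, e2⟩ := ih h.2 (fun hm => hu (List.mem_cons_of_mem _ hm))
        (fun hm => hs (List.mem_cons_of_mem _ hm))
      exact ⟨by rw [h.1, e1], e2⟩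

theorem split_first {α : Type} {x z h : α} (hzx : x ≠ z) (hhx : x ≠ h) {u w : List α} {i k n : ℕ}
    (he : replicate i z ++ (replicate k x ++ replicate n h) = u ++ x :: w) (hu : x ∉ u) :
    ∃ k', k = k' + 1 ∧ u = replicate i z ∧ w = replicate k' x ++ replicate n h := by
  cases k with
  | zero =>
    exfalso
    have : x ∈ u ++ x :: w := by simp
    rw [← he] at this
    simp only [List.replicate_zero, List.nil_append, List.mem_append] at this
    rcases this with h1 | h1
    · exact notMem_rep hzx _ h1
    · exact notMem_rep hhx _ h1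
  | succ k' =>
    rw [List.replicate_succ, List.cons_append] at he
    obtain ⟨e1, e2⟩ := first_occ he.symm hu (notMem_rep hzx _)
    exact ⟨k', rfl, e1, e2⟩

theorem inv_step {x y : List (C1 ⊕ Bool) × List (C2 ⊕ Bool)} (hx : Inv x)
    (hs : PStep Gr true x y) : Inv y := by
  obtain ⟨A₁, A₂, v₁, u₁, w₁, v₂, u₂, w₂, hr, hxe, hye, hl⟩ := hs
  obtain ⟨hl1, hl2⟩ := hl rfl
  subst hye
  have hne : ∃ z ∈ v₁, z ≠ h' := by
    simp only [Gr, List.mem_cons, List.not_mem_nil, or_false, Prod.mk.injEq] at hr
    rcases hr with h | h | h | h | h | h | h <;> rw [h.2.1] <;> simp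
  cases hx with
  | p m i k hik =>
    simp only [Prod.mk.injEq] at hxe
    obtain ⟨e1, e2⟩ := hxe
    have hu2 : u₂ = [] ∧ A₂ = p ∧ w₂ = [] := by
      cases u₂ with
      | nil => simp at e2; exact ⟨rfl, e2.1.symm, e2.2⟩
      | cons z u => simp at e2
    obtain ⟨rfl, rfl, rfl⟩ := hu2
    simp only [Gr, List.mem_cons, List.not_mem_nil, or_false, Prod.mk.injEq] at hr
    rcases hr with h | h | h | h | h | h | h
    · obtain ⟨⟨rfl, _⟩, rfl, rfl⟩ := h
      obtain ⟨k', rfl, rfl, rfl⟩ := split_first (by simp) (by simp) e1 hl1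
      have := Inv.p m (i + 1) k' (by omega)
      rw [show 2 * (i + 1) = 2 * i + 1 + 1 by ring, ← rep_succ, ← rep_succ] at this
      simpa using this
    · obtain ⟨⟨rfl, _⟩, rfl, rfl⟩ := h
      obtain ⟨k', rfl, rfl, rfl⟩ := split_first (by simp) (by simp) e1 hl1
      cases k' with
      | zero =>
        have := Inv.q m 0 (2 * i + 1 + 1) (by omega)
        rw [← rep_succ, ← rep_succ] at this
        simpa [List.replicate_succ] using this
      | succ k' =>
        have := Inv.bad (replicate (2 * i) B' ++ [B', B'])
          (replicate (k' + 1) A' ++ replicate (2 * m) h') A' [q'] (by simp) (by simp)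
        simpa using this
    · exact absurd h.1.2 (by simp)
    · exact absurd h.1.2 (by simp)
    · obtain ⟨⟨rfl, _⟩, rfl, rfl⟩ := h
      obtain ⟨k', rfl, rfl, rfl⟩ := split_first (by simp) (by simp) e1 hl1
      cases i with
      | zero =>
        have := Inv.f m 0 (k' + 1) (by omega)
        simpa [List.replicate_succ] using this
      | succ i =>
        apply Inv.stuckf
        rw [show 2 * (i + 1) = 2 * i + 1 + 1 by ring]
        simp
    · exact absurd h.1.2 (by simp)
    · exact absurd h.1.2 (by simp)
  | q m i k hik =>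
    simp only [Prod.mk.injEq] at hxe
    obtain ⟨e1, e2⟩ := hxe
    have hu2 : u₂ = [] ∧ A₂ = q ∧ w₂ = [] := by
      cases u₂ with
      | nil => simp at e2; exact ⟨rfl, e2.1.symm, e2.2⟩
      | cons z u => simp at e2
    obtain ⟨rfl, rfl, rfl⟩ := hu2
    simp only [Gr, List.mem_cons, List.not_mem_nil, or_false, Prod.mk.injEq] at hr
    rcases hr with h | h | h | h | h | h | h
    · exact absurd h.1.2 (by simp)
    · exact absurd h.1.2 (by simp)
    · obtain ⟨⟨rfl, _⟩, rfl, rfl⟩ := h
      obtain ⟨k', rfl, rfl, rfl⟩ := split_first (by simp) (by simp) e1 hl1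
      have := Inv.q m (i + 1) k' (by omega)
      rw [show 2 * (i + 1) = 2 * i + 1 + 1 by ring, ← rep_succ, ← rep_succ] at this
      simpa using this
    · obtain ⟨⟨rfl, _⟩, rfl, rfl⟩ := h
      obtain ⟨k', rfl, rfl, rfl⟩ := split_first (by simp) (by simp) e1 hl1
      cases k' with
      | zero =>
        have := Inv.p (m + 1) 0 (2 * i + 1 + 1) (by rw [pow_succ]; omega)
        rw [← rep_succ, ← rep_succ] at this
        simpa [List.replicate_succ, mul_add] using this
      | succ k' =>
        have := Inv.bad (replicate (2 * i) A' ++ [A', A'])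
          (replicate (k' + 1) B' ++ replicate (2 * m + 1) h') B' [p'] (by simp) (by simp)
        simpa using this
    · exact absurd h.1.2 (by simp)
    · exact absurd h.1.2 (by simp)
    · exact absurd h.1.2 (by simp)
  | f m i k hik =>
    simp only [Prod.mk.injEq] at hxe
    obtain ⟨e1, e2⟩ := hxe
    have hu2 : u₂ = [] ∧ A₂ = f ∧ w₂ = [] := by
      cases u₂ with
      | nil => simp at e2; exact ⟨rfl, e2.1.symm, e2.2⟩
      | cons z u => simp at e2
    obtain ⟨rfl, rfl, rfl⟩ := hu2
    simp only [Gr, List.mem_cons, List.not_mem_nil, or_false, Prod.mk.injEq] at hr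
    rcases hr with h | h | h | h | h | h | h
    · exact absurd h.1.2 (by simp)
    · exact absurd h.1.2 (by simp)
    · exact absurd h.1.2 (by simp)
    · exact absurd h.1.2 (by simp)
    · exact absurd h.1.2 (by simp)
    · obtain ⟨⟨rfl, _⟩, rfl, rfl⟩ := h
      obtain ⟨k', rfl, rfl, rfl⟩ := split_first (by simp) (by simp) e1 hl1
      have := Inv.f m (i + 1) k' (by omega)
      rw [← rep_succ] at this
      simpa using this
    · obtain ⟨⟨rfl, _⟩, rfl, rfl⟩ := h
      obtain ⟨k', rfl, rfl, rfl⟩ := split_first (by simp) (by simp) e1 hl1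
      cases k' with
      | zero =>
        have := Inv.t m
        rw [← hik, show i + (0 + 1) = i + 1 by ring, ← rep_succ] at this
        simpa using this
      | succ k' =>
        apply Inv.stuckt _ A
        simp
  | t m =>
    simp at hxe
  | bad u v y x₂ hy1 hy2 =>
    simp only [Prod.mk.injEq] at hxe
    obtain ⟨e1, _⟩ := hxe
    rcases List.append_eq_append_iff.mp e1 with ⟨c, hc1, hc2⟩ | ⟨c, hc1, hc2⟩
    · -- `u₁ = u ++ c`, `h' :: v = c ++ A₁ :: w₁`
      cases c with
      | nil => simp at hc2
      | cons z c =>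
        simp only [List.cons_append, List.cons.injEq] at hc2
        obtain ⟨rfl, rfl⟩ := hc2
        obtain ⟨z, hz1, hz2⟩ := hne
        have := Inv.bad u (c ++ (v₁ ++ w₁)) z (u₂ ++ (v₂ ++ w₂)) (by simp [hz1]) hz2
        rw [hc1]
        simpa using this
    · cases c with
      | nil => simp at hc2
      | cons z c =>
        simp only [List.cons_append, List.cons.injEq] at hc2
        obtain ⟨rfl, rfl⟩ := hc2
        have := Inv.bad (u₁ ++ (v₁ ++ c)) v y (u₂ ++ (v₂ ++ w₂)) hy1 hy2
        simpa using this
  | stuckf x hB =>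
    simp only [Prod.mk.injEq] at hxe
    obtain ⟨e1, e2⟩ := hxe
    have hu2 : u₂ = [] ∧ A₂ = f ∧ w₂ = [] := by
      cases u₂ with
      | nil => simp at e2; exact ⟨rfl, e2.1.symm, e2.2⟩
      | cons z u => simp at e2
    obtain ⟨rfl, rfl, rfl⟩ := hu2
    rw [e1] at hB
    simp only [Gr, List.mem_cons, List.not_mem_nil, or_false, Prod.mk.injEq] at hr
    rcases hr with h | h | h | h | h | h | h
    · exact absurd h.1.2 (by simp)
    · exact absurd h.1.2 (by simp)
    · exact absurd h.1.2 (by simp)
    · exact absurd h.1.2 (by simp)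
    · exact absurd h.1.2 (by simp)
    · obtain ⟨⟨rfl, _⟩, rfl, rfl⟩ := h
      apply Inv.stuckf
      simp at hB ⊢
      exact hB
    · obtain ⟨⟨rfl, _⟩, rfl, rfl⟩ := h
      apply Inv.stuckt _ B
      simp at hB ⊢
      exact hB
  | stuckt x c hc =>
    simp at hxe

theorem inv_der {x y : List (C1 ⊕ Bool) × List (C2 ⊕ Bool)} (hx : Inv x) (h : Der x y) : Inv y := by
  induction h with
  | refl => exact hx
  | tail _ hs ih => exact inv_step ih hs

theorem after_h {i j : ℕ} {u v : List Bool} (h : replicate i true ++ replicate j false = u ++ false :: v) :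
    true ∉ v := by
  induction i generalizing u with
  | zero =>
    intro hm
    have : true ∈ u ++ false :: v := by simp [hm]
    rw [← h] at this
    simp at this
  | succ i ih =>
    cases u with
    | nil => simp [List.replicate_succ] at h
    | cons z u =>
      simp only [List.replicate_succ, List.cons_append, List.cons.injEq] at h
      exact ih h.2

theorem word_only (i j : ℕ) (h : replicate i true ++ replicate j false ∈ PLang Gr true) :
    ∃ n, i = 4 ^ n ∧ j = 2 * n := by
  rcases h with h | ⟨v, hv, x₁, x₂, hx, hd⟩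
  · simp [Gr] at h
  · simp only [Gr, List.mem_singleton] at hv
    subst hv
    have h0 : Inv ([A'], [p']) := by
      have := Inv.p 0 0 1 (by norm_num)
      simpa using this
    have hI := inv_der h0 hd
    generalize hz : (x₁.map Sum.inr, x₂.map Sum.inr) = z at hI
    cases hI with
    | p m i k hik =>
      simp only [Prod.mk.injEq] at hz
      exfalso
      have : p' ∈ (x₂.map Sum.inr : List (C2 ⊕ Bool)) := by rw [hz.2]; simp
      simp at this
    | q m i k hik =>
      simp only [Prod.mk.injEq] at hz
      exfalso
      have : q' ∈ (x₂.map Sum.inr : List (C2 ⊕ Bool)) := by rw [hz.2]; simp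
      simp at this
    | f m i k hik =>
      simp only [Prod.mk.injEq] at hz
      exfalso
      have : f' ∈ (x₂.map Sum.inr : List (C2 ⊕ Bool)) := by rw [hz.2]; simp
      simp at this
    | t m =>
      simp only [Prod.mk.injEq] at hz
      obtain ⟨e1, e2⟩ := hz
      have e3 : x₂ = [] := by simpa using e2
      have e4 : x₁ = replicate (4 ^ m) true ++ replicate (2 * m) false := by
        apply List.map_injective_iff.mpr (Sum.inr_injective (α := C1) (β := Bool))
        rw [e1]
        simp
      rw [e3, List.append_nil, e4] at hx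
      refine ⟨m, ?_, ?_⟩
      · have := congrArg (List.count true) hx
        simpa [List.count_append, List.count_replicate] using this
      · have := congrArg (List.count false) hx
        simpa [List.count_append, List.count_replicate] using this
    | bad u v y x₂' hy1 hy2 =>
      simp only [Prod.mk.injEq] at hz
      obtain ⟨e1, _⟩ := hz
      exfalso
      obtain ⟨u', t', rfl, hu, ht⟩ := List.map_eq_append_iff.mp e1
      obtain ⟨b, v', rfl, hb, hv'⟩ := List.map_eq_cons_iff.mp ht
      have hb' : b = false := by simpa using hb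
      subst hb'
      rw [List.append_assoc, List.cons_append] at hx
      have := after_h hx
      rw [← hv'] at hy1
      obtain ⟨z, hz1, hz2⟩ := List.mem_map.mp hy1
      cases z with
      | true => exact this (by simp [hz1])
      | false => exact hy2 hz2.symm
    | stuckf x hB =>
      simp only [Prod.mk.injEq] at hz
      exfalso
      have : f' ∈ (x₂.map Sum.inr : List (C2 ⊕ Bool)) := by rw [hz.2]; simp
      simp at this
    | stuckt x c hc =>
      simp only [Prod.mk.injEq] at hz
      exfalso
      rw [← hz.1] at hc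
      simp at hc

end Pool.Agent.X229.EmMode1
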