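import Mathlib

namespace Pool.Agent.X229.Adomatic

open Finset

variable {V : Type*} [DecidableEq V]

/-- `σ` starts with `k` consecutive blocks whose sets satisfy `f`. -/
def Gr (f : Finset V → Prop) : ℕ → List V → Prop
  | 0, _ => True
  | k + 1, σ => ∃ I C : List V, σ = I ++ C ∧ f I.toFinset ∧ Gr f k C

/-- `A` satisfies `f` and cannot be split in two parts that satisfy `f`. -/
def Ind (f : Finset V → Prop) (A : Finset V) : Prop :=
  f A ∧ ∀ B, B ⊆ A → f B → ¬ f (A \ B)

/-- `S` can be partitioned into `k` sets with `Ind f`. -/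
def Good (f : Finset V → Prop) : ℕ → Finset V → Prop
  | 0, S => S = ∅
  | k + 1, S => ∃ A, A ⊆ S ∧ Ind f A ∧ Good f k (S \ A)

/-- `S` contains `k` disjoint sets with `f`. -/
def Dom (f : Finset V → Prop) : ℕ → Finset V → Prop
  | 0, _ => True
  | k + 1, S => ∃ A, A ⊆ S ∧ f A ∧ Dom f k (S \ A)

variable {f : Finset V → Prop}

lemma gr_append (hm : ∀ S T, S ⊆ T → f S → f T) {k : ℕ} {τ : List V} (ρ : List V)
    (h : Gr f k τ) : Gr f k (ρ ++ τ) := by
  cases k with
  | zero => trivial
  | succ k =>
    obtain ⟨I, C, rfl, hI, hC⟩ := h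
    refine ⟨ρ ++ I, C, by rw [List.append_assoc], hm _ _ ?_ hI, hC⟩
    intro a ha
    rw [List.mem_toFinset] at ha ⊢
    exact List.mem_append_right _ ha

lemma not_gr_nil (h0 : ¬ f ∅) (k : ℕ) : ¬ Gr f (k + 1) [] := by
  rintro ⟨I, C, h, hI, _⟩
  have : I = [] := (List.append_eq_nil_iff.1 h.symm).1
  subst this
  exact h0 (by simpa using hI)

lemma ind_of (hm : ∀ S T, S ⊆ T → f S → f T) {A : Finset V} {z : V} (hA : f A)
    (hz : ¬ f (A.erase z)) : Ind f A := by
  refine ⟨hA, fun B hB hfB hfc => hz ?_⟩
  by_cases hzB : z ∈ B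
  · refine hm _ _ ?_ hfc
    intro a ha
    rw [mem_sdiff] at ha
    exact mem_erase.2 ⟨fun h => ha.2 (h ▸ hzB), ha.1⟩
  · exact hm _ _ (fun a ha => mem_erase.2 ⟨fun h => hzB (h ▸ ha), hB ha⟩) hfB

lemma good_append {k : ℕ} {α β : List V} (hn : (α ++ β).Nodup) (hα : Ind f α.toFinset)
    (hβ : Good f k β.toFinset) : Good f (k + 1) (α ++ β).toFinset := by
  refine ⟨α.toFinset, ?_, hα, ?_⟩
  · rw [List.toFinset_append]; exact subset_union_left
  · have : (α ++ β).toFinset \ α.toFinset = β.toFinset := by
      ext a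
      simp only [mem_sdiff, List.mem_toFinset, List.mem_append]
      constructor
      · rintro ⟨h1 | h1, h2⟩
        · exact absurd h1 h2
        · exact h1
      · intro h
        refine ⟨Or.inr h, fun h2 => ?_⟩
        exact (List.disjoint_of_nodup_append hn) h2 h
    rw [this]; exact hβ

lemma exists_switch {m : ℕ} {σ : List V} : ∀ L : List V, Gr f m (L ++ σ) → ¬ Gr f m σ →
    ∃ E z L', L = E ++ z :: L' ∧ Gr f m (z :: (L' ++ σ)) ∧ ¬ Gr f m (L' ++ σ) := by
  intro L
  induction L with
  | nil => intro h1 h2; exact absurd h1 h2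
  | cons a L ih =>
    intro h1 h2
    by_cases h : Gr f m (L ++ σ)
    · obtain ⟨E, z, L', e, h3, h4⟩ := ih h h2
      exact ⟨a :: E, z, L', by rw [e]; rfl, h3, h4⟩
    · exact ⟨[], a, L, rfl, h1, h⟩

lemma claimB (hm : ∀ S T, S ⊆ T → f S → f T) (h0 : ¬ f ∅) : ∀ (k : ℕ) (τ : List V) (y : V),
    (y :: τ).Nodup → ¬ Gr f (k + 1) τ → Gr f (k + 1) (y :: τ) →
    Good f (k + 1) (y :: τ).toFinset := by
  intro k
  induction k with
  | zero =>
    intro τ y hn h1 h2
    obtain ⟨I, C, e, hI, _⟩ := h2
    have hA : f (y :: τ).toFinset := by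
      rw [e, List.toFinset_append]
      exact hm _ _ subset_union_left hI
    have hτ : ¬ f τ.toFinset := fun h => h1 ⟨τ, [], by simp, h, trivial⟩
    refine ⟨(y :: τ).toFinset, subset_rfl, ind_of (z := y) hm hA ?_, ?_⟩
    · intro h
      apply hτ
      refine hm _ _ ?_ h
      intro a ha
      rw [mem_erase, List.mem_toFinset, List.mem_cons] at ha
      rw [List.mem_toFinset]
      rcases ha.2 with h3 | h3
      · exact absurd h3 ha.1
      · exact h3
    · change _ = ∅
      rw [sdiff_self]; rfl
  | succ k ih =>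
    intro τ y hn h1 h2
    obtain ⟨I, C, e, hI, hC⟩ := h2
    cases I with
    | nil => exact absurd (by simpa using hI) h0
    | cons a B =>
      rw [List.cons_append, List.cons.injEq] at e
      obtain ⟨rfl, e⟩ := e
      have hC' : Gr f (k + 1) (C ++ []) := by rw [List.append_nil]; exact hC
      obtain ⟨E, z, L', eC, h3, h4⟩ := exists_switch C hC' (not_gr_nil h0 k)
      rw [List.append_nil] at h3 h4
      have eall : y :: τ = (y :: (B ++ E)) ++ (z :: L') := by
        rw [e, eC]; simp
      have hn' : ((y :: (B ++ E)) ++ (z :: L')).Nodup := by rw [← eall]; exact hn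
      rw [eall]
      apply good_append hn'
      · apply ind_of (z := y) hm
        · refine hm _ _ ?_ hI
          intro a ha
          rw [List.mem_toFinset, List.mem_cons] at ha ⊢
          rcases ha with h | h
          · exact Or.inl h
          · exact Or.inr (List.mem_append_left _ h)
        · intro h
          apply h1
          refine ⟨B ++ E, z :: L', by rw [e, eC]; simp, ?_, h3⟩
          refine hm _ _ ?_ h
          intro a ha
          rw [mem_erase, List.mem_toFinset, List.mem_cons] at ha
          rw [List.mem_toFinset]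
          rcases ha.2 with h5 | h5
          · exact absurd h5 ha.1
          · exact h5
      · exact ih L' z (hn'.of_append_right) h4 h3

lemma min_prefix (hm : ∀ S T, S ⊆ T → f S → f T) (h0 : ¬ f ∅) {k : ℕ} :
    ∀ (J C : List V), f J.toFinset → Gr f k C →
    ∃ I z D, J ++ C = (I ++ [z]) ++ D ∧ f (I ++ [z]).toFinset ∧ ¬ f I.toFinset ∧ Gr f k D := by
  intro J
  induction J using List.reverseRecOn with
  | nil => intro C h1 _; exact absurd (by simpa using h1) h0
  | append_singleton I z ih =>
    intro C h1 h2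
    by_cases h : f I.toFinset
    · obtain ⟨I', z', D, e, h3, h4, h5⟩ := ih (z :: C) h (gr_append hm [z] h2)
      exact ⟨I', z', D, by rw [← e]; simp, h3, h4, h5⟩
    · exact ⟨I, z, C, rfl, h1, h, h2⟩

lemma ind_prefix (hm : ∀ S T, S ⊆ T → f S → f T) {I : List V} {z : V}
    (h1 : f (I ++ [z]).toFinset) (h2 : ¬ f I.toFinset) : Ind f (I ++ [z]).toFinset := by
  apply ind_of (z := z) hm h1
  intro h
  apply h2
  refine hm _ _ ?_ h
  intro a ha
  rw [mem_erase, List.mem_toFinset, List.mem_append, List.mem_singleton] at ha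
  rw [List.mem_toFinset]
  rcases ha.2 with h3 | h3
  · exact h3
  · exact absurd h3 ha.1

lemma claimA (hm : ∀ S T, S ⊆ T → f S → f T) (h0 : ¬ f ∅) : ∀ (k : ℕ) (ρ : List V) (x y : V)
    (τ : List V), (ρ ++ x :: y :: τ).Nodup → ¬ Gr f (k + 1) (ρ ++ x :: y :: τ) →
    Gr f (k + 1) (ρ ++ y :: x :: τ) → Good f (k + 1) (ρ ++ x :: y :: τ).toFinset := by
  intro k
  induction k with
  | zero =>
    intro ρ x y τ hn h1 h2
    exfalso
    apply h1
    obtain ⟨I, C, e, hI, _⟩ := h2
    refine ⟨ρ ++ x :: y :: τ, [], by simp, ?_, trivial⟩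
    refine hm I.toFinset _ ?_ hI
    intro a ha
    have ha' : a ∈ ρ ++ y :: x :: τ := by
      rw [e]; exact List.mem_append_left _ (List.mem_toFinset.1 ha)
    rw [List.mem_toFinset]
    simp only [List.mem_append, List.mem_cons] at ha' ⊢
    tauto
  | succ k ih =>
    intro ρ x y τ hn h1 h2
    obtain ⟨J, C0, e0, hJ, hC0⟩ := h2
    obtain ⟨I, z, C, e, hI1, hI2, hC⟩ := min_prefix hm h0 J C0 hJ hC0
    rw [← e0] at e
    have hind := ind_prefix hm hI1 hI2
    -- first case as a separate statement
    have case1 : ∀ c', ρ = (I ++ [z]) ++ c' → C = c' ++ (y :: x :: τ) →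
        Good f (k + 1 + 1) (ρ ++ x :: y :: τ).toFinset := by
      intro c' e1 e2
      have e3 : ρ ++ x :: y :: τ = (I ++ [z]) ++ (c' ++ x :: y :: τ) := by
        rw [e1, List.append_assoc]
      have h3 : ¬ Gr f (k + 1) (c' ++ x :: y :: τ) := by
        intro h
        exact h1 ⟨I ++ [z], c' ++ x :: y :: τ, e3, hI1, h⟩
      rw [e3] at hn ⊢
      refine good_append hn hind (ih c' x y τ (hn.of_append_right) h3 ?_)
      rw [← e2]; exact hC
    rcases List.append_eq_append_iff.1 e with ⟨a', e1, e2⟩ | ⟨c', e1, e2⟩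
    · cases a' with
      | nil =>
        refine case1 [] ?_ ?_
        · rw [List.append_nil] at e1 ⊢; exact e1.symm
        · simpa using e2.symm
      | cons b a'' =>
        rw [List.cons_append, List.cons.injEq] at e2
        obtain ⟨rfl, e2⟩ := e2
        cases a'' with
        | nil =>
          rw [List.nil_append] at e2
          have e3 : I ++ [z] = ρ ++ [y] := e1
          have h3 : ¬ Gr f (k + 1) τ := by
            intro h
            apply h1
            refine ⟨ρ ++ [x, y], τ, by simp, ?_, h⟩
            refine hm _ _ ?_ hI1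
            rw [e3]
            intro a ha
            simp only [List.mem_toFinset, List.mem_append, List.mem_cons] at ha ⊢
            tauto
          have hset : (ρ ++ x :: y :: τ).toFinset = ((ρ ++ [y]) ++ (x :: τ)).toFinset := by
            ext a
            simp only [List.mem_toFinset, List.mem_append, List.mem_cons, List.not_mem_nil,
              or_false]
            tauto
          have hperm : (ρ ++ x :: y :: τ).Perm ((ρ ++ [y]) ++ (x :: τ)) := by
            rw [List.append_assoc]
            apply List.Perm.append_left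
            exact List.Perm.swap y x τ
          have hn2 := hperm.nodup_iff.1 hn
          rw [hset]
          apply good_append hn2
          · rw [← e3]; exact hind
          · apply claimB hm h0 k τ x (hn2.of_append_right) h3
            rw [e2]; exact hC
        | cons b a''' =>
          exfalso
          rw [List.cons_append, List.cons.injEq] at e2
          obtain ⟨rfl, e2⟩ := e2
          apply h1
          refine ⟨ρ ++ x :: y :: a''', C, by rw [e2]; simp, ?_, hC⟩
          refine hm _ _ ?_ hI1
          rw [e1]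
          intro a ha
          simp only [List.mem_toFinset, List.mem_append, List.mem_cons] at ha ⊢
          tauto
    · exact case1 c' e1 e2

lemma claimE (hm : ∀ S T, S ⊆ T → f S → f T) (h0 : ¬ f ∅) {k : ℕ} {l₁ l₂ : List V}
    (hp : l₁.Perm l₂) : ∀ ρ : List V, (ρ ++ l₁).Nodup → ¬ Gr f (k + 1) (ρ ++ l₁) →
    Gr f (k + 1) (ρ ++ l₂) → Good f (k + 1) (ρ ++ l₁).toFinset := by
  induction hp with
  | nil => intro ρ _ h1 h2; exact absurd h2 h1
  | cons x _ ih =>
    intro ρ hn h1 h2
    have e1 := List.append_cons ρ x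
    rw [e1] at hn h1 h2 ⊢
    exact ih (ρ ++ [x]) hn h1 h2
  | swap x y l =>
    intro ρ hn h1 h2
    exact claimA hm h0 k ρ y x l hn h1 h2
  | @trans l₁ l₂ l₃ p1 p2 ih1 ih2 =>
    intro ρ hn h1 h2
    by_cases h : Gr f (k + 1) (ρ ++ l₂)
    · exact ih1 ρ hn h1 h
    · have hpp : (ρ ++ l₁).Perm (ρ ++ l₂) := List.Perm.append_left ρ p1
      have := ih2 ρ (hpp.nodup_iff.1 hn) h h2
      rw [List.toFinset_eq_of_perm _ _ hpp]
      exact this

lemma ind_sub (hm : ∀ S T, S ⊆ T → f S → f T) {A B : Finset V} (hA : Ind f A) (hB : B ⊆ A)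
    (hfB : f B) : Ind f B := by
  refine ⟨hfB, fun C hC hfC hfc => ?_⟩
  exact hA.2 C (hC.trans hB) hfC (hm _ _ (sdiff_subset_sdiff hB subset_rfl) hfc)

lemma claimC (hm : ∀ S T, S ⊆ T → f S → f T) (h0 : ¬ f ∅) : ∀ (j : ℕ) (S : Finset V),
    Good f j S → Good f (j + 1) S ∨
      ∃ σ : List V, σ.Nodup ∧ σ.toFinset = S ∧ ¬ Gr f (j + 1) σ := by
  intro j
  induction j with
  | zero =>
    intro S hS
    right
    have hS' : S = ∅ := hS
    exact ⟨[], List.nodup_nil, by rw [hS']; rfl, not_gr_nil h0 0⟩
  | succ j ih =>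
    intro S hS
    obtain ⟨A, hAS, hA, hG⟩ := hS
    rcases ih _ hG with h | ⟨σ, hσn, hσS, hσ⟩
    · left; exact ⟨A, hAS, hA, h⟩
    · have hmemσ : ∀ a, a ∈ σ ↔ a ∈ S ∧ a ∉ A := by
        intro a
        rw [← List.mem_toFinset, hσS, mem_sdiff]
      have hnod : (A.toList ++ σ).Nodup := by
        rw [List.nodup_append]
        refine ⟨A.nodup_toList, hσn, ?_⟩
        intro a ha b hb hab
        subst hab
        exact ((hmemσ a).1 hb).2 (mem_toList.1 ha)
      have hset : (A.toList ++ σ).toFinset = S := by
        ext a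
        simp only [List.mem_toFinset, List.mem_append, mem_toList, hmemσ]
        constructor
        · rintro (h | h)
          · exact hAS h
          · exact h.1
        · intro h
          by_cases hA : a ∈ A
          · exact Or.inl hA
          · exact Or.inr ⟨h, hA⟩
      by_cases hG2 : Gr f (j + 1 + 1) (A.toList ++ σ)
      · left
        obtain ⟨I, C, e, hI, hC⟩ := hG2
        rcases List.append_eq_append_iff.1 e with ⟨a', e1, e2⟩ | ⟨c', e1, e2⟩
        · exact absurd (by rw [e2]; exact gr_append hm a' hC) hσ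
        · rw [e2] at hC
          obtain ⟨E, z, L', e3, h3, h4⟩ := exists_switch c' hC hσ
          have eall : A.toList ++ σ = (I ++ E) ++ (z :: (L' ++ σ)) := by
            rw [e1, e3]; simp
          have hsubA : (I ++ E).toFinset ⊆ A := by
            intro a ha
            rw [List.mem_toFinset] at ha
            rw [← mem_toList, e1, e3, ← List.append_assoc]
            exact List.mem_append_left _ ha
          have hnod2 := hnod
          rw [eall] at hnod2
          rw [← hset, eall]
          apply good_append hnod2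
          · apply ind_sub hm hA hsubA
            refine hm _ _ ?_ hI
            rw [List.toFinset_append]; exact subset_union_left
          · exact claimB hm h0 j _ z hnod2.of_append_right h4 h3
      · right
        exact ⟨A.toList ++ σ, hnod, hset, hG2⟩

lemma claimD : ∀ (k : ℕ) (S : Finset V), Dom f k S →
    ∃ σ : List V, σ.Nodup ∧ σ.toFinset = S ∧ Gr f k σ := by
  intro k
  induction k with
  | zero => intro S _; exact ⟨S.toList, S.nodup_toList, S.toList_toFinset, trivial⟩
  | succ k ih =>
    intro S hS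
    obtain ⟨A, hAS, hA, hD⟩ := hS
    obtain ⟨σ, hσn, hσS, hσ⟩ := ih _ hD
    have hmemσ : ∀ a, a ∈ σ ↔ a ∈ S ∧ a ∉ A := by
      intro a
      rw [← List.mem_toFinset, hσS, mem_sdiff]
    refine ⟨A.toList ++ σ, ?_, ?_, A.toList, σ, rfl, by rw [A.toList_toFinset]; exact hA, hσ⟩
    · rw [List.nodup_append]
      refine ⟨A.nodup_toList, hσn, ?_⟩
      intro a ha b hb hab
      subst hab
      exact ((hmemσ a).1 hb).2 (mem_toList.1 ha)
    · ext a
      simp only [List.mem_toFinset, List.mem_append, mem_toList, hmemσ]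
      constructor
      · rintro (h | h)
        · exact hAS h
        · exact h.1
      · intro h
        by_cases hA : a ∈ A
        · exact Or.inl hA
        · exact Or.inr ⟨h, hA⟩

/-- one step of the interpolation -/
theorem step (hm : ∀ S T, S ⊆ T → f S → f T) (h0 : ¬ f ∅) {j : ℕ} {S : Finset V}
    (h1 : Good f j S) (h2 : Dom f (j + 1) S) : Good f (j + 1) S := by
  rcases claimC hm h0 j S h1 with h | ⟨σ, hn, hS, hσ⟩
  · exact h
  · obtain ⟨σ', hn', hS', hσ'⟩ := claimD _ _ h2
    have hp : σ.Perm σ' := by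
      apply List.perm_of_nodup_nodup_toFinset_eq hn hn'
      rw [hS, hS']
    have := claimE hm h0 hp [] (by simpa using hn) (by simpa using hσ) (by simpa using hσ')
    rw [← hS]
    simpa using this

lemma dom_pred {k : ℕ} : ∀ {S : Finset V}, Dom f (k + 1) S → Dom f k S := by
  induction k with
  | zero => intro S _; trivial
  | succ k ih =>
    intro S h
    obtain ⟨A, h1, h2, h3⟩ := h
    exact ⟨A, h1, h2, ih h3⟩

lemma dom_mono {k d : ℕ} {S : Finset V} (hkd : k ≤ d) (h : Dom f d S) : Dom f k S := by
  induction d, hkd using Nat.le_induction with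
  | base => exact h
  | succ d _ ih => exact ih (dom_pred h)

/-- **Interpolation**: all numbers between `a` and `d`. -/
theorem interpolation (hm : ∀ S T, S ⊆ T → f S → f T) (h0 : ¬ f ∅) {a d k : ℕ} {S : Finset V}
    (ha : Good f a S) (hd : Dom f d S) (hak : a ≤ k) (hkd : k ≤ d) : Good f k S := by
  induction k, hak using Nat.le_induction with
  | base => exact ha
  | succ k _ ih => exact step hm h0 (ih (by omega)) (dom_mono hkd hd)

end Pool.Agent.X229.Adomatic
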