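import Pool.Agent.W937.FG.All
import Pool.Agent.W382.FG.P1

/-!
# The context-sensitive languages are not closed under erasing a letter

The grammar below simulates the counter programs of the project FG (W937 and others) by
noncontracting rules that turn superfluous symbols into a padding letter.
-/

set_option autoImplicit false

namespace Pool.Agent.X229.CsErase

open Relation Function Pool.Agent.W937.FG

/-- A rule `l → r` of a grammar with terminals `T` and nonterminals `N`. -/
abbrev MRule (T N : Type) : Type := List (Symbol T N) × List (Symbol T N)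

/-- One derivation step. -/
def MStep {T N : Type} (P : Set (MRule T N)) (α β : List (Symbol T N)) : Prop :=
  ∃ u v l r : List (Symbol T N), (l, r) ∈ P ∧ α = u ++ l ++ v ∧ β = u ++ r ++ v

/-- The context-sensitive languages: up to the empty word, the language is generated by a
noncontracting grammar (finitely many rules `l → r` with `|l| ≤ |r|`). -/
def IsCS {T : Type} (L : Language T) : Prop :=
  ∃ (N : Type) (_ : Finite N) (S : N) (P : Set (MRule T N)), P.Finite ∧
    (∀ ρ ∈ P, ρ.1.length ≤ ρ.2.length) ∧
    ∀ w : List T, w ≠ [] →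
      (w ∈ L ↔ ReflTransGen (MStep P) [Symbol.nonterminal S] (w.map Symbol.terminal))

theorem isCS_gGen {T : Type} {L : Language T} (h : IsCS L) :
    ∃ (N : Type) (_ : Finite N) (S : N) (P : Set (GRule T N)), P.Finite ∧
      (∀ ρ ∈ P, ρ.1.length ≤ ρ.2.1.length) ∧ ∀ w : List T, w ≠ [] → (w ∈ L ↔ GGen P S w) := by
  obtain ⟨N, hN, S, P, hP, hmono, hL⟩ := h
  refine ⟨N, hN, S, (fun ρ : MRule T N => ((ρ.1, ρ.2, ∅) : GRule T N)) '' P, hP.image _, ?_, ?_⟩
  · rintro _ ⟨ρ, hρ, rfl⟩
    exact hmono ρ hρ
  · intro w hw
    rw [hL w hw]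
    have e : MStep P = GStep ((fun ρ : MRule T N => ((ρ.1, ρ.2, ∅) : GRule T N)) '' P) := by
      funext α β
      apply propext
      constructor
      · rintro ⟨u, v, l, r, hP, h1, h2⟩
        exact ⟨u, v, l, r, ∅, ⟨(l, r), hP, rfl⟩, h1, h2, by simp⟩
      · rintro ⟨u, v, l, r, F, ⟨⟨l', r'⟩, hP, he⟩, h1, h2, -⟩
        simp only [Prod.mk.injEq] at he
        obtain ⟨rfl, rfl, -⟩ := he
        exact ⟨u, v, l', r', hP, h1, h2⟩
    unfold GGen
    rw [e]

/-- Nonterminals. -/
inductive Nt (K Q : Type)
  | S | L | E | t
  | st (q : Q)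
  | sc (i : K) (q : Q)
  | tok (x : Option K)

instance {K Q : Type} [Finite K] [Finite Q] : Finite (Nt K Q) := by
  let f : Nt K Q → Fin 4 ⊕ Q ⊕ (K × Q) ⊕ Option K
    | .S => .inl 0
    | .L => .inl 1
    | .E => .inl 2
    | .t => .inl 3
    | .st q => .inr (.inl q)
    | .sc i q => .inr (.inr (.inl (i, q)))
    | .tok x => .inr (.inr (.inr x))
  refine Finite.of_injective f ?_
  intro a b h
  cases a <;> cases b <;> simp_all [f]

instance {T N : Type} [Finite T] [Finite N] : Finite (Symbol T N) := by
  let f : Symbol T N → T ⊕ N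
    | .terminal t => .inl t
    | .nonterminal n => .inr n
  refine Finite.of_injective f ?_
  intro a b h
  cases a <;> cases b <;> simp_all [f]

variable {T K Q : Type} [DecidableEq K] (δ : Set (Q × Op T K × Q)) (q0 qf : Q)

/-- Nonterminal symbols. -/
abbrev n (x : Nt K Q) : Symbol (Option T) (Nt K Q) := .nonterminal x

/-- The rules. -/
inductive Rl : List (Symbol (Option T) (Nt K Q)) → List (Symbol (Option T) (Nt K Q)) → Prop
  | start : Rl [n .S] [n .L, n (.st q0), n .E]
  | right (q : Q) (x : Option K) : Rl [n (.st q), n (.tok x)] [n (.tok x), n (.st q)]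
  | left (q : Q) (x : Option K) : Rl [n (.tok x), n (.st q)] [n (.st q), n (.tok x)]
  | nop {q q' : Q} (h : (q, .nop, q') ∈ δ) : Rl [n (.st q)] [n (.st q')]
  | inc {q q' : Q} {i : K} (h : (q, .inc i, q') ∈ δ) :
      Rl [n (.st q)] [n (.st q'), n (.tok (some i))]
  | dec {q q' : Q} {i : K} (h : (q, .dec i, q') ∈ δ) :
      Rl [n (.st q), n (.tok (some i))] [n (.st q'), n (.tok none)]
  | err {q q' : Q} {i : K} (h : (q, .dec i, q') ∈ δ) : Rl [n (.st q)] [n (.st q')]
  | zero {q q' : Q} {i : K} (h : (q, .zero i, q') ∈ δ) :
      Rl [n .L, n (.st q)] [n .L, n (.sc i q')]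
  | scan (i : K) (q : Q) (x : Option K) (h : x ≠ some i) :
      Rl [n (.sc i q), n (.tok x)] [n (.tok x), n (.sc i q)]
  | scanE (i : K) (q : Q) : Rl [n (.sc i q), n .E] [n (.st q), n .E]
  | out {q q' : Q} {c : T} (h : (q, .out c, q') ∈ δ) :
      Rl [n .L, n (.st q)] [.terminal (some c), n .L, n (.st q')]
  | fin : Rl [n .L, n (.st qf)] [.terminal none, n .t]
  | clear : Rl [n .t, n (.tok none)] [.terminal none, n .t]
  | last : Rl [n .t, n .E] [.terminal none, .terminal none]

/-- The set of rules. -/
def RS : Set (MRule (Option T) (Nt K Q)) := {ρ | Rl δ q0 qf ρ.1 ρ.2}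

theorem RS_mono : ∀ ρ ∈ RS δ q0 qf, ρ.1.length ≤ ρ.2.length := by
  rintro ⟨l, r⟩ h
  cases (h : Rl δ q0 qf l r) <;> simp

theorem RS_finite [Finite T] [Finite K] [Finite Q] : (RS δ q0 qf).Finite := by
  have h1 : {l : List (Symbol (Option T) (Nt K Q)) | l.length ≤ 3}.Finite :=
    List.finite_length_le _ 3
  refine (h1.prod h1).subset ?_
  rintro ⟨l, r⟩ h
  cases (h : Rl δ q0 qf l r) <;> simp

/-- The counts of the tokens. -/
def cnt (u : List (Option K)) : K → ℕ := fun i => u.count (some i)

theorem cnt_append (u v : List (Option K)) (i : K) : cnt (u ++ v) i = cnt u i + cnt v i :=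
  List.count_append

/-- Terminals. -/
abbrev tm (w : List T) : List (Symbol (Option T) (Nt K Q)) :=
  w.map fun c => .terminal (some c)

/-- Tokens. -/
abbrev tk (u : List (Option K)) : List (Symbol (Option T) (Nt K Q)) := u.map fun x => n (.tok x)

/-- The main form. -/
def F (w : List T) (u : List (Option K)) (a : Nt K Q) (v : List (Option K)) :
    List (Symbol (Option T) (Nt K Q)) :=
  tm w ++ [n .L] ++ tk u ++ [n a] ++ tk v ++ [n .E]

abbrev Ds : List (Symbol (Option T) (Nt K Q)) → List (Symbol (Option T) (Nt K Q)) → Prop :=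
  ReflTransGen (MStep (RS δ q0 qf))

variable {δ q0 qf}

theorem rl_step {l r : List (Symbol (Option T) (Nt K Q))} (h : Rl δ q0 qf l r)
    (u v : List (Symbol (Option T) (Nt K Q))) : Ds δ q0 qf (u ++ l ++ v) (u ++ r ++ v) :=
  ReflTransGen.single ⟨u, v, l, r, h, rfl, rfl⟩

theorem right_one (w : List T) (u : List (Option K)) (q : Q) (x : Option K)
    (v : List (Option K)) : Ds δ q0 qf (F w u (.st q) (x :: v)) (F w (u ++ [x]) (.st q) v) := by
  have := rl_step (δ := δ) (q0 := q0) (qf := qf) (Rl.right q x) (tm w ++ [n .L] ++ tk u)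
    (tk v ++ [n .E])
  simpa [F] using this

theorem left_one (w : List T) (u : List (Option K)) (q : Q) (x : Option K)
    (v : List (Option K)) : Ds δ q0 qf (F w (u ++ [x]) (.st q) v) (F w u (.st q) (x :: v)) := by
  have := rl_step (δ := δ) (q0 := q0) (qf := qf) (Rl.left q x) (tm w ++ [n .L] ++ tk u)
    (tk v ++ [n .E])
  simpa [F] using this

theorem right_many (w : List T) (q : Q) : ∀ (v u v' : List (Option K)),
    Ds δ q0 qf (F w u (.st q) (v ++ v')) (F w (u ++ v) (.st q) v') := by
  intro v
  induction v with
  | nil => intro u v'; simpa using ReflTransGen.refl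
  | cons x v ih =>
    intro u v'
    refine (right_one w u q x (v ++ v')).trans ?_
    have := ih (u ++ [x]) v'
    simpa using this

theorem left_many (w : List T) (q : Q) (u : List (Option K)) : ∀ (v : List (Option K)),
    Ds δ q0 qf (F w u (.st q) v) (F w [] (.st q) (u ++ v)) := by
  induction u using List.reverseRecOn with
  | nil => intro v; simpa using ReflTransGen.refl
  | append_singleton u x ih =>
    intro v
    refine (left_one w u q x v).trans ?_
    have := ih (x :: v)
    simpa using this

theorem scan_many (w : List T) (i : K) (q : Q) : ∀ (v u : List (Option K)), some i ∉ v →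
    Ds δ q0 qf (F w u (.sc i q) v) (F w (u ++ v) (.st q) []) := by
  intro v
  induction v with
  | nil =>
    intro u _
    have := rl_step (δ := δ) (q0 := q0) (qf := qf) (Rl.scanE i q) (tm w ++ [n .L] ++ tk u) []
    simpa [F] using this
  | cons x v ih =>
    intro u hv
    rw [List.mem_cons, not_or] at hv
    have h1 := rl_step (δ := δ) (q0 := q0) (qf := qf) (Rl.scan i q x (Ne.symm hv.1))
      (tm w ++ [n .L] ++ tk u) (tk v ++ [n .E])
    have h2 := ih (u ++ [x]) hv.2
    have h3 : Ds δ q0 qf (F w u (.sc i q) (x :: v)) (F w (u ++ [x]) (.sc i q) v) := by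
      simpa [F] using h1
    refine h3.trans ?_
    simpa using h2

/-- Simulation of paths. -/
theorem complete {q q' : Q} {s s' : K → ℕ} {w : List T} (h : Path true δ q s w q' s') :
    ∀ (w0 : List T) (u : List (Option K)), cnt u = s →
      ∃ u', cnt u' = s' ∧ Ds δ q0 qf (F w0 [] (.st q) u) (F (w0 ++ w) [] (.st q') u') := by
  induction h with
  | refl q s => intro w0 u hu; exact ⟨u, hu, by simpa using ReflTransGen.refl⟩
  | @step q q' q'' o s s' s'' w x hδ h1 _ ih =>
    intro w0 u hu
    have key : ∃ u1, cnt u1 = s' ∧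
        Ds δ q0 qf (F w0 [] (.st q) u) (F (w0 ++ w) [] (.st q') u1) := by
      cases o with
      | nop =>
        obtain ⟨rfl, rfl⟩ := h1
        refine ⟨u, hu, ?_⟩
        have := rl_step (δ := δ) (q0 := q0) (qf := qf) (Rl.nop hδ) (tm w0 ++ [n .L])
          (tk u ++ [n .E])
        simpa [F] using this
      | inc i =>
        obtain ⟨rfl, rfl⟩ := h1
        refine ⟨some i :: u, ?_, ?_⟩
        · funext j
          rw [← hu]
          unfold cnt
          by_cases hj : j = i
          · subst hj; simp
          · rw [Function.update_of_ne hj, List.count_cons_of_ne]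
            intro h; exact hj (Option.some_injective _ h).symm
        · have := rl_step (δ := δ) (q0 := q0) (qf := qf) (Rl.inc hδ) (tm w0 ++ [n .L])
            (tk u ++ [n .E])
          simpa [F] using this
      | dec i =>
        obtain ⟨rfl, h1⟩ := h1
        rcases h1 with ⟨hpos, rfl⟩ | ⟨-, rfl⟩
        · have hmem : some i ∈ u := by
            rw [← hu] at hpos
            exact List.count_pos_iff.1 hpos
          obtain ⟨u1, u2, rfl⟩ := List.append_of_mem hmem
          refine ⟨u1 ++ none :: u2, ?_, ?_⟩
          · funext j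
            rw [← hu]
            unfold cnt
            by_cases hj : j = i
            · subst hj
              rw [Function.update_self]
              simp
            · rw [Function.update_of_ne hj, List.count_append, List.count_append,
                List.count_cons_of_ne, List.count_cons_of_ne]
              · intro h; exact hj (Option.some_injective _ h).symm
              · intro h; cases h
          · have h2 := right_many (δ := δ) (q0 := q0) (qf := qf) w0 q u1 [] (some i :: u2)
            have h3 := rl_step (δ := δ) (q0 := q0) (qf := qf) (Rl.dec hδ)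
              (tm w0 ++ [n .L] ++ tk u1) (tk u2 ++ [n .E])
            have h4 := left_many (δ := δ) (q0 := q0) (qf := qf) w0 q' u1 (none :: u2)
            have h3' : Ds δ q0 qf (F w0 u1 (.st q) (some i :: u2))
                (F w0 u1 (.st q') (none :: u2)) := by
              simpa [F] using h3
            rw [List.nil_append] at h2
            rw [List.append_nil]
            exact (h2.trans h3').trans h4
        · refine ⟨u, hu, ?_⟩
          have := rl_step (δ := δ) (q0 := q0) (qf := qf) (Rl.err hδ) (tm w0 ++ [n .L])
            (tk u ++ [n .E])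
          simpa [F] using this
      | zero i =>
        obtain ⟨rfl, h0, rfl⟩ := h1
        refine ⟨u, hu, ?_⟩
        have hmem : some i ∉ u := by
          rw [← hu] at h0
          exact List.count_eq_zero.1 h0
        have h2 := rl_step (δ := δ) (q0 := q0) (qf := qf) (Rl.zero hδ) (tm w0)
          (tk u ++ [n .E])
        have h2' : Ds δ q0 qf (F w0 [] (.st q) u) (F w0 [] (.sc i q') u) := by
          simpa [F] using h2
        have h3 := scan_many (δ := δ) (q0 := q0) (qf := qf) w0 i q' u [] hmem
        have h4 := left_many (δ := δ) (q0 := q0) (qf := qf) w0 q' u []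
        rw [List.append_nil] at h4 ⊢
        rw [List.nil_append] at h3
        exact (h2'.trans h3).trans h4
      | out c =>
        obtain ⟨rfl, rfl⟩ := h1
        refine ⟨u, hu, ?_⟩
        have h2 := rl_step (δ := δ) (q0 := q0) (qf := qf) (Rl.out hδ) (tm w0)
          (tk u ++ [n .E])
        simpa [F] using h2
    obtain ⟨u1, hu1, hd1⟩ := key
    obtain ⟨u2, hu2, hd2⟩ := ih (w0 ++ w) u1 hu1
    refine ⟨u2, hu2, ?_⟩
    rw [← List.append_assoc]
    exact hd1.trans hd2

theorem clear_many : ∀ (u : List (Option K)), cnt u = (fun _ => 0) →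
    ∀ (p : List (Symbol (Option T) (Nt K Q))), ∃ j : ℕ,
      Ds δ q0 qf (p ++ [n .t] ++ tk u ++ [n .E])
        (p ++ (List.replicate j none).map Symbol.terminal) := by
  intro u
  induction u with
  | nil =>
    intro _ p
    refine ⟨2, ?_⟩
    have := rl_step (δ := δ) (q0 := q0) (qf := qf) Rl.last p []
    simpa using this
  | cons x u ih =>
    intro hu p
    have hx : x = none := by
      rcases x with _ | i
      · rfl
      · have := congrFun hu i
        simp [cnt] at this
    subst hx
    have hu' : cnt u = fun _ => 0 := by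
      funext i
      have := congrFun hu i
      unfold cnt at this ⊢
      rw [List.count_cons_of_ne (by simp)] at this
      exact this
    have h1 := rl_step (δ := δ) (q0 := q0) (qf := qf) Rl.clear p (tk u ++ [n .E])
    obtain ⟨j, hj⟩ := ih hu' (p ++ [.terminal none])
    refine ⟨j + 1, ?_⟩
    have h1' : Ds δ q0 qf (p ++ [n .t] ++ tk (none :: u) ++ [n .E])
        (p ++ [.terminal none] ++ [n .t] ++ tk u ++ [n .E]) := by
      simpa using h1
    refine h1'.trans ?_
    simpa [List.replicate_succ] using hj

theorem gen_of_path {w : List T} (h : Path true δ q0 (fun _ => 0) w qf (fun _ => 0)) :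
    ∃ w' : List (Option T), w'.reduceOption = w ∧
      Ds δ q0 qf [n .S] (w'.map Symbol.terminal) := by
  obtain ⟨u, hu, hd⟩ := complete (q0 := q0) (qf := qf) h [] [] (by funext i; rfl)
  have h0 : Ds δ q0 qf [n .S] (F [] [] (.st q0) []) := by
    have := rl_step (δ := δ) (q0 := q0) (qf := qf) Rl.start [] []
    simpa [F] using this
  have h1 := rl_step (δ := δ) (q0 := q0) (qf := qf) Rl.fin (tm w) (tk u ++ [n .E])
  have h1' : Ds δ q0 qf (F w [] (.st qf) u)
      ((tm w ++ [.terminal none]) ++ [n .t] ++ tk u ++ [n .E]) := by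
    simpa [F] using h1
  obtain ⟨j, hj⟩ := clear_many (δ := δ) (q0 := q0) (qf := qf) u hu (tm w ++ [.terminal none])
  refine ⟨w.map some ++ [none] ++ List.replicate j none, ?_, ?_⟩
  · rw [List.reduceOption_append, List.reduceOption_append]
    simp [List.reduceOption]
  · rw [List.nil_append] at hd
    have h9 := ((h0.trans hd).trans h1').trans hj
    have e : (w.map some ++ [none] ++ List.replicate j none).map Symbol.terminal =
        tm (K := K) (Q := Q) w ++ [.terminal none] ++
          (List.replicate j (none : Option T)).map Symbol.terminal := by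
      rw [List.map_append, List.map_append, List.map_map]
      rfl
    rw [e]
    exact h9

/-! ### Soundness -/

/-- Active symbols. -/
def act : Symbol (Option T) (Nt K Q) → Bool
  | .terminal _ => false
  | .nonterminal .S => true
  | .nonterminal .L => false
  | .nonterminal .E => false
  | .nonterminal .t => true
  | .nonterminal (.st _) => true
  | .nonterminal (.sc _ _) => true
  | .nonterminal (.tok _) => false

theorem split_uniq {A B A' B' : List (Symbol (Option T) (Nt K Q))}
    {a a' : Symbol (Option T) (Nt K Q)} (hA : ∀ x ∈ A, act x = false)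
    (hB : ∀ x ∈ B, act x = false) (ha' : act a' = true)
    (h : A ++ a :: B = A' ++ a' :: B') : A = A' ∧ a = a' ∧ B = B' := by
  induction A generalizing A' with
  | nil =>
    rcases A' with _ | ⟨b, A'⟩
    · simpa using h
    · exfalso
      rw [List.nil_append, List.cons_append, List.cons.injEq] at h
      have := hB a' (by rw [h.2]; simp)
      rw [ha'] at this
      exact absurd this (by simp)
  | cons b A ih =>
    rcases A' with _ | ⟨b', A'⟩
    · exfalso
      rw [List.nil_append, List.cons_append, List.cons.injEq] at h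
      have := hA b (by simp)
      rw [h.1, ha'] at this
      exact absurd this (by simp)
    · rw [List.cons_append, List.cons_append, List.cons.injEq] at h
      obtain ⟨rfl, h2⟩ := h
      obtain ⟨h3, h4, h5⟩ := ih (fun x hx => hA x (by simp [hx])) h2
      exact ⟨by rw [h3], h4, h5⟩

variable (δ q0 qf)

/-- The forms of derivable words. -/
inductive Inv : List (Symbol (Option T) (Nt K Q)) → Prop
  | start : Inv [n .S]
  | main (w : List T) (q : Q) (u v : List (Option K))
      (h : Path true δ q0 (fun _ => 0) w q (cnt (u ++ v))) : Inv (F w u (.st q) v)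
  | scan (w : List T) (i : K) (q q' : Q) (u v : List (Option K)) (hδ : (q, .zero i, q') ∈ δ)
      (h : Path true δ q0 (fun _ => 0) w q (cnt (u ++ v))) (hu : some i ∉ u) :
      Inv (F w u (.sc i q') v)
  | clr (w : List T) (p : List (Option T)) (hp : p.reduceOption = w) (v : List (Option K))
      (h : Path true δ q0 (fun _ => 0) w qf (cnt v)) :
      Inv (p.map Symbol.terminal ++ n .t :: (tk v ++ [n .E]))
  | done (w : List (Option T)) (h : Path true δ q0 (fun _ => 0) w.reduceOption qf (fun _ => 0)) :
      Inv (w.map Symbol.terminal)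

variable {δ q0 qf}

theorem path_snoc {q q' q'' : Q} {s s' s'' : K → ℕ} {w x : List T} {o : Op T K}
    (h : Path true δ q s w q' s') (hδ : (q', o, q'') ∈ δ) (h1 : ExecO true o s' x s'') :
    Path true δ q s (w ++ x) q'' s'' := by
  have h2 := Pool.Agent.W937.FG.Path.step hδ h1 (Pool.Agent.W937.FG.Path.refl q'' s'')
  rw [List.append_nil] at h2
  exact Pool.Agent.W937.FG.G1.ptrans h h2

theorem tail_cases {w : List T} {u : List (Option K)} {A : List (Symbol (Option T) (Nt K Q))}
    {a : Symbol (Option T) (Nt K Q)} (h : tm w ++ [n .L] ++ tk u = A ++ [a]) :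
    (u = [] ∧ a = n .L ∧ A = tm w) ∨
      ∃ u' x, u = u' ++ [x] ∧ a = n (.tok x) ∧ A = tm w ++ [n .L] ++ tk u' := by
  rcases List.eq_nil_or_concat u with rfl | ⟨u', x, rfl⟩
  · left
    have h' : tm w ++ [n .L] = A ++ [a] := by
      rw [← h]
      exact (List.append_nil _).symm
    have := List.append_inj' h' rfl
    exact ⟨rfl, by simpa using this.2.symm, this.1.symm⟩
  · right
    have h' : (tm w ++ [n .L] ++ tk u') ++ [n (.tok x)] = A ++ [a] := by
      rw [← h]
      simp [tk]
    have := List.append_inj' h' rfl
    exact ⟨u', x, by simp, by simpa using this.2.symm, this.1.symm⟩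

theorem head_cases {v : List (Option K)} {B : List (Symbol (Option T) (Nt K Q))}
    {a : Symbol (Option T) (Nt K Q)} (h : tk v ++ [n .E] = a :: B) :
    (v = [] ∧ a = n .E ∧ B = []) ∨ ∃ x v', v = x :: v' ∧ a = n (.tok x) ∧ B = tk v' ++ [n .E] := by
  rcases v with _ | ⟨x, v⟩
  · left
    simp only [List.map_nil, List.nil_append, List.cons.injEq] at h
    exact ⟨rfl, h.1.symm, h.2.symm⟩
  · right
    simp only [List.map_cons, List.cons_append, List.cons.injEq] at h
    exact ⟨x, v, rfl, h.1.symm, h.2.symm⟩

theorem act_tm {w : List T} {x : Symbol (Option T) (Nt K Q)} (h : x ∈ tm (K := K) (Q := Q) w) :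
    act x = false := by
  obtain ⟨c, -, rfl⟩ := List.mem_map.1 h
  rfl

theorem act_tk {u : List (Option K)} {x : Symbol (Option T) (Nt K Q)} (h : x ∈ tk u) :
    act x = false := by
  obtain ⟨c, -, rfl⟩ := List.mem_map.1 h
  rfl

theorem act_left {w : List T} {u : List (Option K)} {x : Symbol (Option T) (Nt K Q)}
    (h : x ∈ tm w ++ [n .L] ++ tk u) : act x = false := by
  rw [List.mem_append, List.mem_append] at h
  rcases h with (h | h) | h
  · exact act_tm h
  · rw [List.mem_singleton] at h; subst h; rfl
  · exact act_tk h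

theorem act_right {v : List (Option K)} {x : Symbol (Option T) (Nt K Q)}
    (h : x ∈ tk v ++ [n .E]) : act x = false := by
  rw [List.mem_append] at h
  rcases h with h | h
  · exact act_tk h
  · rw [List.mem_singleton] at h; subst h; rfl

/-- Every rule has an active symbol on the left. -/
theorem rl_shape {l r : List (Symbol (Option T) (Nt K Q))} (h : Rl δ q0 qf l r) :
    ∃ a ∈ l, act a = true := by
  cases h
  all_goals first
    | exact ⟨_, List.mem_cons_self, rfl⟩
    | exact ⟨_, List.mem_cons_of_mem _ List.mem_cons_self, rfl⟩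

variable (δ q0 qf)

/-- The forms with an active symbol, as zippers. -/
inductive InvZ : List (Symbol (Option T) (Nt K Q)) → Nt K Q →
    List (Symbol (Option T) (Nt K Q)) → Prop
  | start : InvZ [] .S []
  | main (w : List T) (q : Q) (u v : List (Option K))
      (h : Path true δ q0 (fun _ => 0) w q (cnt (u ++ v))) :
      InvZ (tm w ++ [n .L] ++ tk u) (.st q) (tk v ++ [n .E])
  | scan (w : List T) (i : K) (q q' : Q) (u v : List (Option K)) (hδ : (q, .zero i, q') ∈ δ)
      (h : Path true δ q0 (fun _ => 0) w q (cnt (u ++ v))) (hu : some i ∉ u) :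
      InvZ (tm w ++ [n .L] ++ tk u) (.sc i q') (tk v ++ [n .E])
  | clr (w : List T) (p : List (Option T)) (hp : p.reduceOption = w) (v : List (Option K))
      (h : Path true δ q0 (fun _ => 0) w qf (cnt v)) :
      InvZ (p.map Symbol.terminal) .t (tk v ++ [n .E])

variable {δ q0 qf}

theorem act_term {p : List (Option T)} {x : Symbol (Option T) (Nt K Q)}
    (h : x ∈ p.map Symbol.terminal) : act x = false := by
  obtain ⟨c, -, rfl⟩ := List.mem_map.1 h
  rfl

theorem invZ_act {A B : List (Symbol (Option T) (Nt K Q))} {a : Nt K Q}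
    (h : InvZ δ q0 qf A a B) : (∀ x ∈ A, act x = false) ∧ (∀ x ∈ B, act x = false) := by
  cases h with
  | start => exact ⟨by simp, by simp⟩
  | main w q u v h => exact ⟨fun x hx => act_left hx, fun x hx => act_right hx⟩
  | scan w i q q' u v hδ h hu => exact ⟨fun x hx => act_left hx, fun x hx => act_right hx⟩
  | clr w p hp v h => exact ⟨fun x hx => act_term hx, fun x hx => act_right hx⟩

/-- The invariant. -/
def InvA (α : List (Symbol (Option T) (Nt K Q))) : Prop :=
  (∃ A a B, InvZ δ q0 qf A a B ∧ α = A ++ n a :: B) ∨
    ∃ w : List (Option T), Path true δ q0 (fun _ => 0) w.reduceOption qf (fun _ => 0) ∧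
      α = w.map Symbol.terminal

theorem cnt_perm {u v : List (Option K)} (h : u.Perm v) : cnt u = cnt v := by
  funext i
  exact h.count_eq _

theorem step_inv {α β : List (Symbol (Option T) (Nt K Q))} (hI : InvA (δ := δ) (q0 := q0)
    (qf := qf) α) (hs : MStep (RS δ q0 qf) α β) : InvA (δ := δ) (q0 := q0) (qf := qf) β := by
  obtain ⟨u, v, l, r, hr, rfl, rfl⟩ := hs
  rcases hI with ⟨A, a, B, hZ, hAB⟩ | ⟨w, hw, hα⟩
  swap
  · exfalso
    obtain ⟨a, ha, hact⟩ := rl_shape hr
    have : a ∈ w.map Symbol.terminal := by rw [← hα]; simp [ha]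
    rw [act_term this] at hact
    exact absurd hact (by simp)
  obtain ⟨hZA, hZB⟩ := invZ_act hZ
  have key : ∀ (l1 : List (Symbol (Option T) (Nt K Q))) (a' : Nt K Q)
      (l2 : List (Symbol (Option T) (Nt K Q))), l = l1 ++ n a' :: l2 →
      act (n (T := T) a') = true → A = u ++ l1 ∧ a = a' ∧ B = l2 ++ v := by
    intro l1 a' l2 hl ha'
    have h : A ++ n a :: B = (u ++ l1) ++ n a' :: (l2 ++ v) := by
      rw [← hAB, hl]
      simp
    obtain ⟨h1, h2, h3⟩ := split_uniq hZA hZB ha' h
    exact ⟨h1, by simpa using h2, h3⟩
  cases (hr : Rl δ q0 qf l r) with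
  | start =>
    obtain ⟨hA, rfl, hB⟩ := key [] .S [] rfl rfl
    cases hZ
    have hu : u = [] := by simpa using hA.symm
    have hv : v = [] := by simpa using hB.symm
    subst hu hv
    left
    exact ⟨_, _, _, InvZ.main [] q0 [] [] (Pool.Agent.W937.FG.Path.refl _ _), by simp⟩
  | right q x =>
    obtain ⟨hA, rfl, hB⟩ := key [] (.st q) [n (.tok x)] rfl rfl
    cases hZ with
    | main w _ u' v' h =>
      rw [List.append_nil] at hA
      subst hA
      rcases head_cases hB with ⟨-, h1, -⟩ | ⟨x', v'', rfl, h1, rfl⟩
      · simp at h1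
      · simp only [Symbol.nonterminal.injEq, Nt.tok.injEq] at h1
        subst h1
        left
        refine ⟨_, _, _, InvZ.main w q (u' ++ [x]) v'' ?_, by simp⟩
        simpa using h
  | left q x =>
    obtain ⟨hA, rfl, hB⟩ := key [n (.tok x)] (.st q) [] rfl rfl
    cases hZ with
    | main w _ u' v' h =>
      rw [List.nil_append] at hB
      subst hB
      rcases tail_cases hA with ⟨-, h1, -⟩ | ⟨u'', x', rfl, h1, rfl⟩
      · simp at h1
      · simp only [Symbol.nonterminal.injEq, Nt.tok.injEq] at h1
        subst h1
        left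
        refine ⟨_, _, _, InvZ.main w q u'' (x :: v') ?_, by simp⟩
        simpa using h
  | @nop q q' hδ =>
    obtain ⟨hA, rfl, hB⟩ := key [] (.st q) [] rfl rfl
    cases hZ with
    | main w _ u' v' h =>
      rw [List.nil_append] at hB
      rw [List.append_nil] at hA
      subst hB hA
      left
      refine ⟨_, _, _, InvZ.main w q' u' v' ?_, by simp⟩
      have := path_snoc h hδ (x := []) (s'' := cnt (u' ++ v')) ⟨rfl, rfl⟩
      simpa using this
  | @inc q q' i hδ =>
    obtain ⟨hA, rfl, hB⟩ := key [] (.st q) [] rfl rfl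
    cases hZ with
    | main w _ u' v' h =>
      rw [List.nil_append] at hB
      rw [List.append_nil] at hA
      subst hB hA
      left
      refine ⟨_, _, _, InvZ.main w q' u' (some i :: v') ?_, by simp⟩
      have := path_snoc h hδ (x := []) (s'' := cnt (u' ++ some i :: v')) ⟨rfl, by
        funext j
        unfold cnt
        by_cases hj : j = i
        · subst hj
          rw [Function.update_self]
          simp only [List.count_append, List.count_cons_self]
          omega
        · rw [Function.update_of_ne hj, List.count_append, List.count_append,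
            List.count_cons_of_ne]
          intro h; exact hj (Option.some_injective _ h).symm⟩
      simpa using this
  | @dec q q' i hδ =>
    obtain ⟨hA, rfl, hB⟩ := key [] (.st q) [n (.tok (some i))] rfl rfl
    cases hZ with
    | main w _ u' v' h =>
      rw [List.append_nil] at hA
      subst hA
      rcases head_cases hB with ⟨-, h1, -⟩ | ⟨x', v'', rfl, h1, rfl⟩
      · simp at h1
      · simp only [Symbol.nonterminal.injEq, Nt.tok.injEq] at h1
        subst h1
        left
        refine ⟨_, _, _, InvZ.main w q' u' (none :: v'') ?_, by simp⟩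
        have := path_snoc h hδ (x := []) (s'' := cnt (u' ++ none :: v'')) ⟨rfl, Or.inl ⟨by
          unfold cnt
          simp, by
          funext j
          unfold cnt
          by_cases hj : j = i
          · subst hj
            rw [Function.update_self]
            simp
          · rw [Function.update_of_ne hj, List.count_append, List.count_append,
              List.count_cons_of_ne, List.count_cons_of_ne]
            · intro h; exact hj (Option.some_injective _ h).symm
            · intro h; cases h⟩⟩
        simpa using this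
  | @err q q' i hδ =>
    obtain ⟨hA, rfl, hB⟩ := key [] (.st q) [] rfl rfl
    cases hZ with
    | main w _ u' v' h =>
      rw [List.nil_append] at hB
      rw [List.append_nil] at hA
      subst hB hA
      left
      refine ⟨_, _, _, InvZ.main w q' u' v' ?_, by simp⟩
      have := path_snoc h hδ (x := []) (s'' := cnt (u' ++ v')) ⟨rfl, Or.inr ⟨rfl, rfl⟩⟩
      simpa using this
  | @zero q q' i hδ =>
    obtain ⟨hA, rfl, hB⟩ := key [n .L] (.st q) [] rfl rfl
    cases hZ with
    | main w _ u' v' h =>
      rw [List.nil_append] at hB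
      subst hB
      rcases tail_cases hA with ⟨rfl, h1, rfl⟩ | ⟨u'', x', rfl, h1, rfl⟩
      · left
        refine ⟨_, _, _, InvZ.scan w i q q' [] v' hδ h (by simp), by simp⟩
      · simp at h1
  | scan i q x hx =>
    obtain ⟨hA, rfl, hB⟩ := key [] (.sc i q) [n (.tok x)] rfl rfl
    cases hZ with
    | scan w _ q1 _ u' v' hδ h hu =>
      rw [List.append_nil] at hA
      subst hA
      rcases head_cases hB with ⟨-, h1, -⟩ | ⟨x', v'', rfl, h1, rfl⟩
      · simp at h1
      · simp only [Symbol.nonterminal.injEq, Nt.tok.injEq] at h1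
        subst h1
        left
        refine ⟨_, _, _, InvZ.scan w i q1 q (u' ++ [x]) v'' hδ (by simpa using h) ?_, by simp⟩
        rw [List.mem_append, List.mem_singleton, not_or]
        exact ⟨hu, Ne.symm hx⟩
  | scanE i q =>
    obtain ⟨hA, rfl, hB⟩ := key [] (.sc i q) [n .E] rfl rfl
    cases hZ with
    | scan w _ q1 _ u' v' hδ h hu =>
      rw [List.append_nil] at hA
      subst hA
      rcases head_cases hB with ⟨rfl, h1, rfl⟩ | ⟨x', v'', rfl, h1, rfl⟩
      · left
        refine ⟨_, _, _, InvZ.main w q u' [] ?_, by simp⟩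
        have := path_snoc h hδ (x := []) (s'' := cnt (u' ++ [])) ⟨rfl, by
          rw [List.append_nil]
          exact List.count_eq_zero.2 hu, rfl⟩
        rw [List.append_nil] at this
        exact this
      · simp at h1
  | @out q q' c hδ =>
    obtain ⟨hA, rfl, hB⟩ := key [n .L] (.st q) [] rfl rfl
    cases hZ with
    | main w _ u' v' h =>
      rw [List.nil_append] at hB
      subst hB
      rcases tail_cases hA with ⟨rfl, h1, rfl⟩ | ⟨u'', x', rfl, h1, rfl⟩
      · left
        refine ⟨_, _, _, InvZ.main (w ++ [c]) q' [] v' ?_, by simp⟩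
        exact path_snoc h hδ (x := [c]) (s'' := cnt ([] ++ v')) ⟨rfl, rfl⟩
      · simp at h1
  | fin =>
    obtain ⟨hA, rfl, hB⟩ := key [n .L] (.st qf) [] rfl rfl
    cases hZ with
    | main w _ u' v' h =>
      rw [List.nil_append] at hB
      subst hB
      rcases tail_cases hA with ⟨rfl, h1, rfl⟩ | ⟨u'', x', rfl, h1, rfl⟩
      · left
        refine ⟨_, _, _, InvZ.clr w (w.map some ++ [none]) ?_ v' h, ?_⟩
        · rw [List.reduceOption_append]
          simp [List.reduceOption]
        · simp
      · simp at h1
  | clear =>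
    obtain ⟨hA, rfl, hB⟩ := key [] .t [n (.tok none)] rfl rfl
    cases hZ with
    | clr w p hp v' h =>
      rw [List.append_nil] at hA
      subst hA
      rcases head_cases hB with ⟨-, h1, -⟩ | ⟨x', v'', rfl, h1, rfl⟩
      · simp at h1
      · simp only [Symbol.nonterminal.injEq, Nt.tok.injEq] at h1
        subst h1
        left
        refine ⟨_, _, _, InvZ.clr w (p ++ [none]) ?_ v'' ?_, by simp⟩
        · rw [List.reduceOption_append, hp]
          simp [List.reduceOption]
        · have e : cnt (none :: v'') = cnt v'' := by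
            funext j
            unfold cnt
            rw [List.count_cons_of_ne (by simp)]
          rw [e] at h
          exact h
  | last =>
    obtain ⟨hA, rfl, hB⟩ := key [] .t [n .E] rfl rfl
    cases hZ with
    | clr w p hp v' h =>
      rw [List.append_nil] at hA
      subst hA
      rcases head_cases hB with ⟨rfl, h1, rfl⟩ | ⟨x', v'', rfl, h1, rfl⟩
      · right
        refine ⟨p ++ [none, none], ?_, by simp⟩
        have e : (p ++ [none, none]).reduceOption = w := by
          rw [List.reduceOption_append, hp]
          simp [List.reduceOption]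
        rw [e]
        exact h
      · simp at h1

theorem path_of_gen {w' : List (Option T)}
    (h : Ds δ q0 qf [n .S] (w'.map Symbol.terminal)) :
    Path true δ q0 (fun _ => 0) w'.reduceOption qf (fun _ => 0) := by
  have h1 : ∀ β, Ds δ q0 qf [n .S] β → InvA (δ := δ) (q0 := q0) (qf := qf) β := by
    intro β hβ
    induction hβ with
    | refl => exact Or.inl ⟨[], .S, [], InvZ.start, rfl⟩
    | tail _ hs ih => exact step_inv ih hs
  rcases h1 _ h with ⟨A, a, B, hZ, hAB⟩ | ⟨w, hw, hα⟩
  · exfalso
    have : n a ∈ w'.map Symbol.terminal := by rw [hAB]; simp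
    obtain ⟨c, -, hc⟩ := List.mem_map.1 this
    simp at hc
  · have : w' = w := by
      refine List.map_injective_iff.2 ?_ hα
      intro a b h
      simpa using h
    rw [this]
    exact hw

/-- There is a context-sensitive language over the alphabet `{0, 1, 2, #}` (the letter `#` is
`none`) such that erasing `#` gives a language that is not context-sensitive. -/
theorem erase_not_cs : ∃ L : Language (Option (Fin 3)), IsCS L ∧
    ¬ IsCS ({w | ∃ w' ∈ L, w'.reduceOption = w} : Language (Fin 3)) := by
  obtain ⟨f, hf, hdiag⟩ := hP2 Pool.Agent.W382.FG.P1.main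
  obtain ⟨M, b, hb, hM1, hM2⟩ := hC4 f hf
  obtain ⟨k, hk⟩ := exists_lt_ack_of_nat_primrec hb
  obtain ⟨K', dK', fK', p', hp'⟩ := Pool.Agent.W52.FG.G3.main (Fin 3) Reg (top k M)
  obtain ⟨Q, fQ, q0, qf, δ, hδ, hQ⟩ := Pool.Agent.W937.FG.G1.main (Fin 3) K' p'
  have hpath : ∀ m, Path true δ q0 (fun _ => 0) (abc m) qf (fun _ => 0) ↔ f m = 1 := by
    intro m
    rw [← hQ, ← hp']
    refine ⟨fun h => hTOPS f M k hM1 m h, fun h => hTOPC f b M k hM2 m ?_ h⟩
    have h1 : b m ≤ ack k (m + 1) := (hk m).le.trans (ack_mono_right k (Nat.le_succ m))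
    exact h1.trans (hF.2.2.2.2.2 k (m + 1) (by omega))
  refine ⟨({w' : List (Option (Fin 3)) | Ds δ q0 qf [n .S] (w'.map Symbol.terminal)} :
    Set (List (Option (Fin 3)))), ?_, ?_⟩
  · exact ⟨Nt K' Q, inferInstance, .S, RS δ q0 qf, RS_finite δ q0 qf, RS_mono δ q0 qf,
      fun w _ => Iff.rfl⟩
  · intro hcs
    obtain ⟨N, hN, S, P, hP, hmono, hL⟩ := isCS_gGen hcs
    obtain ⟨m, hm, hd⟩ := hdiag N S P hP hmono
    have hne : abc m ≠ [] := by
      intro h
      have := congrArg List.length h
      simp [abc] at this
      omega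
    have h1 := hL (abc m) hne
    have h2 : (∃ w' : List (Option (Fin 3)), Ds δ q0 qf [n .S] (w'.map Symbol.terminal) ∧
        w'.reduceOption = abc m) ↔ f m = 1 := by
      rw [← hpath m]
      constructor
      · rintro ⟨w', h1, h2⟩
        rw [← h2]
        exact path_of_gen h1
      · intro h
        obtain ⟨w', h1, h2⟩ := gen_of_path h
        exact ⟨w', h2, h1⟩
    have h3 := h1.symm.trans h2
    tauto

end Pool.Agent.X229.CsErase
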