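import Mathlib

/-!
Two-component even matrix grammars (definitions for `MP_767d8d_lc`).
-/

namespace Pool.Agent.X229.Em

/-- A *two-component even matrix grammar* with component alphabets `N₁`, `N₂` and terminal alphabet
`T` (three types, so they are disjoint).  The start rules are `(S) → (v)`, `v ∈ T*` (list
`termStart`) and `(S) → (v₁v₂)` with `vᵢ ∈ (Nᵢ ∪ T)*` containing a symbol of `Nᵢ` (list `start`);
the other rules `(A₁, A₂) → (v₁, v₂)` form the list `rules`. -/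
structure EMG (N₁ N₂ T : Type) where
  /-- start rules `(S) → (v)` with `v` terminal -/
  termStart : List (List T)
  /-- start rules `(S) → (v₁v₂)` -/
  start : List (List (N₁ ⊕ T) × List (N₂ ⊕ T))
  /-- each `vᵢ` contains a symbol of `Nᵢ` -/
  start_nt : ∀ v ∈ start, (∃ A : N₁, Sum.inl A ∈ v.1) ∧ (∃ A : N₂, Sum.inl A ∈ v.2)
  /-- rules `(A₁, A₂) → (v₁, v₂)` -/
  rules : List ((N₁ × N₂) × (List (N₁ ⊕ T) × List (N₂ ⊕ T)))

variable {N₁ N₂ T : Type}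

/-- A letter of `N₁ ∪ T` as a letter of `N₁ ∪ N₂ ∪ T`. -/
def e₁ : N₁ ⊕ T → N₁ ⊕ N₂ ⊕ T := Sum.map id Sum.inr

/-- A letter of `N₂ ∪ T` as a letter of `N₁ ∪ N₂ ∪ T`. -/
def e₂ : N₂ ⊕ T → N₁ ⊕ N₂ ⊕ T := Sum.inr

/-- A letter of `T` as a letter of `N₁ ∪ N₂ ∪ T`. -/
def eT : T → N₁ ⊕ N₂ ⊕ T := fun x => Sum.inr (Sum.inr x)

/-- One derivation step on words over `N₁ ∪ N₂ ∪ T`.  A rule `(A₁, A₂) → (v₁, v₂)` rewrites
`u₁A₁w₁u₂A₂w₂`, where `uᵢwᵢ ∈ (Nᵢ ∪ T)*`, to `u₁v₁w₁u₂v₂w₂`; in mode `1` (`leftmost = true`) it is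
required in addition that `Aᵢ` does not occur in `uᵢ`. -/
def Step (G : EMG N₁ N₂ T) (leftmost : Bool) (z z' : List (N₁ ⊕ N₂ ⊕ T)) : Prop :=
  ∃ (A₁ : N₁) (A₂ : N₂) (v₁ u₁ w₁ : List (N₁ ⊕ T)) (v₂ u₂ w₂ : List (N₂ ⊕ T)),
    ((A₁, A₂), (v₁, v₂)) ∈ G.rules ∧
    z = (u₁ ++ Sum.inl A₁ :: w₁).map e₁ ++ (u₂ ++ Sum.inl A₂ :: w₂).map e₂ ∧
    z' = (u₁ ++ (v₁ ++ w₁)).map e₁ ++ (u₂ ++ (v₂ ++ w₂)).map e₂ ∧
    (leftmost = true → Sum.inl A₁ ∉ u₁ ∧ Sum.inl A₂ ∉ u₂)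

/-- The language generated in mode `0` (`leftmost = false`) or mode `1` (`leftmost = true`). -/
def Lang (G : EMG N₁ N₂ T) (leftmost : Bool) : Set (List T) :=
  {x | x ∈ G.termStart ∨ ∃ v ∈ G.start,
    Relation.ReflTransGen (Step G leftmost) (v.1.map e₁ ++ v.2.map e₂) (x.map eT)}

/-- The family of languages over the alphabet `T` generated by two-component even matrix grammars
with finite nonterminal alphabets, in mode `0` or mode `1`. -/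
def Family (T : Type) (leftmost : Bool) : Set (Set (List T)) :=
  {L | ∃ (N₁ N₂ : Type) (_ : Finite N₁) (_ : Finite N₂) (G : EMG N₁ N₂ T), Lang G leftmost = L}

end Pool.Agent.X229.Em
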