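import Mathlib

/-!
Helper file for `MP_767d8d_lc` : runs of a multiset-rewriting system and their amalgamation.
-/

namespace Pool.Agent.X229.EmPetri

variable {P τ W : Type} [AddCommMonoid W]

/-- decorated run: each transition is listed with the marking at which it is fired -/
def DRun (pre post : τ → P → ℕ) : (P → ℕ) → List (τ × (P → ℕ)) → (P → ℕ) → Prop
  | M, [], F => M = F
  | M, (t, K) :: l, F => K = M ∧ ∃ X, M = pre t + X ∧ DRun pre post (post t + X) l F

/-- run -/
def Run (pre post : τ → P → ℕ) : (P → ℕ) → List τ → (P → ℕ) → Prop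
  | M, [], F => M = F
  | M, t :: l, F => ∃ X, M = pre t + X ∧ Run pre post (post t + X) l F

variable {pre post : τ → P → ℕ}

theorem Run.of_drun : ∀ {l : List (τ × (P → ℕ))} {M F : P → ℕ}, DRun pre post M l F →
    Run pre post M (l.map Prod.fst) F
  | [], _, _, h => h
  | (t, K) :: l, M, F, h => by
    obtain ⟨_, X, h1, h2⟩ := h
    exact ⟨X, h1, Run.of_drun h2⟩

theorem Run.mono (D : P → ℕ) : ∀ {l : List τ} {M F : P → ℕ}, Run pre post M l F →
    Run pre post (M + D) l (F + D)
  | [], M, F, h => by
    have h' : M = F := h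
    rw [h']
    exact rfl
  | t :: l, M, F, h => by
    obtain ⟨X, h1, h2⟩ := h
    refine ⟨X + D, by rw [h1, add_assoc], ?_⟩
    have := Run.mono D h2
    rwa [add_assoc] at this

theorem Run.append : ∀ {l l' : List τ} {M K F : P → ℕ}, Run pre post M l K →
    Run pre post K l' F → Run pre post M (l ++ l') F
  | [], l', M, K, F, h, h' => by
    have h1 : M = K := h
    rw [h1]
    exact h'
  | t :: l, l', M, K, F, h, h' => by
    obtain ⟨X, h1, h2⟩ := h
    exact ⟨X, h1, Run.append h2 h'⟩

/-- total weight -/
def wsum (wt : τ → W) (l : List τ) : W := (l.map wt).sum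

theorem wsum_append (wt : τ → W) (l l' : List τ) :
    wsum wt (l ++ l') = wsum wt l + wsum wt l' := by
  simp [wsum]

theorem wsum_cons (wt : τ → W) (t : τ) (l : List τ) :
    wsum wt (t :: l) = wt t + wsum wt l := by
  simp [wsum]

/-- the order on decorated transitions -/
def R (x y : τ × (P → ℕ)) : Prop := x.1 = y.1 ∧ x.2 ≤ y.2

theorem amalg (wt : τ → W) {l l' : List (τ × (P → ℕ))} (h : List.SublistForall₂ R l l') :
    ∀ (M M' D F F' : P → ℕ) (π : List τ), DRun pre post M l F → DRun pre post M' l' F' →
      Run pre post (M + D) π M' → F ≤ F' →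
      ∃ (l'' : List τ) (F'' : P → ℕ), Run pre post (M + D + D) l'' F'' ∧ F'' + F = F' + F' ∧
        wsum wt l'' + wsum wt (l.map Prod.fst)
          = (wsum wt π + wsum wt (l'.map Prod.fst)) + (wsum wt π + wsum wt (l'.map Prod.fst)) ∧
        (∀ t ∈ l'', t ∈ π ∨ t ∈ l'.map Prod.fst) := by
  induction h with
  | nil =>
    rename_i l'
    intro M M' D F F' π h1 h2 h3 h4
    have h1' : M = F := h1
    subst h1'
    obtain ⟨E, hE⟩ := exists_add_of_le h4
    have h5 : Run pre post (M + D) (π ++ l'.map Prod.fst) F' := h3.append (Run.of_drun h2)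
    have h6 := h5.mono D
    have h7 := h5.mono E
    have h8 : F' + D = M + D + E := by rw [hE]; abel
    rw [h8] at h6
    refine ⟨(π ++ l'.map Prod.fst) ++ (π ++ l'.map Prod.fst), F' + E, h6.append h7, ?_, ?_, ?_⟩
    · rw [hE]; abel
    · simp only [wsum_append]
      simp [wsum]
    · intro t ht
      simp only [List.mem_append] at ht
      tauto
  | cons hr _ ih =>
    rename_i a a' l l' _
    obtain ⟨t, K⟩ := a
    obtain ⟨t', K'⟩ := a'
    intro M M' D F F' π h1 h2 h3 h4
    obtain ⟨e1, X, e2, e3⟩ := h1
    obtain ⟨e4, X', e5, e6⟩ := h2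
    obtain ⟨r1, r2⟩ := hr
    simp only at r1 r2
    subst r1 e1 e4
    obtain ⟨E, hE⟩ := exists_add_of_le r2
    have hX : X' = X + E := by
      have : pre t + X' = pre t + (X + E) := by rw [← e5, hE, e2]; abel
      exact add_left_cancel this
    subst hX
    have h5 : Run pre post (post t + X + E) [] (post t + (X + E)) := by
      show post t + X + E = post t + (X + E)
      rw [add_assoc]
    obtain ⟨l'', F'', g1, g2, g3, g4⟩ := ih (post t + X) (post t + (X + E)) E F F' [] e3 e6 h5 h4
    refine ⟨π ++ (π ++ (t :: l'')), F'', ?_, g2, ?_, ?_⟩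
    · have k1 := h3.mono D
      have k2 := h3.mono E
      have k3 : K' + D = K + D + E := by rw [hE]; abel
      rw [k3] at k1
      refine k1.append (k2.append ⟨X + E + E, ?_, ?_⟩)
      · rw [e5]; abel
      · have : post t + (X + E + E) = post t + X + E + E := by abel
        rw [this]
        exact g1
    · simp only [wsum_append, wsum_cons, List.map_cons] at g3 ⊢
      have g3' : wsum wt l'' + wsum wt (l.map Prod.fst)
        = wsum wt (l'.map Prod.fst) + wsum wt (l'.map Prod.fst) := by
        simpa [wsum] using g3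
      calc wsum wt π + (wsum wt π + (wt t + wsum wt l'')) + (wt t + wsum wt (l.map Prod.fst))
          = wsum wt π + wsum wt π + wt t + wt t + (wsum wt l'' + wsum wt (l.map Prod.fst)) := by abel
        _ = _ := by rw [g3']; abel
    · intro s hs
      simp only [List.mem_append, List.mem_cons, List.map_cons] at hs ⊢
      rcases hs with hs | hs | hs | hs
      · exact Or.inl hs
      · exact Or.inl hs
      · exact Or.inr (Or.inl hs)
      · rcases g4 s hs with h | h
        · simp at h
        · exact Or.inr (Or.inr h)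
  | cons_right _ ih =>
    rename_i a' l l' _
    obtain ⟨t', K'⟩ := a'
    intro M M' D F F' π h1 h2 h3 h4
    obtain ⟨e4, X', e5, e6⟩ := h2
    subst e4
    have h5 : Run pre post (M + D) (π ++ [t']) (post t' + X') :=
      h3.append ⟨X', e5, rfl⟩
    obtain ⟨l'', F'', g1, g2, g3, g4⟩ := ih M (post t' + X') D F F' (π ++ [t']) h1 e6 h5 h4
    refine ⟨l'', F'', g1, g2, ?_, ?_⟩
    · rw [g3]
      simp only [wsum_append, wsum_cons, List.map_cons]
      simp only [wsum, List.map_nil, List.sum_nil, add_zero]
      abel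
    · intro s hs
      rcases g4 s hs with h | h
      · simp only [List.mem_append, List.mem_singleton] at h
        rcases h with h | h
        · exact Or.inl h
        · right; rw [h]; simp
      · right; simp only [List.map_cons, List.mem_cons]; exact Or.inr h

/-- Amalgamation of two runs with the same initial marking that end in the zero marking. -/
theorem amalg0 (wt : τ → W) {l l' : List (τ × (P → ℕ))} (h : List.SublistForall₂ R l l')
    {M : P → ℕ} (h1 : DRun pre post M l 0) (h2 : DRun pre post M l' 0) :
    ∃ l'' : List τ, Run pre post M l'' 0 ∧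
        wsum wt l'' + wsum wt (l.map Prod.fst)
          = wsum wt (l'.map Prod.fst) + wsum wt (l'.map Prod.fst) ∧
        (∀ t ∈ l'', t ∈ l'.map Prod.fst) := by
  obtain ⟨l'', F'', g1, g2, g3, g4⟩ := amalg wt h M M 0 0 0 [] h1 h2
    (by show M + 0 = M; rw [add_zero]) le_rfl
  have hF : F'' = 0 := by simpa using g2
  subst hF
  refine ⟨l'', by simpa using g1, ?_, ?_⟩
  · simpa [wsum] using g3
  · intro t ht
    rcases g4 t ht with h | h
    · simp at h
    · exact h

theorem isPreorder_R : IsPreorder (τ × (P → ℕ)) R where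
  refl x := ⟨rfl, le_rfl⟩
  trans _ _ _ h1 h2 := ⟨h1.1.trans h2.1, h1.2.trans h2.2⟩

/-- well-quasi-order of decorated runs over a finite set of transitions and places -/
theorem pwo_runs [Finite P] {V : Set τ} (hV : V.Finite) :
    {l : List (τ × (P → ℕ)) | ∀ x, x ∈ l → x.1 ∈ V}.PartiallyWellOrderedOn
      (List.SublistForall₂ R) := by
  have := isPreorder_R (P := P) (τ := τ)
  have h1 : (V ×ˢ (Set.univ : Set (P → ℕ))).PartiallyWellOrderedOn
      (fun x y : τ × (P → ℕ) => x.1 = y.1 ∧ x.2 ≤ y.2) := by
    apply Set.PartiallyWellOrderedOn.prod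
    · have : Std.Refl (fun x y : τ => x = y) := ⟨fun x => rfl⟩
      exact hV.partiallyWellOrderedOn
    · exact Set.isPWO_of_wellQuasiOrderedLE _
  have h2 := Set.PartiallyWellOrderedOn.partiallyWellOrderedOn_sublistForall₂ (R (P := P) (τ := τ)) h1
  apply h2.mono
  intro l hl x hx
  exact ⟨hl x hx, trivial⟩

end Pool.Agent.X229.EmPetri
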