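import Pool.Agent.X229.EmPair
import Pool.Agent.X229.EmPetri

/-!
Helper file for `MP_767d8d_lc` : a language that no mode 0 grammar generates.
-/

namespace Pool.Agent.X229.EmMode0

open Pool.Agent.X229.Em Pool.Agent.X229.EmPetri

variable {N N₁ N₂ T : Type}

/-- number of occurrences -/
noncomputable def cnt {α : Type} (l : List α) (x : α) : ℕ := by
  classical exact l.count x

theorem cnt_nil {α : Type} (x : α) : cnt ([] : List α) x = 0 := by
  classical exact List.count_nil

theorem cnt_append {α : Type} (l l' : List α) (x : α) : cnt (l ++ l') x = cnt l x + cnt l' x := by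
  classical exact List.count_append

theorem cnt_cons {α : Type} (y : α) (l : List α) (x : α) : cnt (y :: l) x = cnt [y] x + cnt l x :=
  cnt_append [y] l x

theorem cnt_single_ne {α : Type} {x y : α} (h : y ≠ x) : cnt [y] x = 0 := by
  classical exact List.count_eq_zero.mpr (by simpa using h.symm)

theorem cnt_single_self {α : Type} (x : α) : cnt [x] x = 1 := by
  classical exact List.count_singleton_self

theorem cnt_pos {α : Type} {l : List α} {x : α} (h : 0 < cnt l x) : x ∈ l := by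
  classical exact List.count_pos_iff.mp h

theorem cnt_zero {α : Type} {l : List α} {x : α} (h : x ∉ l) : cnt l x = 0 := by
  classical exact List.count_eq_zero.mpr h

theorem cnt_map {α β : Type} {f : α → β} (hf : Function.Injective f) (l : List α) (x : α) :
    cnt (l.map f) (f x) = cnt l x := by
  classical exact List.count_map_of_injective _ _ hf _

theorem cnt_replicate {α : Type} (n : ℕ) (x : α) : cnt (List.replicate n x) x = n := by
  classical exact List.count_replicate_self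

/-- state transformations -/
abbrev M0 := Fin 3 → Fin 3

open Classical in
/-- automaton for `a*h*`, read from right to left -/
noncomputable def δ (a h : T) (x : T) : Fin 3 → Fin 3 := fun s =>
  if x = a then (if s = 2 then 2 else 1) else if x = h then (if s = 0 then 0 else 2) else 2

theorem δ_word (a h : T) (w : List T) :
    (w.foldr (δ a h) 0 = 0 → ∃ j, w = List.replicate j h) ∧
    (w.foldr (δ a h) 0 ≠ 2 → ∃ i j, w = List.replicate i a ++ List.replicate j h) := by
  induction w with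
  | nil => exact ⟨fun _ => ⟨0, rfl⟩, fun _ => ⟨0, 0, rfl⟩⟩
  | cons x w ih =>
    obtain ⟨ih1, ih2⟩ := ih
    simp only [List.foldr_cons]
    generalize w.foldr (δ a h) 0 = s at ih1 ih2
    unfold δ
    by_cases hxa : x = a
    · simp only [hxa, if_true]
      refine ⟨fun h0 => ?_, fun h0 => ?_⟩
      · split at h0 <;> simp at h0
      · split at h0
        · simp at h0
        · rename_i hs
          obtain ⟨i, j, rfl⟩ := ih2 hs
          exact ⟨i + 1, j, rfl⟩
    · simp only [hxa, if_false]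
      by_cases hxh : x = h
      · simp only [hxh, if_true]
        by_cases hs : s = 0
        · obtain ⟨j, rfl⟩ := ih1 hs
          exact ⟨fun _ => ⟨j + 1, rfl⟩, fun _ => ⟨0, j + 1, rfl⟩⟩
        · simp only [hs, if_false]
          exact ⟨fun h0 => absurd h0 (by decide), fun h0 => absurd rfl h0⟩
      · simp only [hxh, if_false]
        exact ⟨fun h0 => absurd h0 (by decide), fun h0 => absurd rfl h0⟩

theorem δ_good (a h : T) (hne : a ≠ h) (i j : ℕ) :
    (List.replicate i a ++ List.replicate j h).foldr (δ a h) 0 ≠ 2 := by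
  have h1 : (List.replicate j h).foldr (δ a h) 0 = 0 := by
    induction j with
    | zero => rfl
    | succ j ih =>
      rw [List.replicate_succ, List.foldr_cons, ih]
      simp [δ, hne.symm]
  rw [List.foldr_append, h1]
  induction i with
  | zero =>
    simp only [List.replicate_zero, List.foldr_nil]
    decide
  | succ i ih =>
    rw [List.replicate_succ, List.foldr_cons]
    simp only [δ, if_true]
    rw [if_neg ih]
    decide

/-- value of an annotated word -/
def aval (d : T → Fin 3 → Fin 3) : List ((N × M0) ⊕ T) → Fin 3 → Fin 3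
  | [], s => s
  | Sum.inl A :: l, s => A.2 (aval d l s)
  | Sum.inr t :: l, s => d t (aval d l s)

theorem aval_append (d : T → Fin 3 → Fin 3) (u v : List ((N × M0) ⊕ T)) (s : Fin 3) :
    aval d (u ++ v) s = aval d u (aval d v s) := by
  induction u with
  | nil => rfl
  | cons x u ih =>
    cases x with
    | inl A => simp only [List.cons_append, aval, ih]
    | inr t => simp only [List.cons_append, aval, ih]

theorem aval_term (d : T → Fin 3 → Fin 3) (w : List T) (s : Fin 3) :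
    aval d (w.map Sum.inr : List ((N × M0) ⊕ T)) s = w.foldr d s := by
  induction w with
  | nil => rfl
  | cons x u ih => simp only [List.map_cons, aval, ih, List.foldr_cons]

/-- forget the annotation -/
def er : (N × M0) ⊕ T → N ⊕ T := Sum.map Prod.fst id

/-- annotated sentential forms -/
abbrev AS (N₁ N₂ T : Type) := List ((N₁ × M0) ⊕ T) × List ((N₂ × M0) ⊕ T)

/-- annotated rules -/
abbrev Tr (N₁ N₂ T : Type) := ((N₁ × M0) × (N₂ × M0)) × AS N₁ N₂ T

/-- places -/
abbrev Pl (N₁ N₂ : Type) := (N₁ × M0) ⊕ (N₂ × M0)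

/-- nonterminal counts -/
noncomputable def cN (x : AS N₁ N₂ T) : Pl N₁ N₂ → ℕ :=
  Sum.elim (fun c => cnt x.1 (Sum.inl c)) (fun c => cnt x.2 (Sum.inl c))

/-- terminal counts -/
noncomputable def cT (x : AS N₁ N₂ T) : T → ℕ :=
  fun t => cnt x.1 (Sum.inr t) + cnt x.2 (Sum.inr t)

/-- consumed nonterminals -/
noncomputable def pre (t : Tr N₁ N₂ T) : Pl N₁ N₂ → ℕ :=
  cN (([Sum.inl t.1.1], [Sum.inl t.1.2]) : AS N₁ N₂ T)

/-- produced nonterminals -/
noncomputable def post (t : Tr N₁ N₂ T) : Pl N₁ N₂ → ℕ := cN t.2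

/-- valid annotated rules -/
def VT (d : T → Fin 3 → Fin 3) (G : EMG N₁ N₂ T) : Set (Tr N₁ N₂ T) :=
  {t | ((t.1.1.1, t.1.2.1), (t.2.1.map er, t.2.2.map er)) ∈ G.rules ∧
    aval d t.2.1 = t.1.1.2 ∧ aval d t.2.2 = t.1.2.2}

theorem cN_pre (A₁ : N₁ × M0) (A₂ : N₂ × M0) (u₁ w₁ : List ((N₁ × M0) ⊕ T))
    (u₂ w₂ : List ((N₂ × M0) ⊕ T)) (v : AS N₁ N₂ T) :
    cN (u₁ ++ Sum.inl A₁ :: w₁, u₂ ++ Sum.inl A₂ :: w₂)
      = pre ((A₁, A₂), v) + cN (u₁ ++ w₁, u₂ ++ w₂) := by
  funext c
  cases c with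
  | inl c =>
    have := cnt_cons (Sum.inl A₁) w₁ (Sum.inl c)
    simp only [cN, pre, Sum.elim_inl, Pi.add_apply, cnt_append]
    omega
  | inr c =>
    have := cnt_cons (Sum.inl A₂) w₂ (Sum.inl c)
    simp only [cN, pre, Sum.elim_inr, Pi.add_apply, cnt_append]
    omega

theorem cN_post (A₁ : N₁ × M0) (A₂ : N₂ × M0) (u₁ w₁ : List ((N₁ × M0) ⊕ T))
    (u₂ w₂ : List ((N₂ × M0) ⊕ T)) (v : AS N₁ N₂ T) :
    cN (u₁ ++ (v.1 ++ w₁), u₂ ++ (v.2 ++ w₂))
      = post ((A₁, A₂), v) + cN (u₁ ++ w₁, u₂ ++ w₂) := by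
  funext c
  cases c with
  | inl c =>
    simp only [cN, post, Sum.elim_inl, Pi.add_apply, cnt_append]
    omega
  | inr c =>
    simp only [cN, post, Sum.elim_inr, Pi.add_apply, cnt_append]
    omega

theorem cT_pre (A₁ : N₁ × M0) (A₂ : N₂ × M0) (u₁ w₁ : List ((N₁ × M0) ⊕ T))
    (u₂ w₂ : List ((N₂ × M0) ⊕ T)) :
    cT (u₁ ++ Sum.inl A₁ :: w₁, u₂ ++ Sum.inl A₂ :: w₂) = cT (u₁ ++ w₁, u₂ ++ w₂) := by
  funext c
  have h1 := cnt_cons (Sum.inl A₁) w₁ (Sum.inr c)
  have h2 := cnt_cons (Sum.inl A₂) w₂ (Sum.inr c)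
  rw [cnt_single_ne (by simp)] at h1 h2
  simp only [cT, cnt_append]
  omega

theorem cT_post (u₁ w₁ : List ((N₁ × M0) ⊕ T))
    (u₂ w₂ : List ((N₂ × M0) ⊕ T)) (v : AS N₁ N₂ T) :
    cT (u₁ ++ (v.1 ++ w₁), u₂ ++ (v.2 ++ w₂)) = cT v + cT (u₁ ++ w₁, u₂ ++ w₂) := by
  funext c
  simp only [cT, cnt_append, Pi.add_apply]
  omega

theorem term_of_count {x : List ((N × M0) ⊕ T)} (h : ∀ c, cnt x (Sum.inl c) = 0) :
    ∃ w : List T, x = w.map Sum.inr := by
  induction x with
  | nil => exact ⟨[], rfl⟩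
  | cons y x ih =>
    cases y with
    | inl A =>
      have := h A
      rw [cnt_cons, cnt_single_self] at this
      omega
    | inr t =>
      have h' : ∀ c, cnt x (Sum.inl c) = 0 := by
        intro c
        have := h c
        rw [cnt_cons] at this
        omega
      obtain ⟨w, rfl⟩ := ih h'
      exact ⟨t :: w, rfl⟩

theorem map_er_inr (w : List T) :
    (w.map Sum.inr : List ((N × M0) ⊕ T)).map er = w.map Sum.inr := by
  simp [er]

theorem cN_term (w₁ w₂ : List T) :
    cN ((w₁.map Sum.inr, w₂.map Sum.inr) : AS N₁ N₂ T) = 0 := by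
  funext c
  cases c with
  | inl c =>
    simp only [cN, Sum.elim_inl, Pi.zero_apply]
    exact cnt_zero (by simp)
  | inr c =>
    simp only [cN, Sum.elim_inr, Pi.zero_apply]
    exact cnt_zero (by simp)

/-- every mode 0 derivation of a terminal word comes from a run -/
theorem annotate (d : T → Fin 3 → Fin 3) (G : EMG N₁ N₂ T)
    {x : List (N₁ ⊕ T) × List (N₂ ⊕ T)} {w₁ w₂ : List T}
    (hx : Relation.ReflTransGen (PStep G false) x (w₁.map Sum.inr, w₂.map Sum.inr)) :
    ∃ (y : AS N₁ N₂ T) (l : List (Tr N₁ N₂ T × (Pl N₁ N₂ → ℕ))),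
      (y.1.map er, y.2.map er) = x ∧ DRun pre post (cN y) l 0 ∧ (∀ z ∈ l, z.1 ∈ VT d G) ∧
      cT y + wsum (fun t => cT t.2) (l.map Prod.fst)
        = cT ((w₁.map Sum.inr, w₂.map Sum.inr) : AS N₁ N₂ T) ∧
      (∀ s, aval d y.1 s = w₁.foldr d s) ∧ (∀ s, aval d y.2 s = w₂.foldr d s) := by
  induction hx using Relation.ReflTransGen.head_induction_on with
  | refl =>
    refine ⟨(w₁.map Sum.inr, w₂.map Sum.inr), [], ?_, ?_, ?_, ?_, ?_, ?_⟩
    · simp only [map_er_inr]
    · exact cN_term _ _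
    · intro z hz; simp at hz
    · simp [wsum]
    · intro s; exact aval_term d w₁ s
    · intro s; exact aval_term d w₂ s
  | head hstep _ ih =>
    rename_i x x'
    obtain ⟨A₁, A₂, v₁, u₁, t₁, v₂, u₂, t₂, hr, hx, hy, _⟩ := hstep
    obtain ⟨y, l, e1, e2, e3, e4, e5, e6⟩ := ih
    rw [hy] at e1
    obtain ⟨y₁, y₂⟩ := y
    simp only [Prod.mk.injEq] at e1
    obtain ⟨f1, f2⟩ := e1
    obtain ⟨a1, b1, rfl, g1, g2⟩ := List.map_eq_append_iff.mp f1
    obtain ⟨a2, b2, rfl, g3, g4⟩ := List.map_eq_append_iff.mp g2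
    obtain ⟨a3, b3, rfl, g5, g6⟩ := List.map_eq_append_iff.mp f2
    obtain ⟨a4, b4, rfl, g7, g8⟩ := List.map_eq_append_iff.mp g6
    refine ⟨(a1 ++ Sum.inl (A₁, aval d a2) :: b2, a3 ++ Sum.inl (A₂, aval d a4) :: b4),
      (((( A₁, aval d a2), (A₂, aval d a4)), (a2, a4)),
        cN (a1 ++ Sum.inl (A₁, aval d a2) :: b2, a3 ++ Sum.inl (A₂, aval d a4) :: b4)) :: l,
      ?_, ?_, ?_, ?_, ?_, ?_⟩
    · rw [hx]
      simp only [List.map_append, List.map_cons, g1, g4, g5, g8]
      rfl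
    · refine ⟨rfl, cN (a1 ++ b2, a3 ++ b4), cN_pre _ _ _ _ _ _ _, ?_⟩
      rw [← cN_post]
      exact e2
    · intro z hz
      rcases List.mem_cons.mp hz with rfl | hz
      · refine ⟨?_, rfl, rfl⟩
        simp only [g3, g7]
        exact hr
      · exact e3 z hz
    · rw [cT_pre, List.map_cons, wsum_cons, ← e4]
      have := cT_post a1 b2 a3 b4 ((a2, a4) : AS N₁ N₂ T)
      simp only at this
      rw [this]
      abel
    · intro s
      rw [← e5 s]
      simp only [aval_append, aval]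
    · intro s
      rw [← e6 s]
      simp only [aval_append, aval]

/-- every run is realised by a mode 0 derivation -/
theorem realize (d : T → Fin 3 → Fin 3) (G : EMG N₁ N₂ T) :
    ∀ (l : List (Tr N₁ N₂ T)) (y : AS N₁ N₂ T), (∀ t ∈ l, t ∈ VT d G) →
      Run pre post (cN y) l 0 →
      ∃ w₁ w₂ : List T, Relation.ReflTransGen (PStep G false) (y.1.map er, y.2.map er)
        (w₁.map Sum.inr, w₂.map Sum.inr) ∧
        cT y + wsum (fun t => cT t.2) l
          = cT ((w₁.map Sum.inr, w₂.map Sum.inr) : AS N₁ N₂ T) ∧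
        (∀ s, aval d y.1 s = w₁.foldr d s) ∧ (∀ s, aval d y.2 s = w₂.foldr d s) := by
  intro l
  induction l with
  | nil =>
    intro y _ hr
    have h0 : cN y = 0 := hr
    obtain ⟨y₁, y₂⟩ := y
    obtain ⟨w₁, rfl⟩ : ∃ w : List T, y₁ = w.map Sum.inr := by
      apply term_of_count
      intro c
      exact congrFun h0 (Sum.inl c)
    obtain ⟨w₂, rfl⟩ : ∃ w : List T, y₂ = w.map Sum.inr := by
      apply term_of_count
      intro c
      exact congrFun h0 (Sum.inr c)
    refine ⟨w₁, w₂, ?_, ?_, fun s => aval_term d w₁ s, fun s => aval_term d w₂ s⟩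
    · simp only [map_er_inr]
      exact Relation.ReflTransGen.refl
    · simp [wsum]
  | cons t l ih =>
    intro y hV hr
    obtain ⟨X, hX, hr'⟩ := hr
    obtain ⟨⟨A₁, A₂⟩, v⟩ := t
    obtain ⟨y₁, y₂⟩ := y
    have hm1 : Sum.inl A₁ ∈ y₁ := by
      have := congrFun hX (Sum.inl A₁)
      simp only [cN, pre, Sum.elim_inl, Pi.add_apply, cnt_single_self] at this
      apply cnt_pos
      omega
    have hm2 : Sum.inl A₂ ∈ y₂ := by
      have := congrFun hX (Sum.inr A₂)
      simp only [cN, pre, Sum.elim_inr, Pi.add_apply, cnt_single_self] at this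
      apply cnt_pos
      omega
    obtain ⟨u₁, t₁, rfl⟩ := List.append_of_mem hm1
    obtain ⟨u₂, t₂, rfl⟩ := List.append_of_mem hm2
    have hX' : X = cN (u₁ ++ t₁, u₂ ++ t₂) := by
      rw [cN_pre A₁ A₂ u₁ t₁ u₂ t₂ v] at hX
      exact (add_left_cancel hX).symm
    subst hX'
    rw [← cN_post] at hr'
    obtain ⟨w₁, w₂, g1, g2, g3, g4⟩ := ih _ (fun t ht => hV t (List.mem_cons_of_mem _ ht)) hr'
    obtain ⟨hv1, hv2, hv3⟩ := hV _ (List.mem_cons_self ..)
    simp only at hv1 hv2 hv3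
    refine ⟨w₁, w₂, ?_, ?_, ?_, ?_⟩
    · refine Relation.ReflTransGen.head ?_ g1
      refine ⟨A₁.1, A₂.1, v.1.map er, u₁.map er, t₁.map er, v.2.map er, u₂.map er, t₂.map er,
        hv1, ?_, ?_, by simp⟩
      · simp only [List.map_append, List.map_cons]
        rfl
      · simp only [List.map_append]
    · rw [← g2, cT_pre, cT_post, wsum_cons]
      simp only
      abel
    · intro s
      rw [← g3 s]
      simp only [aval_append, aval, hv2]
    · intro s
      rw [← g4 s]
      simp only [aval_append, aval, hv3]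

theorem finite_lift [Finite N] [Finite T] (v : List (N ⊕ T)) :
    {y : List ((N × M0) ⊕ T) | y.map er = v}.Finite := by
  apply (List.finite_length_le ((N × M0) ⊕ T) v.length).subset
  intro y hy
  rw [Set.mem_ofPred_eq] at hy ⊢
  rw [← hy, List.length_map]

theorem finite_VT [Finite N₁] [Finite N₂] [Finite T] (d : T → Fin 3 → Fin 3) (G : EMG N₁ N₂ T) :
    (VT d G).Finite := by
  have h : (⋃ r ∈ {r | r ∈ G.rules}, (Set.univ : Set ((N₁ × M0) × (N₂ × M0))) ×ˢ
      ({y : List ((N₁ × M0) ⊕ T) | y.map er = r.2.1} ×ˢ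
        {y : List ((N₂ × M0) ⊕ T) | y.map er = r.2.2})).Finite := by
    apply Set.Finite.biUnion
    · exact List.finite_toSet _
    · intro r _
      exact Set.Finite.prod Set.finite_univ ((finite_lift _).prod (finite_lift _))
  apply h.subset
  intro t ht
  simp only [Set.mem_iUnion]
  exact ⟨_, ht.1, trivial, rfl, rfl⟩

theorem finite_AS [Finite N₁] [Finite N₂] [Finite T] (G : EMG N₁ N₂ T) :
    {y : AS N₁ N₂ T | (y.1.map er, y.2.map er) ∈ G.start}.Finite := by
  have h : (⋃ r ∈ {r | r ∈ G.start},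
      ({y : List ((N₁ × M0) ⊕ T) | y.map er = r.1} ×ˢ
        {y : List ((N₂ × M0) ⊕ T) | y.map er = r.2})).Finite := by
    apply Set.Finite.biUnion
    · exact List.finite_toSet _
    · intro r _
      exact (finite_lift _).prod (finite_lift _)
  apply h.subset
  intro t ht
  simp only [Set.mem_iUnion]
  exact ⟨_, ht, rfl, rfl⟩

/-- the words `a^(4^m) h^(2m)` -/
def word (a h : T) (m : ℕ) : List T := List.replicate (4 ^ m) a ++ List.replicate (2 * m) h

theorem no_mode0 [Finite T] (a h : T) (hne : a ≠ h) (L : Set (List T))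
    (h1 : ∀ m, word a h m ∈ L)
    (h2 : ∀ i j, List.replicate i a ++ List.replicate j h ∈ L → ∃ n, i = 4 ^ n ∧ j = 2 * n) :
    L ∉ PFamily T false := by
  rintro ⟨N₁, N₂, hN₁, hN₂, G, rfl⟩
  -- words not among the terminal start rules
  obtain ⟨m0, hm0⟩ : ∃ m0 : ℕ, ∀ w ∈ G.termStart, w.length ≤ m0 := by
    obtain ⟨m0, hm0⟩ := ((List.finite_toSet G.termStart).image List.length).bddAbove
    exact ⟨m0, fun w hw => hm0 ⟨w, hw, rfl⟩⟩
  have key : ∀ m : ℕ, ∃ p : AS N₁ N₂ T × List (Tr N₁ N₂ T × (Pl N₁ N₂ → ℕ)),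
      (p.1.1.map er, p.1.2.map er) ∈ G.start ∧ DRun pre post (cN p.1) p.2 0 ∧
      (∀ z ∈ p.2, z.1 ∈ VT (δ a h) G) ∧
      (∀ t, (cT p.1 + wsum (fun t => cT t.2) (p.2.map Prod.fst)) t = cnt (word a h (m + m0)) t) ∧
      (aval (δ a h) p.1.1 (aval (δ a h) p.1.2 0) ≠ 2) := by
    intro m
    rcases h1 (m + m0) with hw | ⟨v, hv, x₁, x₂, hx, hd⟩
    · exfalso
      have hl := hm0 _ hw
      simp only [word, List.length_append, List.length_replicate] at hl
      have : m + m0 < 4 ^ (m + m0) := Nat.lt_pow_self (by norm_num)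
      omega
    · obtain ⟨y, l, e1, e2, e3, e4, e5, e6⟩ := annotate (δ a h) G hd
      refine ⟨(y, l), ?_, e2, e3, ?_, ?_⟩
      · simp only [e1]; exact hv
      · intro t
        simp only [e4, hx, cT, cnt_append]
        rw [cnt_map Sum.inr_injective, cnt_map Sum.inr_injective]
      · simp only
        rw [e6, e5, ← List.foldr_append, ← hx]
        exact δ_good a h hne _ _
  choose f hf1 hf2 hf3 hf4 hf5 using key
  have hpwo := Set.PartiallyWellOrderedOn.prod (r := fun x y : AS N₁ N₂ T => x = y)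
    (s := {y : AS N₁ N₂ T | (y.1.map er, y.2.map er) ∈ G.start})
    (by
      have : Std.Refl (fun x y : AS N₁ N₂ T => x = y) := ⟨fun x => rfl⟩
      exact (finite_AS G).partiallyWellOrderedOn)
    (pwo_runs (P := Pl N₁ N₂) (finite_VT (δ a h) G))
  obtain ⟨m, n, hmn, hs, hsub⟩ := hpwo.exists_lt (f := f) (fun n => ⟨hf1 n, hf3 n⟩)
  have hrn := hf2 n
  rw [← hs] at hrn
  obtain ⟨l'', g1, g2, g3⟩ := amalg0 (fun t : Tr N₁ N₂ T => cT t.2) hsub (hf2 m) hrn
  have hV'' : ∀ t ∈ l'', t ∈ VT (δ a h) G := by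
    intro t ht
    obtain ⟨z, hz, rfl⟩ := List.mem_map.mp (g3 t ht)
    exact hf3 n z hz
  obtain ⟨w₁, w₂, k1, k2, k3, k4⟩ := realize (δ a h) G l'' (f m).1 hV'' g1
  have hL : w₁ ++ w₂ ∈ PLang G false := Or.inr ⟨_, hf1 m, w₁, w₂, rfl, k1⟩
  have hval : (w₁ ++ w₂).foldr (δ a h) 0 ≠ 2 := by
    rw [List.foldr_append, ← k4, ← k3]
    exact hf5 m
  obtain ⟨i, j, hij⟩ := (δ_word a h (w₁ ++ w₂)).2 hval
  rw [hij] at hL
  obtain ⟨k, rfl, rfl⟩ := h2 i j hL
  have hcount : ∀ t, cnt (w₁ ++ w₂) t + cnt (word a h (m + m0)) t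
      = cnt (word a h (n + m0)) t + cnt (word a h (n + m0)) t := by
    intro t
    rw [← hf4 m t, ← hf4 n t, ← hs]
    have e1 : cnt (w₁ ++ w₂) t = (cT (f m).1 + wsum (fun t => cT t.2) l'') t := by
      rw [k2]
      simp only [cT, cnt_append]
      rw [cnt_map Sum.inr_injective, cnt_map Sum.inr_injective]
    rw [e1]
    have e2 := congrFun g2 t
    simp only [Pi.add_apply] at e2 ⊢
    omega
  have ca := hcount a
  have ch := hcount h
  rw [hij] at ca ch
  have z1 : ∀ i, cnt (List.replicate i a) h = 0 := fun i =>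
    cnt_zero (fun hm => hne (List.eq_of_mem_replicate hm).symm)
  have z2 : ∀ i, cnt (List.replicate i h) a = 0 := fun i =>
    cnt_zero (fun hm => hne (List.eq_of_mem_replicate hm))
  simp only [word, cnt_append, cnt_replicate, z1, z2] at ca ch
  have hk : k + (m + m0) = 2 * (n + m0) := by omega
  have hprod : 4 ^ k * 4 ^ (m + m0) = 4 ^ (n + m0) * 4 ^ (n + m0) := by
    rw [← pow_add, ← pow_add, hk]
    congr 1
    ring
  have hlt : (4:ℕ) ^ (m + m0) < 4 ^ (n + m0) := Nat.pow_lt_pow_right (by norm_num) (by omega)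
  generalize (4:ℕ) ^ k = X at ca hprod
  generalize (4:ℕ) ^ (m + m0) = Y at ca hprod hlt
  generalize (4:ℕ) ^ (n + m0) = Z at ca hprod hlt
  obtain ⟨E, hE⟩ := Nat.exists_eq_add_of_lt hlt
  subst hE
  have hX : X = Y + 2 * (E + 1) := by omega
  subst hX
  nlinarith

end Pool.Agent.X229.EmMode0
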