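import Pool.Agent.X229.EmDefs

/-!
Helper file for `MP_767d8d_lc` : sentential forms as pairs.
-/

namespace Pool.Agent.X229.Em

variable {N₁ N₂ T : Type}

/-- one derivation step on pairs -/
def PStep (G : EMG N₁ N₂ T) (leftmost : Bool) (x y : List (N₁ ⊕ T) × List (N₂ ⊕ T)) : Prop :=
  ∃ (A₁ : N₁) (A₂ : N₂) (v₁ u₁ w₁ : List (N₁ ⊕ T)) (v₂ u₂ w₂ : List (N₂ ⊕ T)),
    ((A₁, A₂), (v₁, v₂)) ∈ G.rules ∧
    x = (u₁ ++ Sum.inl A₁ :: w₁, u₂ ++ Sum.inl A₂ :: w₂) ∧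
    y = (u₁ ++ (v₁ ++ w₁), u₂ ++ (v₂ ++ w₂)) ∧
    (leftmost = true → Sum.inl A₁ ∉ u₁ ∧ Sum.inl A₂ ∉ u₂)

/-- language, pair version -/
def PLang (G : EMG N₁ N₂ T) (leftmost : Bool) : Set (List T) :=
  {x | x ∈ G.termStart ∨ ∃ v ∈ G.start, ∃ x₁ x₂ : List T, x = x₁ ++ x₂ ∧
    Relation.ReflTransGen (PStep G leftmost) v (x₁.map Sum.inr, x₂.map Sum.inr)}

/-- family, pair version -/
def PFamily (T : Type) (leftmost : Bool) : Set (Set (List T)) :=
  {L | ∃ (N₁ N₂ : Type) (_ : Finite N₁) (_ : Finite N₂) (G : EMG N₁ N₂ T), PLang G leftmost = L}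

/-- the word of a pair -/
def J (x : List (N₁ ⊕ T) × List (N₂ ⊕ T)) : List (N₁ ⊕ N₂ ⊕ T) := x.1.map e₁ ++ x.2.map e₂

theorem e₁_inj : Function.Injective (e₁ : N₁ ⊕ T → N₁ ⊕ N₂ ⊕ T) := by
  intro a b h
  cases a <;> cases b <;> simp [e₁] at h ⊢ <;> exact h

theorem e₂_inj : Function.Injective (e₂ : N₂ ⊕ T → N₁ ⊕ N₂ ⊕ T) := Sum.inr_injective

theorem common {c₁ : List (N₁ ⊕ T)} {c₂ : List (N₂ ⊕ T)}
    (h : c₁.map (e₁ : N₁ ⊕ T → N₁ ⊕ N₂ ⊕ T) = c₂.map e₂) :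
    ∃ t : List T, c₁ = t.map Sum.inr ∧ c₂ = t.map Sum.inr := by
  induction c₁ generalizing c₂ with
  | nil =>
    cases c₂ with
    | nil => exact ⟨[], rfl, rfl⟩
    | cons b c₂ => simp at h
  | cons a c₁ ih =>
    cases c₂ with
    | nil => simp at h
    | cons b c₂ =>
      simp only [List.map_cons, List.cons.injEq] at h
      obtain ⟨t, rfl, rfl⟩ := ih h.2
      have h1 := h.1
      cases a with
      | inl a => simp [e₁, e₂] at h1
      | inr a =>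
        cases b with
        | inl b => simp [e₁, e₂] at h1
        | inr b =>
          have : a = b := by simpa [e₁, e₂] using h1
          subst this
          exact ⟨a :: t, rfl, rfl⟩

theorem lift_step {G : EMG N₁ N₂ T} {m : Bool} {x : List (N₁ ⊕ T) × List (N₂ ⊕ T)}
    {z : List (N₁ ⊕ N₂ ⊕ T)} (h : Step G m (J x) z) : ∃ y, PStep G m x y ∧ z = J y := by
  obtain ⟨A₁, A₂, v₁, u₁, w₁, v₂, u₂, w₂, hr, hx, hz, hl⟩ := h
  obtain ⟨x₁, x₂⟩ := x
  simp only [J] at hx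
  rcases List.append_eq_append_iff.mp hx with ⟨c, h1, h2⟩ | ⟨c, h1, h2⟩
  · -- `map e₁ (u₁A₁w₁) = map e₁ x₁ ++ c`, `map e₂ x₂ = c ++ map e₂ (u₂A₂w₂)`
    obtain ⟨a1, c1, ha, hb, hc⟩ := List.map_eq_append_iff.mp h1
    obtain ⟨c2, a2, ha', hb', hc'⟩ := List.map_eq_append_iff.mp h2
    have ha1 : a1 = x₁ := List.map_injective_iff.mpr e₁_inj hb
    have ha2 : a2 = u₂ ++ Sum.inl A₂ :: w₂ := List.map_injective_iff.mpr e₂_inj hc'
    subst ha1 ha2
    obtain ⟨t, rfl, rfl⟩ := common (hc.trans hb'.symm)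
    rcases List.append_eq_append_iff.mp ha with ⟨d, k1, k2⟩ | ⟨d, k1, k2⟩
    · -- `a1 = u₁ ++ d`, `A₁ :: w₁ = d ++ t`
      cases d with
      | nil =>
        exfalso
        have : Sum.inl A₁ ∈ (t.map Sum.inr : List (N₁ ⊕ T)) := by
          simp only [List.nil_append] at k2
          rw [← k2]; simp
        simp at this
      | cons y d =>
        simp only [List.cons_append, List.cons.injEq] at k2
        obtain ⟨rfl, rfl⟩ := k2
        refine ⟨(u₁ ++ (v₁ ++ d), (t.map Sum.inr ++ u₂) ++ (v₂ ++ w₂)),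
          ⟨A₁, A₂, v₁, u₁, d, v₂, t.map Sum.inr ++ u₂, w₂, hr, ?_, rfl, ?_⟩, ?_⟩
        · rw [k1, ha']
          simp
        · intro hm
          obtain ⟨l1, l2⟩ := hl hm
          refine ⟨l1, ?_⟩
          simp only [List.mem_append, List.mem_map, reduceCtorEq, and_false, exists_false, false_or]
          exact l2
        · rw [hz]
          simp [J, e₁, e₂]
    · exfalso
      have : Sum.inl A₁ ∈ (t.map Sum.inr : List (N₁ ⊕ T)) := by
        rw [k2]; simp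
      simp at this
  · -- `map e₁ x₁ = map e₁ (u₁A₁w₁) ++ c`, `map e₂ (u₂A₂w₂) = c ++ map e₂ x₂`
    obtain ⟨a1, c1, ha, hb, hc⟩ := List.map_eq_append_iff.mp h1
    obtain ⟨c2, a2, ha', hb', hc'⟩ := List.map_eq_append_iff.mp h2
    have ha1 : a1 = u₁ ++ Sum.inl A₁ :: w₁ := List.map_injective_iff.mpr e₁_inj hb
    have ha2 : a2 = x₂ := List.map_injective_iff.mpr e₂_inj hc'
    subst ha1 ha2
    obtain ⟨t, rfl, rfl⟩ := common (hc.trans hb'.symm)
    rcases List.append_eq_append_iff.mp ha' with ⟨d, k1, k2⟩ | ⟨d, k1, k2⟩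
    · -- `t = u₂ ++ d`, `A₂ :: w₂ = d ++ a2`
      cases d with
      | nil =>
        simp only [List.append_nil, List.nil_append] at k1 k2
        refine ⟨(u₁ ++ (v₁ ++ (w₁ ++ t.map Sum.inr)), [] ++ (v₂ ++ w₂)),
          ⟨A₁, A₂, v₁, u₁, w₁ ++ t.map Sum.inr, v₂, [], w₂, hr, ?_, rfl, ?_⟩, ?_⟩
        · rw [ha, ← k2]
          simp
        · intro hm
          exact ⟨(hl hm).1, by simp⟩
        · rw [hz, ← k1]
          simp [J, e₁, e₂]
      | cons y d =>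
        exfalso
        simp only [List.cons_append, List.cons.injEq] at k2
        have : Sum.inl A₂ ∈ (t.map Sum.inr : List (N₂ ⊕ T)) := by
          rw [k1, ← k2.1]; simp
        simp at this
    · -- `u₂ = t ++ d`, `a2 = d ++ A₂ :: w₂`
      refine ⟨(u₁ ++ (v₁ ++ (w₁ ++ t.map Sum.inr)), d ++ (v₂ ++ w₂)),
        ⟨A₁, A₂, v₁, u₁, w₁ ++ t.map Sum.inr, v₂, d, w₂, hr, ?_, rfl, ?_⟩, ?_⟩
      · rw [ha, k2]
        simp
      · intro hm
        obtain ⟨l1, l2⟩ := hl hm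
        refine ⟨l1, fun hmem => l2 ?_⟩
        rw [k1]
        simp [hmem]
      · rw [hz, k1]
        simp [J, e₁, e₂]

theorem lift_der {G : EMG N₁ N₂ T} {m : Bool} {x : List (N₁ ⊕ T) × List (N₂ ⊕ T)}
    {z : List (N₁ ⊕ N₂ ⊕ T)} (h : Relation.ReflTransGen (Step G m) (J x) z) :
    ∃ y, Relation.ReflTransGen (PStep G m) x y ∧ z = J y := by
  induction h with
  | refl => exact ⟨x, Relation.ReflTransGen.refl, rfl⟩
  | tail _ hs ih =>
    obtain ⟨y, h1, rfl⟩ := ih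
    obtain ⟨y', h2, rfl⟩ := lift_step hs
    exact ⟨y', h1.tail h2, rfl⟩

theorem step_of_pstep {G : EMG N₁ N₂ T} {m : Bool} {x y : List (N₁ ⊕ T) × List (N₂ ⊕ T)}
    (h : PStep G m x y) : Step G m (J x) (J y) := by
  obtain ⟨A₁, A₂, v₁, u₁, w₁, v₂, u₂, w₂, hr, rfl, rfl, hl⟩ := h
  exact ⟨A₁, A₂, v₁, u₁, w₁, v₂, u₂, w₂, hr, rfl, rfl, hl⟩

theorem term₁ : ∀ {x : List (N₁ ⊕ T)} {t : List T},
    x.map (e₁ : N₁ ⊕ T → N₁ ⊕ N₂ ⊕ T) = t.map eT → x = t.map Sum.inr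
  | [], [], _ => rfl
  | [], b :: t, h => by simp at h
  | a :: x, [], h => by simp at h
  | a :: x, b :: t, h => by
    simp only [List.map_cons, List.cons.injEq] at h ⊢
    refine ⟨?_, term₁ h.2⟩
    cases a with
    | inl a => simp [e₁, eT] at h
    | inr a => simpa [e₁, eT] using h.1

theorem term₂ : ∀ {x : List (N₂ ⊕ T)} {t : List T},
    x.map (e₂ : N₂ ⊕ T → N₁ ⊕ N₂ ⊕ T) = t.map eT → x = t.map Sum.inr
  | [], [], _ => rfl
  | [], b :: t, h => by simp at h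
  | a :: x, [], h => by simp at h
  | a :: x, b :: t, h => by
    simp only [List.map_cons, List.cons.injEq] at h ⊢
    refine ⟨?_, term₂ h.2⟩
    cases a with
    | inl a => simp [e₂, eT] at h
    | inr a => simpa [e₂, eT] using h.1

theorem J_term (x₁ x₂ : List T) :
    J ((x₁.map Sum.inr, x₂.map Sum.inr) : List (N₁ ⊕ T) × List (N₂ ⊕ T)) = (x₁ ++ x₂).map eT := by
  simp only [J, e₁, e₂, List.map_map, List.map_append]
  rfl

theorem lang_eq (G : EMG N₁ N₂ T) (m : Bool) : Lang G m = PLang G m := by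
  ext x
  constructor
  · rintro (h | ⟨v, hv, hd⟩)
    · exact Or.inl h
    · obtain ⟨y, h1, h2⟩ := lift_der (x := v) hd
      obtain ⟨t₁, t₂, rfl, ht1, ht2⟩ := List.map_eq_append_iff.mp h2
      refine Or.inr ⟨v, hv, t₁, t₂, rfl, ?_⟩
      rw [← term₁ ht1.symm, ← term₂ ht2.symm]
      exact h1
  · rintro (h | ⟨v, hv, x₁, x₂, rfl, hd⟩)
    · exact Or.inl h
    · refine Or.inr ⟨v, hv, ?_⟩
      rw [← J_term]
      exact hd.lift J (fun _ _ h => step_of_pstep h)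

theorem family_eq (m : Bool) : Family T m = PFamily T m := by
  ext L
  constructor
  · rintro ⟨N₁, N₂, h1, h2, G, rfl⟩
    exact ⟨N₁, N₂, h1, h2, G, (lang_eq G m).symm⟩
  · rintro ⟨N₁, N₂, h1, h2, G, rfl⟩
    exact ⟨N₁, N₂, h1, h2, G, lang_eq G m⟩

end Pool.Agent.X229.Em
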