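import Mathlib

namespace Pool.Agent.X229.EternalPrism

open Finset

/-- `D` is a dominating set. -/
def IsDominating {V : Type*} (G : SimpleGraph V) (D : Finset V) : Prop :=
  ∀ v, v ∉ D → ∃ u ∈ D, G.Adj v u

/-- `Fam` is an eternal family of `k`-element dominating sets. -/
def IsEternal {V : Type*} [DecidableEq V] (G : SimpleGraph V) (k : ℕ)
    (Fam : Set (Finset V)) : Prop :=
  Fam.Nonempty ∧ ∀ D ∈ Fam, D.card = k ∧ IsDominating G D ∧
    ∀ v, v ∉ D → ∃ u ∈ D, G.Adj v u ∧ insert v (D.erase u) ∈ Fam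

/-- the eternal domination number -/
noncomputable def gammaInf {V : Type*} [DecidableEq V] (G : SimpleGraph V) : ℕ :=
  sInf {k | 1 ≤ k ∧ ∃ Fam : Set (Finset V), IsEternal G k Fam}

/-- the vertex set is partitioned into `k` cliques, the classes of `c` -/
def CliqueCover {V : Type*} (G : SimpleGraph V) (k : ℕ) : Prop :=
  ∃ c : V → Fin k, Function.Surjective c ∧ ∀ x y, x ≠ y → c x = c y → G.Adj x y

/-- the clique cover number -/
noncomputable def theta {V : Type*} (G : SimpleGraph V) : ℕ :=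
  sInf {k | CliqueCover G k}

/-- edges of the Groetzsch graph (vertices 0..10) and of the vertex 11 joined to 0..9 -/
def edges : List (Fin 12 × Fin 12) :=
  [(0,1),(1,2),(2,3),(3,4),(4,0),
   (5,1),(5,4),(6,2),(6,0),(7,3),(7,1),(8,4),(8,2),(9,0),(9,3),
   (10,5),(10,6),(10,7),(10,8),(10,9),
   (11,0),(11,1),(11,2),(11,3),(11,4),(11,5),(11,6),(11,7),(11,8),(11,9)]

/-- adjacency of the complement -/
def fadj (x y : Fin 12) : Bool := edges.contains (x, y) || edges.contains (y, x)

lemma fadj_symm : ∀ x y, fadj x y = fadj y x := by decide +kernel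

lemma fadj_irrefl : ∀ x, fadj x x = false := by decide +kernel

/-- the graph -/
def G : SimpleGraph (Fin 12) := SimpleGraph.fromRel (fun x y => fadj x y = false)

lemma G_adj (x y : Fin 12) : G.Adj x y ↔ x ≠ y ∧ fadj x y = false := by
  unfold G
  rw [SimpleGraph.fromRel_adj]
  constructor
  · rintro ⟨h, h1 | h1⟩
    · exact ⟨h, h1⟩
    · exact ⟨h, by rw [fadj_symm]; exact h1⟩
  · rintro ⟨h, h1⟩; exact ⟨h, Or.inl h1⟩

lemma card_swap {V : Type*} [DecidableEq V] {D : Finset V} {u v : V} (hu : u ∈ D) (hv : v ∉ D) :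
    (insert v (D.erase u)).card = D.card := by
  rw [card_insert_of_notMem (fun h => hv (mem_of_mem_erase h)), card_erase_of_mem hu]
  have : 0 < D.card := card_pos.2 ⟨u, hu⟩
  omega

lemma eternal_of_cover {V : Type*} [DecidableEq V] {G : SimpleGraph V} {k : ℕ}
    (h : CliqueCover G k) : ∃ Fam : Set (Finset V), IsEternal G k Fam := by
  obtain ⟨c, hc, hadj⟩ := h
  refine ⟨{D | D.card = k ∧ ∀ i, ∃ x ∈ D, c x = i}, ?_, ?_⟩
  · obtain ⟨g, hg⟩ := hc.hasRightInverse
    refine ⟨univ.image g, ?_, ?_⟩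
    · rw [card_image_of_injective _ hg.injective, card_univ, Fintype.card_fin]
    · intro i
      exact ⟨g i, mem_image_of_mem g (mem_univ i), hg i⟩
  · rintro D ⟨hD1, hD2⟩
    have key : ∀ v, v ∉ D → ∃ u ∈ D, G.Adj v u ∧ c u = c v := by
      intro v hv
      obtain ⟨u, hu, huv⟩ := hD2 (c v)
      exact ⟨u, hu, hadj v u (fun h => hv (h ▸ hu)) huv.symm, huv⟩
    refine ⟨hD1, ?_, ?_⟩
    · intro v hv
      obtain ⟨u, hu, h1, _⟩ := key v hv
      exact ⟨u, hu, h1⟩
    · intro v hv
      obtain ⟨u, hu, h1, h2⟩ := key v hv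
      refine ⟨u, hu, h1, ?_, ?_⟩
      · rw [card_swap hu hv, hD1]
      · intro i
        by_cases hi : i = c v
        · exact ⟨v, mem_insert_self _ _, hi.symm⟩
        · obtain ⟨x, hx, hxi⟩ := hD2 i
          refine ⟨x, mem_insert_of_mem (mem_erase.2 ⟨?_, hx⟩), hxi⟩
          rintro rfl
          exact hi (hxi.symm.trans h2)

lemma gamma_le_of_cover {V : Type*} [DecidableEq V] {G : SimpleGraph V} {k : ℕ}
    (hk : 1 ≤ k) (h : CliqueCover G k) : gammaInf G ≤ k := by
  exact Nat.sInf_le ⟨hk, eternal_of_cover h⟩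

lemma attack {V : Type*} [DecidableEq V] {G : SimpleGraph V} {k : ℕ} {Fam : Set (Finset V)}
    (h : IsEternal G k Fam) {D : Finset V} (hD : D ∈ Fam) (v : V) :
    ∃ D' ∈ Fam, v ∈ D' ∧ ∀ w ∈ D, ¬ G.Adj v w → w ∈ D' := by
  by_cases hv : v ∈ D
  · exact ⟨D, hD, hv, fun w hw _ => hw⟩
  · obtain ⟨_, _, h3⟩ := h.2 D hD
    obtain ⟨u, hu, h4, h5⟩ := h3 v hv
    refine ⟨_, h5, mem_insert_self _ _, fun w hw hn => mem_insert_of_mem (mem_erase.2 ⟨?_, hw⟩)⟩
    rintro rfl
    exact hn h4

lemma not_adj {x y : Fin 12} (h : fadj x y = true) : ¬ G.Adj x y := by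
  rw [G_adj]; rintro ⟨_, h2⟩; rw [h] at h2; exact Bool.noConfusion h2

lemma four_le {k : ℕ} {Fam : Set (Finset (Fin 12))} (h : IsEternal G k Fam) : 4 ≤ k := by
  obtain ⟨D0, hD0⟩ := h.1
  obtain ⟨D1, hD1, h11, _⟩ := attack h hD0 11
  obtain ⟨D2, hD2, h20, h2⟩ := attack h hD1 0
  have h211 : (11 : Fin 12) ∈ D2 := h2 11 h11 (not_adj (by decide +kernel))
  obtain ⟨D3, hD3, h34, h3⟩ := attack h hD2 4
  have h311 : (11 : Fin 12) ∈ D3 := h3 11 h211 (not_adj (by decide +kernel))
  have h30 : (0 : Fin 12) ∈ D3 := h3 0 h20 (not_adj (by decide +kernel))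
  obtain ⟨hk, _, hresp⟩ := h.2 D3 hD3
  have hsub : ({11, 0, 4} : Finset (Fin 12)) ⊆ D3 := by
    intro x hx
    simp only [mem_insert, mem_singleton] at hx
    rcases hx with rfl | rfl | rfl
    · exact h311
    · exact h30
    · exact h34
  have hc3 : ({11, 0, 4} : Finset (Fin 12)).card = 3 := by decide
  by_contra hlt
  have hD3e : D3 = {11, 0, 4} := by
    symm
    apply eq_of_subset_of_card_le hsub
    rw [hc3, hk]; omega
  have h2n : (2 : Fin 12) ∉ D3 := by rw [hD3e]; decide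
  obtain ⟨u, hu, hadj, hmem⟩ := hresp 2 h2n
  obtain ⟨_, hdom, _⟩ := h.2 _ hmem
  rw [hD3e] at hu hdom
  simp only [mem_insert, mem_singleton] at hu
  rcases hu with rfl | rfl | rfl
  · exact not_adj (by decide +kernel) hadj
  · obtain ⟨w, hw, hw2⟩ := hdom 3 (by decide)
    have hw' : w = 2 ∨ w = 11 ∨ w = 4 := by
      clear hw2
      revert w; decide +kernel
    rcases hw' with rfl | rfl | rfl
    · exact not_adj (by decide +kernel) hw2
    · exact not_adj (by decide +kernel) hw2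
    · exact not_adj (by decide +kernel) hw2
  · obtain ⟨w, hw, hw2⟩ := hdom 1 (by decide)
    have hw' : w = 2 ∨ w = 11 ∨ w = 0 := by
      clear hw2
      revert w; decide +kernel
    rcases hw' with rfl | rfl | rfl
    · exact not_adj (by decide +kernel) hw2
    · exact not_adj (by decide +kernel) hw2
    · exact not_adj (by decide +kernel) hw2

/-- an explicit cover of `G` by 4 cliques -/
def col4 (x : Fin 12) : Fin 4 :=
  match x with
  | 0 => 0 | 2 => 0 | 5 => 0 | 7 => 0
  | 1 => 1 | 3 => 1 | 6 => 1 | 8 => 1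
  | 4 => 2 | 9 => 2
  | 10 => 3 | 11 => 3

lemma cover4 : CliqueCover G 4 := by
  refine ⟨col4, ?_, ?_⟩
  · intro i
    fin_cases i
    · exact ⟨0, rfl⟩
    · exact ⟨1, rfl⟩
    · exact ⟨4, rfl⟩
    · exact ⟨10, rfl⟩
  · intro x y hne hc
    rw [G_adj]
    refine ⟨hne, ?_⟩
    revert x y
    decide +kernel

lemma gamma_G : gammaInf G = 4 := by
  apply le_antisymm (gamma_le_of_cover (by norm_num) cover4)
  have hne : {k | 1 ≤ k ∧ ∃ Fam : Set (Finset (Fin 12)), IsEternal G k Fam}.Nonempty := by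
    exact ⟨4, by norm_num, eternal_of_cover cover4⟩
  obtain ⟨_, Fam, hF⟩ := Nat.sInf_mem hne
  exact four_le hF

lemma theta_G : theta G = 4 := by
  apply le_antisymm (Nat.sInf_le cover4)
  have hmem : CliqueCover G (theta G) := Nat.sInf_mem (s := {k | CliqueCover G k}) ⟨4, cover4⟩
  have hpos : 1 ≤ theta G := by
    by_contra h
    obtain ⟨c, _, _⟩ := hmem
    have h0 : theta G = 0 := by omega
    rw [h0] at c
    exact (c 0).elim0
  rw [← gamma_G]
  exact gamma_le_of_cover hpos hmem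

/-! ## the prism -/

/-- the prism -/
abbrev Pr : SimpleGraph (Fin 12 × Fin 2) := SimpleGraph.boxProd G (⊤ : SimpleGraph (Fin 2))

lemma Pr_adj (x y : Fin 12) (i j : Fin 2) :
    Pr.Adj (x, i) (y, j) ↔ (G.Adj x y ∧ i = j) ∨ (i ≠ j ∧ x = y) := by
  rw [SimpleGraph.boxProd_adj]
  simp

/-- a layer with a good triple -/
def Lay (D : Finset (Fin 12 × Fin 2)) (j : Fin 2) : Prop :=
  ∃ a b c : Fin 12, a ≠ b ∧ a ≠ c ∧ b ≠ c ∧ a ≠ 11 ∧ b ≠ 11 ∧ c ≠ 11 ∧
    (a, j) ∈ D ∧ (b, j) ∈ D ∧ (c, j) ∈ D ∧ fadj a b = true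

lemma tri_free : ∀ a b x : Fin 12, a ≠ 11 → b ≠ 11 → x ≠ 11 → fadj a b = true →
    fadj a x = true → fadj b x = false := by decide +kernel

/-- the eternal family on the prism -/
def FamP : Set (Finset (Fin 12 × Fin 2)) :=
  {D | D.card = 7 ∧ (∃ i, ((11 : Fin 12), i) ∈ D) ∧ ∀ j, Lay D j}

lemma lay_other {D : Finset (Fin 12 × Fin 2)} {j j' : Fin 2} (h : Lay D j) {u : Fin 12}
    {v : Fin 12 × Fin 2} (hu : j ≠ j' ∨ u = 11) : Lay (insert v (D.erase (u, j'))) j := by
  obtain ⟨a, b, c, h1, h2, h3, h4, h5, h6, h7, h8, h9, h10⟩ := h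
  have key : ∀ x, x ≠ 11 → (x, j) ∈ D → (x, j) ∈ insert v (D.erase (u, j')) := by
    intro x hx hxD
    refine mem_insert_of_mem (mem_erase.2 ⟨?_, hxD⟩)
    intro h
    rw [Prod.mk.injEq] at h
    rcases hu with h' | h'
    · exact h' h.2
    · exact hx (h.1.trans h')
  exact ⟨a, b, c, h1, h2, h3, h4, h5, h6, key a h4 h7, key b h5 h8, key c h6 h9, h10⟩

lemma respond {D : Finset (Fin 12 × Fin 2)} {j : Fin 2} (h : Lay D j) {x : Fin 12}
    (hx : x ≠ 11) (hxD : (x, j) ∉ D) :
    ∃ u, u ≠ 11 ∧ (u, j) ∈ D ∧ G.Adj x u ∧ Lay (insert (x, j) (D.erase (u, j))) j := by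
  obtain ⟨a, b, c, h1, h2, h3, h4, h5, h6, h7, h8, h9, h10⟩ := h
  have hxa : x ≠ a := by rintro rfl; exact hxD h7
  have hxb : x ≠ b := by rintro rfl; exact hxD h8
  have hxc : x ≠ c := by rintro rfl; exact hxD h9
  have keep : ∀ u w : Fin 12, w ≠ u → (w, j) ∈ D → (w, j) ∈ insert (x, j) (D.erase (u, j)) := by
    intro u w hwu hw
    refine mem_insert_of_mem (mem_erase.2 ⟨?_, hw⟩)
    intro h
    rw [Prod.mk.injEq] at h
    exact hwu h.1
  have new : ∀ u : Fin 12, (x, j) ∈ insert (x, j) (D.erase (u, j)) := fun u =>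
    mem_insert_self _ _
  by_cases hc : fadj c x = true
  · by_cases ha : fadj a x = true
    · have hb := tri_free a b x h4 h5 hx h10 ha
      refine ⟨b, h5, h8, ?_, x, c, a, hxc, hxa, h2.symm, hx, h6, h4, new b,
        keep b c h3.symm h9, keep b a h1 h7, ?_⟩
      · rw [G_adj]; exact ⟨hxb, by rw [fadj_symm]; exact hb⟩
      · rw [fadj_symm]; exact hc
    · refine ⟨a, h4, h7, ?_, x, c, b, hxc, hxb, h3.symm, hx, h6, h5, new a,
        keep a c h2.symm h9, keep a b h1.symm h8, ?_⟩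
      · rw [G_adj]; exact ⟨hxa, by rw [fadj_symm]; simpa using ha⟩
      · rw [fadj_symm]; exact hc
  · refine ⟨c, h6, h9, ?_, a, b, x, h1, hxa.symm, hxb.symm, h4, h5, hx,
      keep c a h2 h7, keep c b h3 h8, new c, h10⟩
    rw [G_adj]; exact ⟨hxc, by rw [fadj_symm]; simpa using hc⟩

lemma eternalP : IsEternal Pr 7 FamP := by
  constructor
  · refine ⟨{(0,0),(1,0),(2,0),(0,1),(1,1),(2,1),(11,0)}, by decide, ⟨0, by decide⟩, ?_⟩
    intro j
    fin_cases j
    · exact ⟨0, 1, 2, by decide, by decide, by decide, by decide, by decide, by decide,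
        by decide, by decide, by decide, by decide +kernel⟩
    · exact ⟨0, 1, 2, by decide, by decide, by decide, by decide, by decide, by decide,
        by decide, by decide, by decide, by decide +kernel⟩
  · rintro D ⟨hD1, ⟨i, hi⟩, hD3⟩
    have key : ∀ v, v ∉ D → ∃ u ∈ D, Pr.Adj v u ∧ insert v (D.erase u) ∈ FamP := by
      rintro ⟨x, j⟩ hv
      by_cases hx : x = 11
      · subst hx
        have hij : j ≠ i := by rintro rfl; exact hv hi
        refine ⟨(11, i), hi, ?_, ?_, ⟨j, mem_insert_self _ _⟩, fun j' =>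
          lay_other (hD3 j') (Or.inr rfl)⟩
        · rw [Pr_adj]; exact Or.inr ⟨hij, rfl⟩
        · rw [card_swap hi hv, hD1]
      · obtain ⟨u, hu11, huD, hadj, hlay⟩ := respond (hD3 j) hx hv
        refine ⟨(u, j), huD, ?_, ?_, ⟨i, ?_⟩, ?_⟩
        · rw [Pr_adj]; exact Or.inl ⟨hadj, rfl⟩
        · rw [card_swap huD hv, hD1]
        · refine mem_insert_of_mem (mem_erase.2 ⟨?_, hi⟩)
          intro h
          rw [Prod.mk.injEq] at h
          exact hu11 h.1.symm
        · intro j'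
          by_cases hj : j' = j
          · rw [hj]; exact hlay
          · exact lay_other (hD3 j') (Or.inl hj)
    exact ⟨hD1, fun v hv => by
      obtain ⟨u, hu, h1, _⟩ := key v hv
      exact ⟨u, hu, h1⟩, key⟩

lemma gamma_P : gammaInf Pr ≤ 7 := Nat.sInf_le ⟨by norm_num, FamP, eternalP⟩

/-! ## the clique cover number of the prism -/

section colour

variable {κ : Type*} [DecidableEq κ] {A : Finset κ}

lemma pent {p1 p2 p3 p4 p5 : κ} (h1 : p1 ∈ A) (h2 : p2 ∈ A) (h3 : p3 ∈ A) (h4 : p4 ∈ A)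
    (h5 : p5 ∈ A) (n12 : p1 ≠ p2) (n23 : p2 ≠ p3) (n34 : p3 ≠ p4) (n45 : p4 ≠ p5)
    (n51 : p5 ≠ p1) : 3 ≤ A.card := by
  by_contra hlt
  have hsub : ({p1, p2} : Finset κ) ⊆ A := by
    intro x hx
    simp only [mem_insert, mem_singleton] at hx
    rcases hx with rfl | rfl <;> assumption
  have hA : ({p1, p2} : Finset κ) = A := by
    apply eq_of_subset_of_card_le hsub
    rw [card_pair n12]; omega
  have hmem : ∀ x, x ∈ A → x = p1 ∨ x = p2 := by
    intro x hx
    rw [← hA] at hx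
    simpa using hx
  have e3 : p3 = p1 := by
    rcases hmem p3 h3 with h | h
    · exact h
    · exact absurd h.symm n23
  have e4 : p4 = p2 := by
    rcases hmem p4 h4 with h | h
    · exact absurd (e3.trans h.symm) n34
    · exact h
  rcases hmem p5 h5 with h | h
  · exact n51 h
  · exact n45 (e4.trans h.symm)

lemma tri3 {p1 p2 p3 : κ} (h1 : p1 ∈ A) (h2 : p2 ∈ A) (h3 : p3 ∈ A)
    (n12 : p1 ≠ p2) (n23 : p2 ≠ p3) (n13 : p1 ≠ p3) : 3 ≤ A.card := by
  have hsub : ({p1, p2, p3} : Finset κ) ⊆ A := by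
    intro x hx
    simp only [mem_insert, mem_singleton] at hx
    rcases hx with rfl | rfl | rfl <;> assumption
  have := card_le_card hsub
  rwa [card_eq_three.2 ⟨p1, p2, p3, n12, n13, n23, rfl⟩] at this

end colour

lemma groetzsch3 : ∀ a0 a1 : Fin 3, a0 ≠ a1 → ∀ a2, a1 ≠ a2 → ∀ a3, a2 ≠ a3 → ∀ a4, a3 ≠ a4 →
    a4 ≠ a0 → ∀ w b0 : Fin 3, w ≠ b0 → b0 ≠ a1 → b0 ≠ a4 → ∀ b1, w ≠ b1 → b1 ≠ a2 → b1 ≠ a0 →
    ∀ b2, w ≠ b2 → b2 ≠ a3 → b2 ≠ a1 → ∀ b3, w ≠ b3 → b3 ≠ a4 → b3 ≠ a2 → ∀ b4, w ≠ b4 →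
    b4 ≠ a0 → b4 ≠ a3 → False := by decide +kernel

/-- triangles (with the vertex 11) -/
def tris : List (Fin 12 × Fin 12) :=
  [(0,1),(1,2),(2,3),(3,4),(4,0),(5,1),(5,4),(6,2),(6,0),(7,3),(7,1),(8,4),(8,2),(9,0),(9,3)]

/-- pentagons -/
def pents : List (Fin 12 × Fin 12 × Fin 12 × Fin 12 × Fin 12) :=
  [(0,1,2,3,4),(5,1,2,3,4),(0,6,2,3,4),(0,1,7,3,4),(0,1,2,8,4),(0,1,2,3,9),
   (10,5,1,2,8),(10,6,2,3,9),(10,7,3,4,5),(10,8,4,0,6),(10,9,0,1,7)]

lemma tris_ok : ∀ t ∈ tris, fadj t.1 t.2 = true ∧ fadj 11 t.1 = true ∧ fadj 11 t.2 = true := by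
  decide +kernel

/-- pentagon check -/
def isPent (t : Fin 12 × Fin 12 × Fin 12 × Fin 12 × Fin 12) : Bool :=
  fadj t.1 t.2.1 && fadj t.2.1 t.2.2.1 && fadj t.2.2.1 t.2.2.2.1 && fadj t.2.2.2.1 t.2.2.2.2 &&
    fadj t.2.2.2.2 t.1

lemma pents_ok0 : pents.all isPent = true := by decide +kernel

lemma pents_ok : ∀ t ∈ pents, fadj t.1 t.2.1 = true ∧ fadj t.2.1 t.2.2.1 = true ∧
    fadj t.2.2.1 t.2.2.2.1 = true ∧ fadj t.2.2.2.1 t.2.2.2.2 = true ∧
    fadj t.2.2.2.2 t.1 = true := by
  intro t ht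
  have h := List.all_eq_true.1 pents_ok0 t ht
  unfold isPent at h
  simp only [Bool.and_eq_true] at h
  tauto

/-- a cycle avoiding three vertices -/
def hasCycle (a b c : Fin 12) : Bool :=
  (tris.any (fun t => t.1 != a && t.1 != b && t.1 != c && t.2 != a && t.2 != b && t.2 != c &&
    (11 : Fin 12) != a && (11 : Fin 12) != b && (11 : Fin 12) != c)) ||
  (pents.any (fun t => t.1 != a && t.1 != b && t.1 != c && t.2.1 != a && t.2.1 != b &&
    t.2.1 != c && t.2.2.1 != a && t.2.2.1 != b && t.2.2.1 != c && t.2.2.2.1 != a &&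
    t.2.2.2.1 != b && t.2.2.2.1 != c && t.2.2.2.2 != a && t.2.2.2.2 != b && t.2.2.2.2 != c))

lemma hasCycle_all : ∀ a b c : Fin 12, hasCycle a b c = true := by decide +kernel

/-- a pentagon inside the neighbourhood of 11 avoiding `s` -/
def hasWheel (s : Fin 12) : Bool :=
  (pents.any (fun t => t.1 != s && t.2.1 != s && t.2.2.1 != s && t.2.2.2.1 != s &&
    t.2.2.2.2 != s && fadj 11 t.1 && fadj 11 t.2.1 && fadj 11 t.2.2.1 && fadj 11 t.2.2.2.1 &&
    fadj 11 t.2.2.2.2))

lemma hasWheel_all : ∀ s : Fin 12, hasWheel s = true := by decide +kernel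

/-- index of the matching edge -/
def mat (x : Fin 12) : Fin 6 :=
  match x with
  | 11 => 0 | 9 => 0
  | 10 => 1 | 5 => 1
  | 0 => 2 | 6 => 2
  | 1 => 3 | 7 => 3
  | 2 => 4 | 8 => 4
  | 3 => 5 | 4 => 5

section L

variable {κ : Type*} [DecidableEq κ] {g : Fin 12 → κ}

lemma L0 {S : Finset (Fin 12)} (hS : S.card ≤ 7) : 1 ≤ ((univ \ S).image g).card := by
  have h1 : (univ \ S).card = 12 - S.card := by
    rw [card_sdiff_of_subset (subset_univ S), card_univ, Fintype.card_fin]
  have h2 : (univ \ S).Nonempty := card_pos.1 (by omega)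
  exact card_pos.2 (h2.image g)

lemma L1 (hg : ∀ x y, fadj x y = true → g x ≠ g y) {S : Finset (Fin 12)} (hS : S.card ≤ 5) :
    2 ≤ ((univ \ S).image g).card := by
  by_contra hlt
  have hone : ((univ \ S).image g).card ≤ 1 := by omega
  rw [card_le_one] at hone
  have hedge : ∀ x y, fadj x y = true → x ∈ S ∨ y ∈ S := by
    intro x y hxy
    by_contra hcon
    push Not at hcon
    exact hg x y hxy (hone _ (mem_image_of_mem g (mem_sdiff.2 ⟨mem_univ _, hcon.1⟩)) _
      (mem_image_of_mem g (mem_sdiff.2 ⟨mem_univ _, hcon.2⟩)))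
  have himg : S.image mat = univ := by
    rw [eq_univ_iff_forall]
    intro i
    have pick : ∀ x y : Fin 12, fadj x y = true → mat x = i → mat y = i → i ∈ S.image mat := by
      intro x y hxy h1 h2
      rcases hedge x y hxy with h | h
      · rw [← h1]; exact mem_image_of_mem mat h
      · rw [← h2]; exact mem_image_of_mem mat h
    fin_cases i
    · exact pick 11 9 (by decide +kernel) rfl rfl
    · exact pick 10 5 (by decide +kernel) rfl rfl
    · exact pick 0 6 (by decide +kernel) rfl rfl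
    · exact pick 1 7 (by decide +kernel) rfl rfl
    · exact pick 2 8 (by decide +kernel) rfl rfl
    · exact pick 3 4 (by decide +kernel) rfl rfl
  have h1 : (S.image mat).card ≤ S.card := card_image_le
  rw [himg, card_univ, Fintype.card_fin] at h1
  omega

lemma L2 (hg : ∀ x y, fadj x y = true → g x ≠ g y) {S : Finset (Fin 12)} (hS : S.card ≤ 3) :
    3 ≤ ((univ \ S).image g).card := by
  obtain ⟨T, hST, _, hT⟩ := exists_subsuperset_card_eq (n := 3) (subset_univ S) hS
    (by rw [card_univ, Fintype.card_fin]; norm_num)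
  obtain ⟨a, b, c, _, _, _, hTe⟩ := card_eq_three.1 hT
  have hmem : ∀ x, x ≠ a → x ≠ b → x ≠ c → g x ∈ (univ \ S).image g := by
    intro x h1 h2 h3
    apply mem_image_of_mem g
    rw [mem_sdiff]
    refine ⟨mem_univ _, fun h => ?_⟩
    have := hST h
    rw [hTe] at this
    simp only [mem_insert, mem_singleton] at this
    tauto
  have h := hasCycle_all a b c
  unfold hasCycle at h
  rw [Bool.or_eq_true, List.any_eq_true, List.any_eq_true] at h
  rcases h with ⟨t, ht, h⟩ | ⟨t, ht, h⟩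
  · simp only [Bool.and_eq_true, bne_iff_ne, ne_eq] at h
    obtain ⟨h1, h2, h3⟩ := tris_ok t ht
    exact tri3 (hmem t.1 (by tauto) (by tauto) (by tauto)) (hmem t.2 (by tauto) (by tauto)
      (by tauto)) (hmem 11 (by tauto) (by tauto) (by tauto)) (hg _ _ h1) (hg _ _ h3).symm
      (hg _ _ h2).symm
  · simp only [Bool.and_eq_true, bne_iff_ne, ne_eq] at h
    obtain ⟨h1, h2, h3, h4, h5⟩ := pents_ok t ht
    exact pent (hmem t.1 (by tauto) (by tauto) (by tauto))
      (hmem t.2.1 (by tauto) (by tauto) (by tauto))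
      (hmem t.2.2.1 (by tauto) (by tauto) (by tauto))
      (hmem t.2.2.2.1 (by tauto) (by tauto) (by tauto))
      (hmem t.2.2.2.2 (by tauto) (by tauto) (by tauto))
      (hg _ _ h1) (hg _ _ h2) (hg _ _ h3) (hg _ _ h4) (hg _ _ h5)

lemma L3 (hg : ∀ x y, fadj x y = true → g x ≠ g y) {S : Finset (Fin 12)} (hS : S.card ≤ 1) :
    4 ≤ ((univ \ S).image g).card := by
  obtain ⟨s, hs⟩ := card_le_one_iff_subset_singleton.1 hS
  have hmem : ∀ x, x ≠ s → g x ∈ (univ \ S).image g := by
    intro x h1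
    apply mem_image_of_mem g
    rw [mem_sdiff]
    exact ⟨mem_univ _, fun h => h1 (mem_singleton.1 (hs h))⟩
  by_cases hs11 : s = 11
  · subst hs11
    by_contra hlt
    have hle : ((univ \ S).image g).card ≤ 3 := by omega
    obtain ⟨h, hh⟩ : ∃ h : κ → Fin 3, ∀ p q, p ∈ (univ \ S).image g →
        q ∈ (univ \ S).image g → p ≠ q → h p ≠ h q := by
      refine ⟨fun q => if hq : q ∈ (univ \ S).image g then
        Fin.castLE hle (((univ \ S).image g).equivFin ⟨q, hq⟩) else 0, ?_⟩
      intro p q hp hq hpq heq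
      simp only [hp, hq, dite_true] at heq
      have h1 := Fin.castLE_injective hle heq
      have h2 := (((univ \ S).image g).equivFin).injective h1
      exact hpq (congrArg Subtype.val h2)
    have hne : ∀ x y, x ≠ 11 → y ≠ 11 → fadj x y = true → h (g x) ≠ h (g y) := by
      intro x y hx hy hxy
      exact hh _ _ (hmem x hx) (hmem y hy) (hg x y hxy)
    exact groetzsch3 (h (g 0)) (h (g 1)) (hne _ _ (by decide) (by decide) (by decide +kernel))
      (h (g 2)) (hne _ _ (by decide) (by decide) (by decide +kernel))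
      (h (g 3)) (hne _ _ (by decide) (by decide) (by decide +kernel))
      (h (g 4)) (hne _ _ (by decide) (by decide) (by decide +kernel))
      (hne _ _ (by decide) (by decide) (by decide +kernel))
      (h (g 10)) (h (g 5)) (hne _ _ (by decide) (by decide) (by decide +kernel))
      (hne _ _ (by decide) (by decide) (by decide +kernel))
      (hne _ _ (by decide) (by decide) (by decide +kernel))
      (h (g 6)) (hne _ _ (by decide) (by decide) (by decide +kernel))
      (hne _ _ (by decide) (by decide) (by decide +kernel))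
      (hne _ _ (by decide) (by decide) (by decide +kernel))
      (h (g 7)) (hne _ _ (by decide) (by decide) (by decide +kernel))
      (hne _ _ (by decide) (by decide) (by decide +kernel))
      (hne _ _ (by decide) (by decide) (by decide +kernel))
      (h (g 8)) (hne _ _ (by decide) (by decide) (by decide +kernel))
      (hne _ _ (by decide) (by decide) (by decide +kernel))
      (hne _ _ (by decide) (by decide) (by decide +kernel))
      (h (g 9)) (hne _ _ (by decide) (by decide) (by decide +kernel))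
      (hne _ _ (by decide) (by decide) (by decide +kernel))
      (hne _ _ (by decide) (by decide) (by decide +kernel))
  · have h := hasWheel_all s
    unfold hasWheel at h
    rw [List.any_eq_true] at h
    obtain ⟨t, ht, h⟩ := h
    simp only [Bool.and_eq_true, bne_iff_ne, ne_eq] at h
    obtain ⟨h1, h2, h3, h4, h5⟩ := pents_ok t ht
    have h11 : g 11 ∈ (univ \ S).image g := hmem 11 (fun h => hs11 h.symm)
    have hm2 : ∀ x, x ≠ s → fadj 11 x = true → g x ∈ ((univ \ S).image g).erase (g 11) := by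
      intro x hx hf
      exact mem_erase.2 ⟨(hg 11 x hf).symm, hmem x hx⟩
    have h6 := pent (hm2 t.1 (by tauto) (by tauto)) (hm2 t.2.1 (by tauto) (by tauto))
      (hm2 t.2.2.1 (by tauto) (by tauto)) (hm2 t.2.2.2.1 (by tauto) (by tauto))
      (hm2 t.2.2.2.2 (by tauto) (by tauto))
      (hg _ _ h1) (hg _ _ h2) (hg _ _ h3) (hg _ _ h4) (hg _ _ h5)
    rw [card_erase_of_mem h11] at h6
    omega

end L

lemma theta_P_lower {k : ℕ} (h : CliqueCover Pr k) : 8 ≤ k := by
  obtain ⟨c, _, hc⟩ := h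
  have hcross : ∀ x y : Fin 12, ∀ i j : Fin 2, i ≠ j → x ≠ y → c (x, i) ≠ c (y, j) := by
    intro x y i j hij hxy heq
    have h1 := hc (x, i) (y, j) (fun h => hxy (congrArg Prod.fst h)) heq
    rw [Pr_adj] at h1
    rcases h1 with h1 | h1
    · exact hij h1.2
    · exact hxy h1.2
  have hg : ∀ i : Fin 2, ∀ x y, fadj x y = true → c (x, i) ≠ c (y, i) := by
    intro i x y hxy heq
    have hne : x ≠ y := by
      rintro rfl
      rw [fadj_irrefl] at hxy; exact Bool.noConfusion hxy
    have h1 := hc (x, i) (y, i) (fun h => hne (congrArg Prod.fst h)) heq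
    rw [Pr_adj] at h1
    rcases h1 with h1 | h1
    · exact not_adj hxy h1.1
    · exact h1.1 rfl
  let S : Finset (Fin 12) := univ.filter (fun x => c (x, 0) = c (x, 1))
  have hS : ∀ x, x ∈ S ↔ c (x, 0) = c (x, 1) := by
    intro x; simp [S]
  have hinj : (S.image (fun x => c (x, 0))).card = S.card := by
    apply card_image_of_injOn
    intro x hx y hy hxy
    by_contra hne
    have hy' := (hS y).1 (mem_coe.1 hy)
    exact hcross x y 0 1 (by decide) hne (by rw [← hy']; exact hxy)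
  have hd01 : Disjoint ((univ \ S).image (fun x => c (x, 0)))
      ((univ \ S).image (fun x => c (x, 1))) := by
    rw [Finset.disjoint_left]
    intro q h1 h2
    obtain ⟨x, hx, hxq⟩ := mem_image.1 h1
    obtain ⟨y, hy, hyq⟩ := mem_image.1 h2
    by_cases hxy : x = y
    · subst hxy
      exact (mem_sdiff.1 hx).2 ((hS x).2 (hxq.trans hyq.symm))
    · exact hcross x y 0 1 (by decide) hxy (hxq.trans hyq.symm)
  have hdS : ∀ i : Fin 2, Disjoint (S.image (fun x => c (x, 0)))
      ((univ \ S).image (fun x => c (x, i))) := by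
    intro i
    rw [Finset.disjoint_left]
    intro q h1 h2
    obtain ⟨x, hx, hxq⟩ := mem_image.1 h1
    obtain ⟨y, hy, hyq⟩ := mem_image.1 h2
    have hxy : x ≠ y := by rintro rfl; exact (mem_sdiff.1 hy).2 hx
    have hx' := (hS x).1 hx
    fin_cases i
    · exact hcross x y 1 0 (by decide) hxy (by rw [← hx']; exact hxq.trans hyq.symm)
    · exact hcross x y 0 1 (by decide) hxy (hxq.trans hyq.symm)
  have htot : S.card + ((univ \ S).image (fun x => c (x, 0))).card +
      ((univ \ S).image (fun x => c (x, 1))).card ≤ k := by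
    rw [← hinj, ← card_union_of_disjoint (hdS 0), ← card_union_of_disjoint]
    · exact (card_le_univ _).trans (by rw [Fintype.card_fin])
    · rw [disjoint_union_left]
      exact ⟨hdS 1, hd01⟩
  by_contra hlt
  have b0 := fun (h : S.card ≤ 7) => L0 (g := fun x => c (x, 0)) h
  have b1 := fun (h : S.card ≤ 7) => L0 (g := fun x => c (x, 1)) h
  have c0 := fun (h : S.card ≤ 5) => L1 (g := fun x => c (x, 0)) (hg 0) h
  have c1 := fun (h : S.card ≤ 5) => L1 (g := fun x => c (x, 1)) (hg 1) h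
  have d0 := fun (h : S.card ≤ 3) => L2 (g := fun x => c (x, 0)) (hg 0) h
  have d1 := fun (h : S.card ≤ 3) => L2 (g := fun x => c (x, 1)) (hg 1) h
  have e0 := fun (h : S.card ≤ 1) => L3 (g := fun x => c (x, 0)) (hg 0) h
  have e1 := fun (h : S.card ≤ 1) => L3 (g := fun x => c (x, 1)) (hg 1) h
  rcases Nat.lt_or_ge S.card 2 with h | h
  · have := e0 (by omega); have := e1 (by omega); omega
  · rcases Nat.lt_or_ge S.card 4 with h | h
    · have := d0 (by omega); have := d1 (by omega); omega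
    · rcases Nat.lt_or_ge S.card 6 with h | h
      · have := c0 (by omega); have := c1 (by omega); omega
      · rcases Nat.lt_or_ge S.card 8 with h | h
        · have := b0 (by omega); have := b1 (by omega); omega
        · omega

lemma theta_P : 8 ≤ theta Pr := by
  have hne : {k | CliqueCover Pr k}.Nonempty := by
    refine ⟨24, ?_⟩
    have e : Fin 12 × Fin 2 ≃ Fin 24 := Fintype.equivFinOfCardEq (by decide)
    exact ⟨e, e.surjective, fun x y hne h => absurd (e.injective h) hne⟩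
  exact theta_P_lower (Nat.sInf_mem hne)

end Pool.Agent.X229.EternalPrism
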