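import Mathlib

namespace Pool.Agent.X229.Hess

/-- the cubic form -/
def NN (A B p q r : ℤ) : ℤ :=
  p ^ 3 + q ^ 3 + r ^ 3 + p ^ 2 * (q * A + r * B) + p * (q ^ 2 * B + r ^ 2 * A)
    + p * q * r * (A * B - 3) + q ^ 2 * r * (B ^ 2 - 2 * A) + q * r ^ 2 * (A ^ 2 - 2 * B)

/-- minus the discriminant of `T^3 - A T^2 + B T - 1` -/
def DD (A B : ℤ) : ℤ := 4 * A ^ 3 + 4 * B ^ 3 - A ^ 2 * B ^ 2 - 18 * A * B + 27

theorem NN_step (A B p q r : ℤ) : NN A B (r - q * B) (p + q * A) q = NN A B p q r := by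
  unfold NN; ring

theorem NN_stepinv (A B p q r : ℤ) : NN A B (q - r * A) r (p + r * B) = NN A B p q r := by
  unfold NN; ring

theorem NN_swap (A B p q r : ℤ) : NN B A p r q = NN A B p q r := by
  unfold NN; ring

theorem NN_neg (A B p q r : ℤ) : NN A B (-p) (-q) (-r) = - NN A B p q r := by
  unfold NN; ring

theorem NN_sq (c p q r : ℤ) : NN (c ^ 2) (-2 * c) p q r = NN c 0 (p - r * c) (r + q * c) q := by
  unfold NN; ring

theorem DD_swap (A B : ℤ) : DD B A = DD A B := by unfold DD; ring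

/-- `L`: the real embedding of `p + q θ + r θ⁻¹` -/
noncomputable def LL (t : ℝ) (p q r : ℤ) : ℝ := p + q * t + r * t⁻¹

theorem real_root (A B : ℤ) (hA : 2 ≤ A) (hB : B ≤ A - 2) :
    ∃ t : ℝ, 2 < t ∧ t ^ 3 - A * t ^ 2 + B * t - 1 = 0 := by
  have hA' : (2 : ℝ) ≤ A := by exact_mod_cast hA
  have hB' : (B : ℝ) ≤ A - 2 := by exact_mod_cast hB
  have hc : ContinuousOn (fun x : ℝ => x ^ 3 - A * x ^ 2 + B * x - 1) (Set.Icc 2 (2 + A + |(B : ℝ)|)) := by
    fun_prop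
  have hle : (2 : ℝ) ≤ 2 + A + |(B : ℝ)| := by
    have := abs_nonneg (B : ℝ)
    linarith
  have h0 : (0 : ℝ) ∈ Set.Ioo ((fun x : ℝ => x ^ 3 - A * x ^ 2 + B * x - 1) 2)
      ((fun x : ℝ => x ^ 3 - A * x ^ 2 + B * x - 1) (2 + A + |(B : ℝ)|)) := by
    constructor
    · show (2 : ℝ) ^ 3 - A * 2 ^ 2 + B * 2 - 1 < 0
      nlinarith
    · show (0 : ℝ) < (2 + A + |(B : ℝ)|) ^ 3 - A * (2 + A + |(B : ℝ)|) ^ 2 + B * (2 + A + |(B : ℝ)|) - 1
      have hb := neg_abs_le (B : ℝ)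
      have hb0 := abs_nonneg (B : ℝ)
      set b := |(B : ℝ)| with hbdef
      set K := 2 + (A : ℝ) + b with hK
      have hK2 : 4 ≤ K := by linarith
      have e : K ^ 3 - A * K ^ 2 + B * K - 1 = K * ((2 + b) * K + B) - 1 := by
        rw [hK]; ring
      rw [e]
      have h1 : 8 ≤ (2 + b) * K + B := by nlinarith
      nlinarith
  obtain ⟨t, ht, hft⟩ := intermediate_value_Ioo hle hc h0
  exact ⟨t, ht.1, hft⟩

/-- multiplication by powers of the unit -/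
theorem shift (A B : ℤ) (hA : Even A) (hB : Even B) (t : ℝ) (ht : 0 < t)
    (hroot : t ^ 3 - A * t ^ 2 + B * t - 1 = 0) (k : ℤ) :
    ∀ p q r : ℤ, Odd p → Odd q → Odd r →
      ∃ p' q' r' : ℤ, Odd p' ∧ Odd q' ∧ Odd r' ∧ NN A B p' q' r' = NN A B p q r ∧
        LL t p' q' r' = LL t p q r * t ^ k := by
  have ht0 : t ≠ 0 := ht.ne'
  induction k using Int.induction_on with
  | zero =>
    intro p q r hp hq hr
    exact ⟨p, q, r, hp, hq, hr, rfl, by simp⟩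
  | succ k ih =>
    intro p q r hp hq hr
    obtain ⟨p1, q1, r1, hp1, hq1, hr1, hN, hL⟩ := ih p q r hp hq hr
    refine ⟨r1 - q1 * B, p1 + q1 * A, q1, ?_, ?_, hq1, ?_, ?_⟩
    · exact hr1.sub_even (hB.mul_left _)
    · exact hp1.add_even (hA.mul_left _)
    · rw [NN_step, hN]
    · rw [zpow_add₀ ht0, zpow_one, ← mul_assoc, ← hL]
      unfold LL
      push_cast
      have h2 : t⁻¹ = t ^ 2 - A * t + B := by
        field_simp
        linarith
      rw [h2]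
      have h3 : (r1 : ℝ) * t⁻¹ * t = r1 := by field_simp
      have h4 : ((p1 : ℝ) + q1 * t + r1 * (t ^ 2 - A * t + B)) * t
          = p1 * t + q1 * t ^ 2 + r1 * (t * (t ^ 2 - A * t + B)) := by ring
      rw [h4]
      have h5 : t * (t ^ 2 - A * t + B) = 1 := by linarith
      rw [h5]
      ring
  | pred k ih =>
    intro p q r hp hq hr
    obtain ⟨p1, q1, r1, hp1, hq1, hr1, hN, hL⟩ := ih p q r hp hq hr
    refine ⟨q1 - r1 * A, r1, p1 + r1 * B, ?_, hr1, ?_, ?_, ?_⟩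
    · exact hq1.sub_even (hA.mul_left _)
    · exact hp1.add_even (hB.mul_left _)
    · rw [NN_stepinv, hN]
    · rw [zpow_sub_one₀ ht0, ← mul_assoc, ← hL]
      unfold LL
      push_cast
      have h2 : t⁻¹ = t ^ 2 - A * t + B := by
        field_simp
        linarith
      have h5 : t * t⁻¹ = 1 := by field_simp
      have h6 : t⁻¹ * t⁻¹ = t - A + B * t⁻¹ := by
        have : t⁻¹ * t⁻¹ = t⁻¹ * (t ^ 2 - A * t + B) := by rw [← h2]
        rw [this]
        have : t⁻¹ * (t ^ 2 - A * t + B) = (t * t⁻¹) * t - A * (t * t⁻¹) + B * t⁻¹ := by ring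
        rw [this, h5]; ring
      have h7 : ((p1 : ℝ) + q1 * t + r1 * t⁻¹) * t⁻¹
          = p1 * t⁻¹ + q1 * (t * t⁻¹) + r1 * (t⁻¹ * t⁻¹) := by ring
      rw [h7, h5, h6]
      ring


/-- the data attached to a real root -/
structure Dat (A B p q r : ℤ) (t s u L ρ y κ W : ℝ) : Prop where
  ht : 2 < t
  hu : u * t = 1
  hA : (A : ℝ) = t + s
  hB : (B : ℝ) = t * s + u
  hκ : κ = 4 - s ^ 2 * t
  hW : W = t ^ 2 - s * t + u
  hL : L = p + q * t + r * u
  hρ : ρ = p + (q + r * t) * s / 2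
  hy : y = q - r * t

theorem Dat.u_pos {A B p q r : ℤ} {t s u L ρ y κ W : ℝ} (h : Dat A B p q r t s u L ρ y κ W) : 0 < u := by
  have h1 := h.ht
  have h2 := h.hu
  by_contra h3
  push Not at h3
  nlinarith

theorem Dat.u_lt {A B p q r : ℤ} {t s u L ρ y κ W : ℝ} (h : Dat A B p q r t s u L ρ y κ W) : u < 1 / 2 := by
  have h1 := h.ht
  have h2 := h.hu
  have h3 := h.u_pos
  by_contra h4
  push Not at h4
  nlinarith

theorem Dat.N_eq {A B p q r : ℤ} {t s u L ρ y κ W : ℝ} (h : Dat A B p q r t s u L ρ y κ W) :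
    4 * (NN A B p q r : ℝ) = L * (4 * ρ ^ 2 + κ * y ^ 2 * u) := by
  have hu := h.hu
  have ht := h.ht
  have ht0 : t ≠ 0 := by linarith
  have hu' : u = t⁻¹ := by field_simp; linarith
  have e : (NN A B p q r : ℝ) = (p:ℝ) ^ 3 + q ^ 3 + r ^ 3 + p ^ 2 * (q * A + r * B)
    + p * (q ^ 2 * B + r ^ 2 * A)
    + p * q * r * (A * B - 3) + q ^ 2 * r * (B ^ 2 - 2 * A) + q * r ^ 2 * (A ^ 2 - 2 * B) := by
    unfold NN; push_cast; ring
  rw [e, h.hA, h.hB, h.hL, h.hρ, h.hy, h.hκ, hu']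
  field_simp
  ring

theorem Dat.D_eq {A B p q r : ℤ} {t s u L ρ y κ W : ℝ} (h : Dat A B p q r t s u L ρ y κ W) :
    (DD A B : ℝ) * t = W ^ 2 * κ := by
  have hu := h.hu
  have ht := h.ht
  have ht0 : t ≠ 0 := by linarith
  have hu' : u = t⁻¹ := by field_simp; linarith
  have e : (DD A B : ℝ) = 4 * (A:ℝ) ^ 3 + 4 * B ^ 3 - A ^ 2 * B ^ 2 - 18 * A * B + 27 := by
    unfold DD; push_cast; ring
  rw [e, h.hA, h.hB, h.hW, h.hκ, hu']
  field_simp
  ring

theorem Dat.k_eq {A B p q r : ℤ} {t s u L ρ y κ W : ℝ} (h : Dat A B p q r t s u L ρ y κ W) :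
    ((4 * A - B ^ 2 : ℤ) : ℝ) = t * κ + 2 * s - u ^ 2 := by
  have hu := h.hu
  have ht := h.ht
  have ht0 : t ≠ 0 := by linarith
  have hu' : u = t⁻¹ := by field_simp; linarith
  push_cast
  rw [h.hA, h.hB, h.hκ, hu']
  field_simp
  ring

theorem Dat.rW_eq {A B p q r : ℤ} {t s u L ρ y κ W : ℝ} (h : Dat A B p q r t s u L ρ y κ W) :
    r * W = L - ρ - y * (t - s / 2) := by
  rw [h.hL, h.hρ, h.hy, h.hW]
  ring

theorem Dat.q_eq {A B p q r : ℤ} {t s u L ρ y κ W : ℝ} (h : Dat A B p q r t s u L ρ y κ W) :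
    q * (t - s / 2) = L - ρ + r * (t * s / 2 - u) := by
  rw [h.hL, h.hρ]
  ring

theorem Dat.tau1 {A B p q r : ℤ} {t s u L ρ y κ W : ℝ} (h : Dat A B p q r t s u L ρ y κ W) :
    ((3 * p + q * A + r * B : ℤ) : ℝ) = L + 2 * ρ := by
  push_cast
  rw [h.hL, h.hρ, h.hA, h.hB]
  ring

theorem Dat.tau2 {A B p q r : ℤ} {t s u L ρ y κ W : ℝ} (h : Dat A B p q r t s u L ρ y κ W) :
    ∃ R : ℝ, ((p * B + 3 * q + r * (B ^ 2 - 2 * A) : ℤ) : ℝ) = L * u + R ∧
      R ^ 2 + t * κ * (p + r * t * s) ^ 2 = t * (4 * ρ ^ 2 + κ * y ^ 2 * u) := by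
  have hu := h.hu
  have ht := h.ht
  have ht0 : t ≠ 0 := by linarith
  have hu' : u = t⁻¹ := by field_simp; linarith
  refine ⟨p * (t * s) + 2 * q + r * (t ^ 2 * s ^ 2 - 2 * t), ?_, ?_⟩
  · push_cast
    rw [h.hL, h.hA, h.hB, hu']
    field_simp
    ring
  · rw [h.hρ, h.hy, h.hκ, hu']
    field_simp
    ring


theorem Dat.neg {A B p q r : ℤ} {t s u L ρ y κ W : ℝ} (h : Dat A B p q r t s u L ρ y κ W) :
    Dat A B (-p) (-q) (-r) t s u (-L) (-ρ) (-y) κ W where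
  ht := h.ht
  hu := h.hu
  hA := h.hA
  hB := h.hB
  hκ := h.hκ
  hW := h.hW
  hL := by rw [h.hL]; push_cast; ring
  hρ := by rw [h.hρ]; push_cast; ring
  hy := by rw [h.hy]; push_cast; ring

/-- basic consequences of `|N| = 4` and `1 ≤ |L|` -/
theorem Dat.bd {A B p q r : ℤ} {t s u L ρ y κ W : ℝ} (h : Dat A B p q r t s u L ρ y κ W)
    (hκ0 : 0 < κ) (hN : |L| * (4 * ρ ^ 2 + κ * y ^ 2 * u) = 16) (hL1 : 1 ≤ |L|) :
    |L| * ρ ^ 2 ≤ 4 ∧ ρ ^ 2 ≤ 4 ∧ |L| * (t * κ) * y ^ 2 ≤ 16 * t ^ 2 ∧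
      4 * ρ ^ 2 + κ * y ^ 2 * u ≤ 16 := by
  have hu := h.u_pos
  have hut := h.hu
  have ht := h.ht
  have h1 : 0 ≤ κ * y ^ 2 * u := by positivity
  have h2 : 0 ≤ ρ ^ 2 := sq_nonneg _
  have h3 : |L| * ρ ^ 2 ≤ 4 := by nlinarith
  have h4 : ρ ^ 2 ≤ 4 := by nlinarith
  refine ⟨h3, h4, ?_, ?_⟩
  · have h5 : |L| * (κ * y ^ 2 * u) ≤ 16 := by nlinarith
    have h6 : |L| * (κ * y ^ 2 * u) * t ^ 2 ≤ 16 * t ^ 2 := by
      apply mul_le_mul_of_nonneg_right h5; positivity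
    have h7 : |L| * (κ * y ^ 2 * u) * t ^ 2 = |L| * (t * κ) * y ^ 2 * (u * t) := by ring
    rw [h7, hut] at h6
    linarith
  · nlinarith

theorem sqb {x c : ℝ} (hc : 0 ≤ c) (h : x ^ 2 ≤ c ^ 2) : -c ≤ x ∧ x ≤ c :=
  abs_le.mp (abs_le_of_sq_le_sq h hc)

theorem pre {A B p q r : ℤ} {t s u L ρ y κ W : ℝ} (h : Dat A B p q r t s u L ρ y κ W)
    (hκ0 : 0 < κ) (hk : 4 ≤ t * κ + 2 * s - u ^ 2)
    (hρ2 : ρ ^ 2 ≤ 4) (ht : 12 ≤ t) :
    (-(3 / 5) ≤ s ∧ s ≤ 3 / 5) ∧ u ≤ 1 / 12 ∧ 14 / 5 ≤ t * κ ∧ (-2 ≤ ρ ∧ ρ ≤ 2) ∧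
      (-(3 / 5 * t) ≤ t * s ∧ t * s ≤ 3 / 5 * t) := by
  have hu := h.u_pos
  have hut := h.hu
  have hs2 : s ^ 2 * t < 4 := by have := h.hκ; linarith
  have hs3 : s ^ 2 * 12 ≤ s ^ 2 * t := mul_le_mul_of_nonneg_left ht (sq_nonneg s)
  have hs : -(3 / 5) ≤ s ∧ s ≤ 3 / 5 := by
    apply sqb (by norm_num)
    norm_num
    linarith
  have hu12 : u ≤ 1 / 12 := by
    have : u * 12 ≤ u * t := mul_le_mul_of_nonneg_left ht hu.le
    linarith
  have hκt : 14 / 5 ≤ t * κ := by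
    have := sq_nonneg u
    linarith [hs.2]
  have hρ : -2 ≤ ρ ∧ ρ ≤ 2 := by
    apply sqb (by norm_num)
    norm_num
    linarith
  refine ⟨hs, hu12, hκt, hρ, ?_, ?_⟩
  · have := mul_le_mul_of_nonneg_left hs.1 (by linarith : (0 : ℝ) ≤ t)
    linarith
  · have := mul_le_mul_of_nonneg_left hs.2 (by linarith : (0 : ℝ) ≤ t)
    linarith

theorem big_one {A B p q : ℤ} {t s u L ρ y κ W : ℝ} (h : Dat A B p q 1 t s u L ρ y κ W)
    (hκ0 : 0 < κ) (hk : 4 ≤ t * κ + 2 * s - u ^ 2)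
    (hN : |L| * (4 * ρ ^ 2 + κ * y ^ 2 * u) = 16) (hL1 : 1 ≤ |L|) (hLt : |L| < t)
    (ht : 12 ≤ t) (hq : Odd q) : False := by
  obtain ⟨hb1, hb2, hb3, -⟩ := h.bd hκ0 hN hL1
  obtain ⟨hs, hu12, hκt, hρ, hts⟩ := pre h hκ0 hk hb2 ht
  have hu := h.u_pos
  have hut := h.hu
  have hqe := h.q_eq
  push_cast at hqe
  rw [one_mul] at hqe
  have hL := abs_lt.mp hLt
  have hq3 : -3 < q ∧ q < 3 := by
    constructor
    · by_contra hc
      push Not at hc
      have hc' : (q : ℝ) ≤ -3 := by exact_mod_cast hc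
      have : (q : ℝ) * (t - s / 2) ≤ -3 * (t - s / 2) := by
        apply mul_le_mul_of_nonneg_right hc'; linarith
      linarith
    · by_contra hc
      push Not at hc
      have hc' : (3 : ℝ) ≤ q := by exact_mod_cast hc
      have : 3 * (t - s / 2) ≤ (q : ℝ) * (t - s / 2) := by
        apply mul_le_mul_of_nonneg_right hc'; linarith
      linarith
  have hqc : q = 1 ∨ q = -1 := by
    obtain ⟨j, hj⟩ := hq
    omega
  have ha0 : 0 ≤ |L| := abs_nonneg _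
  have hy2 : (t - 1) ^ 2 ≤ y ^ 2 := by
    have hy := h.hy
    push_cast at hy
    rw [hy]
    rcases hqc with e | e
    · rw [e]; push_cast
      have : (1 - 1 * t) ^ 2 = (t - 1) ^ 2 := by ring
      rw [this]
    · rw [e]; push_cast
      have : (-1 - 1 * t) ^ 2 = (t - 1) ^ 2 + 4 * t := by ring
      rw [this]
      linarith
  have ha : |L| ≤ 34 / 5 + 1 / 50 := by
    have e1 : |L| * (14 / 5) * (t - 1) ^ 2 ≤ |L| * (t * κ) * y ^ 2 := by
      apply mul_le_mul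
      · apply mul_le_mul_of_nonneg_left hκt ha0
      · exact hy2
      · positivity
      · positivity
    have e0 : t ≤ 12 / 11 * (t - 1) := by linarith
    have e2 : t ^ 2 ≤ 144 / 121 * (t - 1) ^ 2 := by
      have e2' : t ^ 2 ≤ (12 / 11 * (t - 1)) ^ 2 := pow_le_pow_left₀ (by linarith) e0 2
      have e2'' : (12 / 11 * (t - 1)) ^ 2 = 144 / 121 * (t - 1) ^ 2 := by ring
      linarith
    have e3 : |L| * (14 / 5) * (t - 1) ^ 2 ≤ 16 * (144 / 121) * (t - 1) ^ 2 := by linarith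
    have e4 : 0 < (t - 1) ^ 2 := by
      have : 0 < t - 1 := by linarith
      positivity
    have e5 : |L| * (14 / 5) ≤ 16 * (144 / 121) := le_of_mul_le_mul_right e3 e4
    linarith
  have hlow : ∀ b : ℝ, -b ≤ ρ → ρ ≤ b → 8 - b ≤ |L| := by
    intro b hb1 hb2
    rcases hqc with e | e
    · rw [e] at hqe
      push_cast at hqe
      have : 8 - b ≤ L := by linarith
      exact this.trans (le_abs_self _)
    · rw [e] at hqe
      push_cast at hqe
      have : 8 - b ≤ -L := by linarith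
      exact this.trans (neg_le_abs _)
  have h6 := hlow 2 hρ.1 hρ.2
  have hρ2 : ρ ^ 2 ≤ 2 / 3 := by
    have : 6 * ρ ^ 2 ≤ |L| * ρ ^ 2 := mul_le_mul_of_nonneg_right (by linarith) (sq_nonneg _)
    linarith
  have hρ3 : -(5 / 6) ≤ ρ ∧ ρ ≤ 5 / 6 := by
    apply sqb (by norm_num)
    norm_num
    linarith
  have h7 := hlow (5 / 6) hρ3.1 hρ3.2
  linarith

theorem big {A B p q r : ℤ} {t s u L ρ y κ W : ℝ} (h : Dat A B p q r t s u L ρ y κ W)
    (hκ0 : 0 < κ) (hk : 4 ≤ t * κ + 2 * s - u ^ 2)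
    (hN : |L| * (4 * ρ ^ 2 + κ * y ^ 2 * u) = 16) (hL1 : 1 ≤ |L|) (hLt : |L| < t)
    (ht : 12 ≤ t) (hq : Odd q) (hr : Odd r) : False := by
  obtain ⟨hb1, hb2, hb3, -⟩ := h.bd hκ0 hN hL1
  obtain ⟨hs, hu12, hκt, hρ, hts⟩ := pre h hκ0 hk hb2 ht
  have hu := h.u_pos
  have hut := h.hu
  have hL := abs_lt.mp hLt
  have hy2 : y ^ 2 ≤ (12 / 5 * t) ^ 2 := by
    have e1 : 1 * (14 / 5) * y ^ 2 ≤ |L| * (t * κ) * y ^ 2 := by
      apply mul_le_mul_of_nonneg_right _ (sq_nonneg _)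
      apply mul_le_mul hL1 hκt (by norm_num) (by positivity)
    have e2 : (12 / 5 * t) ^ 2 = 144 / 25 * t ^ 2 := by ring
    have e3 : 0 ≤ t ^ 2 := sq_nonneg _
    linarith
  have hy : |y| ≤ 12 / 5 * t := abs_le_of_sq_le_sq hy2 (by linarith) 
  have hW := h.hW
  have hWl : t ^ 2 - 3 / 5 * t ≤ W := by rw [hW]; linarith [mul_comm s t]
  have hrW := h.rW_eq
  have hprod : |y * (t - s / 2)| ≤ 12 / 5 * t * (t + 3 / 10) := by
    rw [abs_mul]
    apply mul_le_mul hy _ (abs_nonneg _) (by linarith)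
    rw [abs_of_nonneg (by linarith)]
    linarith
  have hprod' := abs_le.mp hprod
  have htt : 12 * t ≤ t ^ 2 := by nlinarith
  have e9 : 12 / 5 * t * (t + 3 / 10) = 12 / 5 * t ^ 2 + 18 / 25 * t := by ring
  rw [e9] at hprod'
  have hr3 : -3 < r ∧ r < 3 := by
    have hW0 : 0 ≤ W := by linarith
    constructor
    · by_contra hc
      push Not at hc
      have hc' : (r : ℝ) ≤ -3 := by exact_mod_cast hc
      have : (r : ℝ) * W ≤ -3 * W := mul_le_mul_of_nonneg_right hc' hW0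
      linarith [hprod'.1, hprod'.2]
    · by_contra hc
      push Not at hc
      have hc' : (3 : ℝ) ≤ r := by exact_mod_cast hc
      have : 3 * W ≤ (r : ℝ) * W := mul_le_mul_of_nonneg_right hc' hW0
      linarith [hprod'.1, hprod'.2]
  have hrc : r = 1 ∨ r = -1 := by
    obtain ⟨j, hj⟩ := hr
    omega
  rcases hrc with e | e
  · subst e
    exact big_one h hκ0 hk hN hL1 hLt ht hq
  · subst e
    have h' := h.neg
    rw [neg_neg] at h'
    refine big_one h' hκ0 hk ?_ ?_ ?_ ht hq.neg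
    · rw [abs_neg, neg_sq, neg_sq]; exact hN
    · rw [abs_neg]; exact hL1
    · rw [abs_neg]; exact hLt

theorem sm1 {A B p q r : ℤ} {t s u L ρ y κ W : ℝ} (h : Dat A B p q r t s u L ρ y κ W)
    (hκ0 : 0 < κ) (ht : t < 12) :
    (-(3 / 2) ≤ s ∧ s ≤ 3 / 2) ∧ (-7 ≤ t * s ∧ t * s ≤ 7) := by
  have hs2 : s ^ 2 * t < 4 := by have := h.hκ; linarith
  have ht2 := h.ht
  have hs3 : s ^ 2 * 2 ≤ s ^ 2 * t := mul_le_mul_of_nonneg_left ht2.le (sq_nonneg s)
  constructor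
  · apply sqb (by norm_num)
    norm_num
    linarith
  · apply sqb (by norm_num)
    have e : (t * s) ^ 2 = t * (s ^ 2 * t) := by ring
    rw [e]
    have : t * (s ^ 2 * t) ≤ t * 4 := mul_le_mul_of_nonneg_left hs2.le (by linarith)
    linarith

theorem sm_r {A B p q r : ℤ} {t s u L ρ y κ W : ℝ} (h : Dat A B p q r t s u L ρ y κ W)
    (hκ0 : 0 < κ) (hD : 59 ≤ DD A B)
    (hN : |L| * (4 * ρ ^ 2 + κ * y ^ 2 * u) = 16) (hL1 : 1 ≤ |L|) (hLt : |L| < t)
    (ht : t < 12) : -9 < r ∧ r < 9 := by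
  obtain ⟨hb1, hb2, hb3, -⟩ := h.bd hκ0 hN hL1
  obtain ⟨hs, -⟩ := sm1 h hκ0 ht
  have hu := h.u_pos
  have hut := h.hu
  have ht2 := h.ht
  have hL := abs_lt.mp hLt
  have hρ : -2 ≤ ρ ∧ ρ ≤ 2 := by
    apply sqb (by norm_num)
    norm_num
    linarith
  have hWc : W = (t - s / 2) ^ 2 + κ * u / 4 := by
    rw [h.hW, h.hκ]
    have : (4 - s ^ 2 * t) * u / 4 = u - s ^ 2 * (u * t) / 4 := by ring
    rw [this, hut]
    ring
  have hrW := h.rW_eq
  have hDe := h.D_eq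
  set c := t - s / 2 with hc
  have hc1 : 5 / 4 ≤ c := by linarith [hs.2]
  have hc2 : c ≤ 51 / 4 := by linarith [hs.1]
  have htc : t ≤ c + 3 / 4 := by linarith [hs.2]
  have hWc2 : c ^ 2 ≤ W := by
    rw [hWc]
    have : 0 < κ * u / 4 := by positivity
    linarith
  have hW0 : 0 ≤ W := (sq_nonneg c).trans hWc2
  have hy2 : y ^ 2 ≤ (521 / 1000 * W) ^ 2 := by
    have e1 : 1 * (t * κ * y ^ 2) ≤ |L| * (t * κ * y ^ 2) := by
      apply mul_le_mul_of_nonneg_right hL1; positivity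
    have e2 : t * (κ * y ^ 2) ≤ t * (16 * t) := by nlinarith
    have e3 : κ * y ^ 2 ≤ 16 * t := le_of_mul_le_mul_left e2 (by linarith)
    have e4 : W ^ 2 * (κ * y ^ 2) ≤ W ^ 2 * (16 * t) := mul_le_mul_of_nonneg_left e3 (sq_nonneg _)
    have e5 : W ^ 2 * (κ * y ^ 2) = (DD A B : ℝ) * t * y ^ 2 := by rw [hDe]; ring
    rw [e5] at e4
    have e6 : t * ((DD A B : ℝ) * y ^ 2) ≤ t * (16 * W ^ 2) := by nlinarith
    have e7 : (DD A B : ℝ) * y ^ 2 ≤ 16 * W ^ 2 := le_of_mul_le_mul_left e6 (by linarith)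
    have e8 : (59 : ℝ) ≤ (DD A B : ℝ) := by exact_mod_cast hD
    have e9 : 59 * y ^ 2 ≤ (DD A B : ℝ) * y ^ 2 := mul_le_mul_of_nonneg_right e8 (sq_nonneg _)
    have e10 : (521 / 1000 * W) ^ 2 = 271441 / 1000000 * W ^ 2 := by ring
    rw [e10]
    have := sq_nonneg W
    linarith
  have hy : |y| ≤ 521 / 1000 * W := abs_le_of_sq_le_sq hy2 (by positivity)
  have hprod : |y * c| ≤ 521 / 1000 * W * c := by
    rw [abs_mul, abs_of_nonneg (by linarith : 0 ≤ c)]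
    exact mul_le_mul_of_nonneg_right hy (by linarith)
  have hprod' := abs_le.mp hprod
  have key : ¬ (9 * W ≤ t + 2 + 521 / 1000 * W * c) := by
    intro hcon
    rcases le_total c 2 with h2 | h2
    · have e1 : W * c ≤ W * 2 := mul_le_mul_of_nonneg_left h2 hW0
      have e2 : (5 / 4 : ℝ) ^ 2 ≤ c ^ 2 := pow_le_pow_left₀ (by norm_num) hc1 2
      norm_num at e2
      linarith
    · have e1 : W * c ≤ W * (51 / 4) := mul_le_mul_of_nonneg_left hc2 hW0
      have e2 : 2 * c ≤ c ^ 2 := by nlinarith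
      linarith
  constructor
  · by_contra hc0
    push Not at hc0
    have hc' : (r : ℝ) ≤ -9 := by exact_mod_cast hc0
    have : (r : ℝ) * W ≤ -9 * W := mul_le_mul_of_nonneg_right hc' hW0
    apply key
    linarith [hprod'.1, hprod'.2, hL.1, hL.2, hρ.1, hρ.2]
  · by_contra hc0
    push Not at hc0
    have hc' : (9 : ℝ) ≤ r := by exact_mod_cast hc0
    have : 9 * W ≤ (r : ℝ) * W := mul_le_mul_of_nonneg_right hc' hW0
    apply key
    linarith [hprod'.1, hprod'.2, hL.1, hL.2, hρ.1, hρ.2]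

theorem sm_tau {A B p q r : ℤ} {t s u L ρ y κ W : ℝ} (h : Dat A B p q r t s u L ρ y κ W)
    (hκ0 : 0 < κ) (hN : |L| * (4 * ρ ^ 2 + κ * y ^ 2 * u) = 16) (hL1 : 1 ≤ |L|) (hLt : |L| < t)
    (ht : t < 12) : (-16 < 3 * p + q * A + r * B ∧ 3 * p + q * A + r * B < 16) ∧
      (-15 < p * B + 3 * q + r * (B ^ 2 - 2 * A) ∧ p * B + 3 * q + r * (B ^ 2 - 2 * A) < 15) := by
  obtain ⟨hb1, hb2, hb3, hb4⟩ := h.bd hκ0 hN hL1
  have hu := h.u_pos
  have hut := h.hu
  have ht2 := h.ht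
  have hL := abs_lt.mp hLt
  have hρ : -2 ≤ ρ ∧ ρ ≤ 2 := by
    apply sqb (by norm_num)
    norm_num
    linarith
  have h1 := h.tau1
  obtain ⟨R, h2, h3⟩ := h.tau2
  have hR : -(139 / 10) ≤ R ∧ R ≤ 139 / 10 := by
    apply sqb (by norm_num)
    have e1 : 0 ≤ t * κ * (p + r * t * s) ^ 2 := by positivity
    have e2 : t * (4 * ρ ^ 2 + κ * y ^ 2 * u) ≤ t * 16 := mul_le_mul_of_nonneg_left hb4 (by linarith)
    norm_num
    linarith
  have hLu : -1 < L * u ∧ L * u < 1 := by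
    have e1 : -t * u < L * u := mul_lt_mul_of_pos_right hL.1 hu
    have e2 : L * u < t * u := mul_lt_mul_of_pos_right hL.2 hu
    constructor <;> linarith [mul_comm t u]
  refine ⟨⟨?_, ?_⟩, ?_, ?_⟩
  · have : (-16 : ℝ) < ((3 * p + q * A + r * B : ℤ) : ℝ) := by rw [h1]; linarith [hρ.1]
    exact_mod_cast this
  · have : ((3 * p + q * A + r * B : ℤ) : ℝ) < 16 := by rw [h1]; linarith [hρ.2]
    exact_mod_cast this
  · have : (-15 : ℝ) < ((p * B + 3 * q + r * (B ^ 2 - 2 * A) : ℤ) : ℝ) := by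
      rw [h2]; linarith [hR.1]
    exact_mod_cast this
  · have : ((p * B + 3 * q + r * (B ^ 2 - 2 * A) : ℤ) : ℝ) < 15 := by
      rw [h2]; linarith [hR.2]
    exact_mod_cast this

/-! ### the finite computation -/

def chk1 (A B r t1 t2 : ℤ) : Bool :=
  let d := 9 - A * B
  let a := t1 - r * B
  let b := t2 - r * (B * B - 2 * A)
  let np := 3 * a - A * b
  let nq := 3 * b - B * a
  !(np % d == 0) || !(nq % d == 0) || (np / d) % 2 == 0 || (nq / d) % 2 == 0 ||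
    !((NN A B (np / d) (nq / d) r).natAbs == 4)

def chkAB (A B : ℤ) : Bool :=
  (List.range 4).all fun k => (List.range 31).all fun i => (List.range 29).all fun j =>
    chk1 A B (2 * (k : ℤ) + 1) ((i : ℤ) - 15) ((j : ℤ) - 14)

/-- the six exceptional pairs with `B < A` -/
def inL (A B : ℤ) : Bool :=
  (A == 2 && B == -2) || (A == 2 && B == 0) || (A == 4 && B == -4) || (A == 4 && B == 2) ||
  (A == 6 && B == 4) || (A == 10 && B == 6)

def chkAll : Bool :=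
  (List.range 6).all fun a => (List.range 7).all fun b =>
    let A : ℤ := 2 * (a : ℤ) + 2
    let B : ℤ := 2 * (b : ℤ) - 6
    !(decide (B < A)) || !(decide (0 < DD A B)) || (4 * A - B * B == 0) || inL A B || chkAB A B

set_option maxRecDepth 100000 in
theorem chkAll_eq : chkAll = true := by decide +kernel

def chkD : Bool :=
  (List.range 6).all fun a => (List.range 7).all fun b =>
    let A : ℤ := 2 * (a : ℤ) + 2
    let B : ℤ := 2 * (b : ℤ) - 6
    !(decide (B < A)) || !(decide (0 < DD A B)) || decide (59 ≤ DD A B)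

theorem chkD_eq : chkD = true := by decide +kernel

theorem D_ge {A B : ℤ} (hA : Even A) (hB : Even B) (hA1 : 2 ≤ A) (hA2 : A < 14) (hB1 : -8 < B)
    (hB2 : B < 8) (hBA : B < A) (hD : 0 < DD A B) : 59 ≤ DD A B := by
  obtain ⟨a, ha⟩ := hA
  obtain ⟨b, hb⟩ := hB
  have h := chkD_eq
  unfold chkD at h
  rw [List.all_eq_true] at h
  have h1 := h (a - 1).toNat (List.mem_range.mpr (by omega))
  rw [List.all_eq_true] at h1
  have h2 := h1 (b + 3).toNat (List.mem_range.mpr (by omega))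
  have ea : 2 * (((a - 1).toNat : ℕ) : ℤ) + 2 = A := by omega
  have eb : 2 * (((b + 3).toNat : ℕ) : ℤ) - 6 = B := by omega
  simp only [ea, eb] at h2
  simp only [Bool.or_eq_true, Bool.not_eq_true', decide_eq_false_iff_not, decide_eq_true_eq] at h2
  rcases h2 with (h2 | h2) | h2
  · exact absurd hBA h2
  · exact absurd hD h2
  · exact h2

theorem fin_case {A B p q r : ℤ} (hA : Even A) (hB : Even B) (hA1 : 2 ≤ A) (hA2 : A < 14)
    (hB1 : -8 < B)
    (hB2 : B < 8) (hBA : B < A) (hD : 0 < DD A B) (hk : 4 * A - B ^ 2 ≠ 0)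
    (hp : Odd p) (hq : Odd q) (hr : Odd r) (hr1 : 0 < r) (hr2 : r < 9)
    (h1 : -16 < 3 * p + q * A + r * B ∧ 3 * p + q * A + r * B < 16)
    (h2 : -15 < p * B + 3 * q + r * (B ^ 2 - 2 * A) ∧ p * B + 3 * q + r * (B ^ 2 - 2 * A) < 15)
    (hN : (NN A B p q r).natAbs = 4) : inL A B = true := by
  obtain ⟨a, ha⟩ := id hA
  obtain ⟨b, hb⟩ := id hB
  obtain ⟨k, hk'⟩ := id hr
  have h := chkAll_eq
  unfold chkAll at h
  rw [List.all_eq_true] at h
  have h3 := h (a - 1).toNat (List.mem_range.mpr (by omega))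
  rw [List.all_eq_true] at h3
  have h4 := h3 (b + 3).toNat (List.mem_range.mpr (by omega))
  have ea : 2 * (((a - 1).toNat : ℕ) : ℤ) + 2 = A := by omega
  have eb : 2 * (((b + 3).toNat : ℕ) : ℤ) - 6 = B := by omega
  simp only [ea, eb] at h4
  simp only [Bool.or_eq_true, Bool.not_eq_true', decide_eq_false_iff_not, beq_iff_eq] at h4
  rcases h4 with (((h4 | h4) | h4) | h4) | h4
  · exact absurd hBA h4
  · exact absurd hD h4
  · exfalso; apply hk; rw [pow_two]; exact h4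
  · exact h4
  · exfalso
    unfold chkAB at h4
    rw [List.all_eq_true] at h4
    have h5 := h4 k.toNat (List.mem_range.mpr (by omega))
    rw [List.all_eq_true] at h5
    have h6 := h5 (3 * p + q * A + r * B + 15).toNat (List.mem_range.mpr (by omega))
    rw [List.all_eq_true] at h6
    have h7 := h6 (p * B + 3 * q + r * (B ^ 2 - 2 * A) + 14).toNat (List.mem_range.mpr (by omega))
    have e1 : 2 * ((k.toNat : ℕ) : ℤ) + 1 = r := by omega
    have e2 : (((3 * p + q * A + r * B + 15).toNat : ℕ) : ℤ) - 15 = 3 * p + q * A + r * B := by omega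
    have e3 : (((p * B + 3 * q + r * (B ^ 2 - 2 * A) + 14).toNat : ℕ) : ℤ) - 14
        = p * B + 3 * q + r * (B ^ 2 - 2 * A) := by omega
    rw [e1, e2, e3] at h7
    unfold chk1 at h7
    have e4 : 3 * (3 * p + q * A + r * B - r * B)
        - A * (p * B + 3 * q + r * (B ^ 2 - 2 * A) - r * (B * B - 2 * A)) = p * (9 - A * B) := by ring
    have e5 : 3 * (p * B + 3 * q + r * (B ^ 2 - 2 * A) - r * (B * B - 2 * A))
        - B * (3 * p + q * A + r * B - r * B) = q * (9 - A * B) := by ring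
    simp only [e4, e5] at h7
    have hd : 9 - A * B ≠ 0 := by
      obtain ⟨x, hx⟩ := hA.mul_right B
      omega
    rw [Int.mul_ediv_cancel _ hd, Int.mul_ediv_cancel _ hd, Int.mul_emod_left, Int.mul_emod_left, hN] at h7
    obtain ⟨p1, hp1⟩ := hp
    obtain ⟨q1, hq1⟩ := hq
    have e6 : p % 2 = 1 := by omega
    have e7 : q % 2 = 1 := by omega
    rw [e6, e7] at h7
    revert h7
    decide

end Pool.Agent.X229.Hess
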