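import Pool.Agent.X229.Hess

namespace Pool.Agent.X229.HessB

open Pool.Agent.X229.Hess

/-- residues of `(A,B)`: `e = true`: `A ≡ 1, B ≡ 0 (mod 3)`; `e = false`: `A ≡ 0, B ≡ 1 (mod 3)` -/
def Cls (e : Bool) (A B : ℤ) : Prop :=
  (A - B) % 2 = 0 ∧ ((e = true ∧ A % 3 = 1 ∧ B % 3 = 0) ∨ (e = false ∧ A % 3 = 0 ∧ B % 3 = 1))

/-- residues of `(p,q,r)` -/
def Cnd (e : Bool) (p q r : ℤ) : Prop :=
  (p + q + r) % 2 = 0 ∧ (q + r) % 3 = 0 ∧
    ((e = true ∧ (p - q) % 3 = 0) ∨ (e = false ∧ (p - r) % 3 = 0))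

theorem Cnd_step {e : Bool} {A B : ℤ} (h : Cls e A B) (p q r : ℤ) (hc : Cnd e p q r) :
    Cnd e (r - q * B) (p + q * A) q := by
  obtain ⟨h1, h2⟩ := h
  obtain ⟨c1, c2, c3⟩ := hc
  obtain ⟨d, hd⟩ : ∃ d, A = B + 2 * d := ⟨(A - B) / 2, by omega⟩
  have e1 : q * A = q * B + 2 * (q * d) := by rw [hd]; ring
  rcases h2 with ⟨he, ha, hb⟩ | ⟨he, ha, hb⟩
  · obtain ⟨a, hA⟩ : ∃ a, A = 3 * a + 1 := ⟨A / 3, by omega⟩
    obtain ⟨b, hB⟩ : ∃ b, B = 3 * b := ⟨B / 3, by omega⟩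
    have e2 : q * A = 3 * (q * a) + q := by rw [hA]; ring
    have e3 : q * B = 3 * (q * b) := by rw [hB]; ring
    rcases c3 with ⟨_, c3⟩ | ⟨c4, _⟩
    · refine ⟨by omega, by omega, Or.inl ⟨he, by omega⟩⟩
    · rw [he] at c4; simp at c4
  · obtain ⟨a, hA⟩ : ∃ a, A = 3 * a := ⟨A / 3, by omega⟩
    obtain ⟨b, hB⟩ : ∃ b, B = 3 * b + 1 := ⟨B / 3, by omega⟩
    have e2 : q * A = 3 * (q * a) := by rw [hA]; ring
    have e3 : q * B = 3 * (q * b) + q := by rw [hB]; ring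
    rcases c3 with ⟨c4, _⟩ | ⟨_, c3⟩
    · rw [he] at c4; simp at c4
    · refine ⟨by omega, by omega, Or.inr ⟨he, by omega⟩⟩

theorem Cnd_stepinv {e : Bool} {A B : ℤ} (h : Cls e A B) (p q r : ℤ) (hc : Cnd e p q r) :
    Cnd e (q - r * A) r (p + r * B) := by
  obtain ⟨h1, h2⟩ := h
  obtain ⟨c1, c2, c3⟩ := hc
  obtain ⟨d, hd⟩ : ∃ d, A = B + 2 * d := ⟨(A - B) / 2, by omega⟩
  have e1 : r * A = r * B + 2 * (r * d) := by rw [hd]; ring
  rcases h2 with ⟨he, ha, hb⟩ | ⟨he, ha, hb⟩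
  · obtain ⟨a, hA⟩ : ∃ a, A = 3 * a + 1 := ⟨A / 3, by omega⟩
    obtain ⟨b, hB⟩ : ∃ b, B = 3 * b := ⟨B / 3, by omega⟩
    have e2 : r * A = 3 * (r * a) + r := by rw [hA]; ring
    have e3 : r * B = 3 * (r * b) := by rw [hB]; ring
    rcases c3 with ⟨_, c3⟩ | ⟨c4, _⟩
    · refine ⟨by omega, by omega, Or.inl ⟨he, by omega⟩⟩
    · rw [he] at c4; simp at c4
  · obtain ⟨a, hA⟩ : ∃ a, A = 3 * a := ⟨A / 3, by omega⟩
    obtain ⟨b, hB⟩ : ∃ b, B = 3 * b + 1 := ⟨B / 3, by omega⟩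
    have e2 : r * A = 3 * (r * a) := by rw [hA]; ring
    have e3 : r * B = 3 * (r * b) + r := by rw [hB]; ring
    rcases c3 with ⟨c4, _⟩ | ⟨_, c3⟩
    · rw [he] at c4; simp at c4
    · refine ⟨by omega, by omega, Or.inr ⟨he, by omega⟩⟩

theorem Cnd_neg {e : Bool} {p q r : ℤ} (hc : Cnd e p q r) : Cnd e (-p) (-q) (-r) := by
  obtain ⟨c1, c2, c3⟩ := hc
  refine ⟨by omega, by omega, ?_⟩
  rcases c3 with ⟨he, c3⟩ | ⟨he, c3⟩
  · exact Or.inl ⟨he, by omega⟩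
  · exact Or.inr ⟨he, by omega⟩

theorem shiftP (A B : ℤ) (t : ℝ) (ht : 0 < t)
    (hroot : t ^ 3 - A * t ^ 2 + B * t - 1 = 0) (P : ℤ → ℤ → ℤ → Prop)
    (hs1 : ∀ p q r, P p q r → P (r - q * B) (p + q * A) q)
    (hs2 : ∀ p q r, P p q r → P (q - r * A) r (p + r * B)) (k : ℤ) :
    ∀ p q r : ℤ, P p q r →
      ∃ p' q' r' : ℤ, P p' q' r' ∧ NN A B p' q' r' = NN A B p q r ∧
        LL t p' q' r' = LL t p q r * t ^ k := by
  have ht0 : t ≠ 0 := ht.ne'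
  induction k using Int.induction_on with
  | zero =>
    intro p q r hp
    exact ⟨p, q, r, hp, rfl, by simp⟩
  | succ k ih =>
    intro p q r hp
    obtain ⟨p1, q1, r1, hp1, hN, hL⟩ := ih p q r hp
    refine ⟨r1 - q1 * B, p1 + q1 * A, q1, hs1 _ _ _ hp1, ?_, ?_⟩
    · rw [NN_step, hN]
    · rw [zpow_add₀ ht0, zpow_one, ← mul_assoc, ← hL]
      unfold LL
      push_cast
      have h2 : t⁻¹ = t ^ 2 - A * t + B := by
        field_simp
        linarith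
      rw [h2]
      have h4 : ((p1 : ℝ) + q1 * t + r1 * (t ^ 2 - A * t + B)) * t
          = p1 * t + q1 * t ^ 2 + r1 * (t * (t ^ 2 - A * t + B)) := by ring
      rw [h4]
      have h5 : t * (t ^ 2 - A * t + B) = 1 := by linarith
      rw [h5]
      ring
  | pred k ih =>
    intro p q r hp
    obtain ⟨p1, q1, r1, hp1, hN, hL⟩ := ih p q r hp
    refine ⟨q1 - r1 * A, r1, p1 + r1 * B, hs2 _ _ _ hp1, ?_, ?_⟩
    · rw [NN_stepinv, hN]
    · rw [zpow_sub_one₀ ht0, ← mul_assoc, ← hL]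
      unfold LL
      push_cast
      have h2 : t⁻¹ = t ^ 2 - A * t + B := by
        field_simp
        linarith
      have h5 : t * t⁻¹ = 1 := by field_simp
      have h6 : t⁻¹ * t⁻¹ = t - A + B * t⁻¹ := by
        have : t⁻¹ * t⁻¹ = t⁻¹ * (t ^ 2 - A * t + B) := by rw [← h2]
        rw [this]
        have : t⁻¹ * (t ^ 2 - A * t + B) = (t * t⁻¹) * t - A * (t * t⁻¹) + B * t⁻¹ := by ring
        rw [this, h5]; ring
      have h7 : ((p1 : ℝ) + q1 * t + r1 * t⁻¹) * t⁻¹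
          = p1 * t⁻¹ + q1 * (t * t⁻¹) + r1 * (t⁻¹ * t⁻¹) := by ring
      rw [h7, h5, h6]
      ring

/-- `k = 4A - B²` modulo 24 -/
theorem k_mod {e : Bool} {A B : ℤ} (h : Cls e A B) (hk : -3 < 4 * A - B ^ 2) :
    4 ≤ 4 * A - B ^ 2 := by
  obtain ⟨h1, h2⟩ := h
  obtain ⟨d, hd⟩ : ∃ d, A = B + 2 * d := ⟨(A - B) / 2, by omega⟩
  rcases h2 with ⟨he, ha, hb⟩ | ⟨he, ha, hb⟩
  · obtain ⟨b, hB⟩ : ∃ b, B = 3 * b := ⟨B / 3, by omega⟩
    have e1 : B ^ 2 = 9 * b ^ 2 := by rw [hB]; ring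
    rcases Int.even_or_odd' b with ⟨y, hy | hy⟩
    · have e2 : b ^ 2 = 4 * y ^ 2 := by rw [hy]; ring
      rw [e1, e2] at hk ⊢
      omega
    · have e2 : b ^ 2 = 4 * (y ^ 2 + y) + 1 := by rw [hy]; ring
      obtain ⟨z, hz⟩ : Even (y ^ 2 + y) := by
        have := Int.even_mul_succ_self y
        have e3 : y ^ 2 + y = y * (y + 1) := by ring
        rw [e3]; exact this
      rw [e1, e2] at hk ⊢
      omega
  · obtain ⟨b, hB⟩ : ∃ b, B = 3 * b + 1 := ⟨B / 3, by omega⟩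
    have e1 : B ^ 2 = 9 * b ^ 2 + 6 * b + 1 := by rw [hB]; ring
    rcases Int.even_or_odd' b with ⟨y, hy | hy⟩
    · have e2 : b ^ 2 = 4 * y ^ 2 := by rw [hy]; ring
      obtain ⟨z, hz⟩ : Even (y ^ 2 + y) := by
        have := Int.even_mul_succ_self y
        have e3 : y ^ 2 + y = y * (y + 1) := by ring
        rw [e3]; exact this
      rw [e1, e2] at hk ⊢
      omega
    · have e2 : b ^ 2 = 4 * (y ^ 2 + y) + 1 := by rw [hy]; ring
      rw [e1, e2] at hk ⊢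
      omega

/-- basic consequences of `|N| ≤ 198` and `1 ≤ |L|` -/
theorem bd {A B p q r : ℤ} {t s u L ρ y κ W : ℝ} (h : Dat A B p q r t s u L ρ y κ W)
    (hκ0 : 0 < κ) (hN : |L| * (4 * ρ ^ 2 + κ * y ^ 2 * u) ≤ 792) (hL1 : 1 ≤ |L|) :
    |L| * ρ ^ 2 ≤ 198 ∧ ρ ^ 2 ≤ 198 ∧ |L| * (t * κ) * y ^ 2 ≤ 792 * t ^ 2 := by
  have hu := h.u_pos
  have hut := h.hu
  have ht := h.ht
  have h1 : 0 ≤ κ * y ^ 2 * u := by positivity
  have h2 : 0 ≤ ρ ^ 2 := sq_nonneg _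
  have h1' : 0 ≤ |L| * (κ * y ^ 2 * u) := by positivity
  have h2' : 0 ≤ |L| * ρ ^ 2 := by positivity
  have h3 : |L| * ρ ^ 2 ≤ 198 := by linarith
  have h4 : 1 * ρ ^ 2 ≤ |L| * ρ ^ 2 := mul_le_mul_of_nonneg_right hL1 h2
  refine ⟨h3, by linarith, ?_⟩
  have h5 : |L| * (κ * y ^ 2 * u) ≤ 792 := by linarith
  have h6 : |L| * (κ * y ^ 2 * u) * t ^ 2 ≤ 792 * t ^ 2 := by
    apply mul_le_mul_of_nonneg_right h5; positivity
  have h7 : |L| * (κ * y ^ 2 * u) * t ^ 2 = |L| * (t * κ) * y ^ 2 * (u * t) := by ring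
  rw [h7, hut] at h6
  linarith

theorem Dat.two_p {A B p q r : ℤ} {t s u L ρ y κ W : ℝ} (h : Dat A B p q r t s u L ρ y κ W) :
    ((2 * p + r * B : ℤ) : ℝ) = 2 * ρ - q * s + r * u := by
  push_cast
  rw [h.hρ, h.hB]
  ring

/-- bounds for the finite range -/
theorem fin_bd {A B p q r : ℤ} {t s u L ρ y κ W : ℝ} (h : Dat A B p q r t s u L ρ y κ W)
    (hκ0 : 0 < κ) (hN : |L| * (4 * ρ ^ 2 + κ * y ^ 2 * u) ≤ 792) (hL1 : 1 ≤ |L|) (hLt : |L| < t)
    (ht : 14 ≤ t) (hk : 4 ≤ t * κ + 2 * s - u ^ 2) :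
    (-18 < r ∧ r < 18) ∧ (-7 < q ∧ q < 7) ∧ (-33 < 2 * p + r * B ∧ 2 * p + r * B < 33) := by
  obtain ⟨hb1, hb2, hb3⟩ := bd h hκ0 hN hL1
  have hu := h.u_pos
  have hut := h.hu
  have hs2 : s ^ 2 * t < 4 := by have := h.hκ; linarith
  have hs3 : s ^ 2 * 14 ≤ s ^ 2 * t := mul_le_mul_of_nonneg_left ht (sq_nonneg s)
  have hs : -(535 / 1000) ≤ s ∧ s ≤ 535 / 1000 := by
    apply sqb (by norm_num)
    norm_num
    linarith
  have hu14 : u ≤ 1 / 14 := by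
    have : u * 14 ≤ u * t := mul_le_mul_of_nonneg_left ht hu.le
    linarith
  have hK : 29 / 10 ≤ t * κ := by
    have := sq_nonneg u
    linarith [hs.2]
  have hρ : -(1408 / 100) ≤ ρ ∧ ρ ≤ 1408 / 100 := by
    apply sqb (by norm_num)
    norm_num
    linarith
  have hL := abs_lt.mp hLt
  have hy2 : y ^ 2 ≤ (1653 / 100 * t) ^ 2 := by
    have e1 : 1 * (29 / 10) * y ^ 2 ≤ |L| * (t * κ) * y ^ 2 := by
      apply mul_le_mul_of_nonneg_right _ (sq_nonneg _)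
      apply mul_le_mul hL1 hK (by norm_num) (by positivity)
    have e2 : (1653 / 100 * t) ^ 2 = 2732409 / 10000 * t ^ 2 := by ring
    have e3 : 0 ≤ t ^ 2 := sq_nonneg _
    linarith
  have hy : |y| ≤ 1653 / 100 * t := abs_le_of_sq_le_sq hy2 (by linarith)
  have hWc : W = (t - s / 2) ^ 2 + κ * u / 4 := by
    rw [h.hW, h.hκ]
    have : (4 - s ^ 2 * t) * u / 4 = u - s ^ 2 * (u * t) / 4 := by ring
    rw [this, hut]
    ring
  have hrW := h.rW_eq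
  have hqe := h.q_eq
  set c := t - s / 2 with hc
  have hc1 : 1373 / 100 ≤ c := by linarith [hs.2]
  have htc : t ≤ 102 / 100 * c := by linarith [hs.2]
  have hc0 : 0 ≤ c := by linarith
  have hWc2 : c ^ 2 ≤ W := by
    rw [hWc]
    have : 0 < κ * u / 4 := by positivity
    linarith
  have hW0 : 0 ≤ W := (sq_nonneg c).trans hWc2
  have hprod : |y * c| ≤ 1653 / 100 * t * c := by
    rw [abs_mul, abs_of_nonneg hc0]
    exact mul_le_mul_of_nonneg_right hy hc0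
  have hprod2 : 1653 / 100 * t * c ≤ 1653 / 100 * (102 / 100) * c ^ 2 := by
    have : t * c ≤ 102 / 100 * c * c := mul_le_mul_of_nonneg_right htc hc0
    have e1 : 1653 / 100 * t * c = 1653 / 100 * (t * c) := by ring
    have e2 : 1653 / 100 * (102 / 100) * c ^ 2 = 1653 / 100 * (102 / 100 * c * c) := by ring
    rw [e1, e2]
    exact mul_le_mul_of_nonneg_left this (by norm_num)
  have hprod' := abs_le.mp (hprod.trans hprod2)
  have hcc : 1373 / 100 * c ≤ c ^ 2 := by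
    have := mul_le_mul_of_nonneg_right hc1 hc0
    linarith [pow_two c]
  have key : ¬ (18 * W ≤ t + 1408 / 100 + 1653 / 100 * (102 / 100) * c ^ 2) := by
    intro hcon
    linarith
  have hr : -18 < r ∧ r < 18 := by
    constructor
    · by_contra hc0
      push Not at hc0
      have hc' : (r : ℝ) ≤ -18 := by exact_mod_cast hc0
      have : (r : ℝ) * W ≤ -18 * W := mul_le_mul_of_nonneg_right hc' hW0
      apply key
      linarith [hprod'.1, hprod'.2, hL.1, hL.2, hρ.1, hρ.2]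
    · by_contra hc0
      push Not at hc0
      have hc' : (18 : ℝ) ≤ r := by exact_mod_cast hc0
      have : 18 * W ≤ (r : ℝ) * W := mul_le_mul_of_nonneg_right hc' hW0
      apply key
      linarith [hprod'.1, hprod'.2, hL.1, hL.2, hρ.1, hρ.2]
  have hr17 : |(r : ℝ)| ≤ 17 := by
    rw [abs_le]
    have h1 : -17 ≤ r := by omega
    have h2 : r ≤ 17 := by omega
    constructor
    · exact_mod_cast h1
    · exact_mod_cast h2
  -- square root of t
  obtain ⟨w, hw0, hw⟩ : ∃ w : ℝ, 0 ≤ w ∧ w ^ 2 = t := ⟨√t, Real.sqrt_nonneg _, Real.sq_sqrt (by linarith)⟩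
  have hts : |t * s / 2| ≤ w := by
    apply abs_le_of_sq_le_sq _ hw0
    rw [hw]
    have e1 : (t * s / 2) ^ 2 = t * (s ^ 2 * t) / 4 := by ring
    rw [e1]
    have : t * (s ^ 2 * t) ≤ t * 4 := mul_le_mul_of_nonneg_left hs2.le (by linarith)
    linarith
  have hrb : |(r : ℝ) * (t * s / 2 - u)| ≤ 17 * (w + 1 / 14) := by
    rw [abs_mul]
    apply mul_le_mul hr17 _ (abs_nonneg _) (by norm_num)
    have := abs_le.mp hts
    rw [abs_le]
    constructor <;> linarith [this.1, this.2]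
  have hrb' := abs_le.mp hrb
  have hw374 : 374 / 100 ≤ w := by
    by_contra hcon
    push Not at hcon
    have : w ^ 2 < (374 / 100) ^ 2 := by
      apply pow_lt_pow_left₀ hcon hw0 (by norm_num)
    norm_num at this
    linarith
  have key2 : t + 1408 / 100 + 17 * (w + 1 / 14) < 7 * c := by
    have e1 : 374 / 100 * w ≤ w ^ 2 := by
      rw [pow_two]; exact mul_le_mul_of_nonneg_right hw374 hw0
    have e2 : t - 2675 / 10000 ≤ c := by linarith [hs.2]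
    linarith
  have hq : -7 < q ∧ q < 7 := by
    constructor
    · by_contra hc0'
      push Not at hc0'
      have hc' : (q : ℝ) ≤ -7 := by exact_mod_cast hc0'
      have : (q : ℝ) * c ≤ -7 * c := mul_le_mul_of_nonneg_right hc' hc0
      linarith [hrb'.1, hrb'.2, hL.1, hL.2, hρ.1, hρ.2]
    · by_contra hc0'
      push Not at hc0'
      have hc' : (7 : ℝ) ≤ q := by exact_mod_cast hc0'
      have : 7 * c ≤ (q : ℝ) * c := mul_le_mul_of_nonneg_right hc' hc0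
      linarith [hrb'.1, hrb'.2, hL.1, hL.2, hρ.1, hρ.2]
  have hq6 : |(q : ℝ)| ≤ 6 := by
    rw [abs_le]
    have h1 : -6 ≤ q := by omega
    have h2 : q ≤ 6 := by omega
    constructor
    · exact_mod_cast h1
    · exact_mod_cast h2
  have hqs : |(q : ℝ) * s| ≤ 6 * (535 / 1000) := by
    rw [abs_mul]
    exact mul_le_mul hq6 (abs_le.mpr hs) (abs_nonneg _) (by norm_num)
  have hru : |(r : ℝ) * u| ≤ 17 * (1 / 14) := by
    rw [abs_mul]
    apply mul_le_mul hr17 _ (abs_nonneg _) (by norm_num)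
    rw [abs_of_pos hu]
    exact hu14
  have hqs' := abs_le.mp hqs
  have hru' := abs_le.mp hru
  have hp2 := Dat.two_p h
  refine ⟨hr, hq, ?_, ?_⟩
  · have : (-33 : ℝ) < ((2 * p + r * B : ℤ) : ℝ) := by
      rw [hp2]; linarith [hqs'.1, hqs'.2, hru'.1, hru'.2, hρ.1, hρ.2]
    exact_mod_cast this
  · have : ((2 * p + r * B : ℤ) : ℝ) < 33 := by
      rw [hp2]; linarith [hqs'.1, hqs'.2, hru'.1, hru'.2, hρ.1, hρ.2]
    exact_mod_cast this

end Pool.Agent.X229.HessB
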