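import Pool.Agent.X229.HessB

namespace Pool.Agent.X229.HessB

open Pool.Agent.X229.Hess

theorem cs (x z β m M : ℝ) (hm : 0 < m) (h : 4 * x ^ 2 + m * z ^ 2 ≤ M) :
    (x + β * z) ^ 2 ≤ M * (1 / 4 + β ^ 2 / m) := by
  have h0 : 0 ≤ 1 / 4 + β ^ 2 / m := by positivity
  have h1 : (4 * x ^ 2 + m * z ^ 2) * (1 / 4 + β ^ 2 / m) ≤ M * (1 / 4 + β ^ 2 / m) :=
    mul_le_mul_of_nonneg_right h h0
  have h2 : (4 * x ^ 2 + m * z ^ 2) * (1 / 4 + β ^ 2 / m)
      = (x + β * z) ^ 2 + (2 * β * x - m / 2 * z) ^ 2 / m := by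
    field_simp
    ring
  have h3 : 0 ≤ (2 * β * x - m / 2 * z) ^ 2 / m := by positivity
  linarith

structure Pre (t s u κ w v : ℝ) : Prop where
  w0 : 0 < w
  v0 : 0 < v
  wt : w ^ 2 = t
  wv : w * v = 1
  vu : v ^ 2 = u
  s1 : -(2 * v) ≤ s
  s2 : s ≤ 2 * v
  s3 : -(366 / 1000) ≤ s
  s4 : s ≤ 366 / 1000
  v1 : v ≤ 183 / 1000
  u1 : u ≤ 1 / 30
  κ1 : 1500 * u ^ 2 ≤ κ
  K1 : 32 / 10 ≤ t * κ

theorem pre30 {A B p q r : ℤ} {t s u L ρ y κ W : ℝ} (h : Dat A B p q r t s u L ρ y κ W)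
    (hκ0 : 0 < κ) (ht : 30 ≤ t) (hk : 4 ≤ t * κ + 2 * s - u ^ 2) (hC : 1500 ≤ t * (t * κ)) :
    ∃ w v : ℝ, Pre t s u κ w v := by
  have hu := h.u_pos
  have hut := h.hu
  have hs2 : s ^ 2 * t < 4 := by have := h.hκ; linarith
  obtain ⟨w, hw0, hw⟩ : ∃ w : ℝ, 0 ≤ w ∧ w ^ 2 = t :=
    ⟨√t, Real.sqrt_nonneg _, Real.sq_sqrt (by linarith)⟩
  have hw1 : 0 < w := by
    rcases hw0.eq_or_lt with h0 | h0
    · rw [← h0] at hw; norm_num at hw; linarith
    · exact h0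
  have hv1 : w * (w * u) = 1 := by
    have : w * (w * u) = w ^ 2 * u := by ring
    rw [this, hw]; linarith
  have hvu : (w * u) ^ 2 = u := by
    have : (w * u) ^ 2 = (w * (w * u)) * u := by ring
    rw [this, hv1, one_mul]
  have hu1 : u ≤ 1 / 30 := by
    have : u * 30 ≤ u * t := mul_le_mul_of_nonneg_left ht hu.le
    linarith
  have hv0 : 0 < w * u := by positivity
  have hvb : w * u ≤ 183 / 1000 := by
    by_contra hcon
    push Not at hcon
    have := pow_lt_pow_left₀ hcon (by norm_num) (show (2 : ℕ) ≠ 0 by norm_num)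
    rw [hvu] at this
    norm_num at this
    linarith
  have hs : -(2 * (w * u)) ≤ s ∧ s ≤ 2 * (w * u) := by
    apply sqb (by positivity)
    rw [mul_pow, hvu]
    have e1 : s ^ 2 * t * u ≤ 4 * u := mul_le_mul_of_nonneg_right hs2.le hu.le
    have e2 : s ^ 2 * t * u = s ^ 2 * (u * t) := by ring
    rw [e2, hut] at e1
    linarith
  refine ⟨w, w * u, hw1, hv0, hw, hv1, hvu, hs.1, hs.2, by linarith [hs.1], by linarith [hs.2],
    hvb, hu1, ?_, ?_⟩
  · have e1 : 1500 * u ^ 2 ≤ t * (t * κ) * u ^ 2 := mul_le_mul_of_nonneg_right hC (sq_nonneg _)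
    have e2 : t * (t * κ) * u ^ 2 = κ * (u * t) ^ 2 := by ring
    rw [e2, hut] at e1
    linarith
  · have : 0 ≤ u ^ 2 := sq_nonneg u
    linarith [hs.2]

theorem big1 {A B p q r : ℤ} {t s u L ρ y κ W : ℝ} (h : Dat A B p q r t s u L ρ y κ W)
    (hκ0 : 0 < κ) (hN : |L| * (4 * ρ ^ 2 + κ * y ^ 2 * u) ≤ 792) (hL1 : 1 ≤ |L|) (hLt : |L| < t)
    (ht : 30 ≤ t) {w v : ℝ} (hp : Pre t s u κ w v) : -2 < q ∧ q < 2 := by
  have hu := h.u_pos
  have hut := h.hu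
  have hw0 := hp.w0
  have hv0 := hp.v0
  have hwt := hp.wt
  have hwv := hp.wv
  have hvu := hp.vu
  -- the equation for q
  have hqe : q * (t - s + u ^ 2) = L - ρ - y * (s / 2 - u ^ 2) := by
    have e1 : (r : ℝ) * t = q - y := by rw [h.hy]; ring
    have e2 : (r : ℝ) = (q - y) * u := by
      rw [← e1]
      have : (r : ℝ) * t * u = r * (u * t) := by ring
      rw [this, hut, mul_one]
    have e3 := h.q_eq
    have e4 : (r : ℝ) * (t * s / 2 - u) = (q - y) * (u * t * s / 2 - u ^ 2) := by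
      rw [e2]; ring
    rw [e4, hut, one_mul] at e3
    linarith
  have h1 : 4 * |ρ| ^ 2 + 1500 * (|y| * v ^ 3) ^ 2 ≤ 792 := by
    have e0 : 0 ≤ 4 * ρ ^ 2 + κ * y ^ 2 * u := by positivity
    have e1 : 1 * (4 * ρ ^ 2 + κ * y ^ 2 * u) ≤ |L| * (4 * ρ ^ 2 + κ * y ^ 2 * u) :=
      mul_le_mul_of_nonneg_right hL1 e0
    have e2 : 1500 * u ^ 2 * (y ^ 2 * u) ≤ κ * (y ^ 2 * u) :=
      mul_le_mul_of_nonneg_right hp.κ1 (by positivity)
    have e3 : 1500 * (|y| * v ^ 3) ^ 2 = 1500 * u ^ 2 * (y ^ 2 * u) := by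
      rw [mul_pow, sq_abs, ← hvu]; ring
    rw [e3, sq_abs]
    linarith
  have hv3 : v ^ 3 ≤ 62 / 10000 := by
    have : v ^ 3 ≤ (183 / 1000) ^ 3 := pow_le_pow_left₀ hv0.le hp.v1 3
    norm_num at this ⊢
    linarith
  have hβ : |y| * (v + u ^ 2) ≤ (10062 / 10000 * t) * (|y| * v ^ 3) := by
    have e1 : t * v ^ 2 = 1 := by rw [hvu]; linarith
    have e2 : (10062 / 10000 * t) * (|y| * v ^ 3) = 10062 / 10000 * (|y| * v) * (t * v ^ 2) := by ring
    rw [e2, e1, ← hvu]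
    have e3 : |y| * (v + (v ^ 2) ^ 2) = |y| * v * (1 + v ^ 3) := by ring
    rw [e3]
    have e4 : |y| * v * (1 + v ^ 3) ≤ |y| * v * (10062 / 10000) :=
      mul_le_mul_of_nonneg_left (by linarith) (by positivity)
    linarith
  have h2 := cs |ρ| (|y| * v ^ 3) (10062 / 10000 * t) 1500 792 (by norm_num) h1
  have h3 : |ρ| + |y| * (v + u ^ 2) ≤ 87 / 100 * t := by
    have e0 : |ρ| + (10062 / 10000 * t) * (|y| * v ^ 3) ≤ 87 / 100 * t := by
      apply abs_le_of_sq_le_sq' _ (by linarith) |>.2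
      refine h2.trans ?_
      have e1 : (900 : ℝ) ≤ t ^ 2 := by
        have : (30 : ℝ) ^ 2 ≤ t ^ 2 := pow_le_pow_left₀ (by norm_num) ht 2
        linarith
      have e2 : 792 * (1 / 4 + (10062 / 10000 * t) ^ 2 / 1500)
          = 198 + 792 * (10062 / 10000) ^ 2 / 1500 * t ^ 2 := by ring
      rw [e2]
      norm_num
      nlinarith
    linarith
  have h4 : |y * (s / 2 - u ^ 2)| ≤ |y| * (v + u ^ 2) := by
    rw [abs_mul]
    apply mul_le_mul_of_nonneg_left _ (abs_nonneg _)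
    have := sq_nonneg u
    rw [abs_le]
    constructor <;> linarith [hp.s1, hp.s2]
  have h4' := abs_le.mp h4
  have hL := abs_lt.mp hLt
  have hρ := abs_le.mp (le_refl |ρ|)
  have hD0 : 0 ≤ t - s + u ^ 2 := by have := sq_nonneg u; linarith [hp.s4]
  have hD1 : t - 366 / 1000 ≤ t - s + u ^ 2 := by have := sq_nonneg u; linarith [hp.s4]
  constructor
  · by_contra hc
    push Not at hc
    have hc' : (q : ℝ) ≤ -2 := by exact_mod_cast hc
    have : (q : ℝ) * (t - s + u ^ 2) ≤ -2 * (t - s + u ^ 2) := mul_le_mul_of_nonneg_right hc' hD0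
    linarith [h4'.1, h4'.2, hL.1, hL.2, hρ.1, hρ.2]
  · by_contra hc
    push Not at hc
    have hc' : (2 : ℝ) ≤ q := by exact_mod_cast hc
    have : 2 * (t - s + u ^ 2) ≤ (q : ℝ) * (t - s + u ^ 2) := mul_le_mul_of_nonneg_right hc' hD0
    linarith [h4'.1, h4'.2, hL.1, hL.2, hρ.1, hρ.2]

theorem big2 {A B p q r : ℤ} {t s u L ρ y κ W : ℝ} (h : Dat A B p q r t s u L ρ y κ W)
    (hκ0 : 0 < κ) (hN : |L| * (4 * ρ ^ 2 + κ * y ^ 2 * u) ≤ 792) (hL1 : 1 ≤ |L|) (hLt : |L| < t)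
    (ht : 30 ≤ t) {w v : ℝ} (hp : Pre t s u κ w v) (hq : q = 1 ∨ q = -1) (hr : r ≠ 0) : False := by
  have hu := h.u_pos
  have hut := h.hu
  have hw0 := hp.w0
  have hv0 := hp.v0
  have hwt := hp.wt
  have hwv := hp.wv
  have hvu := hp.vu
  have hr1 : 1 ≤ |(r : ℝ)| := by
    have : 1 ≤ |r| := Int.one_le_abs hr
    exact_mod_cast this
  have hqa : |(q : ℝ)| = 1 := by
    rcases hq with e | e <;> rw [e] <;> norm_num
  -- y bound
  have hy1 : |(r : ℝ)| * (t - 1) ≤ |y| := by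
    rw [h.hy]
    have e1 : |(r : ℝ)| * t = |(r : ℝ) * t| := by rw [abs_mul, abs_of_pos (by linarith : 0 < t)]
    have e2 : |(r : ℝ) * t| - |(q : ℝ)| ≤ |(r : ℝ) * t - q| := abs_sub_abs_le_abs_sub _ _
    rw [abs_sub_comm] at e2
    have e3 : |(r : ℝ)| * (t - 1) = |(r : ℝ)| * t - |(r : ℝ)| := by ring
    rw [e3, e1]
    linarith
  set a := |L| with ha
  have ha0 : 0 < a := by linarith
  have hm : a * (4 * |ρ| ^ 2 + 1401 * u * |(r : ℝ)| ^ 2) ≤ 792 := by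
    refine le_trans ?_ hN
    apply mul_le_mul_of_nonneg_left _ ha0.le
    rw [sq_abs]
    have e1 : (|(r : ℝ)| * (t - 1)) ^ 2 ≤ y ^ 2 := by
      rw [← sq_abs y]
      apply pow_le_pow_left₀ _ hy1
      apply mul_nonneg (abs_nonneg _); linarith
    have e2 : 1500 * u ^ 2 * (y ^ 2 * u) ≤ κ * (y ^ 2 * u) :=
      mul_le_mul_of_nonneg_right hp.κ1 (by positivity)
    have e3 : 1500 * u ^ 2 * ((|(r : ℝ)| * (t - 1)) ^ 2 * u) ≤ 1500 * u ^ 2 * (y ^ 2 * u) := by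
      apply mul_le_mul_of_nonneg_left _ (by positivity)
      exact mul_le_mul_of_nonneg_right e1 hu.le
    have e4 : 1500 * u ^ 2 * ((|(r : ℝ)| * (t - 1)) ^ 2 * u)
        = 1500 * (u * t - u) ^ 2 * (u * |(r : ℝ)| ^ 2) := by ring
    rw [e4, hut] at e3
    have e5 : 1401 ≤ 1500 * (1 - u) ^ 2 := by
      have : (29 / 30 : ℝ) ^ 2 ≤ (1 - u) ^ 2 := by
        apply pow_le_pow_left₀ (by norm_num)
        linarith [hp.u1]
      norm_num at this
      linarith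
    have e6 : 1401 * (u * |(r : ℝ)| ^ 2) ≤ 1500 * (1 - u) ^ 2 * (u * |(r : ℝ)| ^ 2) :=
      mul_le_mul_of_nonneg_right e5 (by positivity)
    linarith
  have hm' : 4 * |ρ| ^ 2 + 1401 * u * |(r : ℝ)| ^ 2 ≤ 792 / a := by
    rw [le_div_iff₀ ha0]
    linarith
  have h2 := cs |ρ| |(r : ℝ)| (w + u) (1401 * u) (792 / a) (by positivity) hm'
  have hv3 : v ^ 3 ≤ 62 / 10000 := by
    have : v ^ 3 ≤ (183 / 1000) ^ 3 := pow_le_pow_left₀ hv0.le hp.v1 3
    norm_num at this ⊢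
    linarith
  have hwu : w + u = w * (1 + v ^ 3) := by
    have : w * (1 + v ^ 3) = w + (w * v) * v ^ 2 := by ring
    rw [this, hwv, hvu, one_mul]
  have hwu2 : (w + u) ^ 2 ≤ 10125 / 10000 * t := by
    rw [hwu, mul_pow, hwt, mul_comm]
    apply mul_le_mul_of_nonneg_right _ (by linarith)
    have : (1 + v ^ 3) ^ 2 ≤ (1 + 62 / 10000) ^ 2 := pow_le_pow_left₀ (by positivity) (by linarith) 2
    norm_num at this ⊢
    linarith
  have e1 : (900 : ℝ) ≤ t ^ 2 := by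
    have : (30 : ℝ) ^ 2 ≤ t ^ 2 := pow_le_pow_left₀ (by norm_num) ht 2
    linarith
  set X := |ρ| + (w + u) * |(r : ℝ)| with hX
  have hX2 : a * X ^ 2 ≤ 7925 / 10000 * t ^ 2 := by
    have e2 : a * X ^ 2 ≤ a * (792 / a * (1 / 4 + (w + u) ^ 2 / (1401 * u))) :=
      mul_le_mul_of_nonneg_left h2 ha0.le
    have e3 : a * (792 / a * (1 / 4 + (w + u) ^ 2 / (1401 * u))) = 792 * (1 / 4 + (w + u) ^ 2 * t / 1401) := by
      have : u⁻¹ = t := inv_eq_of_mul_eq_one_right hut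
      have e4 : (w + u) ^ 2 / (1401 * u) = (w + u) ^ 2 * u⁻¹ / 1401 := by
        field_simp
      rw [e4, this]
      field_simp
    rw [e3] at e2
    have e5 : (w + u) ^ 2 * t ≤ 10125 / 10000 * t * t := mul_le_mul_of_nonneg_right hwu2 (by linarith)
    have e6 : 10125 / 10000 * t * t = 10125 / 10000 * t ^ 2 := by ring
    rw [e6] at e5
    linarith
  have hX0 : 0 ≤ X := by positivity
  -- a is at most .5654 t
  have ha2 : a ≤ 5654 / 10000 * t := by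
    have e2 : a * (1401 * u * 1) ≤ a * (4 * |ρ| ^ 2 + 1401 * u * |(r : ℝ)| ^ 2) := by
      apply mul_le_mul_of_nonneg_left _ ha0.le
      have : (1 : ℝ) ≤ |(r : ℝ)| ^ 2 := one_le_pow₀ hr1
      have e3 : 1401 * u * 1 ≤ 1401 * u * |(r : ℝ)| ^ 2 := mul_le_mul_of_nonneg_left this (by positivity)
      have e4 : 0 ≤ 4 * |ρ| ^ 2 := by positivity
      linarith
    have e3 : a * (1401 * u * 1) * t ≤ 792 * t := mul_le_mul_of_nonneg_right (e2.trans hm) (by linarith)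
    have e4 : a * (1401 * u * 1) * t = 1401 * a * (u * t) := by ring
    rw [e4, hut] at e3
    linarith
  -- T
  have hqe := h.q_eq
  set T := t - s / 2 with hT
  have hT1 : t - 183 / 1000 ≤ T := by linarith [hp.s4]
  have hTX : T - a ≤ X := by
    have e2 : |(q : ℝ) * T| = T := by
      rw [abs_mul, hqa, one_mul, abs_of_nonneg (by linarith)]
    have e3 : |(r : ℝ) * (t * s / 2 - u)| ≤ (w + u) * |(r : ℝ)| := by
      rw [abs_mul, mul_comm]
      apply mul_le_mul_of_nonneg_right _ (abs_nonneg _)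
      have e4 : t * s / 2 ≤ w := by
        have : t * s ≤ t * (2 * v) := mul_le_mul_of_nonneg_left hp.s2 (by linarith)
        have e5 : t * (2 * v) = 2 * w := by
          rw [← hwt]
          have : w ^ 2 * (2 * v) = 2 * w * (w * v) := by ring
          rw [this, hwv, mul_one]
        linarith
      have e4' : -w ≤ t * s / 2 := by
        have : t * (-(2 * v)) ≤ t * s := mul_le_mul_of_nonneg_left hp.s1 (by linarith)
        have e5 : t * (2 * v) = 2 * w := by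
          rw [← hwt]
          have : w ^ 2 * (2 * v) = 2 * w * (w * v) := by ring
          rw [this, hwv, mul_one]
        linarith
      rw [abs_le]
      constructor <;> linarith
    have e6 : |(q : ℝ) * T| ≤ |L| + |ρ| + |(r : ℝ) * (t * s / 2 - u)| := by
      rw [hqe]
      exact (abs_add_le _ _).trans (by linarith [abs_sub L ρ])
    rw [e2] at e6
    linarith
  have hTa : 0 ≤ T - a := by linarith
  have e7 : (T - a) ^ 2 ≤ X ^ 2 := pow_le_pow_left₀ hTa hTX 2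
  have e8 : a * (T - a) ^ 2 ≤ 7925 / 10000 * t ^ 2 :=
    (mul_le_mul_of_nonneg_left e7 ha0.le).trans hX2
  have e9 : (T - 1) ^ 2 ≤ a * (T - a) ^ 2 := by
    have e10 : a * (T - a) ^ 2 - (T - 1) ^ 2 = (a - 1) * ((T - a - 1) ^ 2 - a) := by ring
    have e11 : 0 ≤ (T - a - 1) ^ 2 - a := by
      have e12 : 434 / 1000 * t - 1183 / 1000 ≤ T - a - 1 := by linarith
      have e13 : (434 / 1000 * t - 1183 / 1000) ^ 2 ≤ (T - a - 1) ^ 2 :=
        pow_le_pow_left₀ (by linarith) e12 2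
      nlinarith
    have e14 : 0 ≤ (a - 1) * ((T - a - 1) ^ 2 - a) := mul_nonneg (by linarith) e11
    linarith
  have e15 : (96 / 100 * t) ^ 2 ≤ (T - 1) ^ 2 := by
    apply pow_le_pow_left₀ (by linarith)
    linarith
  have e16 : (96 / 100 * t) ^ 2 = 9216 / 10000 * t ^ 2 := by ring
  rw [e16] at e15
  linarith

theorem big3 {A B p r : ℤ} {t s u L ρ y κ W : ℝ} (h : Dat A B p 0 r t s u L ρ y κ W)
    (hκ0 : 0 < κ) (hN : |L| * (4 * ρ ^ 2 + κ * y ^ 2 * u) ≤ 792) (hL1 : 1 ≤ |L|) (hLt : |L| < t)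
    (ht : 30 ≤ t) (hC : 1500 ≤ t * (t * κ)) {w v : ℝ} (hp : Pre t s u κ w v)
    (hp3 : 3 ≤ |p|) (hr3 : 3 ≤ |r|) : False := by
  have hu := h.u_pos
  have hut := h.hu
  have hp3' : 3 ≤ |(p : ℝ)| := by exact_mod_cast hp3
  have hr3' : 3 ≤ |(r : ℝ)| := by exact_mod_cast hr3
  obtain ⟨K, hK⟩ : ∃ K, K = t * κ := ⟨_, rfl⟩
  have hK1 : 32 / 10 ≤ K := by rw [hK]; exact hp.K1
  have hK0 : 0 < K := by linarith
  have hr9 : 9 ≤ (r : ℝ) ^ 2 := by
    rw [← sq_abs]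
    have := pow_le_pow_left₀ (by norm_num) hr3' 2
    norm_num at this ⊢
    linarith
  have hy : y = -(r * t) := by rw [h.hy]; push_cast; ring
  have hN2 : |L| * (4 * ρ ^ 2 + r ^ 2 * K) ≤ 792 := by
    have e1 : κ * y ^ 2 * u = r ^ 2 * K := by
      rw [hy, hK]
      have : κ * (-(r * t)) ^ 2 * u = r ^ 2 * (t * κ) * (u * t) := by ring
      rw [this, hut, mul_one]
    rw [e1] at hN
    exact hN
  set a := |L| with ha
  have ha0 : 0 < a := by linarith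
  obtain ⟨R, hR⟩ : ∃ R, R = (r : ℝ) ^ 2 := ⟨_, rfl⟩
  rw [← hR] at hN2 hr9
  have hR0 : 0 < R := by linarith
  -- main algebraic inequality
  have hmain : R * (4 * t - K) = 4 * (ρ - p) ^ 2 := by
    rw [h.hρ, hR, hK, h.hκ]
    push_cast
    ring
  -- |r| u small
  have hru : |(r : ℝ)| * u ≤ 53 / 100 := by
    have e1 : 1 * (R * K) ≤ a * (4 * ρ ^ 2 + R * K) := by
      have : 0 ≤ 4 * ρ ^ 2 := by positivity
      have e2 : 0 ≤ R * K := by positivity
      nlinarith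
    have e2 : R * (32 / 10) ≤ R * K := mul_le_mul_of_nonneg_left hK1 hR0.le
    have e3 : |(r : ℝ)| ^ 2 ≤ (158 / 10) ^ 2 := by
      rw [sq_abs, ← hR]
      norm_num
      linarith
    have e4 : |(r : ℝ)| ≤ 158 / 10 := by
      have := abs_le_of_sq_le_sq' e3 (by norm_num)
      exact this.2
    have e5 : |(r : ℝ)| * u ≤ 158 / 10 * (1 / 30) :=
      mul_le_mul e4 hp.u1 hu.le (by norm_num)
    linarith
  have hLe : L = p + r * u := by rw [h.hL]; push_cast; ring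
  have hap : |(p : ℝ)| ≤ a + 53 / 100 := by
    have e1 : (p : ℝ) = L - r * u := by rw [hLe]; ring
    have e2 : |(p : ℝ)| ≤ |L| + |(r : ℝ) * u| := by
      rw [e1]
      exact abs_sub L ((r : ℝ) * u)
    have e3 : |(r : ℝ) * u| = |(r : ℝ)| * u := by rw [abs_mul, abs_of_pos hu]
    linarith
  have ha2 : 247 / 100 ≤ a := by linarith
  have hp2 : (p : ℝ) ^ 2 ≤ (a + 53 / 100) ^ 2 := by
    rw [← sq_abs (p : ℝ)]
    exact pow_le_pow_left₀ (abs_nonneg _) hap 2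
  -- upper bound of a
  have haK : a * (R * K) ≤ 792 := by
    have : 0 ≤ a * (4 * ρ ^ 2) := by positivity
    nlinarith
  have haup : a ≤ 276 / 10 := by
    have e1 : a * (9 * (32 / 10)) ≤ a * (R * K) := by
      apply mul_le_mul_of_nonneg_left _ ha0.le
      apply mul_le_mul hr9 hK1 (by norm_num) hR0.le
    linarith
  -- x = a ρ², z = a R K
  have hx : 4 * (a * ρ ^ 2) + a * (R * K) ≤ 792 := by linarith
  have h1 : 6000 * R ≤ K * (4 * (ρ - p) ^ 2) + R * K ^ 2 := by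
    have e1 : R * 1500 ≤ R * (t * K) := by
      apply mul_le_mul_of_nonneg_left _ hR0.le
      rw [hK]; exact hC
    have e2 : K * (R * (4 * t - K)) = 4 * (R * (t * K)) - R * K ^ 2 := by ring
    rw [hmain] at e2
    linarith
  have h2 : 4 * (ρ - (p : ℝ)) ^ 2 ≤ 8 * ρ ^ 2 + 8 * (p : ℝ) ^ 2 := by nlinarith [sq_nonneg (ρ + (p : ℝ))]
  have h3 : 6000 * R ≤ K * (8 * ρ ^ 2 + 8 * (p : ℝ) ^ 2) + R * K ^ 2 := by
    have := mul_le_mul_of_nonneg_left h2 hK0.le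
    linarith
  -- multiply by R a²
  have h4 : 6000 * R * (R * a ^ 2) ≤ (K * (8 * ρ ^ 2 + 8 * (p : ℝ) ^ 2) + R * K ^ 2) * (R * a ^ 2) :=
    mul_le_mul_of_nonneg_right h3 (by positivity)
  have h5 : (K * (8 * ρ ^ 2 + 8 * (p : ℝ) ^ 2) + R * K ^ 2) * (R * a ^ 2)
      = 8 * (a * (R * K)) * (a * ρ ^ 2) + (a * (R * K)) ^ 2 + 8 * (a * (R * K)) * (a * (p : ℝ) ^ 2) := by
    ring
  rw [h5] at h4
  obtain ⟨z, hz⟩ : ∃ z, z = a * (R * K) := ⟨_, rfl⟩
  obtain ⟨x, hxx⟩ : ∃ x, x = a * ρ ^ 2 := ⟨_, rfl⟩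
  rw [← hz, ← hxx] at h4 hx
  rw [← hz] at haK
  have hz0 : 0 ≤ z := by rw [hz]; positivity
  have hx0 : 0 ≤ x := by rw [hxx]; positivity
  have h6 : 8 * z * x + z ^ 2 ≤ 792 ^ 2 := by
    have : 8 * z * x ≤ 2 * z * (792 - z) := by nlinarith
    nlinarith [sq_nonneg (792 - z)]
  have h7 : 8 * z * (a * (p : ℝ) ^ 2) ≤ 8 * 792 * (a * (a + 53 / 100) ^ 2) := by
    apply mul_le_mul _ _ (by positivity) (by norm_num)
    · linarith
    · exact mul_le_mul_of_nonneg_left hp2 ha0.le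
  have h8 : 6000 * 81 * a ^ 2 ≤ 6000 * R * (R * a ^ 2) := by
    have e1 : (81 : ℝ) ≤ R * R := by nlinarith
    have e2 : 6000 * R * (R * a ^ 2) = 6000 * (R * R) * a ^ 2 := by ring
    rw [e2]
    apply mul_le_mul_of_nonneg_right _ (sq_nonneg a)
    linarith
  have h9 : a + 53 / 100 ≤ 1215 / 1000 * a := by linarith
  have h10 : (a + 53 / 100) ^ 2 ≤ (1215 / 1000 * a) ^ 2 := pow_le_pow_left₀ (by linarith) h9 2
  have h11 : a * (a + 53 / 100) ^ 2 ≤ 276 / 10 * (1215 / 1000 * a) ^ 2 :=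
    mul_le_mul haup h10 (by positivity) (by norm_num)
  have h12 : 6 ≤ a ^ 2 := by nlinarith
  nlinarith

theorem large {e : Bool} {A B p q r : ℤ} {t s u L ρ y κ W : ℝ} (h : Dat A B p q r t s u L ρ y κ W)
    (hκ0 : 0 < κ) (hN : |L| * (4 * ρ ^ 2 + κ * y ^ 2 * u) ≤ 792) (hL1 : 1 ≤ |L|) (hLt : |L| < t)
    (ht : 30 ≤ t) (hk : 4 ≤ t * κ + 2 * s - u ^ 2) (hC : 1500 ≤ t * (t * κ)) (hc : Cnd e p q r)
    (hN0 : NN A B p q r ≠ 0) (hN1 : (NN A B p q r).natAbs < 216) : False := by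
  obtain ⟨w, v, hp⟩ := pre30 h hκ0 ht hk hC
  have hq := big1 h hκ0 hN hL1 hLt ht hp
  obtain ⟨c1, c2, c3⟩ := hc
  by_cases hq0 : q = 0
  · subst hq0
    have c3' : p % 3 = 0 := by
      rcases c3 with ⟨-, c3⟩ | ⟨-, c3⟩ <;> omega
    have cube : ∀ x : ℤ, x % 6 = 0 → x ^ 3 ≠ 0 → ¬ (x ^ 3).natAbs < 216 := by
      intro x hx hx0 hlt
      rw [Int.natAbs_pow] at hlt
      have hx1 : x ≠ 0 := by rintro rfl; simp at hx0
      have : 6 ≤ x.natAbs := by omega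
      have := Nat.pow_le_pow_left this 3
      omega
    have hp0 : p ≠ 0 := by
      rintro rfl
      have e1 : NN A B 0 0 r = r ^ 3 := by unfold NN; ring
      rw [e1] at hN0 hN1
      exact cube r (by omega) hN0 hN1
    have hr0 : r ≠ 0 := by
      rintro rfl
      have e1 : NN A B p 0 0 = p ^ 3 := by unfold NN; ring
      rw [e1] at hN0 hN1
      exact cube p (by omega) hN0 hN1
    apply big3 h hκ0 hN hL1 hLt ht hC hp
    · rw [Int.abs_eq_natAbs]; omega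
    · rw [Int.abs_eq_natAbs]; omega
  · exact big2 h hκ0 hN hL1 hLt ht hp (by omega) (by omega)

end Pool.Agent.X229.HessB
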