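import Pool.Agent.X229.HessC

namespace Pool.Agent.X229.HessB

open Pool.Agent.X229.Hess

def clsb (e : Bool) (A B : ℤ) : Bool :=
  (A - B) % 2 == 0 && (if e then A % 3 == 1 && B % 3 == 0 else A % 3 == 0 && B % 3 == 1)

theorem clsb_of {e : Bool} {A B : ℤ} (h : Cls e A B) : clsb e A B = true := by
  obtain ⟨h1, h2⟩ := h
  unfold clsb
  rcases h2 with ⟨he, ha, hb⟩ | ⟨he, ha, hb⟩
  · rw [he, h1, ha, hb]; rfl
  · rw [he, h1, ha, hb]; rfl

def excT : List (ℤ × ℤ) :=
  [(4, 0), (7, -3), (7, 3), (10, -6), (10, 0), (10, 6), (13, -3), (13, 3), (16, -6), (16, 6),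
    (25, 9), (82, -18), (82, 18)]

def excF : List (ℤ × ℤ) :=
  [(3, 1), (6, -2), (6, 4), (9, -5), (9, 1), (12, -2), (12, 4), (15, -5), (15, 7), (18, -8),
    (24, -8), (33, -11), (66, 16), (102, -20)]

def exc (e : Bool) (A B : ℤ) : Bool :=
  if e then excT.contains (A, B) else excF.contains (A, B)

def chkSmall : Bool :=
  [true, false].all fun e => (List.range 13).all fun a => (List.range 19).all fun b =>
    let A : ℤ := (a : ℤ) + 2
    let B : ℤ := (b : ℤ) - 9
    !(clsb e A B) || !(decide (B < A)) || !(decide (0 < DD A B)) || exc e A B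

theorem chkSmall_eq : chkSmall = true := by decide +kernel

def chkPair (e : Bool) (A B : ℤ) : Bool :=
  (List.range 18).all fun r' => (List.range 13).all fun q' =>
    let r : ℤ := (r' : ℤ)
    let q : ℤ := (q' : ℤ) - 6
    !((q + r) % 3 == 0) ||
      (let p0 : ℤ := if e then q + 3 * r else r + 3 * q
       let j0 : ℤ := (-32 - (2 * p0 + r * B)) / 12
       (List.range 8).all fun i =>
        let n := (NN A B (p0 + 6 * (j0 + (i : ℤ))) q r).natAbs
        n == 0 || decide (216 ≤ n))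

def AA (e : Bool) (a : ℤ) : ℤ := if e then 3 * a + 1 else 3 * a
def BB (e : Bool) (b : ℤ) : ℤ := if e then 3 * b else 3 * b + 1

def chkAll2 : Bool :=
  [true, false].all fun e => (List.range 162).all fun a' => (List.range 31).all fun b' =>
    let A : ℤ := AA e ((a' : ℤ) + 5)
    let B : ℤ := BB e ((b' : ℤ) - 15)
    !((A - B) % 2 == 0) || !(decide (4 ≤ 4 * A - B * B)) ||
      !(decide (A ≤ 30) || decide ((A - 1) * (4 * A - B * B - 1) < 1500)) || exc e A B || chkPair e A B

set_option maxRecDepth 100000 in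
theorem chkAll2_eq : chkAll2 = true := by decide +kernel

theorem small_case {e : Bool} {A B : ℤ} (h : Cls e A B) (hA : 2 ≤ A) (hA2 : A < 15) (hB : -10 < B)
    (hB2 : B < 10) (hBA : B < A) (hD : 0 < DD A B) : exc e A B = true := by
  have h0 := chkSmall_eq
  unfold chkSmall at h0
  rw [List.all_eq_true] at h0
  have h1 := h0 e (by cases e <;> simp)
  rw [List.all_eq_true] at h1
  have h2 := h1 (A - 2).toNat (List.mem_range.mpr (by omega))
  rw [List.all_eq_true] at h2
  have h3 := h2 (B + 9).toNat (List.mem_range.mpr (by omega))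
  have ea : (((A - 2).toNat : ℕ) : ℤ) + 2 = A := by omega
  have eb : (((B + 9).toNat : ℕ) : ℤ) - 9 = B := by omega
  simp only [ea, eb, clsb_of h] at h3
  simp only [Bool.or_eq_true, Bool.not_eq_true', decide_eq_false_iff_not] at h3
  rcases h3 with ((h3 | h3) | h3) | h3
  · simp at h3
  · exact absurd hBA h3
  · exact absurd hD h3
  · exact h3

theorem fin_case2 {e : Bool} {A B p q r : ℤ} (h : Cls e A B) (hA : 15 ≤ A) (hA2 : A ≤ 500)
    (hB : -45 < B) (hB2 : B < 45) (hk : 4 ≤ 4 * A - B ^ 2)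
    (hreg : A ≤ 30 ∨ (A - 1) * (4 * A - B ^ 2 - 1) < 1500)
    (hc : Cnd e p q r) (hr : 0 ≤ r) (hr2 : r < 18) (hq : -7 < q) (hq2 : q < 7)
    (hp : -33 < 2 * p + r * B) (hp2 : 2 * p + r * B < 33)
    (hN0 : NN A B p q r ≠ 0) (hN1 : (NN A B p q r).natAbs < 216) : exc e A B = true := by
  have h0 := chkAll2_eq
  unfold chkAll2 at h0
  rw [List.all_eq_true] at h0
  have h1 := h0 e (by cases e <;> simp)
  rw [List.all_eq_true] at h1
  obtain ⟨hpar, h2⟩ := h
  obtain ⟨c1, c2, c3⟩ := hc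
  obtain ⟨a, b, hAa, hBb, ha1, ha2, hb1, hb2⟩ : ∃ a b : ℤ, A = AA e a ∧ B = BB e b ∧ 5 ≤ a ∧ a ≤ 166 ∧
      -15 ≤ b ∧ b ≤ 15 := by
    rcases h2 with ⟨he, ha, hb⟩ | ⟨he, ha, hb⟩
    · refine ⟨A / 3, B / 3, ?_, ?_, by omega, by omega, by omega, by omega⟩
      · rw [he]; unfold AA; simp; omega
      · rw [he]; unfold BB; simp; omega
    · refine ⟨A / 3, B / 3, ?_, ?_, by omega, by omega, by omega, by omega⟩
      · rw [he]; unfold AA; simp; omega
      · rw [he]; unfold BB; simp; omega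
  have h3 := h1 (a - 5).toNat (List.mem_range.mpr (by omega))
  rw [List.all_eq_true] at h3
  have h4 := h3 (b + 15).toNat (List.mem_range.mpr (by omega))
  have ea : (((a - 5).toNat : ℕ) : ℤ) + 5 = a := by omega
  have eb : (((b + 15).toNat : ℕ) : ℤ) - 15 = b := by omega
  simp only [ea, eb, ← hAa, ← hBb] at h4
  simp only [Bool.or_eq_true, Bool.not_eq_true', decide_eq_false_iff_not, beq_iff_eq,
    Bool.or_eq_false_iff, beq_eq_false_iff_ne] at h4
  rcases h4 with (((h4 | h4) | h4) | h4) | h4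
  · exact absurd hpar h4
  · exfalso; apply h4; rw [← pow_two]; exact hk
  · exfalso
    rcases hreg with h5 | h5
    · exact h4.1 h5
    · apply h4.2; rw [← pow_two]; exact h5
  · exact h4
  · exfalso
    unfold chkPair at h4
    rw [List.all_eq_true] at h4
    have h5 := h4 r.toNat (List.mem_range.mpr (by omega))
    rw [List.all_eq_true] at h5
    have h6 := h5 (q + 6).toNat (List.mem_range.mpr (by omega))
    have er : ((r.toNat : ℕ) : ℤ) = r := by omega
    have eq : (((q + 6).toNat : ℕ) : ℤ) - 6 = q := by omega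
    simp only [er, eq] at h6
    rw [Bool.or_eq_true] at h6
    rcases h6 with h6 | h6
    · rw [c2] at h6; simp at h6
    · obtain ⟨p0, hp0⟩ : ∃ x : ℤ, x = if e = true then q + 3 * r else r + 3 * q := ⟨_, rfl⟩
      rw [← hp0] at h6
      obtain ⟨j, hj⟩ : ∃ j, p = p0 + 6 * j := by
        refine ⟨(p - p0) / 6, ?_⟩
        rcases c3 with ⟨he, c3⟩ | ⟨he, c3⟩
        · rw [he] at hp0
          simp only [if_true] at hp0
          omega
        · rw [he] at hp0
          simp only [Bool.false_eq_true, if_false] at hp0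
          omega
      rw [List.all_eq_true] at h6
      obtain ⟨E, hE⟩ : ∃ E, E = r * B := ⟨_, rfl⟩
      rw [← hE] at h6 hp hp2
      have h7 := h6 (j - (-32 - (2 * p0 + E)) / 12).toNat (List.mem_range.mpr (by omega))
      have e7 : (-32 - (2 * p0 + E)) / 12 + (((j - (-32 - (2 * p0 + E)) / 12).toNat : ℕ) : ℤ) = j := by
        omega
      simp only [e7, ← hj] at h7
      simp only [Bool.or_eq_true, beq_iff_eq, decide_eq_true_eq] at h7
      rcases h7 with h7 | h7
      · exact hN0 (Int.natAbs_eq_zero.mp h7)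
      · omega

theorem A_ge2 {e : Bool} {A B : ℤ} (h : Cls e A B) (hBA : B < A) (hD : 0 < DD A B) :
    2 ≤ A ∧ B ≤ A - 2 := by
  obtain ⟨h1, h2⟩ := h
  refine ⟨?_, by omega⟩
  by_contra hc
  unfold DD at hD
  rcases (by omega : A ≤ 0 ∨ A = 1) with ha' | ha'
  · have hb' : B ≤ -2 := by omega
    have h1 : A ^ 3 ≤ 0 := by
      have : A ^ 3 = A ^ 2 * A := by ring
      rw [this]
      exact mul_nonpos_of_nonneg_of_nonpos (sq_nonneg _) ha'
    have h2 : B ^ 3 ≤ -8 := by
      have h3 : (2 : ℤ) ^ 3 ≤ (-B) ^ 3 := pow_le_pow_left₀ (by norm_num) (by linarith) 3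
      have h4 : (-B) ^ 3 = - B ^ 3 := by ring
      rw [h4] at h3
      linarith
    have h3 : 0 ≤ A ^ 2 * B ^ 2 := by positivity
    have h4 : 0 ≤ A * B := mul_nonneg_of_nonpos_of_nonpos ha' (by linarith)
    linarith [mul_assoc 18 A B]
  · have hb' : B ≤ -3 := by
      rcases h2 with ⟨_, ha, hb⟩ | ⟨_, ha, hb⟩ <;> omega
    rw [ha'] at hD
    have h9 : 9 ≤ B ^ 2 := by nlinarith
    have : B ^ 3 = B ^ 2 * B := by ring
    have h10 : B ^ 2 * B ≤ 9 * B := by nlinarith
    linarith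

theorem core2 {e : Bool} {A B p q r : ℤ} (h : Cls e A B) (hBA : B < A) (hD : 0 < DD A B)
    (hc : Cnd e p q r)
    (hN0 : NN A B p q r ≠ 0) (hN1 : (NN A B p q r).natAbs < 216)
    (hN2 : (NN A B p q r).natAbs ≤ 198) : exc e A B = true := by
  obtain ⟨hA2, hBA2⟩ := A_ge2 h hBA hD
  obtain ⟨t, ht, hroot⟩ := real_root A B hA2 hBA2
  have ht0 : t ≠ 0 := by linarith
  have htpos : 0 < t := by linarith
  have hdat : ∀ p q r : ℤ, Dat A B p q r t (A - t) t⁻¹ (LL t p q r)
      (p + (q + r * t) * (A - t) / 2) (q - r * t) (4 - (A - t) ^ 2 * t) (t ^ 2 - (A - t) * t + t⁻¹) := by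
    intro p q r
    refine ⟨ht, inv_mul_cancel₀ ht0, by ring, ?_, rfl, rfl, rfl, rfl, rfl⟩
    field_simp
    linarith
  have hL0 : LL t p q r ≠ 0 := by
    intro h0
    have := (hdat p q r).N_eq
    rw [h0, zero_mul] at this
    have h1 : (NN A B p q r : ℝ) = 0 := by linarith
    have h2 : NN A B p q r = 0 := by exact_mod_cast h1
    exact hN0 h2
  obtain ⟨n, hn⟩ := exists_mem_Ico_zpow (abs_pos.mpr hL0) (by linarith : 1 < t)
  obtain ⟨p', q', r', hc', hN', hL'⟩ := shiftP A B t htpos hroot (Cnd e) (Cnd_step h) (Cnd_stepinv h)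
    (-n) p q r hc
  rw [← hN'] at hN0 hN1 hN2
  clear hN'
  have hd := hdat p' q' r'
  have hLe : |LL t p' q' r'| = |LL t p q r| * t ^ (-n) := by
    rw [hL', abs_mul, abs_of_pos (zpow_pos htpos (-n))]
  have hL1 : 1 ≤ |LL t p' q' r'| := by
    rw [hLe, zpow_neg]
    have : 0 < t ^ n := zpow_pos htpos n
    rw [← div_eq_mul_inv, le_div_iff₀ this, one_mul]
    exact hn.1
  have hLt : |LL t p' q' r'| < t := by
    rw [hLe, zpow_neg]
    have : 0 < t ^ n := zpow_pos htpos n
    rw [← div_eq_mul_inv, div_lt_iff₀ this]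
    have h2 := hn.2
    rw [zpow_add₀ ht0, zpow_one, mul_comm] at h2
    exact h2
  generalize hs : (A : ℝ) - t = s at hd
  generalize hu : t⁻¹ = u at hd
  generalize hLL : LL t p' q' r' = L at *
  generalize (p' : ℝ) + (q' + r' * t) * s / 2 = ρ at hd
  generalize (q' : ℝ) - r' * t = y at hd
  generalize (4 : ℝ) - s ^ 2 * t = κ at hd
  generalize t ^ 2 - s * t + u = W at hd
  have hu0 := hd.u_pos
  have hκ0 : 0 < κ := by
    have h1 := hd.D_eq
    have h2 : (0 : ℝ) < DD A B := by exact_mod_cast hD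
    have h3 : 0 < W ^ 2 * κ := by rw [← h1]; positivity
    by_contra hc
    push Not at hc
    have := mul_nonpos_of_nonneg_of_nonpos (sq_nonneg W) hc
    linarith
  have hNr : |L| * (4 * ρ ^ 2 + κ * y ^ 2 * u) ≤ 792 := by
    have h1 := hd.N_eq
    have h2 : |4 * (NN A B p' q' r' : ℝ)| ≤ 792 := by
      rw [abs_mul]
      have h3 : |(NN A B p' q' r' : ℝ)| ≤ 198 := by
        rw [← Int.cast_abs, Int.abs_eq_natAbs]
        exact_mod_cast hN2
      rw [abs_of_pos (by norm_num : (0 : ℝ) < 4)]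
      linarith
    rw [h1, abs_mul] at h2
    rw [abs_of_nonneg (by positivity : 0 ≤ 4 * ρ ^ 2 + κ * y ^ 2 * u)] at h2
    exact h2
  have hs2 : s ^ 2 * t < 4 := by have := hd.hκ; linarith
  have hs3 : s ^ 2 * 2 ≤ s ^ 2 * t := mul_le_mul_of_nonneg_left ht.le (sq_nonneg s)
  have hs1 : -(142 / 100) ≤ s ∧ s ≤ 142 / 100 := by
    apply sqb (by norm_num)
    norm_num
    linarith
  have hul := hd.u_lt
  have hts2 : (t * s) ^ 2 ≤ 4 * t := by
    have e : (t * s) ^ 2 = t * (s ^ 2 * t) := by ring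
    rw [e]
    have : t * (s ^ 2 * t) ≤ t * 4 := mul_le_mul_of_nonneg_left hs2.le (by linarith)
    linarith
  rcases lt_or_ge A 15 with hA15 | hA15
  · -- small A
    have hA' : (A : ℝ) < 15 := by exact_mod_cast hA15
    have hA'' := hd.hA
    have htb : -9 ≤ t * s ∧ t * s ≤ 9 := by
      apply sqb (by norm_num)
      norm_num
      linarith [hs1.1, hs1.2]
    have hB1 : -10 < B := by
      have : (-10 : ℝ) < B := by rw [hd.hB]; linarith [htb.1]
      exact_mod_cast this
    have hB2 : B < 10 := by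
      have : (B : ℝ) < 10 := by rw [hd.hB]; linarith [htb.2]
      exact_mod_cast this
    exact small_case h hA2 hA15 hB1 hB2 hBA hD
  · have hA' : (15 : ℝ) ≤ A := by exact_mod_cast hA15
    have hA'' := hd.hA
    have ht13 : 1358 / 100 ≤ t := by linarith [hs1.2]
    have hs4 : s ^ 2 * (1358 / 100) ≤ s ^ 2 * t := mul_le_mul_of_nonneg_left ht13 (sq_nonneg s)
    have hs5 : -(1 / 2 + 1 / 20) ≤ s ∧ s ≤ 1 / 2 + 1 / 20 := by
      apply sqb (by norm_num)
      norm_num
      linarith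
    have ht14 : 14 ≤ t := by linarith [hs5.2]
    have hs6 : s ^ 2 * 14 ≤ s ^ 2 * t := mul_le_mul_of_nonneg_left ht14 (sq_nonneg s)
    have hs7 : -(535 / 1000) ≤ s ∧ s ≤ 535 / 1000 := by
      apply sqb (by norm_num)
      norm_num
      linarith
    have hke := hd.k_eq
    have hk4 : 4 ≤ 4 * A - B ^ 2 := by
      apply k_mod h
      have h1 : (-3 : ℝ) < ((4 * A - B ^ 2 : ℤ) : ℝ) := by
        rw [hke]
        have h2 : 0 < t * κ := by positivity
        have h3 : u ^ 2 ≤ 1 := by nlinarith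
        linarith [hs7.1]
      exact_mod_cast h1
    have hk4' : (4 : ℝ) ≤ t * κ + 2 * s - u ^ 2 := by
      rw [← hke]; exact_mod_cast hk4
    -- the finite case
    have finish : A ≤ 500 → -45 < B → B < 45 → (A ≤ 30 ∨ (A - 1) * (4 * A - B ^ 2 - 1) < 1500) →
        exc e A B = true := by
      intro g1 g2 g3 g4
      obtain ⟨⟨f1, f2⟩, ⟨f3, f4⟩, ⟨f5, f6⟩⟩ := fin_bd hd hκ0 hNr hL1 hLt ht14 hk4'
      rcases le_or_gt 0 r' with hr0 | hr0
      · exact fin_case2 h hA15 g1 g2 g3 hk4 g4 hc' hr0 f2 f3 f4 f5 f6 hN0 hN1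
      · have e1 : 2 * -p' + -r' * B = -(2 * p' + r' * B) := by ring
        refine fin_case2 h hA15 g1 g2 g3 hk4 g4 (Cnd_neg hc') (by omega) (by omega) (by omega) (by omega)
          (by rw [e1]; omega) (by rw [e1]; omega) ?_ ?_
        · rw [NN_neg]; exact neg_ne_zero.mpr hN0
        · rw [NN_neg, Int.natAbs_neg]; exact hN1
    rcases lt_or_ge t 30 with h30 | h30
    · have hA30 : A ≤ 30 := by
        have : (A : ℝ) < 31 := by rw [hA'']; linarith [hs7.2]
        have : A < 31 := by exact_mod_cast this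
        omega
      have htb : -11 ≤ t * s ∧ t * s ≤ 11 := by
        apply sqb (by norm_num)
        norm_num
        linarith
      have hB1 : -45 < B := by
        have : (-45 : ℝ) < B := by rw [hd.hB]; linarith [htb.1]
        exact_mod_cast this
      have hB2 : B < 45 := by
        have : (B : ℝ) < 45 := by rw [hd.hB]; linarith [htb.2]
        exact_mod_cast this
      exact finish (by omega) hB1 hB2 (Or.inl hA30)
    · rcases le_or_gt 1500 (t * (t * κ)) with hC | hC
      · exfalso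
        exact large hd hκ0 hNr hL1 hLt h30 hk4' hC hc' hN0 hN1
      · have hs8 : s ^ 2 * 30 ≤ s ^ 2 * t := mul_le_mul_of_nonneg_left h30 (sq_nonneg s)
        have hs9 : -(2 / 5) ≤ s ∧ s ≤ 2 / 5 := by
          apply sqb (by norm_num)
          norm_num
          linarith
        have g1 : ((A - 1 : ℤ) : ℝ) ≤ t := by push_cast; linarith [hs9.2]
        have g2 : ((4 * A - B ^ 2 - 1 : ℤ) : ℝ) ≤ t * κ := by
          have : ((4 * A - B ^ 2 - 1 : ℤ) : ℝ) = ((4 * A - B ^ 2 : ℤ) : ℝ) - 1 := by push_cast; ring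
          rw [this, hke]
          have : 0 ≤ u ^ 2 := sq_nonneg u
          linarith [hs9.2]
        have g3 : (0 : ℝ) ≤ ((A - 1 : ℤ) : ℝ) := by
          have : 0 ≤ A - 1 := by omega
          exact_mod_cast this
        have g4 : (0 : ℝ) ≤ ((4 * A - B ^ 2 - 1 : ℤ) : ℝ) := by
          have : 0 ≤ 4 * A - B ^ 2 - 1 := by omega
          exact_mod_cast this
        have g5 : ((A - 1 : ℤ) : ℝ) * ((4 * A - B ^ 2 - 1 : ℤ) : ℝ) < 1500 :=
          (mul_le_mul g1 g2 g4 (by linarith)).trans_lt hC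
        have g6 : (A - 1) * (4 * A - B ^ 2 - 1) < 1500 := by exact_mod_cast g5
        have g7 : A ≤ 500 := by nlinarith
        have g8 : B ^ 2 < 2025 := by omega
        exact finish g7 (by nlinarith) (by nlinarith) (Or.inr g6)

end Pool.Agent.X229.HessB
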