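import Pool.Agent.X229.Hess

namespace Pool.Agent.X229.Hess

theorem A_ge {A B : ℤ} (hA : Even A) (hB : Even B) (hBA : B < A) (hD : 0 < DD A B) :
    2 ≤ A ∧ B ≤ A - 2 := by
  obtain ⟨a, ha⟩ := hA
  obtain ⟨b, hb⟩ := hB
  refine ⟨?_, by omega⟩
  by_contra hc
  have ha' : A ≤ 0 := by omega
  have hb' : B ≤ -2 := by omega
  unfold DD at hD
  have h1 : A ^ 3 ≤ 0 := by
    have : A ^ 3 = A ^ 2 * A := by ring
    rw [this]
    exact mul_nonpos_of_nonneg_of_nonpos (sq_nonneg _) ha'
  have h2 : B ^ 3 ≤ -8 := by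
    have h3 : (2 : ℤ) ^ 3 ≤ (-B) ^ 3 := pow_le_pow_left₀ (by norm_num) (by linarith) 3
    have h4 : (-B) ^ 3 = - B ^ 3 := by ring
    rw [h4] at h3
    linarith
  have h3 : 0 ≤ A ^ 2 * B ^ 2 := by positivity
  have h4 : 0 ≤ A * B := mul_nonneg_of_nonpos_of_nonpos ha' (by linarith)
  linarith [mul_assoc 18 A B]

theorem core {A B p q r : ℤ} (hA : Even A) (hB : Even B) (hBA : B < A) (hD : 0 < DD A B)
    (hk : 4 * A - B ^ 2 ≠ 0) (hp : Odd p) (hq : Odd q) (hr : Odd r)
    (hN : (NN A B p q r).natAbs = 4) : inL A B = true := by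
  obtain ⟨hA2, hBA2⟩ := A_ge hA hB hBA hD
  obtain ⟨t, ht, hroot⟩ := real_root A B hA2 hBA2
  have ht0 : t ≠ 0 := by linarith
  have htpos : 0 < t := by linarith
  -- L is nonzero
  have hdat : ∀ p q r : ℤ, Dat A B p q r t (A - t) t⁻¹ (LL t p q r)
      (p + (q + r * t) * (A - t) / 2) (q - r * t) (4 - (A - t) ^ 2 * t) (t ^ 2 - (A - t) * t + t⁻¹) := by
    intro p q r
    refine ⟨ht, inv_mul_cancel₀ ht0, by ring, ?_, rfl, rfl, rfl, rfl, rfl⟩
    field_simp
    linarith
  have hL0 : LL t p q r ≠ 0 := by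
    intro h0
    have := (hdat p q r).N_eq
    rw [h0, zero_mul] at this
    have h1 : (NN A B p q r : ℝ) = 0 := by linarith
    have h2 : NN A B p q r = 0 := by exact_mod_cast h1
    rw [h2] at hN
    simp at hN
  obtain ⟨n, hn⟩ := exists_mem_Ico_zpow (abs_pos.mpr hL0) (by linarith : 1 < t)
  obtain ⟨p', q', r', hp', hq', hr', hN', hL'⟩ := shift A B hA hB t htpos hroot (-n) p q r hp hq hr
  rw [← hN'] at hN
  clear hN'
  have h := hdat p' q' r'
  have hLe : |LL t p' q' r'| = |LL t p q r| * t ^ (-n) := by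
    rw [hL', abs_mul, abs_of_pos (zpow_pos htpos (-n))]
  have hL1 : 1 ≤ |LL t p' q' r'| := by
    rw [hLe, zpow_neg]
    have : 0 < t ^ n := zpow_pos htpos n
    rw [← div_eq_mul_inv, le_div_iff₀ this, one_mul]
    exact hn.1
  have hLt : |LL t p' q' r'| < t := by
    rw [hLe, zpow_neg]
    have : 0 < t ^ n := zpow_pos htpos n
    rw [← div_eq_mul_inv, div_lt_iff₀ this]
    have h2 := hn.2
    rw [zpow_add₀ ht0, zpow_one, mul_comm] at h2
    exact h2
  generalize hs : (A : ℝ) - t = s at h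
  generalize hu : t⁻¹ = u at h
  generalize hLL : LL t p' q' r' = L at *
  generalize (p' : ℝ) + (q' + r' * t) * s / 2 = ρ at h
  generalize (q' : ℝ) - r' * t = y at h
  generalize (4 : ℝ) - s ^ 2 * t = κ at h
  generalize t ^ 2 - s * t + u = W at h
  have hu0 := h.u_pos
  have hκ0 : 0 < κ := by
    have h1 := h.D_eq
    have h2 : (0 : ℝ) < DD A B := by exact_mod_cast hD
    have h3 : 0 < W ^ 2 * κ := by rw [← h1]; positivity
    by_contra hc
    push Not at hc
    have := mul_nonpos_of_nonneg_of_nonpos (sq_nonneg W) hc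
    linarith
  have hNr : |L| * (4 * ρ ^ 2 + κ * y ^ 2 * u) = 16 := by
    have h1 := h.N_eq
    have h2 : |4 * (NN A B p' q' r' : ℝ)| = 16 := by
      rw [abs_mul]
      have h3 : |(NN A B p' q' r' : ℝ)| = 4 := by
        rw [← Int.cast_abs, Int.abs_eq_natAbs, hN]
        norm_num
      rw [h3]
      norm_num
    rw [h1, abs_mul] at h2
    rw [abs_of_nonneg (by positivity : 0 ≤ 4 * ρ ^ 2 + κ * y ^ 2 * u)] at h2
    exact h2
  rcases le_or_gt 12 t with h12 | h12
  · exfalso
    have hke := h.k_eq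
    have hk4 : 4 ≤ 4 * A - B ^ 2 := by
      have hs2 : s ^ 2 * t < 4 := by have := h.hκ; linarith
      have hs3 : s ^ 2 * 12 ≤ s ^ 2 * t := mul_le_mul_of_nonneg_left h12 (sq_nonneg s)
      have hsb : -(3 / 5) ≤ s ∧ s ≤ 3 / 5 := by
        apply sqb (by norm_num)
        norm_num
        linarith
      have hul := h.u_lt
      have h1 : (-4 : ℝ) < ((4 * A - B ^ 2 : ℤ) : ℝ) := by
        rw [hke]
        have h2 : 0 < t * κ := by positivity
        have h3 : u ^ 2 ≤ 1 := by nlinarith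
        linarith [hsb.1]
      have h2 : -4 < 4 * A - B ^ 2 := by exact_mod_cast h1
      obtain ⟨b, hb⟩ := hB
      have h3 : B ^ 2 = 4 * b ^ 2 := by rw [hb]; ring
      rw [h3] at h2 hk ⊢
      omega
    have hk4' : (4 : ℝ) ≤ t * κ + 2 * s - u ^ 2 := by
      rw [← hke]; exact_mod_cast hk4
    exact big h hκ0 hk4' hNr hL1 hLt h12 hq' hr'
  · obtain ⟨hsb, hts⟩ := sm1 h hκ0 h12
    have hul := h.u_lt
    have hA14 : A < 14 := by
      have : (A : ℝ) < 14 := by rw [h.hA]; linarith [hsb.2]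
      exact_mod_cast this
    have hB8 : -8 < B := by
      have : (-8 : ℝ) < B := by rw [h.hB]; linarith [hts.1]
      exact_mod_cast this
    have hB8' : B < 8 := by
      have : (B : ℝ) < 8 := by rw [h.hB]; linarith [hts.2]
      exact_mod_cast this
    have hD59 := D_ge hA hB hA2 hA14 hB8 hB8' hBA hD
    rcases lt_or_gt_of_ne (show r' ≠ 0 by rintro rfl; exact absurd hr' (by decide)) with hr0 | hr0
    · have h' := h.neg
      have hNr' : |-L| * (4 * (-ρ) ^ 2 + κ * (-y) ^ 2 * u) = 16 := by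
        rw [abs_neg, neg_sq, neg_sq]; exact hNr
      have hL1' : 1 ≤ |-L| := by rw [abs_neg]; exact hL1
      have hLt' : |-L| < t := by rw [abs_neg]; exact hLt
      have hrb := sm_r h' hκ0 hD59 hNr' hL1' hLt' h12
      obtain ⟨ht1, ht2⟩ := sm_tau h' hκ0 hNr' hL1' hLt' h12
      refine fin_case hA hB hA2 hA14 hB8 hB8' hBA hD hk hp'.neg hq'.neg hr'.neg (by omega) hrb.2 ht1 ht2 ?_
      rw [NN_neg, Int.natAbs_neg]
      exact hN
    · have hrb := sm_r h hκ0 hD59 hNr hL1 hLt h12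
      obtain ⟨ht1, ht2⟩ := sm_tau h hκ0 hNr hL1 hLt h12
      exact fin_case hA hB hA2 hA14 hB8 hB8' hBA hD hk hp' hq' hr' hr0 hrb.2 ht1 ht2 hN

/-- the case `B < A` -/
theorem main_lt {A B p q r : ℤ} (hA : Even A) (hB : Even B) (hBA : B < A) (hD : 0 < DD A B)
    (hp : Odd p) (hq : Odd q) (hr : Odd r)
    (hN : (NN A B p q r).natAbs = 4) : inL A B = true := by
  by_cases hk : 4 * A - B ^ 2 = 0
  · obtain ⟨b, hb⟩ := id hB
    -- B = 2 b, A = b ^ 2
    have hAb : A = b ^ 2 := by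
      have : B ^ 2 = 4 * b ^ 2 := by rw [hb]; ring
      omega
    have hbe : Even b := by
      rw [hAb] at hA
      exact (Int.even_pow.mp hA).1
    have hB2 : B = 2 * b := by omega
    have hD' : DD A B = 27 - 4 * b ^ 3 := by
      unfold DD; rw [hAb, hB2]; ring
    rw [hD'] at hD
    have hb2 : b < 2 := by
      by_contra hc
      push Not at hc
      have : (2 : ℤ) ^ 3 ≤ b ^ 3 := pow_le_pow_left₀ (by norm_num) hc 3
      omega
    have hb0 : b ≠ 0 := by
      rintro rfl
      rw [hB2] at hBA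
      rw [hAb] at hBA
      norm_num at hBA
    have hbneg : b ≤ -2 := by
      obtain ⟨x, hx⟩ := hbe
      omega
    have e1 : A = (-b) ^ 2 := by rw [hAb]; ring
    have e2 : B = -2 * (-b) := by rw [hB2]; ring
    have hN2 : (NN (-b) 0 (p - r * (-b)) (r + q * (-b)) q).natAbs = 4 := by
      rw [← NN_sq, ← e1, ← e2]
      exact hN
    have hDc : 0 < DD (-b) 0 := by
      unfold DD
      have : (2 : ℤ) ^ 3 ≤ (-b) ^ 3 := pow_le_pow_left₀ (by norm_num) (by linarith) 3
      norm_num at this ⊢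
      linarith
    have h1 := core (A := -b) (B := 0) hbe.neg (by decide) (by linarith) hDc (by intro h0; norm_num at h0; omega)
      (hp.sub_even (hbe.neg.mul_left _)) (hr.add_even (hbe.neg.mul_left _)) hq hN2
    have hb3 : b = -2 := by
      unfold inL at h1
      simp at h1
      omega
    rw [hAb, hB2, hb3]
    decide
  · exact core hA hB hBA hD hk hp hq hr hN

theorem main {A B p q r : ℤ} (hA : Even A) (hB : Even B) (hBA : A ≠ B) (hD : 0 < DD A B)
    (hp : Odd p) (hq : Odd q) (hr : Odd r)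
    (hN : (NN A B p q r).natAbs = 4) : inL A B = true ∨ inL B A = true := by
  rcases lt_or_gt_of_ne hBA with h | h
  · right
    refine main_lt hB hA h ?_ hp hr hq ?_
    · rw [DD_swap]; exact hD
    · rw [NN_swap]; exact hN
  · left
    exact main_lt hA hB h hD hp hq hr hN

end Pool.Agent.X229.Hess
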