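import Mathlib

/-!
# The Lucas sequence `U_{m+2} = U_{m+1} - 2 U_m`

The squares of this sequence are not eventually monotone along any arithmetic progression.
-/

namespace Pool.Agent.X229.Lucas

/-- The Lucas sequence `0, 1, 1, -1, -3, -1, 5, 7, -3, ...`. -/
def U : ℕ → ℤ
  | 0 => 0
  | 1 => 1
  | n + 2 => U (n + 1) - 2 * U n

theorem U_succ (n : ℕ) : U (n + 2) = U (n + 1) - 2 * U n := rfl

theorem U_odd : ∀ n, U (n + 1) % 2 = 1
  | 0 => rfl
  | n + 1 => by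
    have := U_odd n
    rw [U_succ]
    omega

theorem U_ne (n : ℕ) : U (n + 1) ≠ 0 := by
  intro h
  have := U_odd n
  rw [h] at this
  omega

open Complex

/-- A root of `x² = x - 2`. -/
noncomputable def al : ℂ := ⟨1 / 2, Real.sqrt 7 / 2⟩

/-- The conjugate root. -/
noncomputable def be : ℂ := ⟨1 / 2, -(Real.sqrt 7 / 2)⟩

theorem s7 : Real.sqrt 7 * Real.sqrt 7 = 7 := Real.mul_self_sqrt (by norm_num)

theorem al_sq : al ^ 2 = al - 2 := by
  have := s7
  apply Complex.ext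
  · simp [al, sq]; nlinarith
  · simp [al, sq]; ring

theorem be_sq : be ^ 2 = be - 2 := by
  have := s7
  apply Complex.ext
  · simp [be, sq]; nlinarith
  · simp [be, sq]; ring

theorem diff_eq : ∀ n, al ^ n - be ^ n = (⟨0, Real.sqrt 7⟩ : ℂ) * (U n : ℂ)
  | 0 => by simp [U]
  | 1 => by
    apply Complex.ext
    · simp [al, be, U]
    · simp [al, be, U]
  | n + 2 => by
    have h1 := diff_eq n
    have h2 := diff_eq (n + 1)
    rw [U_succ]
    have e1 : al ^ (n + 2) = al ^ (n + 1) - 2 * al ^ n := by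
      rw [pow_add, al_sq]; ring
    have e2 : be ^ (n + 2) = be ^ (n + 1) - 2 * be ^ n := by
      rw [pow_add, be_sq]; ring
    rw [e1, e2]
    push_cast
    linear_combination h2 - 2 * h1

theorem norm_al_sq : ‖al‖ ^ 2 = 2 := by
  have := s7
  rw [← Complex.normSq_eq_norm_sq, Complex.normSq_apply]
  simp [al]
  nlinarith

theorem norm_be_sq : ‖be‖ ^ 2 = 2 := by
  have := s7
  rw [← Complex.normSq_eq_norm_sq, Complex.normSq_apply]
  simp [be]
  nlinarith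

theorem norm_eq : ‖al‖ = ‖be‖ := by
  have h1 := norm_al_sq
  have h2 := norm_be_sq
  have : ‖al‖ ^ 2 = ‖be‖ ^ 2 := by rw [h1, h2]
  exact (sq_eq_sq₀ (norm_nonneg _) (norm_nonneg _)).1 this

theorem al_ne : al ≠ 0 := by
  intro h
  have := norm_al_sq
  rw [h] at this
  simp at this

/-- The quotient of the roots, a complex number of modulus one. -/
noncomputable def om : ℂ := be / al

theorem norm_om : ‖om‖ = 1 := by
  rw [om, norm_div, norm_eq]
  apply div_self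
  rw [← norm_eq]
  exact norm_ne_zero_iff.2 al_ne

theorem sq_eq (n : ℕ) : 7 * ((U n : ℝ)) ^ 2 = 2 ^ n * ‖1 - om ^ n‖ ^ 2 := by
  have h := diff_eq n
  have e : al ^ n - be ^ n = al ^ n * (1 - om ^ n) := by
    rw [om, div_pow, mul_sub, mul_one, mul_div_cancel₀]
    exact pow_ne_zero n al_ne
  rw [e] at h
  have h2 := congrArg (fun z => ‖z‖ ^ 2) h
  simp only [norm_mul, norm_pow, mul_pow] at h2
  have e3 : ‖(⟨0, Real.sqrt 7⟩ : ℂ)‖ ^ 2 = 7 := by
    rw [← Complex.normSq_eq_norm_sq, Complex.normSq_apply]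
    simp
  have e4 : ‖((U n : ℤ) : ℂ)‖ ^ 2 = ((U n : ℝ)) ^ 2 := by
    rw [Complex.norm_intCast, sq_abs]
  have e5 : (‖al‖ ^ n) ^ 2 = 2 ^ n := by
    rw [← pow_mul, mul_comm, pow_mul, norm_al_sq]
  rw [e3, e4, e5] at h2
  linarith

/-- Powers of a complex number of modulus one return close to `1` arbitrarily late. -/
theorem near_one (w : ℂ) (hw : ‖w‖ = 1) (ε : ℝ) (hε : 0 < ε) (m0 : ℕ) :
    ∃ n, m0 ≤ n ∧ ‖1 - w ^ n‖ < ε := by
  have hcomp : IsCompact (Metric.sphere (0 : ℂ) 1) := isCompact_sphere _ _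
  have hmem : ∀ n : ℕ, w ^ n ∈ Metric.sphere (0 : ℂ) 1 := by
    intro n
    rw [mem_sphere_zero_iff_norm, norm_pow, hw, one_pow]
  obtain ⟨l, _, φ, hφ, hlim⟩ := hcomp.tendsto_subseq hmem
  have hc := hlim.cauchySeq
  rw [Metric.cauchySeq_iff] at hc
  obtain ⟨K, hK⟩ := hc ε hε
  have h1 := hK K le_rfl (K + m0) (by omega)
  have hmono : ∀ d, φ K + d ≤ φ (K + d) := by
    intro d
    induction d with
    | zero => simp
    | succ d ih =>
      have := hφ (show K + d < K + (d + 1) by omega)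
      omega
  have hm := hmono m0
  refine ⟨φ (K + m0) - φ K, by omega, ?_⟩
  have e : w ^ (φ (K + m0)) = w ^ (φ K) * w ^ (φ (K + m0) - φ K) := by
    rw [← pow_add]
    congr 1
    omega
  simp only [Function.comp] at h1
  rw [dist_eq_norm, e] at h1
  have e2 : w ^ φ K - w ^ φ K * w ^ (φ (K + m0) - φ K) =
      w ^ φ K * (1 - w ^ (φ (K + m0) - φ K)) := by ring
  rw [e2, norm_mul, norm_pow, hw, one_pow, one_mul] at h1
  exact h1

theorem violation (q : ℕ) (hq : 1 ≤ q) (m0 : ℕ) :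
    ∃ m, m0 ≤ m ∧ (U (m + q)) ^ 2 < (U m) ^ 2 := by
  set δ := ‖1 - om ^ q‖ with hδ
  have hδpos : 0 < δ := by
    obtain ⟨r, rfl⟩ : ∃ r, q = r + 1 := ⟨q - 1, by omega⟩
    have h := sq_eq (r + 1)
    have hU : (U (r + 1) : ℝ) ≠ 0 := by exact_mod_cast U_ne r
    have h7 : 0 < 7 * (U (r + 1) : ℝ) ^ 2 := by positivity
    rw [h] at h7
    rcases (norm_nonneg (1 - om ^ (r + 1))).lt_or_eq with h' | h'
    · exact h'
    · rw [← h'] at h7
      simp at h7
  set ε := δ / (2 ^ q + 1) with hε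
  have h2q : (2 : ℝ) ≤ 2 ^ q := by
    calc (2 : ℝ) = 2 ^ 1 := by norm_num
      _ ≤ 2 ^ q := pow_le_pow_right₀ (by norm_num) hq
  have hεpos : 0 < ε := by positivity
  obtain ⟨n, hn, hclose⟩ := near_one om norm_om ε hεpos (m0 + q)
  obtain ⟨m, rfl⟩ : ∃ m, n = m + q := ⟨n - q, by omega⟩
  refine ⟨m, by omega, ?_⟩
  have hδε : δ = ε * (2 ^ q + 1) := by
    rw [hε]; field_simp
  have htri : δ - ε ≤ ‖1 - om ^ m‖ := by
    have e : (1 : ℂ) - om ^ q = (1 - om ^ (m + q)) - om ^ q * (1 - om ^ m) := by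
      rw [pow_add]; ring
    have h1 : δ ≤ ‖1 - om ^ (m + q)‖ + ‖om ^ q * (1 - om ^ m)‖ := by
      rw [hδ, e]; exact norm_sub_le _ _
    rw [norm_mul, norm_pow, norm_om, one_pow, one_mul] at h1
    linarith
  have h1 := sq_eq (m + q)
  have h2 := sq_eq m
  have h3 : ε * 2 ^ q ≤ ‖1 - om ^ m‖ := by
    have : δ - ε = ε * 2 ^ q := by rw [hδε]; ring
    linarith
  have h4 : ‖1 - om ^ (m + q)‖ ^ 2 < ε ^ 2 := by
    apply pow_lt_pow_left₀ hclose (norm_nonneg _) (by norm_num)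
  have h5 : (ε * 2 ^ q) ^ 2 ≤ ‖1 - om ^ m‖ ^ 2 :=
    pow_le_pow_left₀ (by positivity) h3 2
  have h6 : (7 : ℝ) * (U (m + q) : ℝ) ^ 2 < 7 * (U m : ℝ) ^ 2 := by
    rw [h1, h2, pow_add, mul_assoc]
    apply mul_lt_mul_of_pos_left _ (by positivity)
    calc (2 : ℝ) ^ q * ‖1 - om ^ (m + q)‖ ^ 2 < 2 ^ q * ε ^ 2 :=
          mul_lt_mul_of_pos_left h4 (by positivity)
      _ ≤ (ε * 2 ^ q) ^ 2 := by
          have : (ε * 2 ^ q) ^ 2 = 2 ^ q * ε ^ 2 * 2 ^ q := by ring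
          rw [this]
          have hp : (0 : ℝ) ≤ 2 ^ q * ε ^ 2 := by positivity
          nlinarith
      _ ≤ ‖1 - om ^ m‖ ^ 2 := h5
  have h7 : ((U (m + q) : ℝ)) ^ 2 < ((U m : ℝ)) ^ 2 := by linarith
  exact_mod_cast h7

end Pool.Agent.X229.Lucas
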