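import Mathlib

/-!
# Combinatorial core for the non-determinism hierarchy of programmed grammars
-/

namespace Pool.Agent.X229.OndCore

set_option linter.unusedSectionVars false

variable {Ψ : Type} [Fintype Ψ]

/-- A run of a control graph with an integer counter that starts at `1`, is positive before
time `k` and is `0` at time `k`. -/
structure Run (succ : Ψ → Finset Ψ) (dt : Ψ → ℤ) (p : ℕ → Ψ) (T : ℕ → ℤ) (k : ℕ) : Prop where
  T0 : T 0 = 1
  Tk : T k = 0
  pos : ∀ t < k, 1 ≤ T t
  step : ∀ t < k, T (t + 1) = T t + dt (p t)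
  next : ∀ t < k, p (t + 1) ∈ succ (p t)

variable {succ : Ψ → Finset Ψ} {dt : Ψ → ℤ}

/-- Branching vertex. -/
def Br (succ : Ψ → Finset Ψ) (r : Ψ) : Prop := 2 ≤ (succ r).card

theorem uniq {r x y : Ψ} (h : ¬ Br succ r) (hx : x ∈ succ r) (hy : y ∈ succ r) : x = y := by
  unfold Br at h
  exact Finset.card_le_one.1 (by omega) x hx y hy

theorem det {p p' : ℕ → Ψ} {T T' : ℕ → ℤ} {k k' : ℕ} (hp : Run succ dt p T k)
    (hp' : Run succ dt p' T' k') {s s' L : ℕ} (h0 : p s = p' s')
    (hn : ∀ l < L, ¬ Br succ (p (s + l))) (hk : s + L ≤ k) (hk' : s' + L ≤ k') :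
    ∀ l ≤ L, p (s + l) = p' (s' + l) := by
  intro l
  induction l with
  | zero => intro _; simpa using h0
  | succ l ih =>
    intro hl
    have e := ih (by omega)
    have h1 := hp.next (s + l) (by omega)
    have h2 := hp'.next (s' + l) (by omega)
    rw [← e] at h2
    exact uniq (hn l (by omega)) h1 h2

theorem nonneg {p : ℕ → Ψ} {T : ℕ → ℤ} {k : ℕ} (hp : Run succ dt p T k) {t : ℕ} (ht : t ≤ k) :
    0 ≤ T t := by
  rcases Nat.lt_or_ge t k with h | h
  · have := hp.pos t h; omega
  · have : t = k := by omega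
    rw [this, hp.Tk]

theorem periodic {p : ℕ → Ψ} {T : ℕ → ℤ} {k : ℕ} (hp : Run succ dt p T k) {s c : ℕ}
    (hc : 1 ≤ c) (hper : ∀ t, s ≤ t → t + c < k → p (t + c) = p t) :
    ∀ j : ℕ, s + j * c ≤ k → (j : ℤ) ≤ T s := by
  -- the drop over one period is constant
  have hD : ∀ m t, s ≤ t → t + c + m = k → T t - T (t + c) = T (t + m) - T (t + m + c) := by
    intro m
    induction m with
    | zero => intro t _ _; rfl
    | succ m ih =>
      intro t ht hk
      have h1 := hp.step t (by omega)
      have h2 := hp.step (t + c) (by omega)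
      have h3 := hper t ht (by omega)
      have h4 := ih (t + 1) (by omega) (by omega)
      rw [h3] at h2
      have e1 : t + 1 + c = t + c + 1 := by ring
      have e2 : t + 1 + m = t + (m + 1) := by ring
      rw [e1, e2] at h4
      omega
  have hD' : ∀ t, s ≤ t → t + c ≤ k → 1 ≤ T t - T (t + c) := by
    intro t ht hk
    have h := hD (k - (t + c)) t ht (by omega)
    rw [h]
    have e1 : t + (k - (t + c)) + c = k := by omega
    rw [e1, hp.Tk]
    have := hp.pos (t + (k - (t + c))) (by omega)
    omega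
  intro j
  have key : ∀ j : ℕ, s + j * c ≤ k → T (s + j * c) + j ≤ T s := by
    intro j
    induction j with
    | zero => intro _; simp
    | succ j ih =>
      intro hk
      have e : s + (j + 1) * c = s + j * c + c := by ring
      rw [e] at hk ⊢
      have h1 := ih (by omega)
      have h2 := hD' (s + j * c) (Nat.le_add_right _ _) hk
      push_cast
      omega
  intro hk
  have h1 := key j hk
  have h2 := nonneg hp hk
  omega

theorem bound {p : ℕ → Ψ} {T : ℕ → ℤ} {k : ℕ} (hp : Run succ dt p T k) {c₀ : ℕ}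
    (hc : ∀ r, dt r ≤ c₀) : ∀ t ≤ k, T t ≤ 1 + c₀ * t := by
  intro t
  induction t with
  | zero => intro _; rw [hp.T0]; simp
  | succ t ih =>
    intro h
    rw [hp.step t (by omega)]
    have h1 := ih (by omega)
    have h2 := hc (p t)
    push_cast
    linarith

/-- Length bound guaranteeing a branching time in `[s, s + Q]`. -/
def BB (Q c₀ s : ℕ) : ℕ := s + Q + Q * (2 + c₀ * (s + Q))

theorem BB_mono {Q c₀ s s' : ℕ} (h : s ≤ s') : BB Q c₀ s ≤ BB Q c₀ s' := by
  unfold BB
  have h1 : c₀ * (s + Q) ≤ c₀ * (s' + Q) := Nat.mul_le_mul_left _ (by omega)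
  have h2 : Q * (2 + c₀ * (s + Q)) ≤ Q * (2 + c₀ * (s' + Q)) := Nat.mul_le_mul_left _ (by omega)
  omega

theorem exists_branch {p : ℕ → Ψ} {T : ℕ → ℤ} {k : ℕ} (hp : Run succ dt p T k) {c₀ : ℕ}
    (hc : ∀ r, dt r ≤ c₀) (s : ℕ) (hk : BB (Fintype.card Ψ) c₀ s ≤ k) :
    ∃ t, s ≤ t ∧ t ≤ s + Fintype.card Ψ ∧ t < k ∧ Br succ (p t) := by
  classical
  set Q := Fintype.card Ψ with hQ
  have hQ1 : 1 ≤ Q := Fintype.card_pos_iff.2 ⟨p 0⟩
  have hsQ : s + Q < k := by
    unfold BB at hk
    nlinarith [Nat.zero_le (c₀ * (s + Q)), Nat.zero_le (Q * (c₀ * (s + Q)))]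
  by_contra hcon
  push Not at hcon
  have hnb : ∀ t, s ≤ t → t ≤ s + Q → ¬ Br succ (p t) := fun t h1 h2 =>
    hcon t h1 h2 (by omega)
  obtain ⟨a, b, hab, heq⟩ : ∃ a b : Fin (Q + 1), a < b ∧ p (s + a) = p (s + b) := by
    obtain ⟨a, b, hab, he⟩ := Fintype.exists_ne_map_eq_of_card_lt
      (fun a : Fin (Q + 1) => p (s + a)) (by rw [Fintype.card_fin]; omega)
    rcases lt_or_gt_of_ne hab with h | h
    · exact ⟨a, b, h, he⟩
    · exact ⟨b, a, h, he.symm⟩
  have ha := a.2
  have hb := b.2
  have hab' : (a : ℕ) < b := hab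
  set s1 := s + (a : ℕ) with hs1
  set c := (b : ℕ) - a with hcd
  have hsb : s + (b : ℕ) = s1 + c := by omega
  rw [hsb] at heq
  -- periodicity
  have hper : ∀ m, s1 + m + c < k → p (s1 + m + c) = p (s1 + m) ∧ ¬ Br succ (p (s1 + m)) := by
    intro m
    induction m using Nat.strong_induction_on with
    | _ m ih =>
      intro hm
      have hnbm : ¬ Br succ (p (s1 + m)) := by
        by_cases hmc : m < c
        · exact hnb _ (by omega) (by omega)
        · obtain ⟨h1, h2⟩ := ih (m - c) (by omega) (by omega)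
          have e : s1 + (m - c) + c = s1 + m := by omega
          rw [e] at h1
          rw [h1]; exact h2
      refine ⟨?_, hnbm⟩
      rcases m with _ | m
      · simpa using heq.symm
      · obtain ⟨h1, h2⟩ := ih m (by omega) (by omega)
        have n1 := hp.next (s1 + m) (by omega)
        have n2 := hp.next (s1 + m + c) (by omega)
        rw [h1] at n2
        have := uniq h2 n1 n2
        have e1 : s1 + (m + 1) + c = s1 + m + c + 1 := by ring
        have e2 : s1 + (m + 1) = s1 + m + 1 := by ring
        rw [e1, e2]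
        exact this.symm
  have hP := periodic hp (s := s1) (c := c) (by omega) (by
    intro t ht htc
    obtain ⟨m, rfl⟩ := Nat.exists_eq_add_of_le ht
    exact (hper m htc).1) (2 + c₀ * (s + Q)) (by
      have h1 : (2 + c₀ * (s + Q)) * c ≤ (2 + c₀ * (s + Q)) * Q :=
        Nat.mul_le_mul_left _ (by omega)
      have h2 : (2 + c₀ * (s + Q)) * Q = Q * (2 + c₀ * (s + Q)) := Nat.mul_comm _ _
      unfold BB at hk
      omega)
  have hB := bound hp hc s1 (by omega)
  have h3 : c₀ * s1 ≤ c₀ * (s + Q) := Nat.mul_le_mul_left _ (by omega)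
  have h4 : ((c₀ * s1 : ℕ) : ℤ) ≤ ((c₀ * (s + Q) : ℕ) : ℤ) := by exact_mod_cast h3
  push_cast at hP h4
  linarith

/-- The first branching time at or after `s`. -/
theorem exists_first {p : ℕ → Ψ} {T : ℕ → ℤ} {k : ℕ} (hp : Run succ dt p T k) {c₀ : ℕ}
    (hc : ∀ r, dt r ≤ c₀) (s : ℕ) (hk : BB (Fintype.card Ψ) c₀ s ≤ k) :
    ∃ t, s ≤ t ∧ t ≤ s + Fintype.card Ψ ∧ t < k ∧ Br succ (p t) ∧
      ∀ t', s ≤ t' → t' < t → ¬ Br succ (p t') := by
  classical
  have hex : ∃ t, s ≤ t ∧ Br succ (p t) := by
    obtain ⟨t, h1, _, _, h4⟩ := exists_branch hp hc s hk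
    exact ⟨t, h1, h4⟩
  obtain ⟨t, h1, h2, h3, h4⟩ := exists_branch hp hc s hk
  refine ⟨Nat.find hex, (Nat.find_spec hex).1, ?_, ?_, (Nat.find_spec hex).2, ?_⟩
  · exact (Nat.find_min' hex ⟨h1, h4⟩).trans h2
  · exact lt_of_le_of_lt (Nat.find_min' hex ⟨h1, h4⟩) h3
  · intro t' ht' hlt hbr
    exact Nat.find_min hex hlt ⟨ht', hbr⟩

/-- The set of branching edges. -/
noncomputable def edges (succ : Ψ → Finset Ψ) : Finset (Ψ × Ψ) := by
  classical
  exact Finset.univ.filter (fun e => Br succ e.1 ∧ e.2 ∈ succ e.1)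

theorem mem_edges {e : Ψ × Ψ} : e ∈ edges succ ↔ Br succ e.1 ∧ e.2 ∈ succ e.1 := by
  classical
  simp [edges]

theorem card_edges : (edges succ).card =
    ∑ r : Ψ, if 2 ≤ (succ r).card then (succ r).card else 0 := by
  classical
  have h : edges succ = (Finset.univ.filter (fun r => Br succ r)).biUnion
      (fun r => (succ r).map ⟨fun q => (r, q), fun a b h => by simpa using h⟩) := by
    ext ⟨a, b⟩
    rw [mem_edges]
    simp
  rw [h, Finset.card_biUnion]
  · simp only [Finset.card_map]
    rw [Finset.sum_filter]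
    refine Finset.sum_congr rfl fun x _ => ?_
    by_cases hx : 2 ≤ (succ x).card
    · rw [if_pos hx, if_pos (show Br succ x from hx)]
    · rw [if_neg hx, if_neg (show ¬ Br succ x from hx)]
  · intro a _ b _ hab
    rw [Function.onFun, Finset.disjoint_left]
    intro x hx hx'
    simp only [Finset.mem_map, Function.Embedding.coeFn_mk] at hx hx'
    obtain ⟨u, _, rfl⟩ := hx
    obtain ⟨v, _, hv⟩ := hx'
    apply hab
    exact (Prod.ext_iff.1 hv).1.symm

/-- The main combinatorial bound. -/
theorem core {n : ℕ} (hn : 1 ≤ n) (R : Fin n → Set Ψ) {c₀ : ℕ} (hc : ∀ r, dt r ≤ c₀)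
    (p : Fin n → ℕ → Ψ) (T : Fin n → ℕ → ℤ) (k : Fin n → ℕ)
    (hrun : ∀ i, Run succ dt (p i) (T i) (k i))
    (havoid : ∀ i j, i ≠ j → ∀ t < k i, p i t ∉ R j)
    (hlong : ∀ i, BB (Fintype.card Ψ) c₀ (2 * Fintype.card Ψ + 2) +
      (Fintype.card Ψ + 1) * (c₀ * Fintype.card Ψ + 2) + 2 * Fintype.card Ψ + 2 ≤ k i)
    (hlate : ∀ i, ∃ t, Fintype.card Ψ < t ∧ t < k i ∧ p i t ∈ R i) :
    n + 1 ≤ (edges succ).card := by
  classical
  set Q := Fintype.card Ψ with hQ
  by_contra hcon
  have hcard : (edges succ).card ≤ n := by omega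
  have hb2 : ∀ i, BB Q c₀ (2 * Q + 2) ≤ k i := fun i => by have := hlong i; omega
  -- first three branching times
  have hfirst : ∀ i, ∃ t1 t2 t3, t1 ≤ Q ∧ t1 < t2 ∧ t2 ≤ t1 + 1 + Q ∧ t2 < t3 ∧ t3 < k i ∧
      Br succ (p i t1) ∧ Br succ (p i t2) ∧ Br succ (p i t3) ∧
      (∀ t, t1 < t → t < t2 → ¬ Br succ (p i t)) := by
    intro i
    obtain ⟨t1, _, h12, h13, h14, _⟩ := exists_first (hrun i) hc 0
      ((BB_mono (by omega)).trans (hb2 i))
    obtain ⟨t2, h21, h22, h23, h24, h25⟩ := exists_first (hrun i) hc (t1 + 1)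
      ((BB_mono (by omega)).trans (hb2 i))
    obtain ⟨t3, h31, h32, h33, h34, h35⟩ := exists_first (hrun i) hc (t2 + 1)
      ((BB_mono (by omega)).trans (hb2 i))
    exact ⟨t1, t2, t3, by omega, by omega, by omega, by omega, h33, h14, h24, h34,
      fun t ht1 ht2 => h25 t (by omega) ht2⟩
  choose t1 t2 t3 h1Q h12 h12' h23 h3k hb1 hb2' hb3 hno using hfirst
  -- ownership
  have hown : ∀ i, ∃ s r, s < r ∧ r < k i ∧ Br succ (p i s) ∧ p i r ∈ R i ∧
      ∀ t, s < t → t < r → ¬ Br succ (p i t) := by
    intro i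
    obtain ⟨r, hr1, hr2, hr3⟩ := hlate i
    set F := (Finset.range r).filter (fun t => Br succ (p i t)) with hF
    have hne : F.Nonempty := ⟨t1 i, by
      rw [hF, Finset.mem_filter, Finset.mem_range]
      exact ⟨by have := h1Q i; omega, hb1 i⟩⟩
    have hmem := Finset.mem_filter.1 (F.max'_mem hne)
    rw [Finset.mem_range] at hmem
    refine ⟨F.max' hne, r, hmem.1, hr2, hmem.2, hr3, ?_⟩
    intro t ht1 ht2 hbt
    have : t ∈ F := by
      rw [hF, Finset.mem_filter, Finset.mem_range]
      exact ⟨ht2, hbt⟩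
    have := F.le_max' t this
    omega
  choose s r hsr hrk hbs hrR hnb using hown
  set e : Fin n → Ψ × Ψ := fun i => (p i (s i), p i (s i + 1)) with he
  have hemem : ∀ i, e i ∈ edges succ := by
    intro i
    rw [mem_edges]
    exact ⟨hbs i, (hrun i).next _ (by have := hsr i; have := hrk i; omega)⟩
  -- following an owned edge
  have hfollow : ∀ i j, i ≠ j → ∀ u < k i, (p i u, p i (u + 1)) = e j →
      k i ≤ u + (r j - s j) ∧ ∀ t, u < t → t < k i → ¬ Br succ (p i t) := by
    intro i j hij u hu hedge
    have hsrj := hsr j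
    have hrkj := hrk j
    have hedge2 : p i (u + 1) = p j (s j + 1) := (Prod.ext_iff.1 hedge).2
    -- agreement up to time `min`
    have hagree : ∀ L, s j + 1 + L ≤ r j → u + 1 + L ≤ k i → ∀ l ≤ L,
        p j (s j + 1 + l) = p i (u + 1 + l) := by
      intro L hL1 hL2
      refine det (hrun j) (hrun i) hedge2.symm ?_ (by omega) hL2
      intro l hl
      exact hnb j _ (by omega) (by omega)
    have hk : k i ≤ u + (r j - s j) := by
      by_contra hlt
      have h1 := hagree (r j - s j - 1) (by omega) (by omega) (r j - s j - 1) le_rfl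
      have e1 : s j + 1 + (r j - s j - 1) = r j := by omega
      rw [e1] at h1
      apply havoid i j hij (u + 1 + (r j - s j - 1)) (by omega)
      rw [← h1]
      exact hrR j
    refine ⟨hk, ?_⟩
    intro t ht1 ht2
    obtain ⟨l, rfl⟩ : ∃ l, t = u + 1 + l := ⟨t - (u + 1), by omega⟩
    rw [← hagree l (by omega) (by omega) l le_rfl]
    exact hnb j _ (by omega) (by omega)
  have hinj : Function.Injective e := by
    intro i j hij
    by_contra hne
    -- symmetric argument
    have key : ∀ i j : Fin n, i ≠ j → e i = e j → r i - s i ≤ r j - s j → False := by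
      intro i j hne hij hle
      have := (hfollow j i (Ne.symm hne) (s j) (by have := hsr j; have := hrk j; omega)
        hij.symm).1
      have := hrk j
      have := hsr j
      omega
    rcases le_total (r i - s i) (r j - s j) with h | h
    · exact key i j hne hij h
    · exact key j i (Ne.symm hne) hij.symm h
  have hsurj : ∀ x ∈ edges succ, ∃ j, e j = x := by
    have himg : Finset.univ.image e = edges succ := by
      apply Finset.eq_of_subset_of_card_le
      · intro x hx
        obtain ⟨i, _, rfl⟩ := Finset.mem_image.1 hx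
        exact hemem i
      · rw [Finset.card_image_of_injective _ hinj, Finset.card_univ, Fintype.card_fin]
        exact hcard
    intro x hx
    rw [← himg] at hx
    obtain ⟨j, _, hj⟩ := Finset.mem_image.1 hx
    exact ⟨j, hj⟩
  have hedgeof : ∀ i, ∀ u < k i, Br succ (p i u) → ∃ j, e j = (p i u, p i (u + 1)) := by
    intro i u hu hb
    apply hsurj
    rw [mem_edges]
    exact ⟨hb, (hrun i).next u hu⟩
  -- a branching time that is not the last uses the own edge
  have hnonlast : ∀ i u u', u < u' → u' < k i → Br succ (p i u) → Br succ (p i u') →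
      (p i u, p i (u + 1)) = e i := by
    intro i u u' huu hu' hb hb'
    obtain ⟨j, hj⟩ := hedgeof i u (by omega) hb
    by_cases hij : i = j
    · rw [hij] at hj ⊢
      exact hj.symm
    · exact absurd hb' ((hfollow i j hij u (by omega) hj.symm).2 u' huu hu')
  -- the last branching time
  have hlast : ∀ i, ∃ lam, t3 i ≤ lam ∧ lam < k i ∧ Br succ (p i lam) ∧
      ∀ t, lam < t → t < k i → ¬ Br succ (p i t) := by
    intro i
    set F := (Finset.range (k i)).filter (fun t => Br succ (p i t)) with hF
    have hmem3 : t3 i ∈ F := by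
      rw [hF, Finset.mem_filter, Finset.mem_range]
      exact ⟨h3k i, hb3 i⟩
    have hne : F.Nonempty := ⟨t3 i, hmem3⟩
    have hmem := Finset.mem_filter.1 (F.max'_mem hne)
    rw [Finset.mem_range] at hmem
    refine ⟨F.max' hne, F.le_max' _ hmem3, hmem.1, hmem.2, ?_⟩
    intro t ht1 ht2 hbt
    have : t ∈ F := by
      rw [hF, Finset.mem_filter, Finset.mem_range]
      exact ⟨ht2, hbt⟩
    have := F.le_max' t this
    omega
  choose lam hlam3 hlamk hblam hlamlast using hlast
  have hedge1 : ∀ i, (p i (t1 i), p i (t1 i + 1)) = e i := fun i =>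
    hnonlast i (t1 i) (t2 i) (h12 i) (by have := h23 i; have := h3k i; omega) (hb1 i) (hb2' i)
  have hedge2 : ∀ i, (p i (t2 i), p i (t2 i + 1)) = e i := fun i =>
    hnonlast i (t2 i) (t3 i) (h23 i) (h3k i) (hb2' i) (hb3 i)
  -- periodicity up to `lam`
  have hper : ∀ i m, t1 i + m + (t2 i - t1 i) ≤ lam i →
      p i (t1 i + m + (t2 i - t1 i)) = p i (t1 i + m) := by
    intro i m
    have h12i := h12 i
    have hlk := hlamk i
    induction m with
    | zero =>
      intro _
      have h1 := congrArg Prod.fst (hedge1 i)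
      have h2 := congrArg Prod.fst (hedge2 i)
      have e1 : t1 i + 0 + (t2 i - t1 i) = t2 i := by omega
      rw [e1, Nat.add_zero]
      exact h2.trans h1.symm
    | succ m ih =>
      intro hm
      have h1 := ih (by omega)
      have e1 : t1 i + (m + 1) + (t2 i - t1 i) = t1 i + m + (t2 i - t1 i) + 1 := by omega
      have e2 : t1 i + (m + 1) = t1 i + m + 1 := by ring
      rw [e1, e2]
      by_cases hb : Br succ (p i (t1 i + m))
      · have hb' : Br succ (p i (t1 i + m + (t2 i - t1 i))) := by rw [h1]; exact hb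
        have g1 := hnonlast i _ _ (show t1 i + m < lam i by omega) hlk hb (hblam i)
        have g2 := hnonlast i _ _ (show t1 i + m + (t2 i - t1 i) < lam i by omega) hlk hb'
          (hblam i)
        exact (congrArg Prod.snd g2).trans (congrArg Prod.snd g1).symm
      · have n1 := (hrun i).next (t1 i + m) (by omega)
        have n2 := (hrun i).next (t1 i + m + (t2 i - t1 i)) (by omega)
        rw [h1] at n2
        exact (uniq hb n1 n2).symm
  -- exact position of `lam`
  have hlamdiv : ∀ i, ∃ l, lam i = t1 i + l * (t2 i - t1 i) := by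
    intro i
    have h12i := h12 i
    have hl3 := hlam3 i
    have h23i := h23 i
    -- descend modulo the period
    have hdesc : ∀ q ρ, t1 i + (q * (t2 i - t1 i) + ρ) ≤ lam i →
        p i (t1 i + (q * (t2 i - t1 i) + ρ)) = p i (t1 i + ρ) := by
      intro q
      induction q with
      | zero => intro ρ _; simp
      | succ q ih =>
        intro ρ hq
        have e1 : t1 i + ((q + 1) * (t2 i - t1 i) + ρ) =
            t1 i + (q * (t2 i - t1 i) + ρ) + (t2 i - t1 i) := by ring
        rw [e1] at hq ⊢
        rw [hper i _ hq]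
        exact ih ρ (by omega)
    refine ⟨(lam i - t1 i) / (t2 i - t1 i), ?_⟩
    have hdm := Nat.div_add_mod (lam i - t1 i) (t2 i - t1 i)
    have hml := Nat.mod_lt (lam i - t1 i) (show 0 < t2 i - t1 i by omega)
    set q := (lam i - t1 i) / (t2 i - t1 i) with hq
    set ρ := (lam i - t1 i) % (t2 i - t1 i) with hρ
    have hcomm : (t2 i - t1 i) * q = q * (t2 i - t1 i) := Nat.mul_comm _ _
    have hpos : t1 i + (q * (t2 i - t1 i) + ρ) = lam i := by omega
    by_cases h0 : ρ = 0
    · omega
    · exfalso
      have h1 := hdesc q ρ hpos.le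
      rw [hpos] at h1
      have h2 := hno i (t1 i + ρ) (by omega) (by omega)
      rw [← h1] at h2
      exact h2 (hblam i)
  choose l hl using hlamdiv
  -- value of the counter at `lam`
  have hTl : ∀ i, T i (lam i) = T i (t1 i) + (l i) * (T i (t2 i) - T i (t1 i)) := by
    intro i
    have h12i := h12 i
    have hlk := hlamk i
    have hdiff : ∀ m, t1 i + m + (t2 i - t1 i) ≤ lam i →
        T i (t1 i + m + (t2 i - t1 i)) - T i (t1 i + m) = T i (t2 i) - T i (t1 i) := by
      intro m
      induction m with
      | zero =>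
        intro _
        have e1 : t1 i + 0 + (t2 i - t1 i) = t2 i := by omega
        rw [e1, Nat.add_zero]
      | succ m ih =>
        intro hm
        have h1 := ih (by omega)
        have e1 : t1 i + (m + 1) + (t2 i - t1 i) = t1 i + m + (t2 i - t1 i) + 1 := by omega
        have e2 : t1 i + (m + 1) = t1 i + m + 1 := by ring
        rw [e1, e2]
        have n1 := (hrun i).step (t1 i + m) (by omega)
        have n2 := (hrun i).step (t1 i + m + (t2 i - t1 i)) (by omega)
        rw [hper i m (by omega)] at n2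
        omega
    have hmul : ∀ q : ℕ, t1 i + q * (t2 i - t1 i) ≤ lam i →
        T i (t1 i + q * (t2 i - t1 i)) = T i (t1 i) + q * (T i (t2 i) - T i (t1 i)) := by
      intro q
      induction q with
      | zero => intro _; simp
      | succ q ih =>
        intro hq
        have e1 : t1 i + (q + 1) * (t2 i - t1 i) = t1 i + q * (t2 i - t1 i) + (t2 i - t1 i) := by
          ring
        rw [e1] at hq ⊢
        have h1 := ih (by omega)
        have h2 := hdiff (q * (t2 i - t1 i)) hq
        push_cast
        linarith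
    have := hmul (l i) (by rw [← hl i])
    rw [← hl i] at this
    exact this
  -- the edge at the last branching time belongs to another letter
  have hother : ∀ i, ∃ j, i ≠ j ∧ e j = (p i (lam i), p i (lam i + 1)) := by
    intro i
    obtain ⟨j, hj⟩ := hedgeof i (lam i) (hlamk i) (hblam i)
    refine ⟨j, ?_, hj⟩
    rintro rfl
    have h12i := h12 i
    have h12i' := h12' i
    have hlk := hlamk i
    have h1Qi := h1Q i
    -- then the run is periodic up to its end
    have hown' : ∀ u < k i, Br succ (p i u) → (p i u, p i (u + 1)) = e i := by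
      intro u hu hb
      rcases lt_trichotomy u (lam i) with h | h | h
      · exact hnonlast i u (lam i) h hlk hb (hblam i)
      · rw [h]; exact hj.symm
      · exact absurd hb (hlamlast i u h hu)
    have hper' : ∀ m, t1 i + m + (t2 i - t1 i) < k i →
        p i (t1 i + m + (t2 i - t1 i)) = p i (t1 i + m) := by
      intro m
      induction m with
      | zero =>
        intro _
        have h1 := congrArg Prod.fst (hedge1 i)
        have h2 := congrArg Prod.fst (hedge2 i)
        have e1 : t1 i + 0 + (t2 i - t1 i) = t2 i := by omega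
        rw [e1, Nat.add_zero]
        exact h2.trans h1.symm
      | succ m ih =>
        intro hm
        have h1 := ih (by omega)
        have e1 : t1 i + (m + 1) + (t2 i - t1 i) = t1 i + m + (t2 i - t1 i) + 1 := by omega
        have e2 : t1 i + (m + 1) = t1 i + m + 1 := by ring
        rw [e1, e2]
        by_cases hb : Br succ (p i (t1 i + m))
        · have hb' : Br succ (p i (t1 i + m + (t2 i - t1 i))) := by rw [h1]; exact hb
          have g1 := hown' _ (show t1 i + m < k i by omega) hb
          have g2 := hown' _ (show t1 i + m + (t2 i - t1 i) < k i by omega) hb'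
          exact (congrArg Prod.snd g2).trans (congrArg Prod.snd g1).symm
        · have n1 := (hrun i).next (t1 i + m) (by omega)
          have n2 := (hrun i).next (t1 i + m + (t2 i - t1 i)) (by omega)
          rw [h1] at n2
          exact (uniq hb n1 n2).symm
    have hP := periodic (hrun i) (s := t1 i) (c := t2 i - t1 i) (by omega) (by
      intro t ht htc
      obtain ⟨m, rfl⟩ := Nat.exists_eq_add_of_le ht
      exact hper' m htc) (c₀ * Q + 2) (by
        have hli := hlong i
        have h1 : (c₀ * Q + 2) * (t2 i - t1 i) ≤ (c₀ * Q + 2) * (Q + 1) :=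
          Nat.mul_le_mul_left _ (by omega)
        have h2 : (c₀ * Q + 2) * (Q + 1) = (Q + 1) * (c₀ * Q + 2) := Nat.mul_comm _ _
        omega)
    have hB := bound (hrun i) hc (t1 i) (by have := h23 i; have := h3k i; omega)
    have h3 : c₀ * t1 i ≤ c₀ * Q := Nat.mul_le_mul_left _ h1Qi
    have h4 : ((c₀ * t1 i : ℕ) : ℤ) ≤ ((c₀ * Q : ℕ) : ℤ) := by exact_mod_cast h3
    push_cast at hP h4
    linarith
  -- comparison of counters
  have hcmp : ∀ i, ∃ j, T i (t1 i) < T j (t1 j) := by
    intro i
    obtain ⟨j, hij, hj⟩ := hother i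
    refine ⟨j, ?_⟩
    have h12j := h12 j
    have h12j' := h12' j
    have h23j := h23 j
    have h3kj := h3k j
    have h1Qj := h1Q j
    have hlk := hlamk i
    -- align the tail with the first segment of run `j`
    have hstart : p i (lam i) = p j (t1 j) :=
      (congrArg Prod.fst hj).symm.trans (congrArg Prod.fst (hedge1 j)).symm
    have hstart1 : p i (lam i + 1) = p j (t1 j + 1) :=
      (congrArg Prod.snd hj).symm.trans (congrArg Prod.snd (hedge1 j)).symm
    have hagree : ∀ L, t1 j + 1 + L ≤ t2 j → lam i + 1 + L ≤ k i → ∀ x ≤ L,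
        p j (t1 j + 1 + x) = p i (lam i + 1 + x) := by
      intro L hL1 hL2
      refine det (hrun j) (hrun i) hstart1.symm ?_ (by omega) hL2
      intro x hx
      exact hno j _ (by omega) (by omega)
    have htail : k i ≤ lam i + (t2 j - t1 j) := by
      by_contra hlt
      have h1 := hagree (t2 j - t1 j - 1) (by omega) (by omega) _ le_rfl
      have e1 : t1 j + 1 + (t2 j - t1 j - 1) = t2 j := by omega
      rw [e1] at h1
      apply hlamlast i (lam i + 1 + (t2 j - t1 j - 1)) (by omega) (by omega)
      rw [← h1]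
      exact hb2' j
    have hagree' : ∀ x, lam i + x < k i → p i (lam i + x) = p j (t1 j + x) := by
      intro x hx
      rcases x with _ | x
      · simpa using hstart
      · have h1 := hagree x (by omega) (by omega) x le_rfl
        have e1 : t1 j + (x + 1) = t1 j + 1 + x := by ring
        have e2 : lam i + (x + 1) = lam i + 1 + x := by ring
        rw [e1, e2, h1]
    have hsum : ∀ x, lam i + x ≤ k i →
        T i (lam i + x) - T i (lam i) = T j (t1 j + x) - T j (t1 j) := by
      intro x
      induction x with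
      | zero => intro _; simp
      | succ x ih =>
        intro hx
        have h1 := ih (by omega)
        have n1 := (hrun i).step (lam i + x) (by omega)
        have n2 := (hrun j).step (t1 j + x) (by omega)
        rw [hagree' x (by omega)] at n1
        have e1 : lam i + (x + 1) = lam i + x + 1 := by ring
        have e2 : t1 j + (x + 1) = t1 j + x + 1 := by ring
        rw [e1, e2]
        omega
    have hfin := hsum (k i - lam i) (by omega)
    have e3 : lam i + (k i - lam i) = k i := by omega
    rw [e3, (hrun i).Tk] at hfin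
    have hpos := (hrun j).pos (t1 j + (k i - lam i)) (by omega)
    have hless : T i (lam i) < T j (t1 j) := by omega
    -- the drift over a period vanishes
    have hBj := bound (hrun j) hc (t1 j) (by omega)
    have h3 : c₀ * t1 j ≤ c₀ * Q := Nat.mul_le_mul_left _ h1Qj
    have h4 : ((c₀ * t1 j : ℕ) : ℤ) ≤ ((c₀ * Q : ℕ) : ℤ) := by exact_mod_cast h3
    have h1Qi := h1Q i
    have h12i := h12 i
    have h12i' := h12' i
    have hBi := bound (hrun i) hc (t1 i) (by have := h23 i; have := h3k i; omega)
    have h3' : c₀ * t1 i ≤ c₀ * Q := Nat.mul_le_mul_left _ h1Qi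
    have h4' : ((c₀ * t1 i : ℕ) : ℤ) ≤ ((c₀ * Q : ℕ) : ℤ) := by exact_mod_cast h3'
    have hli := hlong i
    have hlbig : c₀ * Q + 2 ≤ l i := by
      by_contra hlt
      have h5 : l i * (t2 i - t1 i) ≤ (c₀ * Q + 1) * (Q + 1) :=
        Nat.mul_le_mul (by omega) (by omega)
      have h6 := hl i
      have h7 : (Q + 1) * (c₀ * Q + 2) = (c₀ * Q + 1) * (Q + 1) + (Q + 1) := by ring
      omega
    have hTli := hTl i
    have hposl := (hrun i).pos (lam i) hlk
    have hpos1 := (hrun i).pos (t1 i) (by have := h23 i; have := h3k i; omega)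
    have hzero : T i (t2 i) - T i (t1 i) = 0 := by
      set δ := T i (t2 i) - T i (t1 i) with hδ
      have hlb : ((c₀ * Q + 2 : ℕ) : ℤ) ≤ (l i : ℤ) := by exact_mod_cast hlbig
      push_cast at hlb h4 h4'
      by_contra hne
      rcases lt_or_gt_of_ne hne with hneg | hposδ
      · have : (l i : ℤ) * δ ≤ -(l i : ℤ) := by nlinarith
        linarith
      · have : (l i : ℤ) ≤ (l i : ℤ) * δ := by nlinarith
        linarith
    rw [hzero, mul_zero, add_zero] at hTli
    omega
  -- a maximal counter gives a contradiction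
  obtain ⟨i, _, hi⟩ := Finset.exists_max_image Finset.univ (fun i => T i (t1 i))
    ⟨⟨0, by omega⟩, Finset.mem_univ _⟩
  obtain ⟨j, hj⟩ := hcmp i
  have := hi j (Finset.mem_univ _)
  omega

end Pool.Agent.X229.OndCore
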