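import Mathlib

namespace Pool.Agent.X229.PerfectBases

open Finset

/-- `A` is a perfect restricted `s`-basis of `G`: every `g` is, in exactly one way, the sum of
the elements of a subset `B` of `A` with at most `s` elements. -/
def IsPerfect {G : Type*} [AddCommGroup G] (s : ℕ) (A : Finset G) : Prop :=
  ∀ g : G, ∃! B : Finset G, B ⊆ A ∧ B.card ≤ s ∧ ∑ b ∈ B, b = g

variable {G : Type*} [AddCommGroup G] [DecidableEq G] {s : ℕ} {A : Finset G}

omit [DecidableEq G] in
lemma uniq (h : IsPerfect s A) {B C : Finset G} (hB : B ⊆ A) (hC : C ⊆ A)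
    (cB : B.card ≤ s) (cC : C.card ≤ s) (e : ∑ b ∈ B, b = ∑ b ∈ C, b) : B = C := by
  obtain ⟨D, _, hD⟩ := h (∑ b ∈ B, b)
  rw [hD B ⟨hB, cB, rfl⟩, hD C ⟨hC, cC, e.symm⟩]

lemma exD (h : IsPerfect s A) (hA : A.card = 2 * s + 1) {S : Finset G} (hS : S ⊆ A)
    (cS : S.card = s) :
    ∃ D, D ⊆ S ∧ ∑ b ∈ D, b = (∑ b ∈ S, b) + (∑ b ∈ S, b) - ∑ b ∈ A, b := by
  obtain ⟨U, ⟨hU, cU, eU⟩, _⟩ := h (∑ b ∈ A \ S, b)
  have cAS : (A \ S).card = s + 1 := by
    rw [card_sdiff_of_subset hS]; omega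
  have hdisj : Disjoint U (A \ S) := by
    by_contra hnd
    rw [Finset.not_disjoint_iff] at hnd
    obtain ⟨z, hzU, hzT⟩ := hnd
    have e1 : ∑ b ∈ U \ (U ∩ (A \ S)), b = ∑ b ∈ (A \ S) \ (U ∩ (A \ S)), b := by
      have h1 := Finset.sum_sdiff (f := fun b : G => b) (Finset.inter_subset_left (s₁ := U) (s₂ := A \ S))
      have h2 := Finset.sum_sdiff (f := fun b : G => b) (Finset.inter_subset_right (s₁ := U) (s₂ := A \ S))
      have h3 : ∑ b ∈ U \ (U ∩ (A \ S)), b + ∑ b ∈ U ∩ (A \ S), b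
          = ∑ b ∈ (A \ S) \ (U ∩ (A \ S)), b + ∑ b ∈ U ∩ (A \ S), b := by
        rw [h1, h2, eU]
      exact add_right_cancel h3
    have c1 : ((A \ S) \ (U ∩ (A \ S))).card ≤ s := by
      have h1 : ((A \ S) \ (U ∩ (A \ S))).card = (A \ S).card - (U ∩ (A \ S)).card :=
        card_sdiff_of_subset Finset.inter_subset_right
      have h2 : 0 < (U ∩ (A \ S)).card := card_pos.2 ⟨z, mem_inter.2 ⟨hzU, hzT⟩⟩
      omega
    have e2 := uniq h (sdiff_subset.trans hU) ((sdiff_subset (s := A \ S)).trans sdiff_subset)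
      ((card_le_card sdiff_subset).trans cU) c1 e1
    have h4 : A \ S ⊆ U := by
      intro t ht
      by_contra htU
      have h5 : t ∈ (A \ S) \ (U ∩ (A \ S)) := by
        simp only [mem_sdiff, mem_inter] at ht ⊢
        exact ⟨ht, fun h6 => htU h6.1⟩
      rw [← e2] at h5
      exact htU (mem_sdiff.1 h5).1
    have := card_le_card h4
    omega
  have hUS : U ⊆ S := by
    intro u hu
    by_contra hn
    exact (Finset.disjoint_left.1 hdisj hu) (mem_sdiff.2 ⟨hU hu, hn⟩)
  refine ⟨S \ U, sdiff_subset, ?_⟩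
  have h1 := Finset.sum_sdiff (f := fun b : G => b) hUS
  have h2 := Finset.sum_sdiff (f := fun b : G => b) hS
  rw [← eU] at h2
  rw [← h2]
  have h3 : ∑ b ∈ S \ U, b = ∑ b ∈ S, b - ∑ b ∈ U, b := by
    rw [← h1]; abel
  rw [h3]; abel

lemma swap_card {S : Finset G} {a a' : G} (ha : a ∈ S) (hn : a' ∉ S) :
    (insert a' (S.erase a)).card = S.card := by
  rw [card_insert_of_notMem (fun h => hn (mem_of_mem_erase h)), card_erase_of_mem ha]
  have : 0 < S.card := card_pos.2 ⟨a, ha⟩
  omega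

lemma swap_sum {S : Finset G} {a a' : G} (ha : a ∈ S) (hn : a' ∉ S) :
    ∑ b ∈ insert a' (S.erase a), b = ∑ b ∈ S, b - a + a' := by
  rw [sum_insert (fun h => hn (mem_of_mem_erase h)), ← Finset.add_sum_erase S (fun b => b) ha]
  abel

lemma closure (h : IsPerfect s A) (hA : A.card = 2 * s + 1) {S D : Finset G} (hS : S ⊆ A)
    (cS : S.card = s) (hD : D ⊆ S)
    (eD : ∑ b ∈ D, b = (∑ b ∈ S, b) + (∑ b ∈ S, b) - ∑ b ∈ A, b)
    {a a' : G} (ha : a ∈ D) (ha' : a' ∈ A) (e : a + a = a' + a') : a' ∈ S := by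
  by_contra hn
  have haS := hD ha
  have hS' : insert a' (S.erase a) ⊆ A :=
    insert_subset ha' ((erase_subset _ _).trans hS)
  have cS' : (insert a' (S.erase a)).card = s := by rw [swap_card haS hn, cS]
  obtain ⟨D', hD', eD'⟩ := exD h hA hS' cS'
  have hDD : D = D' := by
    apply uniq h (hD.trans hS) (hD'.trans hS') ((card_le_card hD).trans cS.le)
      ((card_le_card hD').trans cS'.le)
    rw [eD, eD', swap_sum haS hn]
    have : (∑ b ∈ S, b - a + a') + (∑ b ∈ S, b - a + a')
        = ∑ b ∈ S, b + ∑ b ∈ S, b + ((a' + a') - (a + a)) := by abel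
    rw [this, e]; abel
  rw [hDD] at ha
  have h1 := hD' ha
  rw [mem_insert] at h1
  rcases h1 with h1 | h1
  · exact hn (h1 ▸ haS)
  · exact (notMem_erase a S) h1

/-- data for a perfect basis: the map `D` and a choice of representatives -/
structure Setup (s : ℕ) (A : Finset G) (D : Finset G → Finset G) (ρ : G → G) : Prop where
  perf : IsPerfect s A
  cardA : A.card = 2 * s + 1
  sub : ∀ S, S ⊆ A → S.card = s → D S ⊆ S
  sm : ∀ S, S ⊆ A → S.card = s →
    ∑ b ∈ D S, b = (∑ b ∈ S, b) + (∑ b ∈ S, b) - ∑ b ∈ A, b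
  mem : ∀ c ∈ A.image (fun a => a + a), ρ c ∈ A
  dbl : ∀ c ∈ A.image (fun a => a + a), ρ c + ρ c = c

lemma exSetup (h : IsPerfect s A) (hA : A.card = 2 * s + 1) : ∃ D ρ, Setup s A D ρ := by
  have h1 : ∀ S : Finset G, ∃ D : Finset G, S ⊆ A → S.card = s →
      (D ⊆ S ∧ ∑ b ∈ D, b = (∑ b ∈ S, b) + (∑ b ∈ S, b) - ∑ b ∈ A, b) := by
    intro S
    by_cases hS : S ⊆ A ∧ S.card = s
    · obtain ⟨D, hD⟩ := exD h hA hS.1 hS.2
      exact ⟨D, fun _ _ => hD⟩
    · exact ⟨∅, fun h1 h2 => absurd ⟨h1, h2⟩ hS⟩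
  have h2 : ∀ c : G, ∃ r : G, c ∈ A.image (fun a => a + a) → (r ∈ A ∧ r + r = c) := by
    intro c
    by_cases hc : c ∈ A.image (fun a => a + a)
    · obtain ⟨a, ha, hac⟩ := mem_image.1 hc
      exact ⟨a, fun _ => ⟨ha, hac⟩⟩
    · exact ⟨0, fun h => absurd h hc⟩
  choose D hD using h1
  choose ρ hρ using h2
  exact ⟨D, ρ, h, hA, fun S h1 h2 => (hD S h1 h2).1, fun S h1 h2 => (hD S h1 h2).2,
    fun c hc => (hρ c hc).1, fun c hc => (hρ c hc).2⟩

namespace Setup

variable {D : Finset G → Finset G} {ρ : G → G}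

/-- the set of classes -/
abbrev C (A : Finset G) : Finset G := A.image (fun a => a + a)

/-- the non-representatives -/
abbrev M (A : Finset G) (ρ : G → G) : Finset G := A \ (C A).image ρ

lemma inj (st : Setup s A D ρ) {c d : G} (hc : c ∈ C A) (hd : d ∈ C A) (e : ρ c = ρ d) :
    c = d := by
  rw [← st.dbl c hc, ← st.dbl d hd, e]

lemma clos (st : Setup s A D ρ) {S : Finset G} (hS : S ⊆ A) (cS : S.card = s) {y : G}
    (hy : y ∈ D S) : ρ (y + y) ∈ S := by
  have hyA : y ∈ A := hS (st.sub S hS cS hy)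
  have hc : y + y ∈ C A := mem_image.2 ⟨y, hyA, rfl⟩
  exact closure st.perf st.cardA hS cS (st.sub S hS cS) (st.sm S hS cS) hy (st.mem _ hc)
    (st.dbl _ hc).symm

lemma image_sub (st : Setup s A D ρ) : (C A).image ρ ⊆ A := by
  intro x hx
  obtain ⟨c, hc, rfl⟩ := mem_image.1 hx
  exact st.mem c hc

lemma cardM (st : Setup s A D ρ) : (M A ρ).card + (C A).card = 2 * s + 1 := by
  have h1 : ((C A).image ρ).card = (C A).card :=
    card_image_of_injOn (fun c hc d hd e => st.inj hc hd e)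
  have h2 := card_sdiff_add_card_eq_card st.image_sub
  rw [h1] at h2
  rw [h2, st.cardA]

lemma rho_notMem (st : Setup s A D ρ) {c : G} (hc : c ∈ C A) : ρ c ∉ M A ρ := by
  intro h
  exact (mem_sdiff.1 h).2 (mem_image.2 ⟨c, hc, rfl⟩)

/-- the sets `S_J` -/
abbrev SJ (A : Finset G) (ρ : G → G) (J : Finset G) : Finset G := M A ρ ∪ J.image ρ

lemma SJ_sub (st : Setup s A D ρ) {J : Finset G} (hJ : J ⊆ C A) : SJ A ρ J ⊆ A :=
  union_subset sdiff_subset ((image_subset_image hJ).trans st.image_sub)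

lemma SJ_card (st : Setup s A D ρ) {J : Finset G} (hJ : J ⊆ C A) :
    (SJ A ρ J).card = (M A ρ).card + J.card := by
  rw [card_union_of_disjoint]
  · congr 1
    exact card_image_of_injOn (fun c hc d hd e => st.inj (hJ hc) (hJ hd) e)
  · rw [Finset.disjoint_left]
    intro x hx hxJ
    obtain ⟨c, hc, rfl⟩ := mem_image.1 hxJ
    exact st.rho_notMem (hJ hc) hx

lemma mem_SJ (st : Setup s A D ρ) {J : Finset G} (hJ : J ⊆ C A) {c : G} (hc : c ∈ C A)
    (h : ρ c ∈ SJ A ρ J) : c ∈ J := by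
  rw [mem_union] at h
  rcases h with h | h
  · exact absurd h (st.rho_notMem hc)
  · obtain ⟨d, hd, hde⟩ := mem_image.1 h
    rw [← st.inj (hJ hd) hc hde]; exact hd

lemma SJ_insert_sum (st : Setup s A D ρ) {I : Finset G} {j : G} (hI : I ⊆ C A) (hj : j ∈ C A)
    (hn : j ∉ I) : ∑ b ∈ SJ A ρ (insert j I), b = ρ j + ∑ b ∈ SJ A ρ I, b := by
  have h1 : SJ A ρ (insert j I) = insert (ρ j) (SJ A ρ I) := by
    simp only [SJ, image_insert, union_insert]
  rw [h1, sum_insert]
  intro h
  exact hn (st.mem_SJ hI hj h)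

/-- two bad classes over the same `I` coincide -/
lemma bad_unique (st : Setup s A D ρ) {I : Finset G} {i j x y : G} (hI : I ⊆ C A)
    (hi : i ∈ C A) (hj : j ∈ C A) (hiI : i ∉ I) (hjI : j ∉ I)
    (cI : (M A ρ).card + (I.card + 1) = s)
    (hx : x ∈ D (SJ A ρ (insert i I))) (hxi : x + x = i)
    (hy : y ∈ D (SJ A ρ (insert j I))) (hyj : y + y = j) : i = j := by
  by_contra hne
  have hIi : insert i I ⊆ C A := insert_subset hi hI
  have hIj : insert j I ⊆ C A := insert_subset hj hI
  have ci : (SJ A ρ (insert i I)).card = s := by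
    rw [st.SJ_card hIi, card_insert_of_notMem hiI, cI]
  have cj : (SJ A ρ (insert j I)).card = s := by
    rw [st.SJ_card hIj, card_insert_of_notMem hjI, cI]
  have si := st.SJ_sub hIi
  have sj := st.SJ_sub hIj
  have hDi := st.sub _ si ci
  have hDj := st.sub _ sj cj
  have ei := st.sm _ si ci
  have ej := st.sm _ sj cj
  rw [st.SJ_insert_sum hI hi hiI] at ei
  rw [st.SJ_insert_sum hI hj hjI] at ej
  have hxn : x ∉ D (SJ A ρ (insert j I)) := by
    intro h
    have h1 := st.clos sj cj h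
    rw [hxi] at h1
    have h2 := st.mem_SJ hIj hi h1
    rw [mem_insert] at h2
    rcases h2 with h2 | h2
    · exact hne h2
    · exact hiI h2
  have hyn : y ∉ D (SJ A ρ (insert i I)) := by
    intro h
    have h1 := st.clos si ci h
    rw [hyj] at h1
    have h2 := st.mem_SJ hIi hj h1
    rw [mem_insert] at h2
    rcases h2 with h2 | h2
    · exact hne h2.symm
    · exact hjI h2
  have hxA : x ∈ A := si (hDi hx)
  have hyA : y ∈ A := sj (hDj hy)
  have e : insert y ((D (SJ A ρ (insert i I))).erase x)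
      = insert x ((D (SJ A ρ (insert j I))).erase y) := by
    apply uniq st.perf
    · exact insert_subset hyA ((erase_subset _ _).trans (hDi.trans si))
    · exact insert_subset hxA ((erase_subset _ _).trans (hDj.trans sj))
    · rw [swap_card hx hyn]; exact (card_le_card hDi).trans ci.le
    · rw [swap_card hy hxn]; exact (card_le_card hDj).trans cj.le
    · rw [swap_sum hx hyn, swap_sum hy hxn, ei, ej]
      have h1 := st.dbl i hi
      have h2 := st.dbl j hj
      have h3 : (ρ i + ∑ b ∈ SJ A ρ I, b + (ρ i + ∑ b ∈ SJ A ρ I, b) - ∑ b ∈ A, b - x + y)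
          = (ρ i + ρ i) + (∑ b ∈ SJ A ρ I, b + ∑ b ∈ SJ A ρ I, b - ∑ b ∈ A, b) - x + y := by abel
      have h4 : (ρ j + ∑ b ∈ SJ A ρ I, b + (ρ j + ∑ b ∈ SJ A ρ I, b) - ∑ b ∈ A, b - y + x)
          = (ρ j + ρ j) + (∑ b ∈ SJ A ρ I, b + ∑ b ∈ SJ A ρ I, b - ∑ b ∈ A, b) - y + x := by abel
      rw [h3, h4, h1, h2, ← hxi, ← hyj]
      abel
  have h5 : x ∈ insert y ((D (SJ A ρ (insert i I))).erase x) := by
    rw [e]; exact mem_insert_self _ _
  rw [mem_insert] at h5
  rcases h5 with h5 | h5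
  · apply hne; rw [← hxi, ← hyj, h5]
  · exact (notMem_erase _ _) h5

/-- two full classes over the same `I` coincide -/
lemma full_unique (st : Setup s A D ρ) {I : Finset G} {i j : G} (hI : I ⊆ C A)
    (hi : i ∈ C A) (hj : j ∈ C A) (hiI : i ∉ I) (hjI : j ∉ I)
    (cI : (M A ρ).card + (I.card + 1) = s)
    (hx : D (SJ A ρ (insert i I)) = ∅)
    (hy : D (SJ A ρ (insert j I)) = ∅) : i = j := by
  have hIi : insert i I ⊆ C A := insert_subset hi hI
  have hIj : insert j I ⊆ C A := insert_subset hj hI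
  have ci : (SJ A ρ (insert i I)).card = s := by
    rw [st.SJ_card hIi, card_insert_of_notMem hiI, cI]
  have cj : (SJ A ρ (insert j I)).card = s := by
    rw [st.SJ_card hIj, card_insert_of_notMem hjI, cI]
  have si := st.SJ_sub hIi
  have sj := st.SJ_sub hIj
  have ei := st.sm _ si ci
  have ej := st.sm _ sj cj
  rw [st.SJ_insert_sum hI hi hiI, hx, sum_empty] at ei
  rw [st.SJ_insert_sum hI hj hjI, hy, sum_empty] at ej
  have h1 := st.dbl i hi
  have h2 := st.dbl j hj
  have h3 : (ρ i + ρ i) = (ρ j + ρ j) := by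
    have h4 : ρ i + ∑ b ∈ SJ A ρ I, b + (ρ i + ∑ b ∈ SJ A ρ I, b) - ∑ b ∈ A, b
        = ρ j + ∑ b ∈ SJ A ρ I, b + (ρ j + ∑ b ∈ SJ A ρ I, b) - ∑ b ∈ A, b := by
      rw [← ei, ← ej]
    have h5 : ρ i + ρ i = (ρ i + ∑ b ∈ SJ A ρ I, b + (ρ i + ∑ b ∈ SJ A ρ I, b) - ∑ b ∈ A, b)
        - (∑ b ∈ SJ A ρ I, b + ∑ b ∈ SJ A ρ I, b - ∑ b ∈ A, b) := by abel
    rw [h5, h4]; abel
  rw [← h1, ← h2, h3]

/-- a nonfull class set contains a bad class -/
lemma exists_bad (st : Setup s A D ρ) {J : Finset G} (hJ : J ⊆ C A)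
    (cJ : (M A ρ).card + J.card = s) (hne : (D (SJ A ρ J)).Nonempty) :
    ∃ j ∈ J, ∃ y ∈ D (SJ A ρ J), y + y = j := by
  obtain ⟨y, hy⟩ := hne
  have cj : (SJ A ρ J).card = s := by rw [st.SJ_card hJ, cJ]
  have sj := st.SJ_sub hJ
  have h1 := st.clos sj cj hy
  have hyA : y ∈ A := sj (st.sub _ sj cj hy)
  exact ⟨y + y, st.mem_SJ hJ (mem_image.2 ⟨y, hyA, rfl⟩) h1, y, hy, rfl⟩

/-- there are at most `s + 1` classes -/
lemma card_C_le (st : Setup s A D ρ) : (C A).card ≤ s + 1 := by
  by_contra hlt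
  push Not at hlt
  have hM := st.cardM
  obtain ⟨e, he⟩ : ∃ e, (C A).card = s + 2 + e := ⟨(C A).card - (s + 2), by omega⟩
  have hMe : (M A ρ).card + (e + 1) = s := by omega
  classical
  let 𝓘 := (C A).powersetCard e
  let 𝓙 := ((C A).powersetCard (e + 1)).filter (fun J => (D (SJ A ρ J)).Nonempty)
  have key : 𝓘.card * (s + 1) ≤ 𝓙.card * (e + 1) := by
    apply card_mul_le_card_mul (fun I J => I ⊆ J)
    · intro I hI
      obtain ⟨hIC, hIe⟩ := mem_powersetCard.1 hI
      have c1 : ((C A) \ I).card = s + 2 := by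
        rw [card_sdiff_of_subset hIC]; omega
      have c2 : (((C A) \ I).filter (fun j => ¬ (D (SJ A ρ (insert j I))).Nonempty)).card ≤ 1 := by
        rw [card_le_one]
        intro i hi j hj
        rw [mem_filter, mem_sdiff, not_nonempty_iff_eq_empty] at hi hj
        exact st.full_unique hIC hi.1.1 hj.1.1 hi.1.2 hj.1.2 (by omega) hi.2 hj.2
      have c3 := card_filter_add_card_filter_not (s := (C A) \ I)
        (fun j => (D (SJ A ρ (insert j I))).Nonempty)
      have c4 : (((C A) \ I).filter (fun j => (D (SJ A ρ (insert j I))).Nonempty)).card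
          ≤ (𝓙.bipartiteAbove (fun I J => I ⊆ J) I).card := by
        apply card_le_card_of_injOn (fun j => insert j I)
        · intro j hj
          have hj' := mem_filter.1 (mem_coe.1 hj)
          have hj'' := mem_sdiff.1 hj'.1
          refine mem_coe.2 ?_
          rw [mem_bipartiteAbove]
          refine ⟨mem_filter.2 ⟨mem_powersetCard.2 ⟨insert_subset hj''.1 hIC, ?_⟩, hj'.2⟩,
            subset_insert _ _⟩
          rw [card_insert_of_notMem hj''.2, hIe]
        · intro j hj k hk hjk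
          have hj' := (mem_sdiff.1 (mem_filter.1 (mem_coe.1 hj)).1).2
          have : j ∈ insert k I := by
            have h0 : insert j I = insert k I := hjk
            rw [← h0]; exact mem_insert_self _ _
          rw [mem_insert] at this
          rcases this with h | h
          · exact h
          · exact absurd h hj'
      omega
    · intro J hJ
      obtain ⟨hJ1, hJ2⟩ := mem_filter.1 hJ
      obtain ⟨hJC, hJe⟩ := mem_powersetCard.1 hJ1
      have c1 : (𝓘.bipartiteBelow (fun I J => I ⊆ J) J) ⊆ J.powersetCard e := by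
        intro I hI
        rw [mem_bipartiteBelow] at hI
        exact mem_powersetCard.2 ⟨hI.2, (mem_powersetCard.1 hI.1).2⟩
      have c2 := card_le_card c1
      rw [card_powersetCard, hJe, Nat.choose_succ_self_right] at c2
      exact c2
  have hbad : ∀ J : Finset G, ∃ j : G, J ∈ 𝓙 → (j ∈ J ∧ ∃ y ∈ D (SJ A ρ J), y + y = j) := by
    intro J
    by_cases hJ : J ∈ 𝓙
    · obtain ⟨hJ1, hJ2⟩ := mem_filter.1 hJ
      obtain ⟨hJC, hJe⟩ := mem_powersetCard.1 hJ1
      obtain ⟨j, hj, hy⟩ := st.exists_bad hJC (by omega) hJ2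
      exact ⟨j, fun _ => ⟨hj, hy⟩⟩
    · exact ⟨0, fun h => absurd h hJ⟩
  choose β hβ using hbad
  have key2 : 𝓙.card ≤ 𝓘.card := by
    apply card_le_card_of_injOn (fun J => J.erase (β J))
    · intro J hJ
      have hJ' := mem_coe.1 hJ
      obtain ⟨hJ1, hJ2⟩ := mem_filter.1 hJ'
      obtain ⟨hJC, hJe⟩ := mem_powersetCard.1 hJ1
      refine mem_coe.2 (mem_powersetCard.2 ⟨(erase_subset _ _).trans hJC, ?_⟩)
      rw [card_erase_of_mem (hβ J hJ').1]; omega
    · intro J hJ K hK hJK
      have hJK' : J.erase (β J) = K.erase (β K) := hJK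
      have hJ' := mem_coe.1 hJ
      have hK' := mem_coe.1 hK
      obtain ⟨hJ1, hJ2⟩ := mem_filter.1 hJ'
      obtain ⟨hJC, hJe⟩ := mem_powersetCard.1 hJ1
      obtain ⟨hK1, hK2⟩ := mem_filter.1 hK'
      obtain ⟨hKC, hKe⟩ := mem_powersetCard.1 hK1
      obtain ⟨hbJ, y, hy, hyb⟩ := hβ J hJ'
      obtain ⟨hbK, z, hz, hzb⟩ := hβ K hK'
      have iJ : insert (β J) (J.erase (β J)) = J := insert_erase hbJ
      have iK : insert (β K) (J.erase (β J)) = K := by rw [hJK']; exact insert_erase hbK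
      have e1 : β J = β K := by
        apply st.bad_unique (I := J.erase (β J)) (x := y) (y := z)
          ((erase_subset _ _).trans hJC) (hJC hbJ) (hKC hbK) (notMem_erase _ _)
        · rw [hJK']; exact notMem_erase _ _
        · rw [card_erase_of_mem hbJ]; omega
        · rw [iJ]; exact hy
        · exact hyb
        · rw [iK]; exact hz
        · exact hzb
      rw [← iJ, ← iK, e1]
  have hpos : 0 < 𝓘.card := by
    rw [card_powersetCard]
    exact Nat.choose_pos (by omega)
  have h6 : 𝓘.card * (s + 1) ≤ 𝓘.card * (e + 1) :=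
    key.trans (Nat.mul_le_mul_right _ key2)
  have h7 : s + 1 ≤ e + 1 := Nat.le_of_mul_le_mul_left h6 hpos
  omega

/-- `s`-subsets of `M` are full -/
lemma M_full (st : Setup s A D ρ) {S : Finset G} (hS : S ⊆ M A ρ) (cS : S.card = s) :
    (∑ b ∈ S, b) + (∑ b ∈ S, b) = ∑ b ∈ A, b := by
  have hSA : S ⊆ A := hS.trans sdiff_subset
  have h0 : D S = ∅ := by
    by_contra hne
    obtain ⟨y, hy⟩ := nonempty_iff_ne_empty.2 hne
    have hyA : y ∈ A := hSA (st.sub _ hSA cS hy)
    exact st.rho_notMem (mem_image.2 ⟨y, hyA, rfl⟩) (hS (st.clos hSA cS hy))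
  have h1 := st.sm S hSA cS
  rw [h0, sum_empty] at h1
  exact (sub_eq_zero.1 h1.symm)

/-- a singleton class is the double of every element of `M` -/
lemma singleton_class (st : Setup s A D ρ) (hs : 1 ≤ s) {b x : G} (hb : b ∈ A)
    (hsing : ∀ a ∈ A, a + a = b + b → a = b) (hx : x ∈ M A ρ) : x + x = b := by
  have hcard := st.cardM
  have hle := st.card_C_le
  have hMs : s ≤ (M A ρ).card := by omega
  have hbC : b + b ∈ C A := mem_image.2 ⟨b, hb, rfl⟩
  have hbR : ρ (b + b) = b := hsing _ (st.mem _ hbC) (st.dbl _ hbC)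
  have hbM : b ∉ M A ρ := by
    have := st.rho_notMem hbC
    rwa [hbR] at this
  obtain ⟨S, hxS, hSM, cS⟩ := exists_subsuperset_card_eq (n := s) (singleton_subset_iff.2 hx)
    (by rw [card_singleton]; exact hs) hMs
  have hxS' : x ∈ S := singleton_subset_iff.1 hxS
  have hfull := st.M_full hSM cS
  have hbS : b ∉ S := fun h => hbM (hSM h)
  have hSA : S ⊆ A := hSM.trans sdiff_subset
  have hTA : insert b (S.erase x) ⊆ A := insert_subset hb ((erase_subset _ _).trans hSA)
  have cT : (insert b (S.erase x)).card = s := by rw [swap_card hxS' hbS, cS]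
  have hsub : D (insert b (S.erase x)) ⊆ {b} := by
    intro y hy
    have hyA : y ∈ A := hTA (st.sub _ hTA cT hy)
    have h1 := st.clos hTA cT hy
    rw [mem_insert] at h1
    rcases h1 with h1 | h1
    · rw [mem_singleton]
      apply hsing y hyA
      rw [← h1]
      exact (st.dbl _ (mem_image.2 ⟨y, hyA, rfl⟩)).symm
    · exact absurd (hSM (mem_of_mem_erase h1)) (st.rho_notMem (mem_image.2 ⟨y, hyA, rfl⟩))
  have hsum := st.sm _ hTA cT
  rw [swap_sum hxS' hbS, ← hfull] at hsum
  have hsum' : ∑ b ∈ D (insert b (S.erase x)), b = (b + b) - (x + x) := by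
    rw [hsum]; abel
  rcases subset_singleton_iff.1 hsub with h0 | h0
  · rw [h0, sum_empty] at hsum'
    have h1 : b + b = x + x := sub_eq_zero.1 hsum'.symm
    have h2 := hsing x (hSA hxS') h1.symm
    exact absurd (h2 ▸ hx) hbM
  · rw [h0, sum_singleton] at hsum'
    have : x + x = (b + b) - ((b + b) - (x + x)) := by abel
    rw [this, ← hsum']; abel

/-- Structure of perfect bases. -/
theorem structure_thm (st : Setup s A D ρ) (hs : 1 ≤ s) :
    (∃ c, ∀ a ∈ A, a + a = c) ∨ ∃ b ∈ A, ∀ x ∈ A, x ≠ b → x + x = b := by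
  have hcard := st.cardM
  have hle := st.card_C_le
  have hMs : s ≤ (M A ρ).card := by omega
  by_cases hex : ∃ b ∈ A, ∀ a ∈ A, a + a = b + b → a = b
  · right
    obtain ⟨b, hb, hsing⟩ := hex
    refine ⟨b, hb, fun x hx hxb => ?_⟩
    have hxC : x + x ∈ C A := mem_image.2 ⟨x, hx, rfl⟩
    by_cases hxs : ∀ a ∈ A, a + a = x + x → a = x
    · obtain ⟨m, hm⟩ : (M A ρ).Nonempty := card_pos.1 (by omega)
      exact absurd ((st.singleton_class hs hx hxs hm).symm.trans
        (st.singleton_class hs hb hsing hm)) hxb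
    · push Not at hxs
      obtain ⟨a, ha, hax, hne⟩ := hxs
      -- one of `a`, `x` is not the representative
      by_cases h1 : x ∈ M A ρ
      · exact st.singleton_class hs hb hsing h1
      · have h2 : a ∈ M A ρ := by
          by_contra h3
          have h4 : ∀ z ∈ A, z ∉ M A ρ → z = ρ (z + z) := by
            intro z hz hzM
            have h5 : z ∈ (C A).image ρ := by
              by_contra h6
              exact hzM (mem_sdiff.2 ⟨hz, h6⟩)
            obtain ⟨c, hc, hcz⟩ := mem_image.1 h5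
            have h7 := st.dbl c hc
            rw [hcz] at h7
            rw [h7, hcz]
          apply hne
          rw [h4 a ha h3, h4 x hx h1, hax]
        rw [← hax]
        exact st.singleton_class hs hb hsing h2
  · left
    push Not at hex
    -- every class meets `M`
    have hmeet : ∀ a ∈ A, ∃ m ∈ M A ρ, m + m = a + a := by
      intro a ha
      by_cases h1 : a ∈ M A ρ
      · exact ⟨a, h1, rfl⟩
      · obtain ⟨a', ha', haa, hne⟩ := hex a ha
        refine ⟨a', ?_, haa⟩
        by_contra h3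
        have h4 : ∀ z ∈ A, z ∉ M A ρ → z = ρ (z + z) := by
          intro z hz hzM
          have h5 : z ∈ (C A).image ρ := by
            by_contra h6
            exact hzM (mem_sdiff.2 ⟨hz, h6⟩)
          obtain ⟨c, hc, hcz⟩ := mem_image.1 h5
          have h7 := st.dbl c hc
          rw [hcz] at h7
          rw [h7, hcz]
        apply hne
        rw [h4 a' ha' h3, h4 a ha h1, haa]
    have hCM : (C A).card ≤ (M A ρ).card := by
      have : C A ⊆ (M A ρ).image (fun a => a + a) := by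
        intro c hc
        obtain ⟨a, ha, hac⟩ := mem_image.1 hc
        obtain ⟨m, hm, hma⟩ := hmeet a ha
        exact mem_image.2 ⟨m, hm, hma.trans hac⟩
      exact (card_le_card this).trans card_image_le
    have hMs' : s + 1 ≤ (M A ρ).card := by omega
    have hconst : ∀ x ∈ M A ρ, ∀ y ∈ M A ρ, x + x = y + y := by
      intro x hx y hy
      by_cases hxy : x = y
      · rw [hxy]
      · obtain ⟨S, hxS, hSM, cS⟩ := exists_subsuperset_card_eq (n := s)
          (s := {x}) (t := (M A ρ).erase y)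
          (singleton_subset_iff.2 (mem_erase.2 ⟨hxy, hx⟩))
          (by rw [card_singleton]; exact hs) (by rw [card_erase_of_mem hy]; omega)
        have hxS' : x ∈ S := singleton_subset_iff.1 hxS
        have hyS : y ∉ S := fun h => (notMem_erase _ _) (hSM h)
        have hSM' : S ⊆ M A ρ := hSM.trans (erase_subset _ _)
        have h1 := st.M_full hSM' cS
        have h2 := st.M_full (S := insert y (S.erase x))
          (insert_subset hy ((erase_subset _ _).trans hSM')) (by rw [swap_card hxS' hyS, cS])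
        rw [swap_sum hxS' hyS, ← h1] at h2
        have h3 : (y + y) - (x + x) = 0 := by
          have h4 : (y + y) - (x + x)
              = (∑ b ∈ S, b - x + y + (∑ b ∈ S, b - x + y)) - (∑ b ∈ S, b + ∑ b ∈ S, b) := by abel
          rw [h4, h2, sub_self]
        exact (sub_eq_zero.1 h3).symm
    obtain ⟨m, hm⟩ : (M A ρ).Nonempty := card_pos.1 (by omega)
    refine ⟨m + m, fun a ha => ?_⟩
    obtain ⟨m', hm', hma⟩ := hmeet a ha
    rw [← hma]
    exact hconst _ hm' _ hm

end Setup

end Pool.Agent.X229.PerfectBases
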