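import Pool.Agent.H870R3.TMUniv

/-!
# A source of undecidability

A fixed machine working on two lists of symbols, with computable starting words, whose halting
problem is undecidable.
-/

set_option autoImplicit false

namespace Pool.Agent.X229.Src

open Pool.Agent.H870R3 Turing

/-- The transition table of a Turing machine with the states `0, …, n + 1` (start state `0`,
halting state `1`) and the symbols `0, …, k` (blank `0`). -/
abbrev Tbl (n k : ℕ) : Type := Fin (n + 2) → Fin (k + 1) → Fin (n + 2) × Fin (k + 1) × SignType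

/-- Configurations: the state, the tape to the left of the head (nearest symbol first), the tape
from the head on. -/
abbrev Cf (n k : ℕ) : Type := Fin (n + 2) × List (Fin (k + 1)) × List (Fin (k + 1))

/-- One step. -/
def stp {n k : ℕ} (δ : Tbl n k) (c : Cf n k) : Cf n k :=
  match (δ c.1 c.2.2.headI).2.2 with
  | .neg => ((δ c.1 c.2.2.headI).1, c.2.1.tail,
      c.2.1.headI :: (δ c.1 c.2.2.headI).2.1 :: c.2.2.tail)
  | .zero => ((δ c.1 c.2.2.headI).1, c.2.1, (δ c.1 c.2.2.headI).2.1 :: c.2.2.tail)
  | .pos => ((δ c.1 c.2.2.headI).1, (δ c.1 c.2.2.headI).2.1 :: c.2.1, c.2.2.tail)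

/-- The machine halts on the starting word `w`. -/
def Hlt {n k : ℕ} (δ : Tbl n k) (w : List (Fin (k + 1))) : Prop :=
  ∃ t, ((stp δ)^[t] (0, [], w)).1 = 1

theorem tstep_eq (T : TM) (c : Cf T.n T.k) :
    T.step (c.1, Tape.mk₂ c.2.1 c.2.2) =
      ((stp T.δ c).1, Tape.mk₂ (stp T.δ c).2.1 (stp T.δ c).2.2) := by
  obtain ⟨q, L, R⟩ := c
  have hd : T.δ q (Tape.mk₂ L R).head = T.δ q R.headI := by rw [mk2_head]
  unfold stp TM.step
  simp only [hd]
  rcases hs : (T.δ q R.headI).2.2 with _ | _ | _
  · rfl
  · refine Prod.ext rfl ?_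
    show ((Tape.mk₂ L R).write _).move Dir.left = _
    rw [mk2_write, mk2_left]
  · refine Prod.ext rfl ?_
    show ((Tape.mk₂ L R).write _).move Dir.right = _
    rw [mk2_write, mk2_right]
    rfl

theorem titer_eq (T : TM) (c : Cf T.n T.k) (t : ℕ) :
    (T.step)^[t] (c.1, Tape.mk₂ c.2.1 c.2.2) =
      (((stp T.δ)^[t] c).1, Tape.mk₂ ((stp T.δ)^[t] c).2.1 ((stp T.δ)^[t] c).2.2) := by
  induction t with
  | zero => rfl
  | succ t ih =>
    rw [Function.iterate_succ_apply', Function.iterate_succ_apply', ih]
    exact tstep_eq T _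

theorem halts_iff_hlt (T : TM) (w : List (Fin (T.k + 1))) :
    T.Halts (T.init ([], w)) ↔ Hlt T.δ w := by
  refine exists_congr fun t => ?_
  show ((T.step)^[t] ((0 : Fin (T.n + 2)), Tape.mk₂ [] w)).1 = 1 ↔ _
  rw [titer_eq T ((0 : Fin (T.n + 2)), [], w) t]

/-- There is a machine with undecidable halting problem. -/
theorem exists_source : ∃ (n k : ℕ) (δ : Tbl n k) (F : ℕ → List (Fin (k + 1))), Computable F ∧
    ¬ ComputablePred fun m => Hlt δ (F m) := by
  obtain ⟨Λ, i1, i2, M, hM⟩ := Helper322.LT.Univ.exists_machine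
  obtain ⟨k, g, hg⟩ := exists_equiv_fin_one
    (Γ := TM2to1.Γ' PartrecToTM2.K' (fun _ => PartrecToTM2.Γ'))
  obtain ⟨n, e, he0, he1⟩ := exists_equiv_fin_two (Λ := Λ)
  refine ⟨n, k, (ofTM0 M e g).δ, fun m => g (Helper322.LT.Univ.sym true .cons) ::
    (PartrecToTM2.trNat m).reverse.map (fun a => g (Helper322.LT.Univ.sym false a)), ?_, ?_⟩
  · have hd := (Helper322.LT.Univ.digits_computable
      (fun a => (g (Helper322.LT.Univ.sym false a) : ℕ)))
    have h1 : Computable (fun x => ((PartrecToTM2.trNat x).map
        (fun a => g (Helper322.LT.Univ.sym false a)))) := by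
      have h2 : Computable (fun l : List ℕ => l.map (fun i => (Fin.ofNat (k + 1) i))) := by
        refine (Primrec.list_map Primrec.id ?_).to_comp
        have h3 : Primrec (fun i : ℕ => Fin.ofNat (k + 1) i) := by
          rw [← Primrec.fin_val_iff]
          exact Primrec.nat_mod.comp Primrec.id (Primrec.const _)
        exact h3.comp Primrec.snd
      refine (h2.comp hd).of_eq fun x => ?_
      rw [List.map_map]
      congr 1
      funext a
      simp
    refine Computable.list_cons.comp (Computable.const _) ?_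
    refine (Computable.list_reverse.comp h1).of_eq fun x => ?_
    exact List.map_reverse.symm
  · intro hcomp
    apply Helper322.LT.Univ.u_not_computable
    refine hcomp.of_eq fun m => ?_
    rw [← hM, ← ofTM0_halts M e he1 g hg]
    have h2 : (ofTM0 M e g).init ([], g (Helper322.LT.Univ.sym true .cons) ::
        (PartrecToTM2.trNat m).reverse.map
          (fun a => g (Helper322.LT.Univ.sym false a))) =
        cf M e g hg (TM0.init (Helper322.LT.Univ.sym true .cons ::
          (PartrecToTM2.trNat m).reverse.map (Helper322.LT.Univ.sym false))) := by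
      refine Prod.ext he0.symm ?_
      show Tape.mk₂ _ _ = (Tape.mk₁ _).map _
      rw [Tape.map_mk₁]
      show Tape.mk₂ [] _ = Tape.mk₂ [] _
      congr 1
      show _ = List.map (fun a => g a) _
      rw [List.map_cons, List.map_map]
      rfl
    rw [← h2]
    exact (halts_iff_hlt (ofTM0 M e g) _).symm

end Pool.Agent.X229.Src
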