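import Mathlib

/-!
Helper file for `MP_ebd346_nt` : arithmetic of the curves `m² = (r²+1)² + κ² r²`.
-/

namespace Pool.Agent.X229.TriCore

/-- doubling identity -/
theorem dbl {κ r m : ℚ} (hr : r ≠ 0)
    (hm : m ^ 2 = (r ^ 2 + 1) ^ 2 + κ ^ 2 * r ^ 2) :
    m ≠ 0 ∧
    ((r ^ 8 + 2 * (κ ^ 2 + 2) * r ^ 6 + 6 * r ^ 4 + 2 * (κ ^ 2 + 2) * r ^ 2 + 1)
        / (4 * r ^ 2 * m ^ 2)) ^ 2
      = (((r ^ 4 - 1) / (2 * r * m)) ^ 2 + 1) ^ 2 + κ ^ 2 * ((r ^ 4 - 1) / (2 * r * m)) ^ 2 := by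
  have hm0 : m ≠ 0 := by
    rintro rfl
    have : (0:ℚ) < (r ^ 2 + 1) ^ 2 + κ ^ 2 * r ^ 2 := by positivity
    rw [← hm] at this
    norm_num at this
  refine ⟨hm0, ?_⟩
  have hK : κ ^ 2 = (m ^ 2 - (r ^ 2 + 1) ^ 2) / r ^ 2 := by
    field_simp
    linarith
  rw [hK]
  field_simp
  ring

/-- doubling identity, second model -/
theorem dbl2 {k R M : ℚ} (hR : R ≠ 0)
    (hM : M ^ 2 = (R ^ 2 + k ^ 2) ^ 2 + R ^ 2) :
    M ≠ 0 ∧ ∃ M' : ℚ, M' ^ 2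
      = (((R ^ 4 - k ^ 4) / (2 * R * M)) ^ 2 + k ^ 2) ^ 2 + ((R ^ 4 - k ^ 4) / (2 * R * M)) ^ 2 := by
  have hm0 : M ≠ 0 := by
    rintro rfl
    have : (0:ℚ) < (R ^ 2 + k ^ 2) ^ 2 + R ^ 2 := by positivity
    rw [← hM] at this
    norm_num at this
  refine ⟨hm0, (R ^ 8 + 2 * (1 + 2 * k ^ 2) * R ^ 6 + 6 * k ^ 4 * R ^ 4
    + 2 * (1 + 2 * k ^ 2) * k ^ 4 * R ^ 2 + k ^ 8) / (4 * R ^ 2 * M ^ 2), ?_⟩
  field_simp
  rw [hM]
  ring

theorem rat_sq_int {q : ℚ} {n : ℤ} (h : q ^ 2 = n) : ∃ z : ℤ, q = z := by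
  have h1 : IsSquare ((n : ℤ) : ℚ) := ⟨q, by rw [← h]; ring⟩
  rw [Rat.isSquare_intCast_iff] at h1
  obtain ⟨z, hz⟩ := h1
  have h2 : q ^ 2 = (z : ℚ) ^ 2 := by rw [h, hz]; push_cast; ring
  rcases sq_eq_sq_iff_eq_or_eq_neg.mp h2 with h3 | h3
  · exact ⟨z, h3⟩
  · exact ⟨-z, by rw [h3]; push_cast; ring⟩

theorem not_sq1 {k n : ℤ} (hk : 0 < k) (h : n ^ 2 = k ^ 2 + 4) : False := by
  have h1 : k < |n| := by
    apply lt_of_pow_lt_pow_left₀ 2 (abs_nonneg n)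
    rw [sq_abs]; omega
  have h2 : |n| < k + 2 := by
    apply lt_of_pow_lt_pow_left₀ 2 (by omega)
    rw [sq_abs]; nlinarith
  have h3 : |n| = k + 1 := by omega
  have h4 : |n| ^ 2 = k ^ 2 + 4 := by rw [sq_abs]; exact h
  rw [h3] at h4
  have : 2 * k = 3 := by nlinarith
  omega

theorem not_sq2 {k n : ℤ} (hk : 0 < k) (h : n ^ 2 = 4 * k ^ 2 + 1) : False := by
  have h1 : 2 * k < |n| := by
    apply lt_of_pow_lt_pow_left₀ 2 (abs_nonneg n)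
    rw [sq_abs]; nlinarith
  have h2 : |n| < 2 * k + 1 := by
    apply lt_of_pow_lt_pow_left₀ 2 (by omega)
    rw [sq_abs]; nlinarith
  omega

/-- first model: the set of `r` -/
def S1 (κ : ℚ) : Set ℚ := {r | r ≠ 0 ∧ ∃ m : ℚ, m ^ 2 = (r ^ 2 + 1) ^ 2 + κ ^ 2 * r ^ 2}

/-- second model -/
def S2 (k : ℚ) : Set ℚ := {R | R ≠ 0 ∧ ∃ M : ℚ, M ^ 2 = (R ^ 2 + k ^ 2) ^ 2 + R ^ 2}

theorem S1_pow4 {k : ℤ} (hk : 0 < k) {r : ℚ} (hr : r ∈ S1 k) : r ^ 4 ≠ 1 := by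
  intro h4
  obtain ⟨hr0, m, hm⟩ := hr
  have h2 : r ^ 2 = 1 := by
    have : (r ^ 2 - 1) * (r ^ 2 + 1) = 0 := by ring_nf; rw [h4]; ring
    rcases mul_eq_zero.mp this with h | h
    · linarith
    · nlinarith [sq_nonneg r]
  rw [h2] at hm
  have h5 : m ^ 2 = ((k ^ 2 + 4 : ℤ) : ℚ) := by rw [hm]; push_cast; ring
  obtain ⟨z, hz⟩ := rat_sq_int h5
  rw [hz] at h5
  exact not_sq1 hk (by exact_mod_cast h5)

theorem S2_pow4 {k : ℤ} (hk : 0 < k) {R : ℚ} (hR : R ∈ S2 k) : R ^ 4 ≠ (k:ℚ) ^ 4 := by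
  intro h4
  obtain ⟨hr0, m, hm⟩ := hR
  have hk' : (0:ℚ) < k := by exact_mod_cast hk
  have h2 : R ^ 2 = (k:ℚ) ^ 2 := by
    have : (R ^ 2 - (k:ℚ) ^ 2) * (R ^ 2 + (k:ℚ) ^ 2) = 0 := by ring_nf; rw [h4]; ring
    rcases mul_eq_zero.mp this with h | h
    · linarith
    · nlinarith [sq_nonneg R, pow_pos hk' 2]
  rw [h2] at hm
  have h5 : (m / k) ^ 2 = ((4 * k ^ 2 + 1 : ℤ) : ℚ) := by
    rw [div_pow, hm]; push_cast; field_simp; ring
  obtain ⟨z, hz⟩ := rat_sq_int h5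
  rw [hz] at h5
  exact not_sq2 hk (by exact_mod_cast h5)

/-- arithmetic of one doubling step, first model -/
theorem step1 {k : ℤ} (hk : 0 < k) {r : ℚ} (hr : r ∈ S1 k) :
    ∃ r' ∈ S1 k, ∃ M : ℤ, M ^ 2 = (r.num ^ 2 + (r.den:ℤ) ^ 2) ^ 2 + k ^ 2 * r.num ^ 2 * (r.den:ℤ) ^ 2 ∧
      2 * r.num * r.den * M * r'.num = r'.den * (r.num ^ 4 - (r.den:ℤ) ^ 4) := by
  obtain ⟨hr0, m, hm⟩ := id hr
  have h4 := S1_pow4 hk hr
  obtain ⟨hm0, hd⟩ := dbl hr0 hm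
  set r' : ℚ := (r ^ 4 - 1) / (2 * r * m) with hr'
  have hr'0 : r' ≠ 0 := by
    rw [hr']
    exact div_ne_zero (sub_ne_zero.mpr h4) (by positivity)
  refine ⟨r', ⟨hr'0, _, hd⟩, ?_⟩
  have hb : (0:ℚ) < r.den := by exact_mod_cast r.den_pos
  have hb' : (0:ℚ) < r'.den := by exact_mod_cast r'.den_pos
  have e1 : r = (r.num : ℚ) / r.den := (Rat.num_div_den r).symm
  have e2 : r' = (r'.num : ℚ) / r'.den := (Rat.num_div_den r').symm
  have hM : (m * (r.den:ℚ) ^ 2) ^ 2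
      = (((r.num ^ 2 + (r.den:ℤ) ^ 2) ^ 2 + k ^ 2 * r.num ^ 2 * (r.den:ℤ) ^ 2 : ℤ) : ℚ) := by
    rw [mul_pow, hm]
    push_cast
    have e3 : r * r.den = r.num := Rat.mul_den_eq_num r
    rw [← e3]
    ring
  obtain ⟨M, hM'⟩ := rat_sq_int hM
  rw [hM'] at hM
  refine ⟨M, by exact_mod_cast hM, ?_⟩
  have e3 : r * r.den = r.num := Rat.mul_den_eq_num r
  have e4 : r' * r'.den = r'.num := Rat.mul_den_eq_num r'
  have e5 : r' * (2 * r * m) = r ^ 4 - 1 := by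
    rw [hr']; field_simp
  have : (2 * (r.num:ℚ) * r.den * M * r'.num) = r'.den * ((r.num:ℚ) ^ 4 - (r.den:ℚ) ^ 4) := by
    rw [← hM', ← e3, ← e4]
    linear_combination (r.den:ℚ) ^ 4 * r'.den * e5
  exact_mod_cast this

/-- arithmetic of one doubling step, second model -/
theorem step2 {k : ℤ} (hk : 0 < k) {r : ℚ} (hr : r ∈ S2 k) :
    ∃ r' ∈ S2 k, ∃ M : ℤ, M ^ 2 = (r.num ^ 2 + k ^ 2 * (r.den:ℤ) ^ 2) ^ 2 + r.num ^ 2 * (r.den:ℤ) ^ 2 ∧
      2 * r.num * r.den * M * r'.num = r'.den * (r.num ^ 4 - k ^ 4 * (r.den:ℤ) ^ 4) := by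
  obtain ⟨hr0, m, hm⟩ := id hr
  have h4 := S2_pow4 hk hr
  obtain ⟨hm0, hd⟩ := dbl2 hr0 hm
  set r' : ℚ := (r ^ 4 - (k:ℚ) ^ 4) / (2 * r * m) with hr'
  have hr'0 : r' ≠ 0 := by
    rw [hr']
    exact div_ne_zero (sub_ne_zero.mpr h4) (by positivity)
  refine ⟨r', ⟨hr'0, hd⟩, ?_⟩
  have hb : (0:ℚ) < r.den := by exact_mod_cast r.den_pos
  have hb' : (0:ℚ) < r'.den := by exact_mod_cast r'.den_pos
  have hM : (m * (r.den:ℚ) ^ 2) ^ 2
      = (((r.num ^ 2 + k ^ 2 * (r.den:ℤ) ^ 2) ^ 2 + r.num ^ 2 * (r.den:ℤ) ^ 2 : ℤ) : ℚ) := by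
    rw [mul_pow, hm]
    push_cast
    have e3 : r * r.den = r.num := Rat.mul_den_eq_num r
    rw [← e3]
    ring
  obtain ⟨M, hM'⟩ := rat_sq_int hM
  rw [hM'] at hM
  refine ⟨M, by exact_mod_cast hM, ?_⟩
  have e3 : r * r.den = r.num := Rat.mul_den_eq_num r
  have e4 : r' * r'.den = r'.num := Rat.mul_den_eq_num r'
  have e5 : r' * (2 * r * m) = r ^ 4 - (k:ℚ) ^ 4 := by
    rw [hr']; field_simp
  have : (2 * (r.num:ℚ) * r.den * M * r'.num)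
      = r'.den * ((r.num:ℚ) ^ 4 - (k:ℚ) ^ 4 * (r.den:ℚ) ^ 4) := by
    rw [← hM', ← e3, ← e4]
    linear_combination (r.den:ℚ) ^ 4 * r'.den * e5
  exact_mod_cast this

theorem num_den_coprime (r : ℚ) : IsCoprime r.num (r.den : ℤ) := by
  rw [Int.isCoprime_iff_gcd_eq_one]
  exact r.reduced

/-- growth, first model -/
theorem grow1 {k : ℤ} (hk : 0 < k) {r : ℚ} (hr : r ∈ S1 k) : ∃ r' ∈ S1 k, r.den < r'.den := by
  -- case `|num| ≥ 2`
  have key : ∀ r : ℚ, r ∈ S1 k → 2 ≤ |r.num| → ∃ r' ∈ S1 k, r.den < r'.den := by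
    intro r hr h2
    obtain ⟨r', hr', M, hM, he⟩ := step1 hk hr
    refine ⟨r', hr', ?_⟩
    have hc := num_den_coprime r
    have hc1 : IsCoprime (r.num * r.den) (r.num ^ 4 - (r.den:ℤ) ^ 4) := by
      apply IsCoprime.mul_left
      · have h5 : IsCoprime r.num (-((r.den:ℤ) ^ 4)) := (hc.pow_right).neg_right
        have h6 : r.num ^ 4 - (r.den:ℤ) ^ 4 = -((r.den:ℤ) ^ 4) + r.num * r.num ^ 3 := by ring
        rw [h6]
        exact h5.add_mul_left_right (r.num ^ 3)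
      · have h5 : IsCoprime (r.den:ℤ) (r.num ^ 4) := (hc.symm.pow_right)
        have h6 : r.num ^ 4 - (r.den:ℤ) ^ 4 = r.num ^ 4 + (r.den:ℤ) * (-(r.den:ℤ) ^ 3) := by ring
        rw [h6]
        exact h5.add_mul_left_right (-(r.den:ℤ) ^ 3)
    have hd : (r.num * r.den) ∣ (r'.den : ℤ) := by
      apply hc1.dvd_of_dvd_mul_right
      rw [← he]
      exact ⟨2 * M * r'.num, by ring⟩
    have hle := Int.le_of_dvd (by exact_mod_cast r'.den_pos) ((abs_dvd _ _).mpr hd)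
    rw [abs_mul] at hle
    have hb : (0:ℤ) < r.den := by exact_mod_cast r.den_pos
    rw [abs_of_pos hb] at hle
    have : (r.den : ℤ) < r'.den := by nlinarith
    exact_mod_cast this
  by_cases h2 : 2 ≤ |r.num|
  · exact key r hr h2
  have hn0 : r.num ≠ 0 := by
    intro h
    exact hr.1 (Rat.num_eq_zero.mp h)
  have h1 : |r.num| = 1 := by
    have := abs_pos.mpr hn0
    omega
  have hsq : r.num ^ 2 = 1 := by rw [← sq_abs, h1]; norm_num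
  have h4 : r.num ^ 4 = 1 := by
    calc r.num ^ 4 = (r.num ^ 2) ^ 2 := by ring
      _ = 1 := by rw [hsq]; norm_num
  obtain ⟨r', hr', M, hM, he⟩ := step1 hk hr
  have hb : (0:ℤ) < r.den := by exact_mod_cast r.den_pos
  have hc := num_den_coprime r
  have hd : (r.den:ℤ) ∣ (r'.den : ℤ) := by
    have hc1 : IsCoprime (r.den:ℤ) (r.num ^ 4 - (r.den:ℤ) ^ 4) := by
      have h5 : IsCoprime (r.den:ℤ) (r.num ^ 4) := (hc.symm.pow_right)
      have h6 : r.num ^ 4 - (r.den:ℤ) ^ 4 = r.num ^ 4 + (r.den:ℤ) * (-(r.den:ℤ) ^ 3) := by ring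
      rw [h6]
      exact h5.add_mul_left_right (-(r.den:ℤ) ^ 3)
    apply hc1.dvd_of_dvd_mul_right
    rw [← he]
    exact ⟨2 * r.num * M * r'.num, by ring⟩
  have hle := Int.le_of_dvd (by exact_mod_cast r'.den_pos) hd
  by_cases hlt : r.den < r'.den
  · exact ⟨r', hr', hlt⟩
  have heq : r'.den = r.den := by
    have : r.den ≤ r'.den := by exact_mod_cast hle
    omega
  have h3 : 2 ≤ |r'.num| := by
    by_contra h3
    have hn0' : r'.num ≠ 0 := by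
      intro h
      exact hr'.1 (Rat.num_eq_zero.mp h)
    have h1' : |r'.num| = 1 := by
      have := abs_pos.mpr hn0'
      omega
    have hsq' : r'.num ^ 2 = 1 := by rw [← sq_abs, h1']; norm_num
    rw [heq, h4] at he
    rw [hsq] at hM
    have hb0 : (r.den:ℤ) ≠ 0 := hb.ne'
    have he2 : 2 * r.num * M * r'.num = 1 - (r.den:ℤ) ^ 4 := by
      apply mul_left_cancel₀ hb0
      linear_combination he
    have he3 : 4 * M ^ 2 = (1 - (r.den:ℤ) ^ 4) ^ 2 := by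
      rw [← he2]
      calc 4 * M ^ 2 = 4 * 1 * M ^ 2 * 1 := by ring
        _ = 4 * r.num ^ 2 * M ^ 2 * r'.num ^ 2 := by rw [hsq, hsq']
        _ = _ := by ring
    rw [hM] at he3
    have hdv : (r.den:ℤ) ^ 2 ∣ 3 := by
      refine ⟨(-2 * (r.den:ℤ) ^ 2 + (r.den:ℤ) ^ 6) - (8 + 4 * (r.den:ℤ) ^ 2 + 4 * k ^ 2), ?_⟩
      linear_combination he3
    have hle3 := Int.le_of_dvd (by norm_num) hdv
    have hb1 : (r.den:ℤ) = 1 := by
      have : (r.den:ℤ) < 2 := by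
        apply lt_of_pow_lt_pow_left₀ 2 (by norm_num)
        omega
      omega
    have hr4 : r ^ 4 = 1 := by
      have e3 : r * r.den = r.num := Rat.mul_den_eq_num r
      have hb1' : (r.den:ℚ) = 1 := by exact_mod_cast hb1
      rw [hb1', mul_one] at e3
      rw [e3]
      exact_mod_cast h4
    exact S1_pow4 hk hr hr4
  obtain ⟨r'', hr'', hlt''⟩ := key r' hr' h3
  exact ⟨r'', hr'', by omega⟩

theorem core2 {a b M a' k : ℤ} (hab : IsCoprime a b) (hb : 0 < b) (ha : a ≠ 0) (hk : 0 < k)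
    (hM : M ^ 2 = (a ^ 2 + k ^ 2 * b ^ 2) ^ 2 + a ^ 2 * b ^ 2)
    (h : 2 * a * M * a' = a ^ 4 - k ^ 4 * b ^ 4) : False := by
  have hg0 : 0 < Int.gcd a (a ^ 2 + k ^ 2 * b ^ 2) := by
    apply Int.gcd_pos_of_ne_zero_left
    exact ha
  obtain ⟨a1, n1, hc, ha1, hn1⟩ := Int.exists_gcd_one hg0
  generalize hgdef : ((Int.gcd a (a ^ 2 + k ^ 2 * b ^ 2) : ℕ) : ℤ) = g at ha1 hn1
  have hg : 0 < g := by rw [← hgdef]; exact_mod_cast hg0
  have hc' : IsCoprime a1 n1 := Int.isCoprime_iff_gcd_eq_one.mpr hc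
  have hgM : g ∣ M := by
    have : g ^ 2 ∣ M ^ 2 := by
      rw [hM, hn1, ha1]
      exact ⟨n1 ^ 2 + a1 ^ 2 * b ^ 2, by ring⟩
    exact (Int.pow_dvd_pow_iff (by norm_num)).mp this
  obtain ⟨M1, hM1⟩ := hgM
  have hM1sq : M1 ^ 2 = n1 ^ 2 + a1 ^ 2 * b ^ 2 := by
    have hg2 : g ^ 2 ≠ 0 := pow_ne_zero _ hg.ne'
    apply mul_left_cancel₀ hg2
    have : M ^ 2 = (n1 * g) ^ 2 + (a1 * g) ^ 2 * b ^ 2 := by rw [hM, hn1, ← ha1]
    rw [hM1] at this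
    linear_combination this
  have h2 : 2 * a1 * M1 * a' = n1 * (2 * a1 ^ 2 * g - n1) := by
    have hg2 : g ^ 2 ≠ 0 := pow_ne_zero _ hg.ne'
    apply mul_left_cancel₀ hg2
    have e1 : 2 * a * M * a' = (a ^ 2 + k ^ 2 * b ^ 2) * (2 * a ^ 2 - (a ^ 2 + k ^ 2 * b ^ 2)) := by
      rw [h]; ring
    rw [hn1, hM1, ha1] at e1
    linear_combination e1
  have hunit : IsUnit a1 := by
    have hd : a1 ∣ n1 ^ 2 := by
      refine ⟨2 * a1 * g * n1 - 2 * M1 * a', ?_⟩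
      linear_combination h2
    exact (hc'.pow_right (n := 2)).isUnit_of_dvd' dvd_rfl hd
  have ha1sq : a1 ^ 2 = 1 := by
    rcases Int.isUnit_iff.mp hunit with h | h <;> rw [h] <;> norm_num
  rw [ha1sq] at h2 hM1sq
  -- now `n1 g = g² + k² b²`
  have hn : n1 * g = g ^ 2 + k ^ 2 * b ^ 2 := by
    rw [← hn1, ha1, mul_pow, ha1sq]; ring
  have hgb : IsCoprime g b := by
    rw [ha1] at hab
    exact IsCoprime.of_mul_left_right hab
  have hnb : IsCoprime n1 b := by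
    have h3 : IsCoprime (g ^ 2) b := hgb.pow_left
    have h4 : IsCoprime (g ^ 2 + b * (k ^ 2 * b)) b := h3.add_mul_left_left _
    have h5 : IsCoprime (n1 * g) b := by
      rw [hn]
      convert h4 using 1
      ring
    exact IsCoprime.of_mul_left_left h5
  have hMn : IsCoprime M1 n1 := by
    have h3 : IsCoprime (b ^ 2) n1 := hnb.symm.pow_left
    have h4 : IsCoprime (b ^ 2 + n1 * n1) n1 := h3.add_mul_left_left _
    have h5 : IsCoprime (M1 ^ 2) n1 := by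
      rw [hM1sq]
      convert h4 using 1
      ring
    exact (IsCoprime.pow_left_iff (by norm_num)).mp h5
  have hMb : IsCoprime M1 b := by
    have h3 : IsCoprime (n1 ^ 2) b := hnb.pow_left
    have h4 : IsCoprime (n1 ^ 2 + b * b) b := h3.add_mul_left_left _
    have h5 : IsCoprime (M1 ^ 2) b := by
      rw [hM1sq]
      convert h4 using 1
      ring
    exact (IsCoprime.pow_left_iff (by norm_num)).mp h5
  have hMR : M1 ∣ (2 * g - n1) := by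
    have : M1 ∣ n1 * (2 * g - n1) := by
      refine ⟨2 * a1 * a', ?_⟩
      linear_combination (-1) * h2
    exact hMn.dvd_of_dvd_mul_left this
  have hR0 : M1 ^ 2 = (2 * g - n1) ^ 2 + (4 * k ^ 2 + 1) * b ^ 2 := by
    rw [hM1sq]
    linear_combination 4 * hn
  have hMd : M1 ^ 2 ∣ 4 * k ^ 2 + 1 := by
    have h3 : M1 ^ 2 ∣ (2 * g - n1) ^ 2 := pow_dvd_pow_of_dvd hMR 2
    have h4 : M1 ^ 2 ∣ (4 * k ^ 2 + 1) * b ^ 2 := by
      have : (4 * k ^ 2 + 1) * b ^ 2 = M1 ^ 2 - (2 * g - n1) ^ 2 := by linear_combination (-1) * hR0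
      rw [this]
      exact dvd_sub dvd_rfl h3
    exact (hMb.pow (m := 2) (n := 2)).dvd_of_dvd_mul_right h4
  have hle := Int.le_of_dvd (by positivity) hMd
  have hge : 4 * k ^ 2 + 1 ≤ M1 ^ 2 := by
    rw [hR0]
    have hb2 : 1 ≤ b ^ 2 := by nlinarith
    nlinarith [sq_nonneg (2 * g - n1), sq_nonneg k]
  exact not_sq2 hk (le_antisymm hle hge)

/-- growth, second model -/
theorem grow2 {k : ℤ} (hk : 0 < k) {r : ℚ} (hr : r ∈ S2 k) : ∃ r' ∈ S2 k, r.den < r'.den := by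
  obtain ⟨r', hr', M, hM, he⟩ := step2 hk hr
  refine ⟨r', hr', ?_⟩
  have hn0 : r.num ≠ 0 := by
    intro h
    exact hr.1 (Rat.num_eq_zero.mp h)
  have hb : (0:ℤ) < r.den := by exact_mod_cast r.den_pos
  have hc := num_den_coprime r
  have hd : (r.den:ℤ) ∣ (r'.den : ℤ) := by
    have hc1 : IsCoprime (r.den:ℤ) (r.num ^ 4 - k ^ 4 * (r.den:ℤ) ^ 4) := by
      have h5 : IsCoprime (r.den:ℤ) (r.num ^ 4) := (hc.symm.pow_right)
      have h6 : r.num ^ 4 - k ^ 4 * (r.den:ℤ) ^ 4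
          = r.num ^ 4 + (r.den:ℤ) * (-k ^ 4 * (r.den:ℤ) ^ 3) := by ring
      rw [h6]
      exact h5.add_mul_left_right (-k ^ 4 * (r.den:ℤ) ^ 3)
    apply hc1.dvd_of_dvd_mul_right
    rw [← he]
    exact ⟨2 * r.num * M * r'.num, by ring⟩
  have hle := Int.le_of_dvd (by exact_mod_cast r'.den_pos) hd
  by_contra hlt
  have heq : r'.den = r.den := by
    have : r.den ≤ r'.den := by exact_mod_cast hle
    omega
  rw [heq] at he
  have hb0 : (r.den:ℤ) ≠ 0 := hb.ne'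
  have he2 : 2 * r.num * M * r'.num = r.num ^ 4 - k ^ 4 * (r.den:ℤ) ^ 4 := by
    apply mul_left_cancel₀ hb0
    linear_combination he
  exact core2 hc hb hn0 hk hM he2

theorem infinite_of_grow {S : Set ℚ} (hne : S.Nonempty)
    (hg : ∀ r ∈ S, ∃ r' ∈ S, r.den < r'.den) : S.Infinite := by
  have h1 : ((fun r : ℚ => r.den) '' S).Infinite := by
    apply Set.infinite_of_forall_exists_gt
    intro n
    induction n with
    | zero =>
      obtain ⟨r, hr⟩ := hne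
      exact ⟨r.den, ⟨r, hr, rfl⟩, r.den_pos⟩
    | succ n ih =>
      obtain ⟨_, ⟨r, hr, rfl⟩, hlt⟩ := ih
      obtain ⟨r', hr', hlt'⟩ := hg r hr
      exact ⟨r'.den, ⟨r', hr', rfl⟩, by simp only at hlt ⊢; omega⟩
  exact Set.Infinite.of_image _ h1

theorem S1_infinite {k : ℤ} (hk : 0 < k) (hne : (S1 k).Nonempty) : (S1 (k:ℚ)).Infinite :=
  infinite_of_grow hne (fun _ hr => grow1 hk hr)

theorem S1_inv_infinite {k : ℤ} (hk : 0 < k) (hne : (S1 (1 / (k:ℚ))).Nonempty) :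
    (S1 (1 / (k:ℚ))).Infinite := by
  have hk' : (0:ℚ) < k := by exact_mod_cast hk
  have h2 : (S2 (k:ℚ)).Nonempty := by
    obtain ⟨r, hr, m, hm⟩ := hne
    refine ⟨k * r, by positivity, k ^ 2 * m, ?_⟩
    rw [mul_pow, hm]
    field_simp
  have h3 := infinite_of_grow h2 (fun _ hr => grow2 hk hr)
  have h4 : (S2 (k:ℚ)) ⊆ (fun r : ℚ => k * r) '' (S1 (1 / (k:ℚ))) := by
    rintro R ⟨hR, M, hM⟩
    refine ⟨R / k, ⟨by positivity, M / k ^ 2, ?_⟩, by field_simp⟩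
    rw [div_pow, hM]
    field_simp
  exact Set.Infinite.of_image _ (h3.mono h4)

end Pool.Agent.X229.TriCore
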