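import Pool.Agent.X229.TriCore

/-!
Helper file for `MP_ebd346_nt` : triangles with a prescribed base/height ratio.
-/

namespace Pool.Agent.X229.TriMain

open Pool.Agent.X229.TriCore

/-- coordinate form: vertices `(0,0)`, `(s,0)`, `(x,h)` -/
def CTri (s b c : ℕ) (h : ℝ) : Prop :=
  0 < s ∧ 0 < b ∧ 0 < c ∧ 0 < h ∧
    ∃ x : ℝ, x ^ 2 + h ^ 2 = (b : ℝ) ^ 2 ∧ ((s : ℝ) - x) ^ 2 + h ^ 2 = (c : ℝ) ^ 2

theorem S1_of_param {κ t w : ℚ} (hκ : κ = (t ^ 2 - 1) / (2 * t) + (w ^ 2 - 1) / (2 * w))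
    (ht : 0 < t) (hw : 0 < w) (hns : ∀ q : ℚ, q ^ 2 ≠ κ ^ 2 + 4) : (S1 κ).Nonempty := by
  have htw : t ≠ w := by
    rintro rfl
    apply hns ((t ^ 2 + 1) / t)
    rw [hκ]
    field_simp
    ring
  have h1 : t - w ≠ 0 := sub_ne_zero.mpr htw
  refine ⟨(t * w + 1) / (t - w), ?_, (t ^ 2 * (w ^ 2 + 1) ^ 2 + w ^ 2 * (t ^ 2 + 1) ^ 2) /
    (2 * t * w * (t - w) ^ 2), ?_⟩
  · apply div_ne_zero _ h1
    positivity
  · rw [hκ]
    field_simp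
    ring

theorem pos_param {u V : ℚ} (hV : 0 < V) (h : u ^ 2 + 1 = V ^ 2) :
    0 < u + V ∧ u = ((u + V) ^ 2 - 1) / (2 * (u + V)) := by
  have h1 : |u| < V := by
    apply abs_lt_of_sq_lt_sq _ hV.le
    linarith
  have h2 := neg_abs_le u
  have h3 : 0 < u + V := by linarith
  refine ⟨h3, ?_⟩
  field_simp
  linear_combination h

theorem S1_of_tri {κ : ℚ} (hκ : 0 < κ) (hns : ∀ q : ℚ, q ^ 2 ≠ κ ^ 2 + 4) {s b c : ℕ} {h : ℝ}
    (hT : CTri s b c h) (hr : (s : ℝ) = κ * h) : (S1 κ).Nonempty := by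
  obtain ⟨hs, hb, hc, hh, x, hx1, hx2⟩ := hT
  have hs' : (0:ℚ) < s := by exact_mod_cast hs
  have hb' : (0:ℚ) < b := by exact_mod_cast hb
  have hc' : (0:ℚ) < c := by exact_mod_cast hc
  have hsR : (0:ℝ) < s := by exact_mod_cast hs
  have hκR : (0:ℝ) < (κ:ℝ) := by exact_mod_cast hκ
  obtain ⟨hq, hhq⟩ : ∃ hq : ℚ, h = (hq : ℝ) := by
    refine ⟨s / κ, ?_⟩
    push_cast
    rw [hr]
    field_simp
  obtain ⟨xq, hxq⟩ : ∃ xq : ℚ, x = (xq : ℝ) := by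
    refine ⟨((b:ℚ) ^ 2 - (c:ℚ) ^ 2 + (s:ℚ) ^ 2) / (2 * s), ?_⟩
    push_cast
    rw [eq_div_iff (by positivity)]
    linear_combination hx1 - hx2
  subst hhq hxq
  have hq0 : 0 < hq := by exact_mod_cast hh
  have e1 : xq ^ 2 + hq ^ 2 = (b:ℚ) ^ 2 := by exact_mod_cast hx1
  have e2 : ((s:ℚ) - xq) ^ 2 + hq ^ 2 = (c:ℚ) ^ 2 := by exact_mod_cast hx2
  have e3 : (s:ℚ) = κ * hq := by exact_mod_cast hr
  have f1 : (xq / hq) ^ 2 + 1 = ((b:ℚ) / hq) ^ 2 := by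
    field_simp
    linarith
  have f2 : (κ - xq / hq) ^ 2 + 1 = ((c:ℚ) / hq) ^ 2 := by
    have : κ = s / hq := by rw [e3]; field_simp
    rw [this]
    field_simp
    linarith
  obtain ⟨g1, g2⟩ := pos_param (by positivity) f1
  obtain ⟨g3, g4⟩ := pos_param (by positivity) f2
  refine S1_of_param (t := xq / hq + b / hq) (w := κ - xq / hq + c / hq) ?_ g1 g3 hns
  rw [← g2, ← g4]
  ring

/-- scaling to coprime natural numbers -/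
theorem scale {κ V W : ℚ} (hκ : 0 < κ) (hV : 0 < V) (hW : 0 < W) :
    ∃ (l : ℚ) (s b c : ℕ), 0 < l ∧ 0 < s ∧ 0 < b ∧ 0 < c ∧ Nat.gcd s (Nat.gcd b c) = 1 ∧
      (s:ℚ) = κ * l ∧ (b:ℚ) = V * l ∧ (c:ℚ) = W * l := by
  have nat_of : ∀ q : ℚ, 0 < q → ∃ n d : ℕ, 0 < n ∧ 0 < d ∧ q = n / d := by
    intro q hq
    refine ⟨q.num.toNat, q.den, ?_, q.den_pos, ?_⟩
    · have := Rat.num_pos.mpr hq
      omega
    · have h1 := Rat.num_pos.mpr hq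
      have h2 : ((q.num.toNat : ℤ) : ℚ) = (q.num : ℚ) := by
        rw [Int.toNat_of_nonneg h1.le]
      rw [show ((q.num.toNat : ℕ) : ℚ) = ((q.num.toNat : ℤ) : ℚ) by norm_cast, h2]
      exact (Rat.num_div_den q).symm
  obtain ⟨n1, d1, hn1, hd1, rfl⟩ := nat_of κ hκ
  obtain ⟨n2, d2, hn2, hd2, rfl⟩ := nat_of V hV
  obtain ⟨n3, d3, hn3, hd3, rfl⟩ := nat_of W hW
  set g := Nat.gcd (n1 * d2 * d3) (Nat.gcd (n2 * d1 * d3) (n3 * d1 * d2)) with hg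
  have hgpos : 0 < g := Nat.gcd_pos_of_pos_left _ (by positivity)
  obtain ⟨s, hs⟩ : g ∣ n1 * d2 * d3 := Nat.gcd_dvd_left _ _
  obtain ⟨b, hb⟩ : g ∣ n2 * d1 * d3 := (Nat.gcd_dvd_right _ _).trans (Nat.gcd_dvd_left _ _)
  obtain ⟨c, hc⟩ : g ∣ n3 * d1 * d2 := (Nat.gcd_dvd_right _ _).trans (Nat.gcd_dvd_right _ _)
  have hgq : (0:ℚ) < g := by exact_mod_cast hgpos
  have q1 : (0:ℚ) < d1 := by exact_mod_cast hd1
  have q2 : (0:ℚ) < d2 := by exact_mod_cast hd2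
  have q3 : (0:ℚ) < d3 := by exact_mod_cast hd3
  refine ⟨(d1 * d2 * d3 : ℚ) / g, s, b, c, by positivity, ?_, ?_, ?_, ?_, ?_, ?_, ?_⟩
  · rcases Nat.eq_zero_or_pos s with h | h
    · rw [h, mul_zero] at hs
      have : 0 < n1 * d2 * d3 := by positivity
      omega
    · exact h
  · rcases Nat.eq_zero_or_pos b with h | h
    · rw [h, mul_zero] at hb
      have : 0 < n2 * d1 * d3 := by positivity
      omega
    · exact h
  · rcases Nat.eq_zero_or_pos c with h | h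
    · rw [h, mul_zero] at hc
      have : 0 < n3 * d1 * d2 := by positivity
      omega
    · exact h
  · have : g * Nat.gcd s (Nat.gcd b c) = g * 1 := by
      rw [← Nat.gcd_mul_left, ← Nat.gcd_mul_left, ← hs, ← hb, ← hc, mul_one]
    exact Nat.eq_of_mul_eq_mul_left hgpos this
  · have : ((n1 * d2 * d3 : ℕ) : ℚ) = ((g * s : ℕ) : ℚ) := by rw [hs]
    push_cast at this
    field_simp
    linarith
  · have : ((n2 * d1 * d3 : ℕ) : ℚ) = ((g * b : ℕ) : ℚ) := by rw [hb]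
    push_cast at this
    field_simp
    linarith
  · have : ((n3 * d1 * d2 : ℕ) : ℚ) = ((g * c : ℕ) : ℚ) := by rw [hc]
    push_cast at this
    field_simp
    linarith

theorem tri_of_S1 {κ : ℚ} (hκ : 0 < κ) {r : ℚ} (hr : r ∈ S1 κ) :
    ∃ (s b c : ℕ) (h : ℝ), CTri s b c h ∧ Nat.gcd s (Nat.gcd b c) = 1 ∧ (s:ℝ) = κ * h ∧
      ((r ^ 2 + 1) ^ 2 + κ ^ 2 * r ^ 2) * (r ^ 2 - 1) ^ 2
        = (κ * (((c:ℚ) / s) ^ 2 - ((b:ℚ) / s) ^ 2)) ^ 2 * r ^ 2 * (r ^ 2 + 1) ^ 2 := by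
  obtain ⟨hr0, m, hm⟩ := hr
  have hr1 : r ^ 2 + 1 ≠ 0 := by positivity
  have hmm : κ ^ 2 * r ^ 2 - m ^ 2 = -(r ^ 2 + 1) ^ 2 := by rw [hm]; ring
  set t : ℚ := r * (κ * r - m) / (r ^ 2 + 1) with ht
  set w : ℚ := r * (κ * r + m) / (r ^ 2 + 1) with hw
  have htw : t * w = -r ^ 2 := by
    rw [ht, hw]
    field_simp
    linear_combination hmm
  have hsum : (t + w) * (r ^ 2 + 1) = 2 * κ * r ^ 2 := by
    rw [ht, hw]
    field_simp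
    ring
  have hdiff : (w - t) * (r ^ 2 + 1) = 2 * r * m := by
    rw [ht, hw]
    field_simp
    ring
  clear_value t w
  obtain ⟨u, hu⟩ : ∃ u : ℚ, u = (r ^ 2 * t + w) / (2 * r ^ 2) := ⟨_, rfl⟩
  obtain ⟨v1, hv1⟩ : ∃ v : ℚ, v = (r ^ 2 * t - w) / (2 * r ^ 2) := ⟨_, rfl⟩
  obtain ⟨w1, hw1⟩ : ∃ v : ℚ, v = (r ^ 2 * w - t) / (2 * r ^ 2) := ⟨_, rfl⟩
  have hκu : κ - u = (r ^ 2 * w + t) / (2 * r ^ 2) := by
    rw [hu]
    field_simp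
    linear_combination (-1) * hsum
  have huv : u ^ 2 + 1 = v1 ^ 2 := by
    rw [hu, hv1]
    field_simp
    linear_combination 4 * r ^ 2 * htw
  have huw : (κ - u) ^ 2 + 1 = w1 ^ 2 := by
    rw [hκu, hw1]
    field_simp
    linear_combination 4 * r ^ 2 * htw
  have hd : (κ - 2 * u) * (r * (r ^ 2 + 1)) = m * (r ^ 2 - 1) := by
    have h1 : κ - 2 * u = (κ - u) - u := by ring
    rw [h1, hκu, hu]
    field_simp
    linear_combination (r ^ 2 - 1) * hdiff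
  have hV : 0 < |v1| := by
    apply abs_pos.mpr
    rintro rfl
    nlinarith [sq_nonneg u]
  have hW : 0 < |w1| := by
    apply abs_pos.mpr
    rintro rfl
    nlinarith [sq_nonneg (κ - u)]
  obtain ⟨l, s, b, c, hl, hs, hb, hc, hg, es, eb, ec⟩ := scale hκ hV hW
  have hlR : (0:ℝ) < (l:ℝ) := by exact_mod_cast hl
  refine ⟨s, b, c, (l:ℝ), ⟨hs, hb, hc, hlR, ((u * l : ℚ) : ℝ), ?_, ?_⟩, hg, ?_, ?_⟩
  · have : (u * l) ^ 2 + l ^ 2 = (b:ℚ) ^ 2 := by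
      rw [eb, mul_pow |v1|, sq_abs, ← huv]; ring
    exact_mod_cast this
  · have : ((s:ℚ) - u * l) ^ 2 + l ^ 2 = (c:ℚ) ^ 2 := by
      rw [ec, es, mul_pow |w1|, sq_abs, ← huw]; ring
    exact_mod_cast this
  · exact_mod_cast es
  · have h1 : κ * (((c:ℚ) / s) ^ 2 - ((b:ℚ) / s) ^ 2) = κ - 2 * u := by
      rw [es, eb, ec, div_pow, div_pow, mul_pow |w1|, mul_pow |v1|, sq_abs, sq_abs, ← huv, ← huw]
      field_simp
      ring
    rw [h1, ← hm]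
    linear_combination (-1) * ((κ - 2 * u) * (r * (r ^ 2 + 1)) + m * (r ^ 2 - 1)) * hd

/-- for fixed `κ` and `d`, only finitely many `r` -/
theorem fibre_finite (κ d : ℚ) : {r : ℚ | ((r ^ 2 + 1) ^ 2 + κ ^ 2 * r ^ 2) * (r ^ 2 - 1) ^ 2
    = d ^ 2 * r ^ 2 * (r ^ 2 + 1) ^ 2}.Finite := by
  open Polynomial in
  set P : ℚ[X] := ((X ^ 2 + 1) ^ 2 + C (κ ^ 2) * X ^ 2) * (X ^ 2 - 1) ^ 2
    - C (d ^ 2) * X ^ 2 * (X ^ 2 + 1) ^ 2 with hP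
  have hP0 : P ≠ 0 := by
    intro h
    have h1 : P.eval 0 = 0 := by rw [h]; simp
    rw [hP] at h1
    norm_num at h1
  apply Set.Finite.subset (P.roots.toFinset.finite_toSet)
  intro r hr
  rw [Set.mem_ofPred_eq] at hr
  simp only [Finset.mem_coe, Multiset.mem_toFinset, Polynomial.mem_roots hP0, Polynomial.IsRoot.def]
  rw [hP]
  simp only [Polynomial.eval_sub, Polynomial.eval_mul, Polynomial.eval_add, Polynomial.eval_pow,
    Polynomial.eval_X, Polynomial.eval_C, Polynomial.eval_one]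
  linarith

theorem triangles_infinite {κ : ℚ} (hκ : 0 < κ) (hS : (S1 κ).Infinite) :
    {T : Multiset ℕ | ∃ (s b c : ℕ) (h : ℝ), T = {s, b, c} ∧ Nat.gcd s (Nat.gcd b c) = 1 ∧
      CTri s b c h ∧ (s:ℝ) = κ * h}.Infinite := by
  intro hfin
  apply hS
  set 𝒯 := {T : Multiset ℕ | ∃ (s b c : ℕ) (h : ℝ), T = {s, b, c} ∧ Nat.gcd s (Nat.gcd b c) = 1 ∧
      CTri s b c h ∧ (s:ℝ) = κ * h} with h𝒯
  have h1 : {p : ℕ × ℕ × ℕ | ({p.1, p.2.1, p.2.2} : Multiset ℕ) ∈ 𝒯}.Finite := by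
    have h2 : (⋃ T ∈ 𝒯, ((T.toFinset ×ˢ T.toFinset ×ˢ T.toFinset : Finset (ℕ × ℕ × ℕ)) :
        Set (ℕ × ℕ × ℕ))).Finite := by
      apply Set.Finite.biUnion hfin
      intro T _
      exact Finset.finite_toSet _
    apply h2.subset
    rintro ⟨s, b, c⟩ hp
    rw [Set.mem_ofPred_eq] at hp
    simp only [Set.mem_iUnion]
    refine ⟨_, hp, ?_⟩
    simp
  have h3 : (⋃ p ∈ {p : ℕ × ℕ × ℕ | ({p.1, p.2.1, p.2.2} : Multiset ℕ) ∈ 𝒯},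
      {r : ℚ | ((r ^ 2 + 1) ^ 2 + κ ^ 2 * r ^ 2) * (r ^ 2 - 1) ^ 2
    = (κ * (((p.2.2:ℚ) / p.1) ^ 2 - ((p.2.1:ℚ) / p.1) ^ 2)) ^ 2 * r ^ 2 * (r ^ 2 + 1) ^ 2}).Finite := by
    apply Set.Finite.biUnion h1
    intro p _
    exact fibre_finite _ _
  apply h3.subset
  intro r hr
  obtain ⟨s, b, c, h, hT, hg, hs, he⟩ := tri_of_S1 hκ hr
  simp only [Set.mem_iUnion]
  exact ⟨(s, b, c), ⟨s, b, c, h, rfl, hg, hT, hs⟩, he⟩

theorem main_bh {k : ℕ} (hk : 0 < k) {s b c : ℕ} {h : ℝ} (hT : CTri s b c h)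
    (hr : (s:ℝ) / h = k) :
    {T : Multiset ℕ | ∃ (s b c : ℕ) (h : ℝ), T = {s, b, c} ∧ Nat.gcd s (Nat.gcd b c) = 1 ∧
      CTri s b c h ∧ (s:ℝ) / h = k}.Infinite := by
  have hk' : (0:ℚ) < k := by exact_mod_cast hk
  have hns : ∀ q : ℚ, q ^ 2 ≠ ((k : ℤ) : ℚ) ^ 2 + 4 := by
    intro q hq
    have h5 : q ^ 2 = (((k:ℤ) ^ 2 + 4 : ℤ) : ℚ) := by rw [hq]; push_cast; ring
    obtain ⟨z, hz⟩ := rat_sq_int h5
    rw [hz] at h5
    exact not_sq1 (k := k) (by exact_mod_cast hk) (by exact_mod_cast h5)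
  have hs : (s:ℝ) = (((k:ℤ):ℚ):ℝ) * h := by
    have := hT.2.2.2.1
    rw [div_eq_iff this.ne'] at hr
    rw [hr]
    push_cast
    ring
  have h1 := S1_infinite (k := k) (by exact_mod_cast hk) (S1_of_tri (by exact_mod_cast hk) hns hT hs)
  have h2 := triangles_infinite (by exact_mod_cast hk) h1
  apply h2.mono
  rintro T ⟨s, b, c, h, hT', hg, hC, he⟩
  refine ⟨s, b, c, h, hT', hg, hC, ?_⟩
  have := hC.2.2.2.1
  rw [div_eq_iff this.ne', he]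
  push_cast
  ring

theorem main_hb {k : ℕ} (hk : 0 < k) {s b c : ℕ} {h : ℝ} (hT : CTri s b c h)
    (hr : h / (s:ℝ) = k) :
    {T : Multiset ℕ | ∃ (s b c : ℕ) (h : ℝ), T = {s, b, c} ∧ Nat.gcd s (Nat.gcd b c) = 1 ∧
      CTri s b c h ∧ h / (s:ℝ) = k}.Infinite := by
  have hk' : (0:ℚ) < ((k:ℤ):ℚ) := by exact_mod_cast hk
  have hkR : (0:ℝ) < (k:ℝ) := by exact_mod_cast hk
  have hns : ∀ q : ℚ, q ^ 2 ≠ (1 / ((k : ℤ) : ℚ)) ^ 2 + 4 := by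
    intro q hq
    have h5 : (q * k) ^ 2 = ((4 * (k:ℤ) ^ 2 + 1 : ℤ) : ℚ) := by
      rw [mul_pow, hq]; push_cast; field_simp; ring
    obtain ⟨z, hz⟩ := rat_sq_int h5
    rw [hz] at h5
    exact not_sq2 (k := k) (by exact_mod_cast hk) (by exact_mod_cast h5)
  have hs : (s:ℝ) = ((1 / ((k:ℤ):ℚ) : ℚ):ℝ) * h := by
    have := hT.1
    have hsR : (0:ℝ) < s := by exact_mod_cast this
    rw [div_eq_iff hsR.ne'] at hr
    rw [hr]
    push_cast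
    field_simp
  have h1 := S1_inv_infinite (k := k) (by exact_mod_cast hk) (S1_of_tri (by positivity) hns hT hs)
  have h2 := triangles_infinite (by positivity) h1
  apply h2.mono
  rintro T ⟨s, b, c, h, hT', hg, hC, he⟩
  refine ⟨s, b, c, h, hT', hg, hC, ?_⟩
  have := hC.1
  have hsR : (0:ℝ) < s := by exact_mod_cast this
  rw [div_eq_iff hsR.ne', he]
  push_cast
  field_simp

end Pool.Agent.X229.TriMain
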