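import Mathlib

/-!
Helper file for `MP_1ed635_nt` : `n² = 9a⁴ - 506a²b² + b⁴` has no solution with `ab ≠ 0`.
-/

namespace Pool.Agent.X229.WrDescent

theorem sq_of_cop {p q c : ℤ} (hp : 0 < p) (hcop : IsCoprime p q) (h : p * q = c ^ 2) :
    ∃ m : ℤ, 0 < m ∧ p = m ^ 2 := by
  obtain ⟨a0, h1 | h1⟩ := Int.sq_of_isCoprime hcop h
  · refine ⟨|a0|, abs_pos.mpr ?_, by rw [sq_abs]; exact h1⟩
    rintro rfl
    simp at h1
    omega
  · exfalso
    nlinarith [sq_nonneg a0]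

theorem sq_split {ℓ p q c : ℤ} (hℓ : Prime ℓ) (hℓ0 : 0 < ℓ) (hp : 0 < p) (hq : 0 < q) (hc : 0 < c)
    (hcop : IsCoprime p q) (h : p * q = ℓ * c ^ 2) :
    ∃ m l : ℤ, 0 < m ∧ 0 < l ∧ m * l = c ∧
      ((p = ℓ * m ^ 2 ∧ q = l ^ 2) ∨ (p = l ^ 2 ∧ q = ℓ * m ^ 2)) := by
  have key : ∀ p q : ℤ, 0 < p → 0 < q → IsCoprime p q → p * q = ℓ * c ^ 2 → ℓ ∣ p →
      ∃ m l : ℤ, 0 < m ∧ 0 < l ∧ m * l = c ∧ p = ℓ * m ^ 2 ∧ q = l ^ 2 := by
    rintro p q hp hq hcop h ⟨p', rfl⟩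
    have hp' : 0 < p' := by
      by_contra h0
      have : ℓ * p' ≤ 0 := mul_nonpos_of_nonneg_of_nonpos hℓ0.le (by omega)
      omega
    have h1 : p' * q = c ^ 2 := by
      apply mul_left_cancel₀ hℓ0.ne'
      linear_combination h
    have hcop' : IsCoprime p' q := IsCoprime.of_mul_left_right hcop
    obtain ⟨m, hm, hm'⟩ := sq_of_cop hp' hcop' h1
    obtain ⟨l, hl, hl'⟩ := sq_of_cop hq hcop'.symm (by rw [mul_comm]; exact h1)
    refine ⟨m, l, hm, hl, ?_, by rw [hm'], hl'⟩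
    have h2 : (m * l) ^ 2 = c ^ 2 := by rw [mul_pow, ← hm', ← hl', h1]
    have h3 : 0 < m * l := mul_pos hm hl
    rcases sq_eq_sq_iff_eq_or_eq_neg.mp h2 with h4 | h4
    · exact h4
    · omega
  have hd : ℓ ∣ p * q := ⟨c ^ 2, h⟩
  rcases hℓ.dvd_or_dvd hd with h1 | h1
  · obtain ⟨m, l, a1, a2, a3, a4, a5⟩ := key p q hp hq hcop h h1
    exact ⟨m, l, a1, a2, a3, Or.inl ⟨a4, a5⟩⟩
  · obtain ⟨m, l, a1, a2, a3, a4, a5⟩ := key q p hq hp hcop.symm (by rw [mul_comm]; exact h) h1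
    exact ⟨m, l, a1, a2, a3, Or.inr ⟨a5, a4⟩⟩

theorem four {a b c d : ℤ} (ha : 0 < a) (hb : 0 < b) (hc : 0 < c) (hd : 0 < d)
    (h : a * b = c * d) :
    ∃ α β γ δ : ℤ, 0 < α ∧ 0 < β ∧ 0 < γ ∧ 0 < δ ∧ a = α * β ∧ b = γ * δ ∧ c = α * γ ∧
      d = β * δ := by
  lift a to ℕ using ha.le
  lift b to ℕ using hb.le
  lift c to ℕ using hc.le
  lift d to ℕ using hd.le
  norm_cast at ha hb hc hd h
  obtain ⟨α, β, ⟨γ, rfl⟩, ⟨δ, rfl⟩, rfl⟩ := exists_dvd_and_dvd_of_dvd_mul (Dvd.intro b h)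
  have h1 : 0 < α := Nat.pos_of_ne_zero (by rintro rfl; simp at ha)
  have h2 : 0 < β := Nat.pos_of_ne_zero (by rintro rfl; simp at ha)
  have h3 : 0 < γ := Nat.pos_of_ne_zero (by rintro rfl; simp at hc)
  have h4 : 0 < δ := Nat.pos_of_ne_zero (by rintro rfl; simp at hd)
  have hb' : b = γ * δ := by
    apply Nat.eq_of_mul_eq_mul_left (Nat.mul_pos h1 h2)
    rw [h]; ring
  subst hb'
  exact ⟨α, β, γ, δ, by exact_mod_cast h1, by exact_mod_cast h2, by exact_mod_cast h3,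
    by exact_mod_cast h4, by push_cast; rfl, by push_cast; rfl, by push_cast; rfl,
    by push_cast; rfl⟩

theorem cop_of_sum {p q : ℤ} (h : IsCoprime (p + q) (p * q)) : IsCoprime p q := by
  have h1 : IsCoprime (p + q) p := IsCoprime.of_mul_right_left h
  have h2 : IsCoprime (q + p * 1) p := by rw [mul_one, add_comm]; exact h1
  exact (IsCoprime.of_add_mul_left_left h2).symm

theorem sqo (x : ℤ) (h : x % 2 = 1) : x ^ 2 % 8 = 1 := by
  have : x % 8 = 1 ∨ x % 8 = 3 ∨ x % 8 = 5 ∨ x % 8 = 7 := by omega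
  rcases this with h | h | h | h <;> simp [pow_two, Int.mul_emod, h]

theorem sqe (x : ℤ) (h : x % 2 = 0) : x ^ 2 % 4 = 0 := by
  have : x % 4 = 0 ∨ x % 4 = 2 := by omega
  rcases this with h | h <;> simp [pow_two, Int.mul_emod, h]

theorem dvd_of_sq_dvd {ℓ : ℕ} (hℓ : ℓ.Prime) {x : ℤ} (h : ((ℓ:ℤ)) ^ 2 ∣ 3 * x ^ 2) : (ℓ:ℤ) ∣ x := by
  have hp : Prime (ℓ:ℤ) := Nat.prime_iff_prime_int.mp hℓ
  by_contra hx
  have hc : IsCoprime (ℓ:ℤ) x := (Prime.coprime_iff_not_dvd hp).mpr hx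
  have hc2 : IsCoprime ((ℓ:ℤ) ^ 2) (x ^ 2) := hc.pow
  have h3 : (ℓ:ℤ) ^ 2 ∣ 3 := hc2.dvd_of_dvd_mul_right h
  have h4 := Int.le_of_dvd (by norm_num) h3
  have h5 : 2 ≤ (ℓ:ℤ) := by exact_mod_cast hℓ.two_le
  nlinarith

theorem cop3 {p q x : ℤ} (h : p * q = 3 * x ^ 2) (hc : IsCoprime (q - p) x) : IsCoprime p q := by
  by_contra hn
  rw [Int.isCoprime_iff_gcd_eq_one] at hn
  obtain ⟨ℓ, hℓ, h1, h2⟩ := Nat.Prime.not_coprime_iff_dvd.mp hn
  have h1' : (ℓ:ℤ) ∣ p := Int.natCast_dvd.mpr h1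
  have h2' : (ℓ:ℤ) ∣ q := Int.natCast_dvd.mpr h2
  have h3 : (ℓ:ℤ) ^ 2 ∣ 3 * x ^ 2 := by
    rw [← h, pow_two]
    exact mul_dvd_mul h1' h2'
  have h4 := dvd_of_sq_dvd hℓ h3
  have h5 : (ℓ:ℤ) ∣ q - p := dvd_sub h2' h1'
  have h6 := hc.isUnit_of_dvd' h5 h4
  have h7 := Int.isUnit_iff.mp h6
  have h8 : 2 ≤ (ℓ:ℤ) := by exact_mod_cast hℓ.two_le
  omega

theorem p3 : Prime (3:ℤ) := Int.prime_three
theorem p2 : Prime (2:ℤ) := Int.prime_two
theorem p5 : Prime (5:ℤ) := Nat.prime_iff_prime_int.mp (by norm_num)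

/-- final step: from the system to a new solution -/
theorem last_step {A B C D k : ℤ} (hA : 0 < A) (hB : 0 < B) (hC : 0 < C)
    (hk : k = 1 ∨ k = 4) (h1 : B ^ 2 + 3 * C ^ 2 = k * A ^ 2) (h2 : B ^ 2 - 125 * C ^ 2 = k * D ^ 2)
    (hBC : IsCoprime B C) (hAD : IsCoprime A D) :
    ∃ m l n : ℤ, 0 < m ∧ 0 < l ∧ m * l ≤ C ∧ IsCoprime m l ∧
      n ^ 2 = 9 * m ^ 4 - 506 * m ^ 2 * l ^ 2 + l ^ 4 := by
  have nobb : ∀ x y : ℤ, IsCoprime x y → x % 2 = 0 → y % 2 = 0 → False := by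
    intro x y hc hx hy
    have := hc.isUnit_of_dvd' (Int.dvd_of_emod_eq_zero hx) (Int.dvd_of_emod_eq_zero hy)
    have := Int.isUnit_iff.mp this
    omega
  have fin : ∀ m l : ℤ, IsCoprime (3 * m ^ 2) (l ^ 2) → IsCoprime m l := by
    intro m l h
    have h1 := IsCoprime.of_mul_left_right h
    exact (IsCoprime.pow_iff (by norm_num) (by norm_num)).mp h1
  rcases hk with rfl | rfl
  · -- `k = 1`
    have hCe : C % 2 = 0 := by
      by_contra hCo
      have hCo' : C % 2 = 1 := by omega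
      have c8 := sqo C hCo'
      rcases Int.emod_two_eq_zero_or_one B with hBe | hBo
      · have b4 := sqe B hBe
        rcases Int.emod_two_eq_zero_or_one A with hAe | hAo
        · have := sqe A hAe; omega
        · have := sqo A hAo; omega
      · have b8 := sqo B hBo
        rcases Int.emod_two_eq_zero_or_one A with hAe | hAo
        · rcases Int.emod_two_eq_zero_or_one D with hDe | hDo
          · exact nobb A D hAD hAe hDe
          · have := sqo D hDo; omega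
        · have := sqo A hAo; omega
    have hBo : B % 2 = 1 := by
      rcases Int.emod_two_eq_zero_or_one B with hBe | hBo
      · exact absurd (nobb B C hBC hBe hCe) id
      · exact hBo
    have hAo : A % 2 = 1 := by
      rcases Int.emod_two_eq_zero_or_one A with hAe | hAo
      · have := sqe A hAe; have := sqo B hBo; have := sqe C hCe; omega
      · exact hAo
    obtain ⟨C1, hC1⟩ : ∃ C1, C = 2 * C1 := ⟨C / 2, by omega⟩
    obtain ⟨p, hp⟩ : ∃ p, A - B = 2 * p := ⟨(A - B) / 2, by omega⟩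
    obtain ⟨q, hq⟩ : ∃ q, A + B = 2 * q := ⟨(A + B) / 2, by omega⟩
    have hAB : B < A := by
      apply lt_of_pow_lt_pow_left₀ 2 hA.le
      nlinarith [pow_pos hC 2]
    have hA' : A = p + q := by omega
    have hB' : B = q - p := by omega
    have hpq : p * q = 3 * C1 ^ 2 := by
      have : 4 * (p * q) = 4 * (3 * C1 ^ 2) := by
        calc 4 * (p * q) = (2 * p) * (2 * q) := by ring
          _ = A ^ 2 - B ^ 2 := by rw [← hp, ← hq]; ring
          _ = 3 * C ^ 2 := by linarith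
          _ = _ := by rw [hC1]; ring
      linarith
    have hcop : IsCoprime p q := by
      apply cop3 hpq
      rw [← hB']
      rw [hC1] at hBC
      exact IsCoprime.of_mul_right_right hBC
    obtain ⟨m, l, hm, hl, hml, hs⟩ := sq_split p3 (by norm_num) (by omega) (by omega)
      (by omega : 0 < C1) hcop hpq
    have hBsq : B ^ 2 = (l ^ 2 - 3 * m ^ 2) ^ 2 := by
      rcases hs with ⟨e1, e2⟩ | ⟨e1, e2⟩ <;> rw [hB', e1, e2] <;> ring
    have hcm : IsCoprime m l := by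
      rcases hs with ⟨e1, e2⟩ | ⟨e1, e2⟩
      · rw [e1, e2] at hcop; exact fin m l hcop
      · rw [e1, e2] at hcop; exact fin m l hcop.symm
    refine ⟨m, l, D, hm, hl, by omega, hcm, ?_⟩
    have : D ^ 2 = B ^ 2 - 125 * C ^ 2 := by linarith
    rw [this, hBsq, hC1, ← hml]
    ring
  · -- `k = 4`
    have hpar : B % 2 = 1 ∧ C % 2 = 1 := by
      rcases Int.emod_two_eq_zero_or_one B with hBe | hBo
      · rcases Int.emod_two_eq_zero_or_one C with hCe | hCo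
        · exact absurd (nobb B C hBC hBe hCe) id
        · have := sqe B hBe; have := sqo C hCo; omega
      · rcases Int.emod_two_eq_zero_or_one C with hCe | hCo
        · have := sqo B hBo; have := sqe C hCe; omega
        · exact ⟨hBo, hCo⟩
    obtain ⟨hBo, hCo⟩ := hpar
    have hpq : (2 * A - B) * (2 * A + B) = 3 * C ^ 2 := by linear_combination (-1) * h1
    have hAB : B < 2 * A := by
      apply lt_of_pow_lt_pow_left₀ 2 (by omega)
      nlinarith [pow_pos hC 2]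
    have hcop : IsCoprime (2 * A - B) (2 * A + B) := by
      apply cop3 hpq
      have h3 : 2 * A + B - (2 * A - B) = 2 * B := by ring
      rw [h3]
      apply IsCoprime.mul_left _ hBC
      exact ⟨-(C / 2), 1, by omega⟩
    obtain ⟨m, l, hm, hl, hml, hs⟩ := sq_split p3 (by norm_num) (by omega) (by omega)
      hC hcop hpq
    have hBsq : 4 * B ^ 2 = (l ^ 2 - 3 * m ^ 2) ^ 2 := by
      have h4 : 2 * B = (2 * A + B) - (2 * A - B) := by ring
      calc 4 * B ^ 2 = (2 * B) ^ 2 := by ring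
        _ = ((2 * A + B) - (2 * A - B)) ^ 2 := by rw [h4]
        _ = _ := by rcases hs with ⟨e1, e2⟩ | ⟨e1, e2⟩ <;> rw [e1, e2] <;> ring
    have hcm : IsCoprime m l := by
      rcases hs with ⟨e1, e2⟩ | ⟨e1, e2⟩
      · rw [e1, e2] at hcop; exact fin m l hcop
      · rw [e1, e2] at hcop; exact fin m l hcop.symm
    refine ⟨m, l, 4 * D, hm, hl, by omega, hcm, ?_⟩
    have : (4 * D) ^ 2 = 4 * B ^ 2 - 500 * C ^ 2 := by linarith
    rw [this, hBsq, ← hml]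
    ring

theorem split3 {r s Δ Y : ℤ} (hr : 0 < r) (hs : 0 < s) (hΔ : 0 < Δ) (hY : 0 < Y)
    (hYc : IsCoprime Y (r * s)) (h : Δ ^ 2 - Y ^ 2 = 12 * (r * s) ^ 2) :
    ∃ A B C D : ℤ, 0 < A ∧ 0 < B ∧ 0 < C ∧ 0 < D ∧ r = A * C ∧ s = B * D ∧
      (Y = (A * B) ^ 2 - 3 * (C * D) ^ 2 ∨ Y = 3 * (C * D) ^ 2 - (A * B) ^ 2) := by
  have hrs : 0 < r * s := mul_pos hr hs
  have hlt : Y < Δ := by
    apply lt_of_pow_lt_pow_left₀ 2 hΔ.le
    nlinarith [pow_pos hrs 2]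
  have hpar : Δ % 2 = Y % 2 := by
    rcases Int.emod_two_eq_zero_or_one Δ with h1 | h1 <;>
      rcases Int.emod_two_eq_zero_or_one Y with h2 | h2
    · omega
    · have := sqe Δ h1; have := sqo Y h2; omega
    · have := sqo Δ h1; have := sqe Y h2; omega
    · omega
  obtain ⟨q, hq⟩ : ∃ q, Δ - Y = 2 * q := ⟨(Δ - Y) / 2, by omega⟩
  obtain ⟨p, hp⟩ : ∃ p, Δ + Y = 2 * p := ⟨(Δ + Y) / 2, by omega⟩
  have hY' : Y = p - q := by omega
  have hpq : q * p = 3 * (r * s) ^ 2 := by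
    have : 4 * (q * p) = 4 * (3 * (r * s) ^ 2) := by
      calc 4 * (q * p) = (2 * q) * (2 * p) := by ring
        _ = Δ ^ 2 - Y ^ 2 := by rw [← hp, ← hq]; ring
        _ = _ := by rw [h]; ring
    linarith
  have hcop : IsCoprime q p := by
    apply cop3 hpq
    rw [← hY']
    exact hYc
  obtain ⟨m, l, hm, hl, hml, hcase⟩ := sq_split p3 (by norm_num) (by omega) (by omega) hrs hcop hpq
  obtain ⟨A, B, C, D, hA, hB, hC, hD, e1, e2, e3, e4⟩ := four hl hm hr hs (by rw [mul_comm]; exact hml)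
  refine ⟨A, B, C, D, hA, hB, hC, hD, e3, e4, ?_⟩
  rcases hcase with ⟨f1, f2⟩ | ⟨f1, f2⟩
  · left
    rw [hY', f1, f2, e1, e2]
  · right
    rw [hY', f1, f2, e1, e2]

theorem mod5 {x y : ℤ} (hx : ¬ (5:ℤ) ∣ x) (h : (x ^ 2 - 3 * y ^ 2) % 5 = 0) : False := by
  have h1 : x % 5 = 0 ∨ x % 5 = 1 ∨ x % 5 = 2 ∨ x % 5 = 3 ∨ x % 5 = 4 := by omega
  have h2 : y % 5 = 0 ∨ y % 5 = 1 ∨ y % 5 = 2 ∨ y % 5 = 3 ∨ y % 5 = 4 := by omega
  rcases h1 with h1 | h1 | h1 | h1 | h1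
  · exact hx (Int.dvd_of_emod_eq_zero h1)
  all_goals
    rcases h2 with h2 | h2 | h2 | h2 | h2 <;>
      simp [pow_two, Int.sub_emod, Int.mul_emod, h1, h2] at h

theorem k128 {k : ℤ} (hk : 0 < k) (hd : k ∣ 128) :
    k = 1 ∨ k = 2 ∨ k = 4 ∨ k = 8 ∨ k = 16 ∨ k = 32 ∨ k = 64 ∨ k = 128 := by
  lift k to ℕ using hk.le
  have hd' : k ∣ 128 := by exact_mod_cast hd
  have : k ∈ Nat.divisors 128 := Nat.mem_divisors.mpr ⟨hd', by norm_num⟩
  have h2 : Nat.divisors 128 = {1, 2, 4, 8, 16, 32, 64, 128} := by decide +kernel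
  rw [h2] at this
  simp only [Finset.mem_insert, Finset.mem_singleton] at this
  omega

theorem sq5 (x : ℤ) (h : ¬ (5:ℤ) ∣ x) : x ^ 2 % 5 = 1 ∨ x ^ 2 % 5 = 4 := by
  have h1 : x % 5 = 0 ∨ x % 5 = 1 ∨ x % 5 = 2 ∨ x % 5 = 3 ∨ x % 5 = 4 := by omega
  rcases h1 with h1 | h1 | h1 | h1 | h1
  · exact absurd (Int.dvd_of_emod_eq_zero h1) h
  all_goals simp [pow_two, Int.mul_emod, h1]

theorem sq3 (x : ℤ) : x ^ 2 % 3 = 0 ∧ (3:ℤ) ∣ x ∨ x ^ 2 % 3 = 1 := by
  have h1 : x % 3 = 0 ∨ x % 3 = 1 ∨ x % 3 = 2 := by omega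
  rcases h1 with h1 | h1 | h1
  · left
    exact ⟨by simp [pow_two, Int.mul_emod, h1], Int.dvd_of_emod_eq_zero h1⟩
  all_goals right; simp [pow_two, Int.mul_emod, h1]

theorem dvd_of_cop {k B C N : ℤ} (hBC : IsCoprime B C) (h1 : k ∣ N * B ^ 2) (h2 : k ∣ N * C ^ 2) :
    k ∣ N := by
  obtain ⟨u, v, huv⟩ := hBC.pow (m := 2) (n := 2)
  have h3 : N = u * (N * B ^ 2) + v * (N * C ^ 2) := by linear_combination (-N) * huv
  rw [h3]
  exact dvd_add (h1.mul_left u) (h2.mul_left v)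

theorem mid5 {r s Δ : ℤ} (hr : 0 < r) (hs : 0 < s) (hcop : IsCoprime r s) (h5 : ¬ (5:ℤ) ∣ s)
    (hr5 : ¬ (5:ℤ) ∣ r) (h : Δ ^ 2 = 25 * s ^ 4 + 262 * r ^ 2 * s ^ 2 + 625 * r ^ 4) : False := by
  have hcs5 : IsCoprime s 5 := ((Prime.coprime_iff_not_dvd p5).mpr h5).symm
  have hcr5 : IsCoprime r 5 := ((Prime.coprime_iff_not_dvd p5).mpr hr5).symm
  have hΔ1 : 0 < |Δ| := by
    apply abs_pos.mpr
    rintro rfl
    have : 0 < s ^ 4 := by positivity
    have : 0 < r ^ 4 := by positivity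
    have : 0 ≤ r ^ 2 * s ^ 2 := by positivity
    nlinarith
  have hY : 0 < 5 * s ^ 2 + 25 * r ^ 2 := by positivity
  have hYc : IsCoprime (5 * s ^ 2 + 25 * r ^ 2) (r * s) := by
    apply IsCoprime.mul_right
    · have h3 : IsCoprime (5 * s ^ 2) r := hcr5.symm.mul_left hcop.symm.pow_left
      have h4 : 5 * s ^ 2 + 25 * r ^ 2 = 5 * s ^ 2 + r * (25 * r) := by ring
      rw [h4]
      exact h3.add_mul_left_left _
    · have h3 : IsCoprime (25 * r ^ 2) s := by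
        apply IsCoprime.mul_left
        · have : (25:ℤ) = 5 ^ 2 := by norm_num
          rw [this]
          exact hcs5.symm.pow_left
        · exact hcop.pow_left
      have h4 : 5 * s ^ 2 + 25 * r ^ 2 = 25 * r ^ 2 + s * (5 * s) := by ring
      rw [h4]
      exact h3.add_mul_left_left _
  have h2 : |Δ| ^ 2 - (5 * s ^ 2 + 25 * r ^ 2) ^ 2 = 12 * (r * s) ^ 2 := by
    rw [sq_abs, h]; ring
  obtain ⟨A, B, C, D, hA, hB, hC, hD, e1, e2, hcase⟩ := split3 hr hs hΔ1 hY hYc h2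
  have h5A : ¬ (5:ℤ) ∣ A := fun hd => hr5 (by rw [e1]; exact hd.mul_right C)
  have h5B : ¬ (5:ℤ) ∣ B := fun hd => h5 (by rw [e2]; exact hd.mul_right D)
  have h5AB : ¬ (5:ℤ) ∣ A * B := fun hd => (p5.dvd_or_dvd hd).elim h5A h5B
  have h6 : (5:ℤ) ∣ (A * B) ^ 2 - 3 * (C * D) ^ 2 := by
    rcases hcase with hc | hc
    · exact ⟨s ^ 2 + 5 * r ^ 2, by linear_combination (-1) * hc⟩
    · exact ⟨-(s ^ 2 + 5 * r ^ 2), by linear_combination hc⟩
  exact mod5 h5AB (Int.emod_eq_zero_of_dvd h6)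

theorem nobb {x y : ℤ} (hc : IsCoprime x y) (hx : x % 2 = 0) (hy : y % 2 = 0) : False := by
  have := hc.isUnit_of_dvd' (Int.dvd_of_emod_eq_zero hx) (Int.dvd_of_emod_eq_zero hy)
  have := Int.isUnit_iff.mp this
  omega

theorem kmod4 {B C A k : ℤ} (hBC : IsCoprime B C) (h : B ^ 2 + 3 * C ^ 2 = 16 * (k * A ^ 2)) :
    False := by
  rcases Int.emod_two_eq_zero_or_one B with hB | hB <;>
    rcases Int.emod_two_eq_zero_or_one C with hC | hC
  · exact nobb hBC hB hC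
  · have := sqe B hB; have := sqo C hC; omega
  · have := sqo B hB; have := sqe C hC; omega
  · have := sqo B hB; have := sqo C hC; omega

theorem mul_mod5 {k D : ℤ} (hD : D ^ 2 % 5 = 1 ∨ D ^ 2 % 5 = 4) (hk : k % 5 = 2 ∨ k % 5 = 3) :
    (k * D ^ 2) % 5 = 2 ∨ (k * D ^ 2) % 5 = 3 := by
  rcases hD with h1 | h1 <;> rcases hk with h2 | h2 <;> simp [Int.mul_emod, h1, h2]

theorem case1 {A B C D : ℤ} (hA : 0 < A) (hB : 0 < B) (hAD : IsCoprime A D)
    (hCB : IsCoprime C B) (h5B : ¬ (5:ℤ) ∣ B) (h5D : ¬ (5:ℤ) ∣ D)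
    (hkey : A ^ 2 * (B ^ 2 - 125 * C ^ 2) = D ^ 2 * (B ^ 2 + 3 * C ^ 2)) :
    ∃ k : ℤ, (k = 1 ∨ k = 4) ∧ B ^ 2 + 3 * C ^ 2 = k * A ^ 2 ∧ B ^ 2 - 125 * C ^ 2 = k * D ^ 2 := by
  have hA2 : A ^ 2 ≠ 0 := by positivity
  obtain ⟨k, hk⟩ : A ^ 2 ∣ B ^ 2 + 3 * C ^ 2 := by
    have : A ^ 2 ∣ D ^ 2 * (B ^ 2 + 3 * C ^ 2) := ⟨_, hkey.symm⟩
    exact (hAD.pow (m := 2) (n := 2)).dvd_of_dvd_mul_left this
  have hk2 : B ^ 2 - 125 * C ^ 2 = k * D ^ 2 := by
    apply mul_left_cancel₀ hA2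
    rw [hkey, hk]; ring
  have hk1 : B ^ 2 + 3 * C ^ 2 = k * A ^ 2 := by rw [hk]; ring
  have hkpos : 0 < k := by
    by_contra h0
    have h1 : k * A ^ 2 ≤ 0 := mul_nonpos_of_nonpos_of_nonneg (by omega) (by positivity)
    have h2 : 0 < B ^ 2 + 3 * C ^ 2 := by positivity
    rw [hk1] at h2
    exact absurd h2 (not_lt.mpr h1)
  have hd : k ∣ 128 := by
    apply dvd_of_cop hCB.symm
    · exact ⟨125 * A ^ 2 + 3 * D ^ 2, by linear_combination 125 * hk1 + 3 * hk2⟩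
    · exact ⟨A ^ 2 - D ^ 2, by linear_combination hk1 - hk2⟩
  refine ⟨k, ?_, hk1, hk2⟩
  have hB5 := sq5 B h5B
  have hD5 := sq5 D h5D
  have no23 : ¬ (k % 5 = 2 ∨ k % 5 = 3) := by
    intro hk5
    have h1 := mul_mod5 hD5 hk5
    rw [← hk2] at h1
    clear hk1 hk2 hkey hk
    omega
  have no16 : ¬ (16:ℤ) ∣ k := by
    rintro ⟨k1, rfl⟩
    exact kmod4 (A := A) (k := k1) hCB.symm (by rw [hk1]; ring)
  rcases k128 hkpos hd with rfl | rfl | rfl | rfl | rfl | rfl | rfl | rfl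
  · exact Or.inl rfl
  · exact absurd (by norm_num) no23
  · exact Or.inr rfl
  · exact absurd (by norm_num) no23
  · exact absurd (by norm_num) no16
  · exact absurd (by norm_num) no16
  · exact absurd (by norm_num) no16
  · exact absurd (by norm_num) no16

theorem case2 {A B C D : ℤ} (hA : 0 < A) (hB : 0 < B) (hAD : IsCoprime A D) (hAB : IsCoprime A B)
    (hCB : IsCoprime C B) (h5B : ¬ (5:ℤ) ∣ B) (h5D : ¬ (5:ℤ) ∣ D)
    (hkey : A ^ 2 * (B ^ 2 + 125 * C ^ 2) = D ^ 2 * (3 * C ^ 2 - B ^ 2)) : False := by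
  have hA2 : A ^ 2 ≠ 0 := by positivity
  obtain ⟨k, hk⟩ : A ^ 2 ∣ 3 * C ^ 2 - B ^ 2 := by
    have : A ^ 2 ∣ D ^ 2 * (3 * C ^ 2 - B ^ 2) := ⟨_, hkey.symm⟩
    exact (hAD.pow (m := 2) (n := 2)).dvd_of_dvd_mul_left this
  have hk2 : B ^ 2 + 125 * C ^ 2 = k * D ^ 2 := by
    apply mul_left_cancel₀ hA2
    rw [hkey, hk]; ring
  have hk1 : 3 * C ^ 2 - B ^ 2 = k * A ^ 2 := by rw [hk]; ring
  have hkpos : 0 < k := by
    by_contra h0
    have h1 : k * D ^ 2 ≤ 0 := mul_nonpos_of_nonpos_of_nonneg (by omega) (by positivity)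
    have h2 : 0 < B ^ 2 + 125 * C ^ 2 := by positivity
    rw [hk2] at h2
    exact absurd h2 (not_lt.mpr h1)
  have hd : k ∣ 128 := by
    apply dvd_of_cop hCB.symm
    · exact ⟨3 * D ^ 2 - 125 * A ^ 2, by linear_combination 3 * hk2 - 125 * hk1⟩
    · exact ⟨A ^ 2 + D ^ 2, by linear_combination hk1 + hk2⟩
  have hB5 := sq5 B h5B
  have hD5 := sq5 D h5D
  have no23 : ¬ (k % 5 = 2 ∨ k % 5 = 3) := by
    intro hk5
    have h1 := mul_mod5 hD5 hk5
    rw [← hk2] at h1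
    clear hk1 hk2 hkey hk
    omega
  have hmod : ¬ k % 3 = 1 := by
    intro hk3
    have h6 : (k * A ^ 2) % 3 = A ^ 2 % 3 := by
      rw [Int.mul_emod, hk3, one_mul, Int.emod_emod]
    rw [← hk1] at h6
    clear hk1 hk2 hkey hk hD5 hB5 no23
    rcases sq3 A with ⟨a1, a2⟩ | a1
    · rcases sq3 B with ⟨b1, b2⟩ | b1
      · have := hAB.isUnit_of_dvd' a2 b2
        have := Int.isUnit_iff.mp this
        omega
      · omega
    · rcases sq3 B with ⟨b1, b2⟩ | b1 <;> omega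
  rcases k128 hkpos hd with rfl | rfl | rfl | rfl | rfl | rfl | rfl | rfl
  · exact hmod (by norm_num)
  · exact no23 (by norm_num)
  · exact hmod (by norm_num)
  · exact no23 (by norm_num)
  · exact hmod (by norm_num)
  · exact no23 (by norm_num)
  · exact hmod (by norm_num)
  · exact no23 (by norm_num)

theorem mid {r s Δ : ℤ} (hr : 0 < r) (hs : 0 < s) (hcop : IsCoprime r s) (h5 : ¬ (5:ℤ) ∣ s)
    (h : Δ ^ 2 = 25 * s ^ 4 + 262 * r ^ 2 * s ^ 2 + 625 * r ^ 4) :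
    ∃ m l n : ℤ, 0 < m ∧ 0 < l ∧ 5 * (m * l) ≤ r ∧ IsCoprime m l ∧
      n ^ 2 = 9 * m ^ 4 - 506 * m ^ 2 * l ^ 2 + l ^ 4 := by
  have hcs5 : IsCoprime s 5 := ((Prime.coprime_iff_not_dvd p5).mpr h5).symm
  by_cases hr5 : (5:ℤ) ∣ r
  · obtain ⟨r1, rfl⟩ := hr5
    have hr1 : 0 < r1 := by omega
    have hΔ5 : (5:ℤ) ∣ Δ := by
      apply p5.dvd_of_dvd_pow (n := 2)
      rw [h]
      exact ⟨5 * s ^ 4 + 262 * 5 * r1 ^ 2 * s ^ 2 + 625 * 125 * r1 ^ 4, by ring⟩
    obtain ⟨Δ1, rfl⟩ := hΔ5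
    have h1 : Δ1 ^ 2 = s ^ 4 + 262 * r1 ^ 2 * s ^ 2 + 15625 * r1 ^ 4 := by
      have : 25 * Δ1 ^ 2 = 25 * (s ^ 4 + 262 * r1 ^ 2 * s ^ 2 + 15625 * r1 ^ 4) := by
        linear_combination h
      linarith
    have hc1 : IsCoprime r1 s := IsCoprime.of_mul_left_right hcop
    have hΔ1 : 0 < |Δ1| := by
      apply abs_pos.mpr
      rintro rfl
      have : 0 < s ^ 4 := by positivity
      have : 0 < r1 ^ 4 := by positivity
      have : 0 ≤ r1 ^ 2 * s ^ 2 := by positivity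
      nlinarith
    have hY : 0 < s ^ 2 + 125 * r1 ^ 2 := by positivity
    have hYc : IsCoprime (s ^ 2 + 125 * r1 ^ 2) (r1 * s) := by
      apply IsCoprime.mul_right
      · have h3 : IsCoprime (s ^ 2) r1 := hc1.symm.pow_left
        have h4 : s ^ 2 + 125 * r1 ^ 2 = s ^ 2 + r1 * (125 * r1) := by ring
        rw [h4]
        exact h3.add_mul_left_left _
      · have h3 : IsCoprime (125 * r1 ^ 2) s := by
          apply IsCoprime.mul_left
          · have : (125:ℤ) = 5 ^ 3 := by norm_num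
            rw [this]
            exact hcs5.symm.pow_left
          · exact hc1.pow_left
        have h4 : s ^ 2 + 125 * r1 ^ 2 = 125 * r1 ^ 2 + s * s := by ring
        rw [h4]
        exact h3.add_mul_left_left _
    have h2 : |Δ1| ^ 2 - (s ^ 2 + 125 * r1 ^ 2) ^ 2 = 12 * (r1 * s) ^ 2 := by
      rw [sq_abs, h1]; ring
    obtain ⟨A, B, C, D, hA, hB, hC, hD, e1, e2, hcase⟩ := split3 hr1 hs hΔ1 hY hYc h2
    have hAD : IsCoprime A D := by
      rw [e1, e2] at hc1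
      exact IsCoprime.of_mul_right_right (IsCoprime.of_mul_left_left hc1)
    have hAB : IsCoprime A B := by
      rw [e1, e2] at hc1
      exact IsCoprime.of_mul_right_left (IsCoprime.of_mul_left_left hc1)
    have hCB : IsCoprime C B := by
      rw [e1, e2] at hc1
      exact IsCoprime.of_mul_right_left (IsCoprime.of_mul_left_right hc1)
    have h5B : ¬ (5:ℤ) ∣ B := fun hd => h5 (by rw [e2]; exact hd.mul_right D)
    have h5D : ¬ (5:ℤ) ∣ D := fun hd => h5 (by rw [e2]; exact hd.mul_left B)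
    rcases hcase with hcase | hcase
    · obtain ⟨k, hk14, hk1, hk2⟩ := case1 (C := C) hA hB hAD hCB h5B h5D (by
        rw [e1, e2] at hcase
        linear_combination (-1) * hcase)
      obtain ⟨m, l, n, g1, g2, g3, g4, g5⟩ := last_step hA hB hC hk14 hk1 hk2 hCB.symm hAD
      refine ⟨m, l, n, g1, g2, ?_, g4, g5⟩
      have : C ≤ r1 := by rw [e1]; nlinarith
      omega
    · exact (case2 (C := C) hA hB hAD hAB hCB h5B h5D (by
        rw [e1, e2] at hcase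
        linear_combination hcase)).elim
  · exact (mid5 hr hs hcop h5 hr5 h).elim

theorem k125 {k : ℤ} (hd : k ∣ 125) (h8 : k % 8 = 3) : k = -5 ∨ k = -125 := by
  have hd' : k.natAbs ∣ 125 := by
    have := Int.natAbs_dvd_natAbs.mpr hd
    simpa using this
  have : k.natAbs ∈ Nat.divisors 125 := Nat.mem_divisors.mpr ⟨hd', by norm_num⟩
  have h2 : Nat.divisors 125 = {1, 5, 25, 125} := by decide +kernel
  rw [h2] at this
  simp only [Finset.mem_insert, Finset.mem_singleton] at this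
  omega

/-- the second half of the first step -/
theorem second {a b c d E F : ℤ} (ha : 0 < a) (hb : 0 < b) (hc : 0 < c) (hd : 0 < d)
    (hcop : IsCoprime a b) (hEF : (E = 128 ∧ F = 1) ∨ (E = 32 ∧ F = 4 ∧ b % 2 = 1))
    (hcd : c * d = a * b) (hdo : d % 2 = 1)
    (h : 3 * a ^ 2 + b ^ 2 = E * c ^ 2 + F * d ^ 2) :
    ∃ r s Δ : ℤ, 0 < r ∧ 0 < s ∧ IsCoprime r s ∧ ¬ (5:ℤ) ∣ s ∧
      Δ ^ 2 = 25 * s ^ 4 + 262 * r ^ 2 * s ^ 2 + 625 * r ^ 4 ∧ r * s ≤ 5 * a ∧ 1 < b := by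
  obtain ⟨α, β, γ, δ, hα, hβ, hγ, hδ, e1, e2, e3, e4⟩ := four ha hb hc hd hcd.symm
  have hαδ : IsCoprime α δ := by
    rw [e1, e2] at hcop
    exact IsCoprime.of_mul_right_right (IsCoprime.of_mul_left_left hcop)
  have hβγ : IsCoprime β γ := by
    rw [e1, e2] at hcop
    exact IsCoprime.of_mul_right_left (IsCoprime.of_mul_left_right hcop)
  have hα2 : α ^ 2 ≠ 0 := by positivity
  have hkey : α ^ 2 * (3 * β ^ 2 - E * γ ^ 2) = δ ^ 2 * (F * β ^ 2 - γ ^ 2) := by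
    rw [e1, e2, e3, e4] at h
    linear_combination h
  obtain ⟨k, hk⟩ : α ^ 2 ∣ F * β ^ 2 - γ ^ 2 := by
    have : α ^ 2 ∣ δ ^ 2 * (F * β ^ 2 - γ ^ 2) := ⟨_, hkey.symm⟩
    exact (hαδ.pow (m := 2) (n := 2)).dvd_of_dvd_mul_left this
  have hk2 : 3 * β ^ 2 - E * γ ^ 2 = k * δ ^ 2 := by
    apply mul_left_cancel₀ hα2
    rw [hkey, hk]; ring
  have hk1 : F * β ^ 2 - γ ^ 2 = k * α ^ 2 := by rw [hk]; ring
  have hEF' : E * F = 128 := by rcases hEF with ⟨rfl, rfl⟩ | ⟨rfl, rfl, _⟩ <;> norm_num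
  have hd125 : k ∣ 125 := by
    apply dvd_of_cop hβγ
    · refine ⟨E * α ^ 2 - δ ^ 2, ?_⟩
      have : 125 * β ^ 2 = (E * F - 3) * β ^ 2 := by rw [hEF']; ring
      rw [this]
      linear_combination E * hk1 - hk2
    · refine ⟨3 * α ^ 2 - F * δ ^ 2, ?_⟩
      have : 125 * γ ^ 2 = (E * F - 3) * γ ^ 2 := by rw [hEF']; ring
      rw [this]
      linear_combination 3 * hk1 - F * hk2
  have hodd : β % 2 = 1 ∧ δ % 2 = 1 := by
    rw [e4, Int.mul_emod] at hdo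
    rcases Int.emod_two_eq_zero_or_one β with h1 | h1 <;>
      rcases Int.emod_two_eq_zero_or_one δ with h2 | h2 <;> simp [h1, h2] at hdo ⊢
  obtain ⟨hβo, hδo⟩ := hodd
  have hβ8 := sqo β hβo
  have hδ8 := sqo δ hδo
  have hk8 : k % 8 = 3 := by
    have h1 : (k * δ ^ 2) % 8 = k % 8 := by
      rw [Int.mul_emod, hδ8, mul_one, Int.emod_emod]
    rw [← hk2] at h1
    rcases hEF with ⟨rfl, rfl⟩ | ⟨rfl, rfl, _⟩
    · omega
    · omega
  obtain ⟨μ, hμ, hkμ⟩ : ∃ μ : ℤ, (μ = 1 ∨ μ = 5) ∧ k = -(5 * μ ^ 2) := by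
    rcases k125 hd125 hk8 with h1 | h1
    · exact ⟨1, Or.inl rfl, by rw [h1]; norm_num⟩
    · exact ⟨5, Or.inr rfl, by rw [h1]; norm_num⟩
  have hμ0 : 0 < μ := by omega
  obtain ⟨x, hx⟩ : ∃ x, x = μ * α := ⟨_, rfl⟩
  have hx0 : 0 < x := by rw [hx]; positivity
  have hx5 : x ≤ 5 * a := by
    have h1 : α ≤ a := by rw [e1]; nlinarith
    have h2 : μ ≤ 5 := by omega
    rw [hx]; nlinarith
  have hl1 : γ ^ 2 - F * β ^ 2 = 5 * x ^ 2 := by
    rw [hx]
    have := hk1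
    rw [hkμ] at this
    linear_combination (-1) * this
  have hl2 : E * γ ^ 2 - 3 * β ^ 2 = 5 * (μ * δ) ^ 2 := by
    have := hk2
    rw [hkμ] at this
    linear_combination (-1) * this
  have hγb : γ ≤ b := by rw [e2]; nlinarith
  have fin : ∀ r s : ℤ, IsCoprime (5 * r ^ 2) (s ^ 2) → IsCoprime r s ∧ ¬ (5:ℤ) ∣ s := by
    intro r s hrs
    refine ⟨(IsCoprime.pow_iff (by norm_num) (by norm_num)).mp (IsCoprime.of_mul_left_right hrs),
      ?_⟩
    intro h5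
    have h6 := IsCoprime.of_mul_left_left hrs
    have := h6.isUnit_of_dvd' dvd_rfl (h5.pow (by norm_num))
    have := Int.isUnit_iff.mp this
    omega
  rcases hEF with ⟨rfl, rfl⟩ | ⟨rfl, rfl, hbo⟩
  · -- `F = 1`
    have hγo : γ % 2 = 1 := by
      rcases Int.emod_two_eq_zero_or_one γ with h1 | h1
      · have := sqe γ h1
        rcases Int.emod_two_eq_zero_or_one x with h2 | h2
        · have := sqe x h2; omega
        · have := sqo x h2; omega
      · exact h1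
    have hxe : x % 2 = 0 := by
      rcases Int.emod_two_eq_zero_or_one x with h2 | h2
      · exact h2
      · have := sqo x h2; have := sqo γ hγo; omega
    obtain ⟨x1, hx1⟩ : ∃ x1, x = 2 * x1 := ⟨x / 2, by omega⟩
    obtain ⟨p, hp⟩ : ∃ p, γ - β = 2 * p := ⟨(γ - β) / 2, by omega⟩
    obtain ⟨q, hq⟩ : ∃ q, γ + β = 2 * q := ⟨(γ + β) / 2, by omega⟩
    have hlt : β < γ := by
      apply lt_of_pow_lt_pow_left₀ 2 hγ.le
      nlinarith [pow_pos hx0 2]
    have hpq : p * q = 5 * x1 ^ 2 := by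
      have : 4 * (p * q) = 4 * (5 * x1 ^ 2) := by
        calc 4 * (p * q) = (2 * p) * (2 * q) := by ring
          _ = γ ^ 2 - 1 * β ^ 2 := by rw [← hp, ← hq]; ring
          _ = 5 * x ^ 2 := hl1
          _ = _ := by rw [hx1]; ring
      linarith
    have hγ' : γ = p + q := by omega
    have hβ' : β = q - p := by omega
    have hcpq : IsCoprime p q := by
      obtain ⟨u, v, huv⟩ := hβγ
      refine ⟨v - u, u + v, ?_⟩
      rw [hγ', hβ'] at huv
      linear_combination huv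
    obtain ⟨r, s, hr, hs, hrs, hcase⟩ := sq_split p5 (by norm_num) (by omega) (by omega)
      (by omega : 0 < x1) hcpq hpq
    have hγr : γ = 5 * r ^ 2 + s ^ 2 := by
      rcases hcase with ⟨f1, f2⟩ | ⟨f1, f2⟩ <;> rw [hγ', f1, f2] <;> ring
    have hβr : β ^ 2 = (s ^ 2 - 5 * r ^ 2) ^ 2 := by
      rcases hcase with ⟨f1, f2⟩ | ⟨f1, f2⟩ <;> rw [hβ', f1, f2] <;> ring
    have hcrs : IsCoprime r s ∧ ¬ (5:ℤ) ∣ s := by
      rcases hcase with ⟨f1, f2⟩ | ⟨f1, f2⟩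
      · rw [f1, f2] at hcpq; exact fin r s hcpq
      · rw [f1, f2] at hcpq; exact fin r s hcpq.symm
    refine ⟨r, s, μ * δ, hr, hs, hcrs.1, hcrs.2, ?_, by omega, ?_⟩
    · have h5 : 5 * (μ * δ) ^ 2 = 5 * (25 * s ^ 4 + 262 * r ^ 2 * s ^ 2 + 625 * r ^ 4) := by
        rw [← hl2, hβr, hγr]; ring
      linarith
    · nlinarith [pow_pos hr 2, pow_pos hs 2]
  · -- `F = 4`
    have hγo : γ % 2 = 1 := by
      rw [e2, Int.mul_emod] at hbo
      rcases Int.emod_two_eq_zero_or_one γ with h1 | h1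
      · simp [h1] at hbo
      · exact h1
    have hlt : 2 * β < γ := by
      apply lt_of_pow_lt_pow_left₀ 2 hγ.le
      nlinarith [pow_pos hx0 2]
    have hpq : (γ - 2 * β) * (γ + 2 * β) = 5 * x ^ 2 := by
      rw [← hl1]; ring
    have hcpq : IsCoprime (γ - 2 * β) (γ + 2 * β) := by
      have h1 : IsCoprime (γ - 2 * β) (4 * β) := by
        apply IsCoprime.mul_right
        · have : IsCoprime (γ - 2 * β) 2 := ⟨1, -((γ - 2 * β) / 2), by omega⟩
          have h4 : (4:ℤ) = 2 ^ 2 := by norm_num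
          rw [h4]
          exact this.pow_right
        · have h3 : γ - 2 * β = γ + β * (-2) := by ring
          rw [h3]
          exact hβγ.symm.add_mul_left_left _
      have h2 : γ + 2 * β = 4 * β + (γ - 2 * β) * 1 := by ring
      rw [h2]
      exact h1.add_mul_left_right _
    obtain ⟨r, s, hr, hs, hrs, hcase⟩ := sq_split p5 (by norm_num) (by omega) (by omega)
      hx0 hcpq hpq
    have hγr : 2 * γ = 5 * r ^ 2 + s ^ 2 := by
      rcases hcase with ⟨f1, f2⟩ | ⟨f1, f2⟩ <;> linarith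
    have hβr : 16 * β ^ 2 = (s ^ 2 - 5 * r ^ 2) ^ 2 := by
      have h3 : 4 * β = (γ + 2 * β) - (γ - 2 * β) := by ring
      have h4 : 16 * β ^ 2 = ((γ + 2 * β) - (γ - 2 * β)) ^ 2 := by rw [← h3]; ring
      rw [h4]
      rcases hcase with ⟨f1, f2⟩ | ⟨f1, f2⟩ <;> rw [f1, f2] <;> ring
    have hcrs : IsCoprime r s ∧ ¬ (5:ℤ) ∣ s := by
      rcases hcase with ⟨f1, f2⟩ | ⟨f1, f2⟩
      · rw [f1, f2] at hcpq; exact fin r s hcpq
      · rw [f1, f2] at hcpq; exact fin r s hcpq.symm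
    refine ⟨r, s, 4 * (μ * δ), hr, hs, hcrs.1, hcrs.2, ?_, by omega, ?_⟩
    · have h5 : 5 * (4 * (μ * δ)) ^ 2 = 5 * (25 * s ^ 4 + 262 * r ^ 2 * s ^ 2 + 625 * r ^ 4) := by
        calc 5 * (4 * (μ * δ)) ^ 2 = 16 * (5 * (μ * δ) ^ 2) := by ring
          _ = 16 * (32 * γ ^ 2 - 3 * β ^ 2) := by rw [← hl2]
          _ = 128 * (2 * γ) ^ 2 - 3 * (16 * β ^ 2) := by ring
          _ = _ := by rw [hγr, hβr]; ring
      linarith
    · nlinarith [pow_pos hr 2, pow_pos hs 2]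

theorem first {a b n : ℤ} (ha : 0 < a) (hb : 0 < b) (hcop : IsCoprime a b) (h3 : ¬ (3:ℤ) ∣ b)
    (h : n ^ 2 = 9 * a ^ 4 - 506 * a ^ 2 * b ^ 2 + b ^ 4) :
    ∃ r s Δ : ℤ, 0 < r ∧ 0 < s ∧ IsCoprime r s ∧ ¬ (5:ℤ) ∣ s ∧
      Δ ^ 2 = 25 * s ^ 4 + 262 * r ^ 2 * s ^ 2 + 625 * r ^ 4 ∧ r * s ≤ 5 * a ∧ 1 < b := by
  wlog hn : 0 ≤ n generalizing n
  · exact this (n := -n) (by rw [neg_sq]; exact h) (by omega)
  obtain ⟨S, hS⟩ : ∃ S, S = 3 * a ^ 2 + b ^ 2 := ⟨_, rfl⟩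
  have hS0 : 0 < S := by rw [hS]; positivity
  have hSn : S ^ 2 - n ^ 2 = 512 * (a * b) ^ 2 := by rw [hS, h]; ring
  have hab : 0 < a * b := mul_pos ha hb
  have hlt : n < S := by
    apply lt_of_pow_lt_pow_left₀ 2 hS0.le
    nlinarith [pow_pos hab 2]
  have hSa : IsCoprime S a := by
    have h1 : IsCoprime (b ^ 2) a := hcop.symm.pow_left
    have h2 : S = b ^ 2 + a * (3 * a) := by rw [hS]; ring
    rw [h2]
    exact h1.add_mul_left_left _
  have hSb : IsCoprime S b := by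
    have h0 : IsCoprime (3:ℤ) b := (Prime.coprime_iff_not_dvd p3).mpr h3
    have h1 : IsCoprime (3 * a ^ 2) b := h0.mul_left hcop.pow_left
    have h2 : S = 3 * a ^ 2 + b * b := by rw [hS]; ring
    rw [h2]
    exact h1.add_mul_left_left _
  rcases Int.emod_two_eq_zero_or_one S with hSe | hSo
  · -- both odd
    have hao : a % 2 = 1 := by
      rcases Int.emod_two_eq_zero_or_one a with h1 | h1
      · exact absurd (nobb hSa hSe h1) id
      · exact h1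
    have hbo : b % 2 = 1 := by
      rcases Int.emod_two_eq_zero_or_one b with h1 | h1
      · exact absurd (nobb hSb hSe h1) id
      · exact h1
    have ha8 := sqo a hao
    have hb8 := sqo b hbo
    obtain ⟨S1, hS1⟩ : ∃ S1, S = 4 * S1 := ⟨S / 4, by omega⟩
    have hS1o : S1 % 2 = 1 := by omega
    have hn4 : ∃ n1, n = 4 * n1 := by
      have hne : n % 2 = 0 := by
        rcases Int.emod_two_eq_zero_or_one n with h1 | h1
        · exact h1
        · have := sqo n h1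
          rw [hS1] at hSn
          have h5 : (4 * S1) ^ 2 = 16 * S1 ^ 2 := by ring
          rw [h5] at hSn
          omega
      obtain ⟨n0, hn0⟩ : ∃ n0, n = 2 * n0 := ⟨n / 2, by omega⟩
      have h6 : n0 ^ 2 = 4 * S1 ^ 2 - 128 * (a * b) ^ 2 := by
        rw [hS1, hn0] at hSn
        linarith
      have hn0e : n0 % 2 = 0 := by
        rcases Int.emod_two_eq_zero_or_one n0 with h1 | h1
        · exact h1
        · have := sqo n0 h1
          omega
      exact ⟨n0 / 2, by omega⟩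
    obtain ⟨n1, hn1⟩ := hn4
    have h7 : S1 ^ 2 - n1 ^ 2 = 32 * (a * b) ^ 2 := by
      rw [hS1, hn1] at hSn
      linarith
    have hn1o : n1 % 2 = 1 := by
      rcases Int.emod_two_eq_zero_or_one n1 with h1 | h1
      · have := sqe n1 h1; have := sqo S1 hS1o; omega
      · exact h1
    obtain ⟨p, hp⟩ : ∃ p, S1 - n1 = 2 * p := ⟨(S1 - n1) / 2, by omega⟩
    obtain ⟨q, hq⟩ : ∃ q, S1 + n1 = 2 * q := ⟨(S1 + n1) / 2, by omega⟩
    have hS1' : S1 = p + q := by omega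
    have hpq : p * q = 2 * (2 * (a * b)) ^ 2 := by
      have : 4 * (p * q) = 4 * (2 * (2 * (a * b)) ^ 2) := by
        calc 4 * (p * q) = (2 * p) * (2 * q) := by ring
          _ = S1 ^ 2 - n1 ^ 2 := by rw [← hp, ← hq]; ring
          _ = _ := by rw [h7]; ring
      linarith
    have hcop' : IsCoprime p q := by
      apply cop_of_sum
      rw [← hS1', hpq]
      have h8 : IsCoprime S1 2 := ⟨1, -(S1 / 2), by omega⟩
      have h9 : IsCoprime S1 a := by rw [hS1] at hSa; exact IsCoprime.of_mul_left_right hSa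
      have h10 : IsCoprime S1 b := by rw [hS1] at hSb; exact IsCoprime.of_mul_left_right hSb
      exact h8.mul_right ((h8.mul_right (h9.mul_right h10)).pow_right)
    obtain ⟨m, l, hm, hl, hml, hcase⟩ := sq_split p2 (by norm_num) (by omega) (by omega)
      (by omega : 0 < 2 * (a * b)) hcop' hpq
    have hS1m : S1 = 2 * m ^ 2 + l ^ 2 := by
      rcases hcase with ⟨f1, f2⟩ | ⟨f1, f2⟩ <;> rw [hS1', f1, f2] <;> ring
    have hlo : l % 2 = 1 := by
      rcases Int.emod_two_eq_zero_or_one l with h1 | h1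
      · have := sqe l h1; omega
      · exact h1
    have hme : m % 2 = 0 := by
      rcases Int.emod_two_eq_zero_or_one m with h1 | h1
      · exact h1
      · have h11 : (m * l) % 2 = 1 := by rw [Int.mul_emod, h1, hlo]; norm_num
        omega
    obtain ⟨c, hc⟩ : ∃ c, m = 2 * c := ⟨m / 2, by omega⟩
    refine second (c := c) (d := l) (E := 32) (F := 4) ha hb (by omega) hl hcop
      (Or.inr ⟨rfl, rfl, hbo⟩) ?_ hlo ?_
    · have : 2 * (c * l) = 2 * (a * b) := by rw [← hml, hc]; ring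
      linarith
    · rw [← hS, hS1, hS1m, hc]; ring
  · -- one of `a`, `b` even
    have hno : n % 2 = 1 := by
      rcases Int.emod_two_eq_zero_or_one n with h1 | h1
      · have := sqe n h1; have := sqo S hSo; omega
      · exact h1
    obtain ⟨p, hp⟩ : ∃ p, S - n = 2 * p := ⟨(S - n) / 2, by omega⟩
    obtain ⟨q, hq⟩ : ∃ q, S + n = 2 * q := ⟨(S + n) / 2, by omega⟩
    have hS' : S = p + q := by omega
    have hpq : p * q = 2 * (8 * (a * b)) ^ 2 := by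
      have : 4 * (p * q) = 4 * (2 * (8 * (a * b)) ^ 2) := by
        calc 4 * (p * q) = (2 * p) * (2 * q) := by ring
          _ = S ^ 2 - n ^ 2 := by rw [← hp, ← hq]; ring
          _ = _ := by rw [hSn]; ring
      linarith
    have hcop' : IsCoprime p q := by
      apply cop_of_sum
      rw [← hS', hpq]
      have h8 : IsCoprime S 2 := ⟨1, -(S / 2), by omega⟩
      have h88 : IsCoprime S 8 := by
        have : (8:ℤ) = 2 ^ 3 := by norm_num
        rw [this]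
        exact h8.pow_right
      exact h8.mul_right ((h88.mul_right (hSa.mul_right hSb)).pow_right)
    obtain ⟨m, l, hm, hl, hml, hcase⟩ := sq_split p2 (by norm_num) (by omega) (by omega)
      (by omega : 0 < 8 * (a * b)) hcop' hpq
    have hSm : S = 2 * m ^ 2 + l ^ 2 := by
      rcases hcase with ⟨f1, f2⟩ | ⟨f1, f2⟩ <;> rw [hS', f1, f2] <;> ring
    have hlo : l % 2 = 1 := by
      rcases Int.emod_two_eq_zero_or_one l with h1 | h1
      · have := sqe l h1; omega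
      · exact h1
    have h8m : (8:ℤ) ∣ m := by
      have h2l : IsCoprime (2:ℤ) l := ⟨-(l / 2), 1, by omega⟩
      have h8l : IsCoprime (8:ℤ) l := by
        have : (8:ℤ) = 2 ^ 3 := by norm_num
        rw [this]
        exact h2l.pow_left
      exact h8l.dvd_of_dvd_mul_right ⟨a * b, hml⟩
    obtain ⟨c, hc⟩ := h8m
    refine second (c := c) (d := l) (E := 128) (F := 1) ha hb (by omega) hl hcop
      (Or.inl ⟨rfl, rfl⟩) ?_ hlo ?_
    · have : 8 * (c * l) = 8 * (a * b) := by rw [← hml, hc]; ring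
      linarith
    · rw [← hS, hSm, hc]; ring

/-- the descent -/
theorem no_pos (N : ℕ) : ∀ a b n : ℤ, 0 < a → 0 < b → IsCoprime a b → (a * b).toNat ≤ N →
    n ^ 2 ≠ 9 * a ^ 4 - 506 * a ^ 2 * b ^ 2 + b ^ 4 := by
  induction N with
  | zero =>
    intro a b n ha hb _ hN _
    have := mul_pos ha hb
    omega
  | succ N ih =>
    intro a b n ha hb hcop hN h
    by_cases h3 : (3:ℤ) ∣ b
    · obtain ⟨b1, rfl⟩ := h3
      have hb1 : 0 < b1 := by omega
      have hn3 : (3:ℤ) ∣ n := by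
        apply p3.dvd_of_dvd_pow (n := 2)
        rw [h]
        exact ⟨3 * a ^ 4 - 506 * 3 * a ^ 2 * b1 ^ 2 + 27 * b1 ^ 4, by ring⟩
      obtain ⟨n1, rfl⟩ := hn3
      have hc1 : IsCoprime a b1 := IsCoprime.of_mul_right_right hcop
      refine ih b1 a n1 hb1 ha hc1.symm ?_ ?_
      · have h4 : a * (3 * b1) = 3 * (b1 * a) := by ring
        rw [h4] at hN
        have := mul_pos hb1 ha
        omega
      · have : 9 * n1 ^ 2 = 9 * (9 * b1 ^ 4 - 506 * b1 ^ 2 * a ^ 2 + a ^ 4) := by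
          linear_combination h
        linarith
    · obtain ⟨r, s, Δ, hr, hs, hrs, h5, hΔ, hle, hb1⟩ := first ha hb hcop h3 h
      obtain ⟨m, l, n', hm, hl, hml, hcml, hn'⟩ := mid hr hs hrs h5 hΔ
      refine ih m l n' hm hl hcml ?_ hn'
      have h1 : r ≤ r * s := by nlinarith
      have h2 : m * l ≤ a := by omega
      have h3 : a < a * b := by nlinarith
      omega

theorem no_sol {a b n : ℤ} (hcop : IsCoprime a b)
    (h : n ^ 2 = 9 * a ^ 4 - 506 * a ^ 2 * b ^ 2 + b ^ 4) : a = 0 ∨ b = 0 := by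
  by_contra hne
  push Not at hne
  have ha := abs_pos.mpr hne.1
  have hb := abs_pos.mpr hne.2
  have hc : IsCoprime |a| |b| := by
    rcases abs_choice a with h1 | h1 <;> rcases abs_choice b with h2 | h2 <;> rw [h1, h2]
    · exact hcop
    · exact hcop.neg_right
    · exact hcop.neg_left
    · exact hcop.neg_neg
  refine no_pos _ |a| |b| n ha hb hc le_rfl ?_
  rw [h]
  have e1 : |a| ^ 4 = a ^ 4 := by
    calc |a| ^ 4 = (|a| ^ 2) ^ 2 := by ring
      _ = _ := by rw [sq_abs]; ring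
  have e2 : |b| ^ 4 = b ^ 4 := by
    calc |b| ^ 4 = (|b| ^ 2) ^ 2 := by ring
      _ = _ := by rw [sq_abs]; ring
  rw [e1, e2, sq_abs, sq_abs]

/-- rational version -/
theorem no_sol_rat {s P D : ℚ} (h : D ^ 2 = 9 * P ^ 4 - 506 * P ^ 2 * s ^ 2 + s ^ 4) :
    P = 0 ∨ s = 0 := by
  by_contra hne
  push Not at hne
  obtain ⟨hP, hs⟩ := hne
  -- `P / s = a / b`
  set t : ℚ := P / s with ht
  have ht0 : t ≠ 0 := div_ne_zero hP hs
  have h1 : (D / s ^ 2) ^ 2 = 9 * t ^ 4 - 506 * t ^ 2 + 1 := by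
    rw [ht, div_pow, h]
    field_simp
  have hb : (0:ℚ) < t.den := by exact_mod_cast t.den_pos
  have h2 : (D / s ^ 2 * (t.den:ℚ) ^ 2) ^ 2
      = ((9 * t.num ^ 4 - 506 * t.num ^ 2 * (t.den:ℤ) ^ 2 + (t.den:ℤ) ^ 4 : ℤ) : ℚ) := by
    have e3 : t * t.den = t.num := Rat.mul_den_eq_num t
    rw [mul_pow, h1]
    push_cast
    rw [← e3]
    ring
  have h3 : IsSquare (((9 * t.num ^ 4 - 506 * t.num ^ 2 * (t.den:ℤ) ^ 2 + (t.den:ℤ) ^ 4 : ℤ)) : ℚ) :=
    ⟨_, by rw [← h2, pow_two]⟩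
  rw [Rat.isSquare_intCast_iff] at h3
  obtain ⟨n, hn⟩ := h3
  have hc : IsCoprime t.num (t.den : ℤ) := by
    rw [Int.isCoprime_iff_gcd_eq_one]
    exact t.reduced
  rcases no_sol (n := n) hc (by rw [pow_two]; exact hn.symm) with h4 | h4
  · exact ht0 (Rat.num_eq_zero.mp h4)
  · have := t.den_pos
    omega

end Pool.Agent.X229.WrDescent
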