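import Pool.Agent.X229.WrDescent

/-!
Helper file for `MP_1ed635_nt` : representations of `(x+y)⁴ - 9x⁴ - 9y⁴` of length `3` over `ℚ`.
-/

namespace Pool.Agent.X229.WrForm

open Pool.Agent.X229.WrDescent

section
variable {l0 l1 l2 a0 a1 a2 b0 b1 b2 : ℚ}

/-- the Hankel determinant -/
theorem hankel
    (c0 : l0 * b0 ^ 4 + l1 * b1 ^ 4 + l2 * b2 ^ 4 = -8)
    (c1 : l0 * a0 * b0 ^ 3 + l1 * a1 * b1 ^ 3 + l2 * a2 * b2 ^ 3 = 1)
    (c2 : l0 * a0 ^ 2 * b0 ^ 2 + l1 * a1 ^ 2 * b1 ^ 2 + l2 * a2 ^ 2 * b2 ^ 2 = 1)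
    (c3 : l0 * a0 ^ 3 * b0 + l1 * a1 ^ 3 * b1 + l2 * a2 ^ 3 * b2 = 1)
    (c4 : l0 * a0 ^ 4 + l1 * a1 ^ 4 + l2 * a2 ^ 4 = -8) :
    l0 * l1 * l2 * ((a0 * b1 - a1 * b0) * (a0 * b2 - a2 * b0) * (a1 * b2 - a2 * b1)) ^ 2 = 81 := by
  have h : l0 * l1 * l2 * ((a0 * b1 - a1 * b0) * (a0 * b2 - a2 * b0) * (a1 * b2 - a2 * b1)) ^ 2
      = (l0 * b0 ^ 4 + l1 * b1 ^ 4 + l2 * b2 ^ 4) *
          ((l0 * a0 ^ 2 * b0 ^ 2 + l1 * a1 ^ 2 * b1 ^ 2 + l2 * a2 ^ 2 * b2 ^ 2) *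
            (l0 * a0 ^ 4 + l1 * a1 ^ 4 + l2 * a2 ^ 4)
            - (l0 * a0 ^ 3 * b0 + l1 * a1 ^ 3 * b1 + l2 * a2 ^ 3 * b2) ^ 2)
        - (l0 * a0 * b0 ^ 3 + l1 * a1 * b1 ^ 3 + l2 * a2 * b2 ^ 3) *
          ((l0 * a0 * b0 ^ 3 + l1 * a1 * b1 ^ 3 + l2 * a2 * b2 ^ 3) *
            (l0 * a0 ^ 4 + l1 * a1 ^ 4 + l2 * a2 ^ 4)
            - (l0 * a0 ^ 3 * b0 + l1 * a1 ^ 3 * b1 + l2 * a2 ^ 3 * b2) *
              (l0 * a0 ^ 2 * b0 ^ 2 + l1 * a1 ^ 2 * b1 ^ 2 + l2 * a2 ^ 2 * b2 ^ 2))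
        + (l0 * a0 ^ 2 * b0 ^ 2 + l1 * a1 ^ 2 * b1 ^ 2 + l2 * a2 ^ 2 * b2 ^ 2) *
          ((l0 * a0 * b0 ^ 3 + l1 * a1 * b1 ^ 3 + l2 * a2 * b2 ^ 3) *
            (l0 * a0 ^ 3 * b0 + l1 * a1 ^ 3 * b1 + l2 * a2 ^ 3 * b2)
            - (l0 * a0 ^ 2 * b0 ^ 2 + l1 * a1 ^ 2 * b1 ^ 2 + l2 * a2 ^ 2 * b2 ^ 2) ^ 2) := by
    ring
  rw [h, c0, c1, c2, c3, c4]
  norm_num

/-- the three linear forms are those of one of the two known representations -/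
theorem types
    (c0 : l0 * b0 ^ 4 + l1 * b1 ^ 4 + l2 * b2 ^ 4 = -8)
    (c1 : l0 * a0 * b0 ^ 3 + l1 * a1 * b1 ^ 3 + l2 * a2 * b2 ^ 3 = 1)
    (c2 : l0 * a0 ^ 2 * b0 ^ 2 + l1 * a1 ^ 2 * b1 ^ 2 + l2 * a2 ^ 2 * b2 ^ 2 = 1)
    (c3 : l0 * a0 ^ 3 * b0 + l1 * a1 ^ 3 * b1 + l2 * a2 ^ 3 * b2 = 1)
    (c4 : l0 * a0 ^ 4 + l1 * a1 ^ 4 + l2 * a2 ^ 4 = -8) :
    (a0 * b0 * (a0 - b0) = 0 ∧ a1 * b1 * (a1 - b1) = 0 ∧ a2 * b2 * (a2 - b2) = 0) ∨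
    ((2 * a0 + b0) * (a0 + b0) * (a0 + 2 * b0) = 0 ∧
      (2 * a1 + b1) * (a1 + b1) * (a1 + 2 * b1) = 0 ∧
      (2 * a2 + b2) * (a2 + b2) * (a2 + 2 * b2) = 0) := by
  obtain ⟨g3, hg3⟩ : ∃ g, g = b0 * b1 * b2 := ⟨_, rfl⟩
  obtain ⟨g2, hg2⟩ : ∃ g, g = -(a0 * b1 * b2 + b0 * a1 * b2 + b0 * b1 * a2) := ⟨_, rfl⟩
  obtain ⟨g1, hg1⟩ : ∃ g, g = a0 * a1 * b2 + a0 * b1 * a2 + b0 * a1 * a2 := ⟨_, rfl⟩
  obtain ⟨g0, hg0⟩ : ∃ g, g = -(a0 * a1 * a2) := ⟨_, rfl⟩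
  have z0 : g3 * a0 ^ 3 + g2 * a0 ^ 2 * b0 + g1 * a0 * b0 ^ 2 + g0 * b0 ^ 3 = 0 := by
    rw [hg3, hg2, hg1, hg0]; ring
  have z1 : g3 * a1 ^ 3 + g2 * a1 ^ 2 * b1 + g1 * a1 * b1 ^ 2 + g0 * b1 ^ 3 = 0 := by
    rw [hg3, hg2, hg1, hg0]; ring
  have z2 : g3 * a2 ^ 3 + g2 * a2 ^ 2 * b2 + g1 * a2 * b2 ^ 2 + g0 * b2 ^ 3 = 0 := by
    rw [hg3, hg2, hg1, hg0]; ring
  have k1 : -8 * g0 + g1 + g2 + g3 = 0 := by
    linear_combination (-g0) * c0 - g1 * c1 - g2 * c2 - g3 * c3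
      + l0 * b0 * z0 + l1 * b1 * z1 + l2 * b2 * z2
  have k2 : g0 + g1 + g2 - 8 * g3 = 0 := by
    linear_combination (-g0) * c1 - g1 * c2 - g2 * c3 - g3 * c4
      + l0 * a0 * z0 + l1 * a1 * z1 + l2 * a2 * z2
  have hD : ((a0 * b1 - a1 * b0) * (a0 * b2 - a2 * b0) * (a1 * b2 - a2 * b1)) ^ 2
      = g2 ^ 2 * g1 ^ 2 - 4 * g3 * g1 ^ 3 - 4 * g2 ^ 3 * g0 - 27 * g3 ^ 2 * g0 ^ 2
        + 18 * g3 * g2 * g1 * g0 := by
    rw [hg3, hg2, hg1, hg0]; ring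
  obtain ⟨P, hP⟩ : ∃ P, P = g0 / 2 := ⟨_, rfl⟩
  obtain ⟨s, hs⟩ : ∃ s, s = g2 - 7 * P := ⟨_, rfl⟩
  have e0 : g0 = 2 * P := by rw [hP]; ring
  have e3 : g3 = 2 * P := by rw [hP]; linarith
  have e2 : g2 = 7 * P + s := by rw [hs]; ring
  have e1 : g1 = 7 * P - s := by linarith
  rw [e0, e1, e2, e3] at hD
  have hD' : ((a0 * b1 - a1 * b0) * (a0 * b2 - a2 * b0) * (a1 * b2 - a2 * b1)) ^ 2
      = 9 * P ^ 4 - 506 * P ^ 2 * s ^ 2 + s ^ 4 := by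
    rw [hD]; ring
  have hne : 9 * P ^ 4 - 506 * P ^ 2 * s ^ 2 + s ^ 4 ≠ 0 := by
    rw [← hD']
    intro h0
    have := hankel c0 c1 c2 c3 c4
    rw [h0] at this
    norm_num at this
  rw [e0, e1, e2, e3] at z0 z1 z2
  rcases no_sol_rat hD' with h | h
  · left
    subst h
    have hs0 : s ≠ 0 := by
      rintro rfl
      exact hne (by ring)
    refine ⟨?_, ?_, ?_⟩
    · apply mul_left_cancel₀ hs0; linear_combination z0
    · apply mul_left_cancel₀ hs0; linear_combination z1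
    · apply mul_left_cancel₀ hs0; linear_combination z2
  · right
    subst h
    have hP0 : P ≠ 0 := by
      rintro rfl
      exact hne (by ring)
    refine ⟨?_, ?_, ?_⟩
    · apply mul_left_cancel₀ hP0; linear_combination z0
    · apply mul_left_cancel₀ hP0; linear_combination z1
    · apply mul_left_cancel₀ hP0; linear_combination z2

end

open MvPolynomial

/-- the summand `l (a x + b y)⁴` with rational `l`, `a`, `b` -/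
noncomputable def F (l a b : ℚ) : MvPolynomial (Fin 2) ℂ :=
  C (l:ℂ) * (C (a:ℂ) * X 0 + C (b:ℂ) * X 1) ^ 4

/-- first representation -/
noncomputable def S1 : Multiset (MvPolynomial (Fin 2) ℂ) := {F (-9) 0 1, F (-9) 1 0, F 1 1 1}

/-- second representation -/
noncomputable def S2 : Multiset (MvPolynomial (Fin 2) ℂ) := {F (-1) 1 (-2), F 9 1 (-1), F (-1) (-2) 1}

theorem F_smul (l a b t : ℚ) : F l (t * a) (t * b) = F (l * t ^ 4) a b := by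
  unfold F
  push_cast
  simp only [map_mul, map_pow]
  ring

theorem fA0 {l a b : ℚ} (ha : a = 0) (h : l * b ^ 4 = -9) : F l a b = F (-9) 0 1 := by
  rw [← h, ← F_smul, ha]; simp

theorem fA1 {l a b : ℚ} (hb : b = 0) (h : l * a ^ 4 = -9) : F l a b = F (-9) 1 0 := by
  rw [← h, ← F_smul, hb]; simp

theorem fA2 {l a b : ℚ} (hab : a = b) (h : l * a ^ 4 = 1) : F l a b = F 1 1 1 := by
  have : F 1 1 1 = F (l * a ^ 4) 1 1 := by rw [h]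
  rw [this, ← F_smul, ← hab]; simp

theorem fB0 {l a b : ℚ} (hb : b = -2 * a) (h : l * a ^ 4 = -1) : F l a b = F (-1) 1 (-2) := by
  rw [← h, ← F_smul, hb]; simp [mul_comm]

theorem fB1 {l a b : ℚ} (hb : b = -a) (h : l * a ^ 4 = 9) : F l a b = F 9 1 (-1) := by
  have : F 9 1 (-1) = F (l * a ^ 4) 1 (-1) := by rw [h]
  rw [this, ← F_smul, hb]; simp

theorem fB2 {l a b : ℚ} (ha : a = -2 * b) (h : l * b ^ 4 = -1) : F l a b = F (-1) (-2) 1 := by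
  rw [← h, ← F_smul, ha]; simp [mul_comm]

theorem perm_a {α : Type} (x y z : α) : ({x, z, y} : Multiset α) = {x, y, z} := by
  exact congrArg (Multiset.cons x) (Multiset.pair_comm z y)

theorem perm_b {α : Type} (x y z : α) : ({y, x, z} : Multiset α) = {x, y, z} := by
  simp only [Multiset.insert_eq_cons]
  rw [Multiset.cons_swap]

theorem perm_c {α : Type} (x y z : α) : ({y, z, x} : Multiset α) = {x, y, z} := by
  rw [perm_a, perm_b]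

theorem perm_d {α : Type} (x y z : α) : ({z, x, y} : Multiset α) = {x, y, z} := by
  rw [perm_b, perm_a]

theorem perm_e {α : Type} (x y z : α) : ({z, y, x} : Multiset α) = {x, y, z} := by
  rw [perm_b, perm_c]

section
variable {l0 l1 l2 a0 a1 a2 b0 b1 b2 : ℚ}

theorem typeA
    (H : l0 * l1 * l2 * ((a0 * b1 - a1 * b0) * (a0 * b2 - a2 * b0) * (a1 * b2 - a2 * b1)) ^ 2 = 81)
    (c0 : l0 * b0 ^ 4 + l1 * b1 ^ 4 + l2 * b2 ^ 4 = -8)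
    (c1 : l0 * a0 * b0 ^ 3 + l1 * a1 * b1 ^ 3 + l2 * a2 * b2 ^ 3 = 1)
    (c4 : l0 * a0 ^ 4 + l1 * a1 ^ 4 + l2 * a2 ^ 4 = -8)
    (t0 : a0 = 0 ∨ b0 = 0 ∨ a0 = b0) (t1 : a1 = 0 ∨ b1 = 0 ∨ a1 = b1)
    (t2 : a2 = 0 ∨ b2 = 0 ∨ a2 = b2) :
    ({F l0 a0 b0, F l1 a1 b1, F l2 a2 b2} : Multiset (MvPolynomial (Fin 2) ℂ)) = S1 := by
  unfold S1
  rcases t0 with t0 | t0 | t0 <;> rcases t1 with t1 | t1 | t1 <;> rcases t2 with t2 | t2 | t2 <;>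
    subst t0 t1 t2
  all_goals first
    | (exfalso; ring_nf at H; norm_num at H; done)
    | skip
  · rw [fA0 rfl (by linear_combination c0 - c1), fA1 rfl (by linear_combination c4 - c1),
      fA2 rfl (by linear_combination c1)]
  · rw [fA0 rfl (by linear_combination c0 - c1), fA2 rfl (by linear_combination c1),
      fA1 rfl (by linear_combination c4 - c1), perm_a]
  · rw [fA1 rfl (by linear_combination c4 - c1), fA0 rfl (by linear_combination c0 - c1),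
      fA2 rfl (by linear_combination c1), perm_b]
  · rw [fA1 rfl (by linear_combination c4 - c1), fA2 rfl (by linear_combination c1),
      fA0 rfl (by linear_combination c0 - c1), perm_c]
  · rw [fA2 rfl (by linear_combination c1), fA0 rfl (by linear_combination c0 - c1),
      fA1 rfl (by linear_combination c4 - c1), perm_d]
  · rw [fA2 rfl (by linear_combination c1), fA1 rfl (by linear_combination c4 - c1),
      fA0 rfl (by linear_combination c0 - c1), perm_e]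

theorem typeB
    (H : l0 * l1 * l2 * ((a0 * b1 - a1 * b0) * (a0 * b2 - a2 * b0) * (a1 * b2 - a2 * b1)) ^ 2 = 81)
    (c2 : l0 * a0 ^ 2 * b0 ^ 2 + l1 * a1 ^ 2 * b1 ^ 2 + l2 * a2 ^ 2 * b2 ^ 2 = 1)
    (c3 : l0 * a0 ^ 3 * b0 + l1 * a1 ^ 3 * b1 + l2 * a2 ^ 3 * b2 = 1)
    (c4 : l0 * a0 ^ 4 + l1 * a1 ^ 4 + l2 * a2 ^ 4 = -8)
    (t0 : b0 = -2 * a0 ∨ b0 = -a0 ∨ a0 = -2 * b0) (t1 : b1 = -2 * a1 ∨ b1 = -a1 ∨ a1 = -2 * b1)
    (t2 : b2 = -2 * a2 ∨ b2 = -a2 ∨ a2 = -2 * b2) :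
    ({F l0 a0 b0, F l1 a1 b1, F l2 a2 b2} : Multiset (MvPolynomial (Fin 2) ℂ)) = S2 := by
  unfold S2
  rcases t0 with t0 | t0 | t0 <;> rcases t1 with t1 | t1 | t1 <;> rcases t2 with t2 | t2 | t2 <;>
    subst t0 t1 t2
  all_goals first
    | (exfalso; ring_nf at H; norm_num at H; done)
    | skip
  · rw [fB0 rfl (by linear_combination (c4 + 3 * c3 + 2 * c2) / 3),
      fB1 rfl (by linear_combination -2 * c4 - 5 * c3 - 2 * c2),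
      fB2 rfl (by linear_combination (2 * c4 + 3 * c3 + c2) / 12)]
  · rw [fB0 rfl (by linear_combination (c4 + 3 * c3 + 2 * c2) / 3),
      fB2 rfl (by linear_combination (2 * c4 + 3 * c3 + c2) / 12),
      fB1 rfl (by linear_combination -2 * c4 - 5 * c3 - 2 * c2), perm_a]
  · rw [fB1 rfl (by linear_combination -2 * c4 - 5 * c3 - 2 * c2),
      fB0 rfl (by linear_combination (c4 + 3 * c3 + 2 * c2) / 3),
      fB2 rfl (by linear_combination (2 * c4 + 3 * c3 + c2) / 12), perm_b]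
  · rw [fB1 rfl (by linear_combination -2 * c4 - 5 * c3 - 2 * c2),
      fB2 rfl (by linear_combination (2 * c4 + 3 * c3 + c2) / 12),
      fB0 rfl (by linear_combination (c4 + 3 * c3 + 2 * c2) / 3), perm_c]
  · rw [fB2 rfl (by linear_combination (2 * c4 + 3 * c3 + c2) / 12),
      fB0 rfl (by linear_combination (c4 + 3 * c3 + 2 * c2) / 3),
      fB1 rfl (by linear_combination -2 * c4 - 5 * c3 - 2 * c2), perm_d]
  · rw [fB2 rfl (by linear_combination (2 * c4 + 3 * c3 + c2) / 12),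
      fB1 rfl (by linear_combination -2 * c4 - 5 * c3 - 2 * c2),
      fB0 rfl (by linear_combination (c4 + 3 * c3 + 2 * c2) / 3), perm_e]

theorem three_z {x y z : ℚ} (h : x * y * z = 0) : x = 0 ∨ y = 0 ∨ z = 0 := by
  rcases mul_eq_zero.mp h with h | h
  · rcases mul_eq_zero.mp h with h | h
    · exact Or.inl h
    · exact Or.inr (Or.inl h)
  · exact Or.inr (Or.inr h)

theorem final
    (c0 : l0 * b0 ^ 4 + l1 * b1 ^ 4 + l2 * b2 ^ 4 = -8)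
    (c1 : l0 * a0 * b0 ^ 3 + l1 * a1 * b1 ^ 3 + l2 * a2 * b2 ^ 3 = 1)
    (c2 : l0 * a0 ^ 2 * b0 ^ 2 + l1 * a1 ^ 2 * b1 ^ 2 + l2 * a2 ^ 2 * b2 ^ 2 = 1)
    (c3 : l0 * a0 ^ 3 * b0 + l1 * a1 ^ 3 * b1 + l2 * a2 ^ 3 * b2 = 1)
    (c4 : l0 * a0 ^ 4 + l1 * a1 ^ 4 + l2 * a2 ^ 4 = -8) :
    ({F l0 a0 b0, F l1 a1 b1, F l2 a2 b2} : Multiset (MvPolynomial (Fin 2) ℂ)) = S1 ∨
    ({F l0 a0 b0, F l1 a1 b1, F l2 a2 b2} : Multiset (MvPolynomial (Fin 2) ℂ)) = S2 := by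
  have H := hankel c0 c1 c2 c3 c4
  rcases types c0 c1 c2 c3 c4 with ⟨h0, h1, h2⟩ | ⟨h0, h1, h2⟩
  · left
    have g : ∀ {a b : ℚ}, a * b * (a - b) = 0 → a = 0 ∨ b = 0 ∨ a = b := by
      intro a b h
      rcases three_z h with h | h | h
      · exact Or.inl h
      · exact Or.inr (Or.inl h)
      · exact Or.inr (Or.inr (by linarith))
    exact typeA H c0 c1 c4 (g h0) (g h1) (g h2)
  · right
    have g : ∀ {a b : ℚ}, (2 * a + b) * (a + b) * (a + 2 * b) = 0 →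
        b = -2 * a ∨ b = -a ∨ a = -2 * b := by
      intro a b h
      rcases three_z h with h | h | h
      · exact Or.inl (by linarith)
      · exact Or.inr (Or.inl (by linarith))
      · exact Or.inr (Or.inr (by linarith))
    exact typeB H c2 c3 c4 (g h0) (g h1) (g h2)

end

end Pool.Agent.X229.WrForm
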